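import Pool.Agent.FKT.TargetsA

/-!
# Project FKT, job NCM: numbers of clusters through a map
-/

set_option autoImplicit false

namespace Pool.Agent.FKT

namespace NCM_

/-- Connection is an equivalence relation: equality of clusters. -/
lemma clus_eq {V E : Type} (s t : E → V) (R : V → V → Prop) (O : Set E) (u v : V) :
    clus s t R O u = clus s t R O v ↔ Con s t R O u v := by
  constructor
  · intro h
    have h1 : v ∈ clus s t R O v := Relation.EqvGen.refl v
    rw [← h] at h1
    exact h1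
  · intro h
    ext w
    constructor
    · intro hw
      exact Relation.EqvGen.trans _ _ _ (Relation.EqvGen.symm _ _ h) hw
    · intro hw
      exact Relation.EqvGen.trans _ _ _ h hw

/-- Two maps with the same fibres on `U` have images of the same size. -/
lemma img {α β γ : Type} (U : Set α) (f : α → β) (g : α → γ)
    (h : ∀ u ∈ U, ∀ v ∈ U, (f u = f v ↔ g u = g v)) : (f '' U).ncard = (g '' U).ncard := by
  have hr : ∀ A : β, A ∈ f '' U → ∃ u, u ∈ U ∧ f u = A := fun A hA => hA
  choose r hr1 hr2 using hr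
  refine Set.ncard_congr (fun A hA => g (r A hA)) ?_ ?_ ?_
  · intro A hA
    exact ⟨r A hA, hr1 A hA, rfl⟩
  · intro A B hA hB hAB
    have h1 := (h _ (hr1 A hA) _ (hr1 B hB)).2 hAB
    rw [hr2, hr2] at h1
    exact h1
  · rintro _ ⟨u, hu, rfl⟩
    refine ⟨f u, ⟨u, hu, rfl⟩, ?_⟩
    exact (h _ (hr1 _ _) _ hu).1 (hr2 _ _)

end NCM_

theorem p_NCM : T_NCM := by
  intro V V' E E' s t s' t' R R' U U' O O' c h1 h2 h3
  unfold ncl
  have hB : clus s' t' R' O' '' (U' : Set V') = (fun v => clus s' t' R' O' (c v)) '' (U : Set V) := by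
    ext A
    constructor
    · rintro ⟨v', hv', rfl⟩
      obtain ⟨v, hv, hc⟩ := h2 v' hv'
      exact ⟨v, hv, (NCM_.clus_eq s' t' R' O' _ _).2 hc⟩
    · rintro ⟨v, hv, rfl⟩
      exact ⟨c v, h1 v hv, rfl⟩
  rw [hB]
  refine NCM_.img _ _ _ ?_
  intro u hu v hv
  rw [NCM_.clus_eq, NCM_.clus_eq]
  exact h3 u hu v hv

end Pool.Agent.FKT
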