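import Pool.Agent.FKT.Defs

/-!
# Project FKT, part A: targets (quantitative Burton-Keane estimate)

Every docstring contains the proof. The final theorem of part A: for every `d ≥ 1` there is `C`
with `μ (TwoArm at (x, i) at distance k) ≤ C (q^2 / p) sqrt (log (k+1) / k)` for the wired
random-cluster measure `μ` on the lattice, all `0 < p < 1`, `q ≥ 1`.
-/

set_option autoImplicit false

namespace Pool.Agent.FKT

open Filter MeasureTheory

/-! ## Bernoulli configurations -/

/-- BER. Elementary facts on the Bernoulli expectation. Proof: (1) `Finset.powerset_insert`,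
`Finset.sum_union` (disjoint), `Finset.sum_image`; the weights: for `ω ⊆ G`, `e ∉ G`,
`bw p (insert e G) ω = (1 - p) * bw p G ω` and `bw p (insert e G) (insert e ω) = p * bw p G ω`
(cards). (2) induction over `G` with (1). (4) write `G = G' ∪ H` with `H` disjoint from `G'`, induction over `H` with (1); (3) from (4) and (2):
`f ((α ∪ γ) ∩ G') = f α` for `α ⊆ G'`, `γ ⊆ G \ G'`. (5) termwise, the weights are nonnegative. -/
def T_BER : Prop := ∀ (E : Type) [DecidableEq E] (p : ℝ) (G : Finset E),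
  (∀ (e : E) (f : Finset E → ℝ), e ∉ G →
    EB p (insert e G) f = (1 - p) * EB p G f + p * EB p G fun ω => f (insert e ω)) ∧
  EB p G (fun _ => 1) = 1 ∧
  (∀ (G' : Finset E) (f : Finset E → ℝ), G' ⊆ G → EB p G (fun ω => f (ω ∩ G')) = EB p G' f) ∧
  (∀ (G' : Finset E) (f : Finset E → ℝ), G' ⊆ G →
    EB p G f = EB p G' fun α => EB p (G \ G') fun γ => f (α ∪ γ)) ∧
  (0 ≤ p → p ≤ 1 → ∀ f g : Finset E → ℝ, (∀ ω, ω ⊆ G → f ω ≤ g ω) → EB p G f ≤ EB p G g)

/-- REC. Exploration of one edge touching `X`. Proof: `e` itself belongs to `tch` (its end in `X`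
is connected to itself). In the closed case the other edges are the same. In the open case
`Con (insert e ω) x v` for some `x ∈ X` iff `Con ω x' v` for some `x' ∈ X ∪ {s e, t e}`
(one of `s e`, `t e` is in `X`): `←` since `s e`, `t e` are connected to each other in
`insert e ω`; `→` by induction over `Relation.EqvGen` (the set of the `v` connected in `ω` to
`X ∪ {s e, t e}` is closed under the steps of `insert e ω` in both directions). -/
def T_REC : Prop := ∀ (V E : Type) [DecidableEq E] (s t : E → V) (X : Set V) (G ω : Finset E)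
  (e : E), e ∈ G → (s e ∈ X ∨ t e ∈ X) → ω ⊆ G.erase e →
    tch s t X G ω = insert e (tch s t X (G.erase e) ω) ∧
    tch s t X G (insert e ω) = insert e (tch s t (X ∪ {s e, t e}) (G.erase e) ω)

/-- NOT. If no edge of `G` has an end in `X` then nothing is touched: a point connected in
`ω ⊆ G` to `x ∈ X` equals `x` (`{x}` is closed under steps, induction over
`Relation.EqvGen`). -/
def T_NOT : Prop := ∀ (V E : Type) (s t : E → V) (X : Set V) (G ω : Finset E),
  (∀ e ∈ G, s e ∉ X ∧ t e ∉ X) → ω ⊆ G → tch s t X G ω = ∅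

/-- EXP. The exploration estimates. Proof: induction on the number of edges of `G`, for all `X`,
`c`, `a`. If no edge of `G` has an end in `X`, then `tch = ∅`, `Sm = 0` (T_NOT) and the three
claims are trivial (`EB 1 = 1`; `0 / 0 = 0`; `Hh` monotone). Otherwise let `e ∈ G` have an end in
`X`, `G' = G.erase e`, `X' = X ∪ {s e, t e}`. By T_BER (1) for `G = insert e G'` and T_REC, with
`T = tch X G' ω`, `T' = tch X' G' ω` (they do not contain `e`),
`EB p G F = (1 - p) EB p G' (.. c - p + Sm T, a + 1 + |T| ..) + p EB p G' (.. c + 1 - p + Sm T',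
a + 1 + |T'| ..)`. By induction the first quantity is at most
`((1 - p) (c - p)^2 + p (c + 1 - p)^2) / (a + 1) + p (1 - p) (Hh (a + |G|) - Hh (a + 1))`, and
`(1 - p) (c - p)^2 + p (c + 1 - p)^2 = c^2 + p (1 - p)`, `Hh (a + 1) = Hh a + 1 / (a + 1)`,
`c^2 / (a + 1) ≤ c^2 / a`. The second quantity: apply the first claim (for `G'`) with `a = 1` and
`c = - p`, `c = 1 - p`: the sum is `p (1 - p) (p + (1 - p)) + p (1 - p) (Hh |G| - Hh 1)`,
`Hh 1 = 1`. Third claim: prove `EB p G (c + Sm ..) = c` for all `c` in the same way.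
Hypotheses: T_BER, T_REC, T_NOT. -/
def T_EXP : Prop := ∀ (V E : Type) [DecidableEq E] (s t : E → V) (p : ℝ), 0 ≤ p → p ≤ 1 →
  ∀ (G : Finset E) (X : Set V),
    (∀ (c : ℝ) (a : ℕ), 1 ≤ a →
      EB p G (fun ω => (c + Sm p (tch s t X G ω) ω) ^ 2 / ((a : ℝ) + (tch s t X G ω).card)) ≤
        c ^ 2 / a + p * (1 - p) * (Hh (a + G.card) - Hh a)) ∧
    EB p G (fun ω => (Sm p (tch s t X G ω) ω) ^ 2 / ((tch s t X G ω).card : ℝ)) ≤
      p * (1 - p) * Hh G.card ∧
    EB p G (fun ω => Sm p (tch s t X G ω) ω) = 0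

/-- DET. The deterministic inequality. Proof: let `𝒞` be the set of the clusters (for `ω`, no
wiring) of the points of `X`; choose for each a representative in `X`, i.e. a subset `Y ⊆ X`
such that each `x ∈ X` is connected to exactly one `y ∈ Y`. For `e ∈ G` let `n(e)` be the number
of `y ∈ Y` with `e ∈ tch {y}`, that is the number of `y ∈ Y` connected to `s e` or to `t e`. Then
`n(e) ≤ 2`; `n(e) ≥ 1` iff `e ∈ tch X`; and `n(e) = 2` iff `e ∈ ctc X`. Hence, with
`a(e) = (if e ∈ ω then 1 else 0) - p`,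
`Σ_{y ∈ Y} Sm (tch {y}) = Σ_e n(e) a(e) = Sm (tch X) + Σ_{e ∈ ctc X} a(e)` and `a(e) = - p` for
`e ∈ ctc X` (such an edge is not in `ω`, its ends would be connected). So
`p |ctc X| = Sm (tch X) - Σ_y Sm (tch {y})`. Cauchy-Schwarz (`Finset.sum_mul_sq_le_sq_mul_sq` or
`Finset.sum_div_..`; note `Sm ∅ = 0`):
`- Σ_y Sm_y ≤ Σ_y sqrt |tch {y}| * (|Sm_y| / sqrt |tch {y}|)
≤ sqrt (Σ_y |tch {y}|) sqrt (Σ_y Sm_y^2 / |tch {y}|)`, `Σ_y |tch {y}| = Σ_e n(e) ≤ 2 |G|`, and
`Y ⊆ X`, nonnegative terms. -/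
def T_DET : Prop := ∀ (V E : Type) [DecidableEq E] (s t : E → V) (p : ℝ) (X : Finset V)
  (G ω : Finset E), ω ⊆ G →
    p * ((ctc s t (X : Set V) G ω).card : ℝ) ≤ Sm p (tch s t (X : Set V) G ω) ω +
      Real.sqrt (2 * (G.card : ℝ) * ∑ x ∈ X,
        (Sm p (tch s t {x} G ω) ω) ^ 2 / ((tch s t {x} G ω).card : ℝ))

/-- CTB. The expected number of contacts, Bernoulli case. Proof: take `EB` in T_DET (T_BER (5));
the first term has mean `0` (T_EXP (3)). Jensen: `EB (sqrt Z) ≤ sqrt (EB Z)` for `Z ≥ 0`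
(Cauchy-Schwarz with the weights `bw`, of total mass one); `EB (Σ_x ..) ≤ |X| p (1 - p) Hh |G|`
(T_EXP (2)) and `p (1 - p) ≤ 1`. Divide by `p`. Hypotheses: T_BER, T_EXP, T_DET. -/
def T_CTB : Prop := ∀ (V E : Type) [DecidableEq E] (s t : E → V) (p : ℝ), 0 < p → p ≤ 1 →
  ∀ (X : Finset V) (G : Finset E),
    EB p G (fun ω => ((ctc s t (X : Set V) G ω).card : ℝ)) ≤
      1 / p * Real.sqrt (2 * (G.card : ℝ) * X.card * Hh G.card)

/-! ## Colourings of the clusters -/

open Classical in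
/-- COL. Colourings. Proof: `U` is a union of clusters. The compatible subsets `A` of `U` are
exactly the unions of sets of clusters of points of `U`: `A ↦ clus '' A` and
`S ↦ {v ∈ U | clus v ∈ S}` are inverse bijections between `{A ⊆ U | Cpt A}` and the subsets `S` of
`𝒞 = clus '' U` (a compatible set contains with `v` all of `clus v`, induction over
`Relation.EqvGen`), and `ncl (U \ A) = |𝒞 \ S|`. So the first sum is
`Σ_{S ⊆ 𝒞} (q - 1)^{|𝒞 \ S|} = (1 + (q - 1))^|𝒞|` (`Finset.sum_pow_mul_eq_add_pow`). For the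
second one only the `S` containing `clus u` and `clus v` are allowed; the sum is `q^(|𝒞| - j)`
with `j ∈ {1, 2}` the number of these clusters, `j ≤ 2`, and `q ≥ 1`. -/
def T_COL : Prop := ∀ (V E : Type) [DecidableEq V] (s t : E → V) (R : V → V → Prop)
  (U : Finset V) (O : Set E) (q : ℝ), 1 ≤ q → Cpt s t R O (U : Set V) →
    (∑ A ∈ U.powerset.filter (fun A : Finset V => Cpt s t R O (A : Set V)),
      (q - 1) ^ ncl s t R (U \ A) O = q ^ ncl s t R U O) ∧
    ∀ u ∈ U, ∀ v ∈ U, q ^ ncl s t R U O ≤ q ^ 2 *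
      ∑ A ∈ U.powerset.filter (fun A : Finset V => Cpt s t R O (A : Set V) ∧ u ∈ A ∧ v ∈ A),
        (q - 1) ^ ncl s t R (U \ A) O

/-- CLI. Edges inside `A` do not change the clusters outside `A`, if `A` is compatible with the
other edges. Proof: for `v ∉ A` the clusters of `v` for `O` and for `O ∪ O'` are equal: the
complement of `A` is closed under the steps of `O ∪ O'` and there only edges of `O` can be
used (induction over `Relation.EqvGen`). -/
def T_CLI : Prop := ∀ (V E : Type) [DecidableEq V] (s t : E → V) (R : V → V → Prop)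
  (U A : Finset V) (O O' : Set E), Cpt s t R O (A : Set V) → (∀ e ∈ O', s e ∈ A ∧ t e ∈ A) →
    ncl s t R (U \ A) (O ∪ O') = ncl s t R (U \ A) O

open Classical in
/-- AVE. Given the coloured set `A`, the edges inside `A` are Bernoulli. Proof: put
`H = ins s t A G`. Every `ω ⊆ G` is `α ∪ γ` with `α = ω ∩ H`, `γ = ω \ H ⊆ G \ H`, uniquely;
`Cpt ω A ↔ Cpt γ A` (edges of `H` satisfy the condition); by T_CLI
`ncl (U \ A) (α ∪ γ) = ncl (U \ A) γ`. So by T_BER (4) the left side is
`EB (G \ H) (γ ↦ 1_{Cpt γ A} (q - 1)^{ncl (U \ A) γ}) * EB H h ≤ EB (G \ H) (..) * B`, and the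
same computation with `h = 1` gives the right side. Hypotheses: T_BER, T_CLI. -/
def T_AVE : Prop := ∀ (V E : Type) [DecidableEq V] [DecidableEq E] (s t : E → V)
  (R : V → V → Prop) (U A : Finset V) (G : Finset E) (p q B : ℝ) (h : Finset E → ℝ),
  0 ≤ p → p ≤ 1 → 1 ≤ q → EB p (ins s t (A : Set V) G) h ≤ B →
    ∑ ω ∈ G.powerset.filter (fun ω : Finset E => Cpt s t R (ω : Set E) (A : Set V)),
      bw p G ω * (q - 1) ^ ncl s t R (U \ A) (ω : Set E) * h (ω ∩ ins s t (A : Set V) G) ≤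
    B * ∑ ω ∈ G.powerset.filter (fun ω : Finset E => Cpt s t R (ω : Set E) (A : Set V)),
      bw p G ω * (q - 1) ^ ncl s t R (U \ A) (ω : Set E)

/-- CTA. Contacts inside a compatible set. Proof: if the ends of every edge of `ω` are both in `A`
or both outside `A`, then for a vertex `a ∈ A`, the points connected to `a` by `ω ∩ G'` are those
connected to `a` by `ω ∩ ins A G'`, and they lie in `A` (induction over `Relation.EqvGen`). -/
def T_CTA : Prop := ∀ (V E : Type) [DecidableEq E] (s t : E → V) (X A : Set V)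
  (G' ω : Finset E), (∀ e ∈ ω, s e ∈ A ↔ t e ∈ A) →
    ins s t A (ctc s t X G' (ω ∩ G')) = ctc s t (X ∩ A) (ins s t A G') (ω ∩ ins s t A G')

/-- CTF. The expected number of contacts for the random-cluster measure. Proof: let
`Z = Σ wt > 0`. By T_COL (2) with `u = s e`, `v = t e`,
`Z * Ex .. = Σ_ω bw ω Σ_{e ∈ ctc} q^{ncl U ω} ≤ q^2 Σ_ω bw ω Σ_{e ∈ ctc} Σ_{A compatible,
s e, t e ∈ A} (q - 1)^{ncl (U \ A) ω}
= q^2 Σ_{A ⊆ U} Σ_{ω compatible} bw ω (q - 1)^{ncl (U \ A) ω} |ins A (ctc X G' (ω ∩ G'))|`.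
By T_CTA the last factor is `h_A (ω ∩ ins A G)` with
`h_A α = |ctc (X ∩ A) (ins A G') (α ∩ ins A G')|`; by T_BER (3) and T_CTB
`EB p (ins A G) h_A = EB p (ins A G') (|ctc (X ∩ A) (ins A G') ·|) ≤ B`,
`B = 1 / p * sqrt (2 |G'| |X| Hh |G'|)` (monotone in the cards). T_AVE, then T_COL (1) backwards:
`Σ_A Σ_ω .. = Σ_ω bw ω q^{ncl U ω} = Z`. Every `ω ⊆ G` has `Cpt ω U` since the edges of `G` have
both ends in `U`. Hypotheses: T_BER, T_CTB, T_COL, T_AVE, T_CTA. -/
def T_CTF : Prop := ∀ (V E : Type) [DecidableEq V] [DecidableEq E] (s t : E → V)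
  (R : V → V → Prop) (U : Finset V) (G : Finset E) (p q : ℝ), 0 < p → p < 1 → 1 ≤ q →
  (∀ a b, R a b → a ∈ U ∧ b ∈ U) → (∀ e ∈ G, s e ∈ U ∧ t e ∈ U) →
  ∀ (X : Finset V) (G' : Finset E), G' ⊆ G →
    Ex s t R U G p q (fun ω => ((ctc s t (X : Set V) G' (ω ∩ G')).card : ℝ)) ≤
      q ^ 2 / p * Real.sqrt (2 * (G'.card : ℝ) * X.card * Hh G'.card)

/-! ## Positive association and monotonicity in the domain -/

/-- NCM. Comparison of numbers of clusters through a map `c`. Proof: the map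
`clus v ↦ clus' (c v)`, `v ∈ U`, is well defined, injective and onto. (Use `Set.ncard_congr` or
`Set.InjOn.ncard_image` after writing both images as images of `U`.) -/
def T_NCM : Prop := ∀ (V V' E E' : Type) (s t : E → V) (s' t' : E' → V') (R : V → V → Prop)
  (R' : V' → V' → Prop) (U : Finset V) (U' : Finset V') (O : Set E) (O' : Set E') (c : V → V'),
  (∀ v ∈ U, c v ∈ U') → (∀ v' ∈ U', ∃ v ∈ U, Con s' t' R' O' (c v) v') →
  (∀ u ∈ U, ∀ v ∈ U, (Con s t R O u v ↔ Con s' t' R' O' (c u) (c v))) →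
    ncl s t R U O = ncl s' t' R' U' O'

/-- ADD. The effect of one more edge, and supermodularity. Proof: (1) if `s e`, `t e` are
connected in `O` then connection is the same for `O` and `insert e O`. (2) if not, the clusters of
`insert e O` are those of `O`, with the two different clusters of `s e`, `t e` merged. (3) by
induction on the number of elements of `ω \ ω'`: if it is empty trivial; otherwise
`ω = insert e ω0` with `e ∉ ω'`, `e ∉ ω0`; `ω ∩ ω' = ω0 ∩ ω'`, `ω ∪ ω' = insert e (ω0 ∪ ω')`, and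
if the ends of `e` are connected in `ω0` they are connected in `ω0 ∪ ω'`, so by (1), (2) the
number of clusters decreases at least as much from `ω0` to `ω` as from `ω0 ∪ ω'` to
`ω ∪ ω'`. -/
def T_ADD : Prop := ∀ (V E : Type) [DecidableEq E] (s t : E → V) (R : V → V → Prop)
  (U : Finset V),
  (∀ (O : Set E) (e : E), s e ∈ U → t e ∈ U →
    (Con s t R O (s e) (t e) → ncl s t R U (insert e O) = ncl s t R U O) ∧
    (¬ Con s t R O (s e) (t e) → ncl s t R U (insert e O) + 1 = ncl s t R U O)) ∧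
  ∀ ω ω' : Finset E, (∀ e ∈ ω, s e ∈ U ∧ t e ∈ U) →
    ncl s t R U (ω : Set E) + ncl s t R U (ω' : Set E) ≤
      ncl s t R U ((ω ∪ ω' : Finset E) : Set E) + ncl s t R U ((ω ∩ ω' : Finset E) : Set E)

/-- FKG. Positive association of the random-cluster measure. Proof: adding constants one may
assume `f, g ≥ 0` on `G.powerset` (`Ex` is linear and `Ex 1 = 1` as the total weight is positive).
Use `four_functions_theorem` in the lattice `Finset E` with both finsets equal to `G.powerset`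
(closed under `∩` and `∪`; `Finset.infs`, `Finset.sups` of `G.powerset` with itself are
`G.powerset`), as in the proof of Mathlib's `fkg`; the weight `wt` is log-supermodular:
`bw a * bw b = bw (a ∩ b) * bw (a ∪ b)` and T_ADD (3) with `q ≥ 1`. Second claim: positivity of
the total weight. Hypothesis: T_ADD. -/
def T_FKG : Prop := ∀ (V E : Type) [DecidableEq E] (s t : E → V) (R : V → V → Prop)
  (U : Finset V) (G : Finset E) (p q : ℝ), 0 < p → p < 1 → 1 ≤ q →
  (∀ e ∈ G, s e ∈ U ∧ t e ∈ U) →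
  (∀ f g : Finset E → ℝ, (∀ a b : Finset E, a ⊆ b → f a ≤ f b) →
    (∀ a b : Finset E, a ⊆ b → g a ≤ g b) →
      Ex s t R U G p q f * Ex s t R U G p q g ≤ Ex s t R U G p q fun ω => f ω * g ω) ∧
  0 < ∑ ω ∈ G.powerset, wt s t R U G p q ω

/-- COP. Collapsing the outside of a box. Proof: T_NCM with `c v = v` for `v ∈ bx x n` and
`c v = b0` otherwise, `b0` a fixed point of `bd x n` (nonempty as `0 < d`). Put
`G1 = eb y m \ eb x n`, `O = α ∪ G1`. (→) every step for `Wir y m`, `O` is sent to a connection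
for `Wir x n`, `α`: an edge of `G1` has an end outside `bx x n`, and if the other end is inside
`bx x n` then it belongs to `bd x n`; the points of `bd y m ∩ bx x n` are in `bd x n`. (←) every
`v ∈ bx y m` which is outside `bx x n` or in `bd x n` is connected by `G1` to `bd y m`: if
`v i > x i + n` (or `v i = x i + n`) go from `v` in the direction `+ e_i`, staying outside
`bx x n` after the first step, until the boundary of `bx y m` is reached (induction on
`y i + m - v i`); similarly for `-`. So all these points are connected to each other, by the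
wiring `Wir y m`. Hypothesis: T_NCM. -/
def T_COP : Prop := ∀ (d : ℕ), 0 < d → ∀ (x y : Vx d) (n m : ℕ), bx x n ⊆ bx y m →
  ∀ α : Finset (Ed d), α ⊆ eb x n →
    ncl Prod.fst tgt (Wir y m) (bx y m) ((α ∪ (eb y m \ eb x n) : Finset (Ed d)) : Set (Ed d)) =
      ncl Prod.fst tgt (Wir x n) (bx x n) (α : Set (Ed d))

/-- DOM. Wired measures decrease when the box grows. Proof: T_FKG on `G = eb y m` for
`ω ↦ f (ω ∩ eb x n)` and `g ω = 1` if `eb y m \ eb x n ⊆ ω`, else `0`. The configurations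
containing `G1 = eb y m \ eb x n` are `α ∪ G1`, `α ⊆ eb x n`, with
`bw p G (α ∪ G1) = p^|G1| * bw p (eb x n) α` and T_COP, so
`phi y m (f g) * Z_y = p^|G1| Z_x phi x n f` and `phi y m g * Z_y = p^|G1| Z_x > 0`. Hypotheses:
T_FKG, T_COP. -/
def T_DOM : Prop := ∀ (d : ℕ), 0 < d → ∀ (p q : ℝ), 0 < p → p < 1 → 1 ≤ q →
  ∀ (x y : Vx d) (n m : ℕ), bx x n ⊆ bx y m →
  ∀ f : Finset (Ed d) → ℝ, (∀ a b : Finset (Ed d), a ⊆ b → f a ≤ f b) →
    phi y m p q (fun ω => f (ω ∩ eb x n)) ≤ phi x n p q f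

/-- TRA. Translation of boxes. Proof: the bijection `ω ↦ ω.map (trE y)` of the configurations of
`eb x n` onto those of `eb (x + y) n`; the numbers of clusters by T_NCM with `c v = v + y` (or its
inverse); cards are preserved. Hypothesis: T_NCM. -/
def T_TRA : Prop := ∀ (d : ℕ) (p q : ℝ) (x y : Vx d) (n : ℕ) (f : Finset (Ed d) → ℝ),
  phi (x + y) n p q f = phi x n p q fun ω => f (ω.map (trE y).toEmbedding)

/-- LIM. Existence of the limits of local functions, independent of the centre. Proof: first let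
`f ω = 1` if `S ⊆ ω`, else `0`, `S ⊆ F`; put `a x n = phi x n (1_{S ⊆ ω})`. By T_DOM (if
`S ⊆ eb x n`, so that `S ⊆ ω ↔ S ⊆ ω ∩ eb x n`) `a y m ≤ a x n` when `bx x n ⊆ bx y m`. So
`a 0 n` is eventually nonincreasing and bounded below by `0`: it converges
(`tendsto_atTop_ciInf` after a shift). With `N = Σ_i |x i|`,
`bx x n ⊆ bx 0 (n + N)` and `bx 0 n ⊆ bx x (n + N)`, so `a 0 (n + N) ≤ a x n` and, for `n ≥ N`,
`a x n ≤ a 0 (n - N)`: squeeze. General `f`: `f (ω ∩ F)` is a linear combination of the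
functions `1_{S ⊆ ω}`, `S ⊆ F` (e.g. by induction over `F`:
`g (ω ∩ insert e F) = g (ω ∩ F) + 1_{e ∈ ω} (g (insert e (ω ∩ F)) - g (ω ∩ F))`), and `Ex` is
linear. Hypotheses: T_FKG (positivity of the total weight), T_DOM. -/
def T_LIM : Prop := ∀ (d : ℕ), 0 < d → ∀ (p q : ℝ), 0 < p → p < 1 → 1 ≤ q →
  ∀ (F : Finset (Ed d)) (f : Finset (Ed d) → ℝ), ∃ l : ℝ, ∀ x : Vx d,
    Tendsto (fun n : ℕ => phi x n p q fun ω => f (ω ∩ F)) atTop (nhds l)

/-! ## The measure on the lattice -/

/-- CYL. Two probability measures with the same cylinder probabilities are equal. Proof: the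
cylinders `Cyl F T`, with the empty set, form a pi-system generating the product sigma-algebra
(every `{ω | ω e = true} = Cyl {e} {e}`; the intersection of `Cyl F T` and `Cyl F' T'` is
`Cyl (F ∪ F') (..)` or empty); `MeasureTheory.ext_of_generate_finite`. Also every cylinder is
measurable. -/
def T_CYL : Prop := ∀ (d : ℕ), (∀ F T : Finset (Ed d), MeasurableSet (Cyl F T)) ∧
  ∀ μ ν : Measure (Ed d → Bool), IsProbabilityMeasure μ → IsProbabilityMeasure ν →
    (∀ F T : Finset (Ed d), T ⊆ F → μ.real (Cyl F T) = ν.real (Cyl F T)) → μ = ν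

/-- LOC. Local functions. Proof: `f (ω ∩ F) = Σ_{T ⊆ F} f T * (if ω ∩ F = T then 1 else 0)`, so
the left side tends to `Σ_T f T * μ.real (Cyl F T)`; and the integrand on the right is
`Σ_T f T * indicator (Cyl F T)`. Also every event depending only on the edges of `F` is
measurable (a finite union of cylinders). Hypothesis: T_CYL (measurability). -/
def T_LOC : Prop := ∀ (d : ℕ) (p q : ℝ) (F : Finset (Ed d)),
  (∀ (μ : Measure (Ed d → Bool)), IsWired d p q μ → ∀ f : Finset (Ed d) → ℝ,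
    Tendsto (fun n : ℕ => phi (0 : Vx d) n p q fun ω => f (ω ∩ F)) atTop
      (nhds (∫ ω, f (rs F (cfg ω)) ∂μ)) ∧
    Integrable (fun ω => f (rs F (cfg ω))) μ) ∧
  ∀ P : Finset (Ed d) → Prop, MeasurableSet {ω : Ed d → Bool | P (rs F (cfg ω))}

/-- INV. The wired measure is translation invariant. Proof: T_CYL for `μ` and `μ.map (sh y)`:
`sh y ⁻¹' Cyl F T = Cyl (F.map (trE y)) (T.map (trE y))`. Its `μ` measure is the limit of
`phi 0 n (1_{ω ∩ F + y = T + y})`, which by T_TRA (with `0 = -y + y`) is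
`phi (-y) n (1_{ω ∩ F = T})`; by T_LIM it has the same limit as `phi 0 n (1_{ω ∩ F = T})`, which
is `μ.real (Cyl F T)`. Hypotheses: T_CYL, T_TRA, T_LIM. -/
def T_INV : Prop := ∀ (d : ℕ), 0 < d → ∀ (p q : ℝ), 0 < p → p < 1 → 1 ≤ q →
  ∀ μ : Measure (Ed d → Bool), IsWired d p q μ → ∀ y : Vx d, μ.map (sh y) = μ

/-- EXI. Existence of the wired measure. Proof: let `ν n` be the law on `Ed d → Bool` of the
random configuration of the box `Λ_n` (closed outside): the finite sum of the Dirac measures at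
`e ↦ decide (e ∈ ω)` with weights `wt ω / Σ wt`, a probability measure (total weight positive,
T_FKG). As `Ed d → Bool` is compact (and metrisable, Borel: `Ed d` is countable) the space
`ProbabilityMeasure (Ed d → Bool)` is compact (Mathlib, file
`MeasureTheory/Measure/Prokhorov.lean`), so `ν` has a cluster point `μ`. The cylinders are clopen,
so `μ ↦ μ (Cyl F T)` is continuous (integral of a bounded continuous function, or
`ProbabilityMeasure.tendsto_measure_of_null_frontier_of_tendsto`). Since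
`(ν n) (Cyl F T) = phi 0 n (1_{ω ∩ F = T})` converges by T_LIM, the limit is `μ (Cyl F T)`.
Hypotheses: T_FKG, T_LIM, T_CYL. -/
def T_EXI : Prop := ∀ (d : ℕ), 0 < d → ∀ (p q : ℝ), 0 < p → p < 1 → 1 ≤ q →
  ∃ μ : Measure (Ed d → Bool), IsWired d p q μ

/-! ## Geometry and the end -/

/-- ARM. Two arms give a contact. Proof: put `F = eb 0 m`. `F ⊆ eb y k` since `y ∈ bx 0 m` and
`2 m ≤ k`, so the ends of the edge are not connected in `O ∩ F`. Let `z ∈ bd y k` be connected to
`v` (`v = y` or `v = y + e_i`) in `O ∩ eb y k`. Since `|z - y| = k ≥ 2 m` in some coordinate,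
`z` is not in the interior of `bx 0 m`: `z ∉ bx 0 m` or `z ∈ bd 0 m`. Claim: if `v ∈ bx 0 m` is
connected to some `z` with (`z ∉ bx 0 m` or `z ∈ bd 0 m`), then `v` is connected in `O ∩ F` to a
point of `bd 0 m`. Otherwise let `D` be the set of the points connected to `v` in `O ∩ F`; it is
contained in `bx 0 m \ bd 0 m` and it is closed under all steps of `O` (an edge with one end in
`bx 0 m \ bd 0 m` has both ends in `bx 0 m`, so is in `F`), so `z ∈ D`, a contradiction. -/
def T_ARM : Prop := ∀ (d : ℕ) (O : Set (Ed d)) (m k : ℕ) (y : Vx d) (i : Fin d), 2 * m ≤ k →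
  (y, i) ∈ eb (0 : Vx d) m → TwoArm O y i k →
    (y, i) ∈ ctc Prod.fst tgt (bd (0 : Vx d) m : Set (Vx d)) (eb 0 m) (rs (eb 0 m) O)

/-- CNT. Counting. Proof: `eb 0 m ⊆ bx 0 m ×ˢ univ` and `|bx 0 m| = (2 m + 1)^d` (`Pi.card_Icc`,
`Int.card_Icc`); `bd 0 m` is contained in the union over `i` and the sign of the sets
`{v ∈ bx 0 m | v i = ± m}`, each in bijection with a product of `d - 1` intervals
(`Fintype.piFinset` with a singleton in the coordinate `i`, `Fintype.card_piFinset`); the edges of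
direction `i` are the pairs `(v, i)`, `v ∈ bx 0 m`, `v i ≤ m - 1`, again a product. -/
def T_CNT : Prop := ∀ (d : ℕ), 0 < d → ∀ m : ℕ,
  (eb (0 : Vx d) m).card ≤ d * (2 * m + 1) ^ d ∧
  (bd (0 : Vx d) m).card ≤ 2 * d * (2 * m + 1) ^ (d - 1) ∧
  ∀ i : Fin d, 2 * m * (2 * m + 1) ^ (d - 1) ≤
    ((eb (0 : Vx d) m).filter fun e => e.2 = i).card

/-- TAS. The two-arm event: it depends only on the edges of `eb x k`, and its behaviour under
translations (the map `v ↦ v + y` is a bijection which carries `bd x k`, `eb x k` and the steps of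
`cfg (sh y ω)` to `bd (x + y) k`, `eb (x + y) k` and the steps of `cfg ω`). -/
def T_TAS : Prop := ∀ (d : ℕ) (x y : Vx d) (i : Fin d) (k : ℕ),
  (∀ O : Set (Ed d), TwoArm O x i k ↔ TwoArm ((rs (eb x k) O : Finset (Ed d)) : Set (Ed d)) x i k) ∧
  ∀ ω : Ed d → Bool, TwoArm (cfg ω) (x + y) i k ↔ TwoArm (cfg (sh y ω)) x i k

/-- NUM. Numerical bound. Proof: with `n = 2 m + 1` the left side is
`2 d n^{d-1} sqrt (n Hh (d n^d)) / (2 m n^{d-1}) = d sqrt (n Hh (d n^d)) / m`;
`Hh N ≤ 1 + log N` (`N ≥ 1`), so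
`Hh (d n^d) ≤ 1 + log d + d log n ≤ C1 log (k + 1)` since `n ≤ k + 1` and `log (k + 1) ≥ log 3`;
`n / m^2 ≤ C2 / k` as `k ≤ 2 m + 1 = n ≤ 3 m`. -/
def T_NUM : Prop := ∀ d : ℕ, 0 < d → ∃ C : ℝ, 2 ≤ C ∧ ∀ m k : ℕ, 1 ≤ m → 2 * m ≤ k →
  k ≤ 2 * m + 1 →
    Real.sqrt (2 * ((d : ℝ) * (2 * m + 1) ^ d) * (2 * d * (2 * m + 1) ^ (d - 1)) *
      Hh (d * (2 * m + 1) ^ d)) ≤
    C * Real.sqrt (Real.log (k + 1) / k) * (2 * m * (2 * m + 1) ^ (d - 1))

/-- QBK. The quantitative Burton-Keane estimate. Proof: `k = 1` is trivial (`μ.real ≤ 1`,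
`C ≥ 2`, `q^2 / p ≥ 1`, `sqrt (log 2) ≥ 1 / 2`). Let `m = k / 2 ≥ 1`, `F = eb 0 m`. By T_ARM,
for every configuration the number of the `(y, i) ∈ F` (`i` fixed) with `TwoArm .. y i k` is at
most `|ctc (bd 0 m) F (rs F (cfg ω))|`. Integrate; by T_INV and T_TAS every `(y, i)` has the same
probability as `(x, i)`; by T_LOC and T_CTF (on the box `Λ_n ⊇ Λ_m`) the integral of the right
side is at most `q^2 / p * sqrt (2 |F| |bd 0 m| Hh |F|)`. T_CNT, T_NUM. Hypotheses: T_CTF, T_LOC,
T_INV, T_ARM, T_CNT, T_TAS, T_NUM. -/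
def T_QBK : Prop := ∀ d : ℕ, 0 < d → ∃ C : ℝ, ∀ p q : ℝ, 0 < p → p < 1 → 1 ≤ q →
  ∀ μ : Measure (Ed d → Bool), IsWired d p q μ → ∀ (x : Vx d) (i : Fin d) (k : ℕ), 1 ≤ k →
    μ.real {ω | TwoArm (cfg ω) x i k} ≤ C * (q ^ 2 / p) * Real.sqrt (Real.log (k + 1) / k)

end Pool.Agent.FKT
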