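import Pool.Agent.FKT.TargetsA

/-!
# Project FKT: translation of boxes
-/

set_option autoImplicit false

namespace Pool.Agent.FKT

open Filter MeasureTheory

namespace TRA_

variable {d : ℕ}

theorem mem_bx {x v : Vx d} {n : ℕ} : v ∈ bx x n ↔ ∀ i, x i - n ≤ v i ∧ v i ≤ x i + n := by
  unfold bx
  rw [Finset.mem_Icc, Pi.le_def, Pi.le_def]
  constructor
  · rintro ⟨h1, h2⟩ i
    exact ⟨h1 i, h2 i⟩
  · intro h
    exact ⟨fun i => (h i).1, fun i => (h i).2⟩

theorem bx_tr {x y v : Vx d} {n : ℕ} : v ∈ bx (x + y) n ↔ v - y ∈ bx x n := by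
  rw [mem_bx, mem_bx]
  refine forall_congr' fun i => ?_
  simp only [Pi.add_apply, Pi.sub_apply]
  constructor
  · rintro ⟨h1, h2⟩
    constructor <;> omega
  · rintro ⟨h1, h2⟩
    constructor <;> omega

theorem bd_tr {x y v : Vx d} {n : ℕ} : v ∈ bd (x + y) n ↔ v - y ∈ bd x n := by
  unfold bd
  rw [Finset.mem_filter, Finset.mem_filter, bx_tr]
  refine and_congr_right fun _ => exists_congr fun i => ?_
  simp only [Pi.add_apply, Pi.sub_apply]
  constructor
  · rintro (h | h)
    · left; omega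
    · right; omega
  · rintro (h | h)
    · left; omega
    · right; omega

theorem tgt_tr (y : Vx d) (e : Ed d) : tgt (trE y e) = tgt e + y := by
  show (e.1 + y) + Pi.single e.2 1 = (e.1 + Pi.single e.2 1) + y
  abel

theorem tr_symm (y : Vx d) (e : Ed d) : (trE y).symm e = (e.1 - y, e.2) := by
  apply (trE y).injective
  rw [Equiv.apply_symm_apply]
  show e = (e.1 - y + y, e.2)
  rw [sub_add_cancel]

theorem eb_tr (x y : Vx d) (n : ℕ) : eb (x + y) n = (eb x n).map (trE y).toEmbedding := by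
  ext e
  rw [Finset.mem_map_equiv, tr_symm]
  unfold eb
  simp only [Finset.mem_filter, Finset.mem_product, Finset.mem_univ, and_true]
  rw [bx_tr, bx_tr]
  have h : tgt e - y = tgt (e.1 - y, e.2) := by
    show (e.1 + Pi.single e.2 1) - y = (e.1 - y) + Pi.single e.2 1
    abel
  rw [h]

theorem con_tr (x y : Vx d) (n : ℕ) (O : Set (Ed d)) (a b : Vx d) :
    Con Prod.fst tgt (Wir x n) O a b →
      Con Prod.fst tgt (Wir (x + y) n) (trE y '' O) (a + y) (b + y) := by
  intro h
  induction h with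
  | rel a b h =>
    refine Relation.EqvGen.rel _ _ ?_
    rcases h with h | ⟨e, he, h1, h2⟩
    · left
      refine ⟨bd_tr.mpr ?_, bd_tr.mpr ?_⟩
      · rw [add_sub_cancel_right]; exact h.1
      · rw [add_sub_cancel_right]; exact h.2
    · right
      refine ⟨trE y e, ⟨e, he, rfl⟩, ?_, ?_⟩
      · show e.1 + y = a + y
        rw [← h1]
      · rw [tgt_tr, h2]
  | refl a => exact Relation.EqvGen.refl _
  | symm a b _ ih => exact Relation.EqvGen.symm _ _ ih
  | trans a b c _ _ ih1 ih2 => exact Relation.EqvGen.trans _ _ _ ih1 ih2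

theorem con_iff (x y : Vx d) (n : ℕ) (O : Set (Ed d)) (a b : Vx d) :
    Con Prod.fst tgt (Wir x n) O a b ↔
      Con Prod.fst tgt (Wir (x + y) n) (trE y '' O) (a + y) (b + y) := by
  refine ⟨con_tr x y n O a b, fun h => ?_⟩
  have h1 := con_tr (x + y) (-y) n _ _ _ h
  have h2 : trE (-y) '' (trE y '' O) = O := by
    rw [Set.image_image]
    have h3 : (fun e : Ed d => trE (-y) (trE y e)) = id := by
      funext e
      show (e.1 + y + -y, e.2) = e
      rw [add_neg_cancel_right]
    rw [h3, Set.image_id]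
  rw [h2, add_neg_cancel_right, add_neg_cancel_right, add_neg_cancel_right] at h1
  exact h1

theorem ncl_tr (hn : T_NCM) (x y : Vx d) (n : ℕ) (ω : Finset (Ed d)) :
    ncl Prod.fst tgt (Wir (x + y) n) (bx (x + y) n)
      ((ω.map (trE y).toEmbedding : Finset (Ed d)) : Set (Ed d)) =
      ncl Prod.fst tgt (Wir x n) (bx x n) (ω : Set (Ed d)) := by
  have hc : ((ω.map (trE y).toEmbedding : Finset (Ed d)) : Set (Ed d)) =
      trE y '' (ω : Set (Ed d)) := by
    rw [Finset.coe_map]
    rfl
  rw [hc]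
  refine (hn (Vx d) (Vx d) (Ed d) (Ed d) Prod.fst tgt Prod.fst tgt (Wir x n) (Wir (x + y) n)
    (bx x n) (bx (x + y) n) _ _ (fun v => v + y) ?_ ?_ ?_).symm
  · intro v hv
    rw [bx_tr, add_sub_cancel_right]
    exact hv
  · intro v' hv'
    refine ⟨v' - y, bx_tr.mp hv', ?_⟩
    rw [sub_add_cancel]
    exact Relation.EqvGen.refl _
  · intro u _ v _
    exact con_iff x y n _ u v

theorem sum_tr (G : Finset (Ed d)) (y : Vx d) (g : Finset (Ed d) → ℝ) :
    ∑ ω ∈ (G.map (trE y).toEmbedding).powerset, g ω =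
      ∑ ω ∈ G.powerset, g (ω.map (trE y).toEmbedding) := by
  symm
  refine Finset.sum_bij (fun ω _ => ω.map (trE y).toEmbedding) ?_ ?_ ?_ ?_
  · intro ω hω
    rw [Finset.mem_powerset] at hω ⊢
    exact Finset.map_subset_map.mpr hω
  · intro ω _ ω' _ h
    exact Finset.map_injective _ h
  · intro ω' hω'
    rw [Finset.mem_powerset] at hω'
    refine ⟨ω'.map (trE y).symm.toEmbedding, ?_, ?_⟩
    · rw [Finset.mem_powerset]
      intro e he
      rw [Finset.mem_map_equiv, Equiv.symm_symm] at he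
      have h1 := hω' he
      rw [Finset.mem_map_equiv, Equiv.symm_apply_apply] at h1
      exact h1
    · ext e
      rw [Finset.mem_map_equiv, Finset.mem_map_equiv, Equiv.symm_symm, Equiv.apply_symm_apply]
  · intro ω _
    rfl

end TRA_

theorem p_TRA (hn : T_NCM) : T_TRA := by
  intro d p q x y n f
  have hw : ∀ ω : Finset (Ed d),
      wt Prod.fst tgt (Wir (x + y) n) (bx (x + y) n) ((eb x n).map (trE y).toEmbedding) p q
        (ω.map (trE y).toEmbedding) = wt Prod.fst tgt (Wir x n) (bx x n) (eb x n) p q ω := by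
    intro ω
    unfold wt bw
    rw [TRA_.ncl_tr hn, Finset.card_map, Finset.card_map]
  unfold phi Ex
  rw [TRA_.eb_tr, TRA_.sum_tr, TRA_.sum_tr]
  simp only [hw]

end Pool.Agent.FKT
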