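import Pool.Agent.FKT.TargetsA

/-!
# FKT: p_ADD, one more edge and supermodularity of the number of clusters
-/

set_option autoImplicit false

namespace Pool.Agent.FKT

namespace ADD_

section

variable {V E : Type} {s t : E → V} {R : V → V → Prop}

lemma rfl' (O : Set E) (a : V) : Con s t R O a a := Relation.EqvGen.refl a

lemma smm {O : Set E} {a b : V} (h : Con s t R O a b) : Con s t R O b a :=
  Relation.EqvGen.symm _ _ h

lemma trn {O : Set E} {a b c : V} (h : Con s t R O a b) (h' : Con s t R O b c) :
    Con s t R O a c := Relation.EqvGen.trans _ _ _ h h'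

lemma mono {O O' : Set E} (h : O ⊆ O') {a b : V} (hc : Con s t R O a b) :
    Con s t R O' a b := by
  induction hc with
  | rel a b hab =>
    apply Relation.EqvGen.rel
    rcases hab with hab | ⟨e, he, h1, h2⟩
    · exact Or.inl hab
    · exact Or.inr ⟨e, h he, h1, h2⟩
  | refl a => exact Relation.EqvGen.refl a
  | symm a b _ ih => exact Relation.EqvGen.symm _ _ ih
  | trans a b c _ _ ih1 ih2 => exact Relation.EqvGen.trans _ _ _ ih1 ih2

lemma edge (O : Set E) (e : E) : Con s t R (insert e O) (s e) (t e) :=
  Relation.EqvGen.rel _ _ (Or.inr ⟨e, Set.mem_insert _ _, rfl, rfl⟩)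

lemma char (O : Set E) (e : E) (a b : V) : Con s t R (insert e O) a b ↔
    (Con s t R O a b ∨ (Con s t R O a (s e) ∧ Con s t R O (t e) b) ∨
      (Con s t R O a (t e) ∧ Con s t R O (s e) b)) := by
  constructor
  · intro h
    induction h with
    | rel a b hab =>
      rcases hab with hab | ⟨e', he', h1, h2⟩
      · exact Or.inl (Relation.EqvGen.rel _ _ (Or.inl hab))
      · rcases Set.mem_insert_iff.1 he' with rfl | he'
        · subst h1
          subst h2
          exact Or.inr (Or.inl ⟨rfl' O _, rfl' O _⟩)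
        · exact Or.inl (Relation.EqvGen.rel _ _ (Or.inr ⟨e', he', h1, h2⟩))
    | refl a => exact Or.inl (rfl' O a)
    | symm a b _ ih =>
      rcases ih with h1 | ⟨h1, h2⟩ | ⟨h1, h2⟩
      · exact Or.inl (smm h1)
      · exact Or.inr (Or.inr ⟨smm h2, smm h1⟩)
      · exact Or.inr (Or.inl ⟨smm h2, smm h1⟩)
    | trans a b c _ _ ih1 ih2 =>
      rcases ih1 with h1 | ⟨h1, h2⟩ | ⟨h1, h2⟩
      · rcases ih2 with h3 | ⟨h3, h4⟩ | ⟨h3, h4⟩
        · exact Or.inl (trn h1 h3)
        · exact Or.inr (Or.inl ⟨trn h1 h3, h4⟩)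
        · exact Or.inr (Or.inr ⟨trn h1 h3, h4⟩)
      · rcases ih2 with h3 | ⟨h3, h4⟩ | ⟨h3, h4⟩
        · exact Or.inr (Or.inl ⟨h1, trn h2 h3⟩)
        · exact Or.inr (Or.inl ⟨h1, h4⟩)
        · exact Or.inl (trn h1 h4)
      · rcases ih2 with h3 | ⟨h3, h4⟩ | ⟨h3, h4⟩
        · exact Or.inr (Or.inr ⟨h1, trn h2 h3⟩)
        · exact Or.inl (trn h1 h4)
        · exact Or.inr (Or.inr ⟨h1, h4⟩)
  · have hO : O ⊆ insert e O := Set.subset_insert e O
    rintro (h1 | ⟨h1, h2⟩ | ⟨h1, h2⟩)
    · exact mono hO h1
    · exact trn (mono hO h1) (trn (edge O e) (mono hO h2))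
    · exact trn (mono hO h1) (trn (smm (edge O e)) (mono hO h2))

lemma same {O : Set E} {e : E} (h : Con s t R O (s e) (t e)) (U : Finset V) :
    ncl s t R U (insert e O) = ncl s t R U O := by
  have hc : ∀ v, clus s t R (insert e O) v = clus s t R O v := by
    intro v
    ext w
    change Con s t R (insert e O) v w ↔ Con s t R O v w
    rw [char]
    constructor
    · rintro (h1 | ⟨h1, h2⟩ | ⟨h1, h2⟩)
      · exact h1
      · exact trn h1 (trn h h2)
      · exact trn h1 (trn (smm h) h2)
    · exact Or.inl
  unfold ncl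
  rw [show clus s t R (insert e O) = clus s t R O from funext hc]

lemma clus_eq {O : Set E} {a b : V} (h : Con s t R O a b) :
    clus s t R O a = clus s t R O b := by
  ext w
  exact ⟨fun h' => trn (smm h) h', fun h' => trn h h'⟩

lemma mem_self (O : Set E) (a : V) : a ∈ clus s t R O a := rfl' O a

lemma merge {O : Set E} {e : E} {U : Finset V} (hs : s e ∈ U) (ht : t e ∈ U)
    (h : ¬ Con s t R O (s e) (t e)) : ncl s t R U (insert e O) + 1 = ncl s t R U O := by
  classical
  set P := clus s t R O (s e) with hP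
  set Q := clus s t R O (t e) with hQ
  set C := clus s t R O '' (U : Set V) with hC
  have hPQ : P ≠ Q := by
    intro hh
    apply h
    have h1 : t e ∈ Q := mem_self O _
    rw [← hh] at h1
    exact h1
  have hPU : P ∪ Q ∉ C := by
    rintro ⟨v, -, hv⟩
    have h1 : v ∈ P ∪ Q := by
      rw [← hv]
      exact mem_self O v
    rcases h1 with h1 | h1
    · have h2 : t e ∈ clus s t R O v := by
        rw [hv]
        exact Or.inr (mem_self O _)
      exact h (trn h1 h2)
    · have h2 : s e ∈ clus s t R O v := by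
        rw [hv]
        exact Or.inl (mem_self O _)
      exact h (smm (trn h1 h2))
  have hfin : C.Finite := (Finset.finite_toSet U).image _
  have hPC : P ∈ C := ⟨s e, hs, rfl⟩
  have hQC : Q ∈ C := ⟨t e, ht, rfl⟩
  have hcl : ∀ v, clus s t R (insert e O) v =
      if clus s t R O v = P ∨ clus s t R O v = Q then P ∪ Q else clus s t R O v := by
    intro v
    split_ifs with hv
    · have hv' : Con s t R O v (s e) ∨ Con s t R O v (t e) := by
        rcases hv with hv | hv
        · left
          have h1 : s e ∈ P := mem_self O _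
          rw [← hv] at h1
          exact h1
        · right
          have h1 : t e ∈ Q := mem_self O _
          rw [← hv] at h1
          exact h1
      ext w
      change Con s t R (insert e O) v w ↔ (Con s t R O (s e) w ∨ Con s t R O (t e) w)
      rw [char]
      constructor
      · rintro (h1 | ⟨h1, h2⟩ | ⟨h1, h2⟩)
        · rcases hv' with h3 | h3
          · exact Or.inl (trn (smm h3) h1)
          · exact Or.inr (trn (smm h3) h1)
        · exact Or.inr h2
        · exact Or.inl h2
      · rintro (h1 | h1)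
        · rcases hv' with h3 | h3
          · exact Or.inl (trn h3 h1)
          · exact Or.inr (Or.inr ⟨h3, h1⟩)
        · rcases hv' with h3 | h3
          · exact Or.inr (Or.inl ⟨h3, h1⟩)
          · exact Or.inl (trn h3 h1)
    · ext w
      change Con s t R (insert e O) v w ↔ Con s t R O v w
      rw [char]
      constructor
      · rintro (h1 | ⟨h1, h2⟩ | ⟨h1, h2⟩)
        · exact h1
        · exact absurd (Or.inl (clus_eq h1)) hv
        · exact absurd (Or.inr (clus_eq h1)) hv
      · exact Or.inl
  have himg : clus s t R (insert e O) '' (U : Set V) = insert (P ∪ Q) (C \ {P, Q}) := by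
    ext X
    constructor
    · rintro ⟨v, hv, rfl⟩
      rw [hcl v]
      split_ifs with h1
      · exact Set.mem_insert _ _
      · refine Set.mem_insert_of_mem _ ⟨⟨v, hv, rfl⟩, ?_⟩
        intro h2
        rw [Set.mem_insert_iff, Set.mem_singleton_iff] at h2
        exact h1 h2
    · intro hX
      rcases Set.mem_insert_iff.1 hX with rfl | ⟨⟨v, hv, rfl⟩, hX2⟩
      · refine ⟨s e, hs, ?_⟩
        rw [hcl (s e), if_pos (Or.inl rfl)]
      · refine ⟨v, hv, ?_⟩
        rw [hcl v, if_neg]
        intro h2
        apply hX2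
        rw [Set.mem_insert_iff, Set.mem_singleton_iff]
        exact h2
  have hfin0 : (C \ {P, Q}).Finite := hfin.subset Set.sdiff_subset
  have hCe : C = insert P (insert Q (C \ {P, Q})) := by
    ext X
    simp only [Set.mem_insert_iff, Set.mem_sdiff, Set.mem_singleton_iff]
    constructor
    · intro hX
      by_cases h1 : X = P
      · exact Or.inl h1
      · by_cases h2 : X = Q
        · exact Or.inr (Or.inl h2)
        · exact Or.inr (Or.inr ⟨hX, by rintro (h3 | h3) <;> contradiction⟩)
    · rintro (h1 | h1 | h1)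
      · rw [h1]
        exact hPC
      · rw [h1]
        exact hQC
      · exact h1.1
  have hQn : Q ∉ C \ {P, Q} := by
    rintro ⟨-, h1⟩
    exact h1 (Or.inr rfl)
  have hPn : P ∉ insert Q (C \ {P, Q}) := by
    intro h1
    rcases Set.mem_insert_iff.1 h1 with h2 | ⟨-, h2⟩
    · exact hPQ h2
    · exact h2 (Or.inl rfl)
  have hn1 : C.ncard = (C \ {P, Q}).ncard + 2 := by
    conv_lhs => rw [hCe]
    rw [Set.ncard_insert_of_notMem hPn (hfin0.insert Q), Set.ncard_insert_of_notMem hQn hfin0]
  have hn2 : (insert (P ∪ Q) (C \ {P, Q})).ncard = (C \ {P, Q}).ncard + 1 :=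
    Set.ncard_insert_of_notMem (fun h1 => hPU h1.1) hfin0
  change (clus s t R (insert e O) '' (U : Set V)).ncard + 1 = C.ncard
  rw [himg, hn1, hn2]

end

end ADD_

theorem p_ADD : T_ADD := by
  intro V E _ s t R U
  refine ⟨fun O e hs ht => ⟨fun h => ADD_.same h U, fun h => ADD_.merge hs ht h⟩, ?_⟩
  intro ω ω' hω
  induction hn : (ω \ ω').card generalizing ω with
  | zero =>
    have hsub : ω ⊆ ω' := by
      rw [Finset.card_eq_zero, Finset.sdiff_eq_empty_iff_subset] at hn
      exact hn
    rw [Finset.union_eq_right.2 hsub, Finset.inter_eq_left.2 hsub, add_comm]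
  | succ n ih =>
    obtain ⟨e, he⟩ : (ω \ ω').Nonempty := by
      rw [← Finset.card_pos, hn]
      exact Nat.succ_pos n
    rw [Finset.mem_sdiff] at he
    have hcard : (ω.erase e \ ω').card = n := by
      have h1 : ω.erase e \ ω' = (ω \ ω').erase e := by
        ext x
        simp only [Finset.mem_sdiff, Finset.mem_erase]
        tauto
      rw [h1, Finset.card_erase_of_mem (Finset.mem_sdiff.2 he), hn]
      rfl
    have hi := ih (ω.erase e) (fun x hx => hω x (Finset.mem_of_mem_erase hx)) hcard
    have h1 : ((ω : Finset E) : Set E) = insert e ((ω.erase e : Finset E) : Set E) := by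
      rw [← Finset.coe_insert, Finset.insert_erase he.1]
    have h2 : ((ω ∪ ω' : Finset E) : Set E) =
        insert e ((ω.erase e ∪ ω' : Finset E) : Set E) := by
      rw [← Finset.coe_insert, ← Finset.insert_union, Finset.insert_erase he.1]
    have h3 : ω ∩ ω' = ω.erase e ∩ ω' := by
      ext x
      simp only [Finset.mem_inter, Finset.mem_erase]
      constructor
      · rintro ⟨hx1, hx2⟩
        refine ⟨⟨?_, hx1⟩, hx2⟩
        rintro rfl
        exact he.2 hx2
      · rintro ⟨⟨-, hx1⟩, hx2⟩
        exact ⟨hx1, hx2⟩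
    rw [h1, h2, h3]
    obtain ⟨hs, ht⟩ := hω e he.1
    by_cases hc : Con s t R ((ω.erase e : Finset E) : Set E) (s e) (t e)
    · have hc' : Con s t R ((ω.erase e ∪ ω' : Finset E) : Set E) (s e) (t e) :=
        ADD_.mono (Finset.coe_subset.2 Finset.subset_union_left) hc
      rw [ADD_.same hc U, ADD_.same hc' U]
      exact hi
    · have h4 := ADD_.merge hs ht hc
      by_cases hc' : Con s t R ((ω.erase e ∪ ω' : Finset E) : Set E) (s e) (t e)
      · rw [ADD_.same hc' U]
        omega
      · have h5 := ADD_.merge hs ht hc'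
        omega

end Pool.Agent.FKT
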