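import Pool.Agent.FKT.TargetsA

/-!
# Project FKT, target ARM: two arms give a contact
-/

set_option autoImplicit false

namespace Pool.Agent.FKT

open Filter MeasureTheory

theorem ARM_.inv {α : Type} {r : α → α → Prop} {P : α → Prop} (h : ∀ a b, r a b → (P a ↔ P b))
    {a b : α} (hab : Relation.EqvGen r a b) : P a ↔ P b := by
  induction hab with
  | rel a b hr => exact h a b hr
  | refl a => exact Iff.rfl
  | symm a b _ ih => exact ih.symm
  | trans a b c _ _ ih1 ih2 => exact ih1.trans ih2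

theorem ARM_.con_mono {V E : Type} {s t : E → V} {R : V → V → Prop} {O O' : Set E}
    (h : O ⊆ O') {a b : V} (hab : Con s t R O a b) : Con s t R O' a b := by
  induction hab with
  | rel a b hr =>
    rcases hr with hr | ⟨e, he, h1, h2⟩
    · exact Relation.EqvGen.rel _ _ (Or.inl hr)
    · exact Relation.EqvGen.rel _ _ (Or.inr ⟨e, h he, h1, h2⟩)
  | refl a => exact Relation.EqvGen.refl a
  | symm a b _ ih => exact Relation.EqvGen.symm _ _ ih
  | trans a b c _ _ ih1 ih2 => exact Relation.EqvGen.trans _ _ _ ih1 ih2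

open Classical in
theorem ARM_.mem_ctc {V E : Type} (s t : E → V) (X : Set V) (G ω : Finset E) (e : E) :
    e ∈ ctc s t X G ω ↔ e ∈ G ∧ ¬ Con s t (no V) (ω : Set E) (s e) (t e) ∧
      (∃ x ∈ X, Con s t (no V) (ω : Set E) x (s e)) ∧
        ∃ x ∈ X, Con s t (no V) (ω : Set E) x (t e) := by
  unfold ctc
  rw [Finset.mem_filter]

variable {d : ℕ}

theorem ARM_.mem_bx (x v : Vx d) (n : ℕ) :
    v ∈ bx x n ↔ ∀ i, x i - n ≤ v i ∧ v i ≤ x i + n := by
  unfold bx
  rw [Finset.mem_Icc]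
  constructor
  · rintro ⟨h1, h2⟩ i
    exact ⟨h1 i, h2 i⟩
  · intro h
    exact ⟨fun i => (h i).1, fun i => (h i).2⟩

theorem ARM_.mem_bd (x v : Vx d) (n : ℕ) :
    v ∈ bd x n ↔ v ∈ bx x n ∧ ∃ i, v i = x i - n ∨ v i = x i + n := by
  unfold bd
  rw [Finset.mem_filter]

theorem ARM_.mem_eb (x : Vx d) (n : ℕ) (e : Ed d) :
    e ∈ eb x n ↔ e.1 ∈ bx x n ∧ tgt e ∈ bx x n := by
  unfold eb
  rw [Finset.mem_filter, Finset.mem_product]
  simp

theorem ARM_.key (O : Set (Ed d)) (m : ℕ) (v z : Vx d) (hv : v ∈ bx (0 : Vx d) m)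
    (hz : z ∈ bx (0 : Vx d) m → z ∈ bd (0 : Vx d) m) (hzv : Cn O z v) :
    ∃ b ∈ bd (0 : Vx d) m, Cn (O ∩ (eb (0 : Vx d) m : Set (Ed d))) b v := by
  by_contra hno
  push Not at hno
  have hP : ∀ a b : Vx d, Step Prod.fst tgt (no (Vx d)) O a b →
      ((a ∈ bx (0 : Vx d) m ∧ a ∉ bd (0 : Vx d) m ∧
        Cn (O ∩ (eb (0 : Vx d) m : Set (Ed d))) a v) ↔
      (b ∈ bx (0 : Vx d) m ∧ b ∉ bd (0 : Vx d) m ∧
        Cn (O ∩ (eb (0 : Vx d) m : Set (Ed d))) b v)) := by
    intro a b hab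
    rcases hab with hab | ⟨e, he, h1, h2⟩
    · exact absurd hab (by simp [no])
    · have hint : ∀ w : Vx d, w ∈ bx (0 : Vx d) m → w ∉ bd (0 : Vx d) m →
          ∀ i, -(m : ℤ) < w i ∧ w i < m := by
        intro w hw hw' i
        rw [ARM_.mem_bd] at hw'
        push Not at hw'
        have h3 := (hw' hw i)
        have h4 := (ARM_.mem_bx 0 w m).mp hw i
        simp only [Pi.zero_apply, zero_sub, zero_add] at h3 h4
        omega
      have hbe : ∀ i, b i = a i + (if i = e.2 then 1 else 0) := by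
        intro i
        rw [← h2, ← h1]
        unfold tgt
        by_cases hi : i = e.2
        · rw [hi]
          simp
        · simp [hi]
      have hF : a ∈ bx (0 : Vx d) m → b ∈ bx (0 : Vx d) m →
          Cn (O ∩ (eb (0 : Vx d) m : Set (Ed d))) a b := by
        intro ha hb
        refine Relation.EqvGen.rel _ _ (Or.inr ⟨e, ⟨he, ?_⟩, h1, h2⟩)
        rw [Finset.mem_coe, ARM_.mem_eb]
        exact ⟨by rw [h1]; exact ha, by rw [h2]; exact hb⟩
      constructor
      · rintro ⟨ha, ha', hc⟩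
        have hb : b ∈ bx (0 : Vx d) m := by
          rw [ARM_.mem_bx]
          intro i
          have h3 := hint a ha ha' i
          have h4 := hbe i
          simp only [Pi.zero_apply, zero_sub, zero_add]
          split_ifs at h4 <;> omega
        have hcb : Cn (O ∩ (eb (0 : Vx d) m : Set (Ed d))) b v :=
          Relation.EqvGen.trans _ _ _ (Relation.EqvGen.symm _ _ (hF ha hb)) hc
        exact ⟨hb, fun hbb => hno b hbb hcb, hcb⟩
      · rintro ⟨hb, hb', hc⟩
        have ha : a ∈ bx (0 : Vx d) m := by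
          rw [ARM_.mem_bx]
          intro i
          have h3 := hint b hb hb' i
          have h4 := hbe i
          simp only [Pi.zero_apply, zero_sub, zero_add]
          split_ifs at h4 <;> omega
        have hca : Cn (O ∩ (eb (0 : Vx d) m : Set (Ed d))) a v :=
          Relation.EqvGen.trans _ _ _ (hF ha hb) hc
        exact ⟨ha, fun haa => hno a haa hca, hca⟩
  have hvv : v ∈ bx (0 : Vx d) m ∧ v ∉ bd (0 : Vx d) m ∧
      Cn (O ∩ (eb (0 : Vx d) m : Set (Ed d))) v v :=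
    ⟨hv, fun h => hno v h (Relation.EqvGen.refl v), Relation.EqvGen.refl v⟩
  obtain ⟨hz1, hz2, -⟩ := (ARM_.inv hP hzv).mpr hvv
  exact hz2 (hz hz1)

theorem p_ARM : T_ARM := by
  intro d O m k y i hmk hyi hT
  obtain ⟨hT1, ⟨z1, hz1, hc1⟩, ⟨z2, hz2, hc2⟩⟩ := hT
  have hyi' := (ARM_.mem_eb 0 m (y, i)).mp hyi
  obtain ⟨hy, hyt⟩ := hyi'
  have hyt' : y + Pi.single i 1 ∈ bx (0 : Vx d) m := hyt
  have hy' : y ∈ bx (0 : Vx d) m := hy
  have hsub : (eb (0 : Vx d) m : Set (Ed d)) ⊆ (eb y k : Set (Ed d)) := by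
    have hbx : ∀ v : Vx d, v ∈ bx (0 : Vx d) m → v ∈ bx y k := by
      intro v hv
      rw [ARM_.mem_bx] at hv ⊢
      intro j
      have h1 := hv j
      have h2 := (ARM_.mem_bx 0 y m).mp hy' j
      simp only [Pi.zero_apply, zero_sub, zero_add] at h1 h2
      have h3 : (2 * m : ℤ) ≤ k := by exact_mod_cast hmk
      omega
    intro e he
    rw [Finset.mem_coe, ARM_.mem_eb] at he ⊢
    exact ⟨hbx _ he.1, hbx _ he.2⟩
  have hfar : ∀ z : Vx d, z ∈ bd y k → z ∈ bx (0 : Vx d) m → z ∈ bd (0 : Vx d) m := by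
    intro z hz hzb
    rw [ARM_.mem_bd] at hz ⊢
    refine ⟨hzb, ?_⟩
    obtain ⟨-, j, hj⟩ := hz
    refine ⟨j, ?_⟩
    have h1 := (ARM_.mem_bx 0 z m).mp hzb j
    have h2 := (ARM_.mem_bx 0 y m).mp hy' j
    simp only [Pi.zero_apply, zero_sub, zero_add] at h1 h2 ⊢
    have h3 : (2 * m : ℤ) ≤ k := by exact_mod_cast hmk
    omega
  have hrs : ((rs (eb (0 : Vx d) m) O : Finset (Ed d)) : Set (Ed d)) =
      O ∩ (eb (0 : Vx d) m : Set (Ed d)) := by
    ext e
    unfold rs
    simp only [Finset.coe_filter, Set.mem_ofPred_eq, Set.mem_inter_iff, Finset.mem_coe]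
    exact and_comm
  have hmono : ∀ a b : Vx d, Cn (O ∩ (eb y k : Set (Ed d))) a b → Cn O a b :=
    fun a b h => ARM_.con_mono Set.inter_subset_left h
  refine (ARM_.mem_ctc _ _ _ _ _ _).mpr ⟨hyi, ?_⟩
  rw [hrs]
  refine ⟨?_, ?_, ?_⟩
  · intro h
    exact hT1 (ARM_.con_mono (Set.inter_subset_inter_right O hsub) h)
  · exact ARM_.key O m y z1 hy' (hfar z1 hz1) (hmono _ _ hc1)
  · exact ARM_.key O m (y + Pi.single i 1) z2 hyt' (hfar z2 hz2) (hmono _ _ hc2)

end Pool.Agent.FKT
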