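import Pool.Agent.FKT.TargetsA

/-!
# Project FKT: collapsing the outside of a box (T_COP)
-/

set_option autoImplicit false

namespace Pool.Agent.FKT

namespace COP_

variable {d : ℕ}

theorem mem_bx {x v : Vx d} {n : ℕ} :
    v ∈ bx x n ↔ ∀ i, x i - n ≤ v i ∧ v i ≤ x i + n := by
  unfold bx
  rw [Finset.mem_Icc, Pi.le_def, Pi.le_def]
  constructor
  · intro h i
    exact ⟨h.1 i, h.2 i⟩
  · intro h
    exact ⟨fun i => (h i).1, fun i => (h i).2⟩

theorem mem_bd {x v : Vx d} {n : ℕ} :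
    v ∈ bd x n ↔ v ∈ bx x n ∧ ∃ i, v i = x i - n ∨ v i = x i + n := by
  unfold bd
  rw [Finset.mem_filter]

theorem mem_eb {x : Vx d} {n : ℕ} {e : Ed d} :
    e ∈ eb x n ↔ e.1 ∈ bx x n ∧ tgt e ∈ bx x n := by
  unfold eb
  rw [Finset.mem_filter, Finset.mem_product]
  simp

theorem tgt_same (e : Ed d) : tgt e e.2 = e.1 e.2 + 1 := by
  simp [tgt]

theorem tgt_ne (e : Ed d) (j : Fin d) (h : j ≠ e.2) : tgt e j = e.1 j := by
  simp [tgt, h]

theorem box_le {x y : Vx d} {n m : ℕ} (h : bx x n ⊆ bx y m) (i : Fin d) :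
    y i - m ≤ x i - n ∧ x i + n ≤ y i + m := by
  have h1 : (fun i => x i - n : Vx d) ∈ bx y m := by
    apply h
    rw [mem_bx]
    intro j
    constructor <;> simp <;> omega
  have h2 : (fun i => x i + n : Vx d) ∈ bx y m := by
    apply h
    rw [mem_bx]
    intro j
    constructor <;> simp <;> omega
  rw [mem_bx] at h1 h2
  exact ⟨(h1 i).1, (h2 i).2⟩

/-- A point of the outer boundary inside the inner box is on the inner boundary. -/
theorem bd_inner {x y v : Vx d} {n m : ℕ} (h : bx x n ⊆ bx y m) (hv : v ∈ bd y m)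
    (hx : v ∈ bx x n) : v ∈ bd x n := by
  rw [mem_bd] at hv ⊢
  obtain ⟨-, i, hi⟩ := hv
  have h1 := box_le h i
  have h2 := mem_bx.1 hx i
  refine ⟨hx, i, ?_⟩
  rcases hi with hi | hi
  · left; omega
  · right; omega

/-- An end in the inner box of an edge not in the inner box is on the inner boundary. -/
theorem fst_bd {x : Vx d} {n : ℕ} {e : Ed d} (he : e ∉ eb x n) (h1 : e.1 ∈ bx x n) :
    e.1 ∈ bd x n := by
  rw [mem_bd]
  refine ⟨h1, e.2, ?_⟩
  by_contra hc
  push Not at hc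
  apply he
  rw [mem_eb]
  refine ⟨h1, mem_bx.2 fun i => ?_⟩
  have h2 := mem_bx.1 h1 i
  by_cases hi : i = e.2
  · subst hi
    rw [tgt_same]
    omega
  · rw [tgt_ne e i hi]
    exact h2

theorem tgt_bd {x : Vx d} {n : ℕ} {e : Ed d} (he : e ∉ eb x n) (h1 : tgt e ∈ bx x n) :
    tgt e ∈ bd x n := by
  rw [mem_bd]
  refine ⟨h1, e.2, ?_⟩
  by_contra hc
  push Not at hc
  apply he
  rw [mem_eb]
  refine ⟨mem_bx.2 fun i => ?_, h1⟩
  have h2 := mem_bx.1 h1 i
  by_cases hi : i = e.2
  · subst hi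
    rw [tgt_same] at h2 hc
    omega
  · rw [tgt_ne e i hi] at h2
    exact h2

/-- Walking in the positive direction. -/
theorem walk_up {x y : Vx d} {n m : ℕ} (O : Set (Ed d))
    (hO : ∀ e, e ∈ eb y m → e ∉ eb x n → e ∈ O) (i : Fin d) :
    ∀ (k : ℕ) (v : Vx d), v ∈ bx y m → x i + n ≤ v i → y i + m - v i = k →
      ∃ z ∈ bd y m, Con Prod.fst tgt (Wir y m) O v z := by
  intro k
  induction k with
  | zero =>
    intro v hv _ hk
    refine ⟨v, mem_bd.2 ⟨hv, i, Or.inr ?_⟩, Relation.EqvGen.refl _⟩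
    simp at hk
    omega
  | succ k ih =>
    intro v hv hx hk
    have hs : tgt (v, i) i = v i + 1 := tgt_same (v, i)
    have hk' : y i + m - v i = k + 1 := by
      rw [hk]
      push_cast
      ring
    have hv' : tgt (v, i) ∈ bx y m := by
      rw [mem_bx]
      intro j
      have h2 := mem_bx.1 hv j
      by_cases hj : j = i
      · subst hj
        rw [hs]
        omega
      · rw [tgt_ne (v, i) j hj]
        exact h2
    have hnot : tgt (v, i) ∉ bx x n := by
      intro h
      have := (mem_bx.1 h i).2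
      rw [hs] at this
      omega
    obtain ⟨z, hz, hc⟩ := ih (tgt (v, i)) hv' (by rw [hs]; omega) (by rw [hs]; omega)
    refine ⟨z, hz, Relation.EqvGen.trans _ _ _ (Relation.EqvGen.rel _ _ ?_) hc⟩
    refine Or.inr ⟨(v, i), hO _ (mem_eb.2 ⟨hv, hv'⟩) fun h => hnot (mem_eb.1 h).2, rfl, rfl⟩

/-- Walking in the negative direction. -/
theorem walk_down {x y : Vx d} {n m : ℕ} (O : Set (Ed d))
    (hO : ∀ e, e ∈ eb y m → e ∉ eb x n → e ∈ O) (i : Fin d) :
    ∀ (k : ℕ) (v : Vx d), v ∈ bx y m → v i ≤ x i - n → v i - (y i - m) = k →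
      ∃ z ∈ bd y m, Con Prod.fst tgt (Wir y m) O v z := by
  intro k
  induction k with
  | zero =>
    intro v hv _ hk
    refine ⟨v, mem_bd.2 ⟨hv, i, Or.inl ?_⟩, Relation.EqvGen.refl _⟩
    simp at hk
    omega
  | succ k ih =>
    intro v hv hx hk
    have hk' : v i - (y i - m) = k + 1 := by
      rw [hk]
      push_cast
      ring
    set w : Vx d := v - Pi.single i 1 with hw
    have hwi : w i = v i - 1 := by simp [hw]
    have hwj : ∀ j, j ≠ i → w j = v j := by
      intro j hj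
      simp [hw, hj]
    have htw : tgt (w, i) = v := by simp [tgt, hw]
    have hv' : w ∈ bx y m := by
      rw [mem_bx]
      intro j
      have h2 := mem_bx.1 hv j
      by_cases hj : j = i
      · subst hj
        rw [hwi]
        omega
      · rw [hwj j hj]
        exact h2
    have hnot : w ∉ bx x n := by
      intro h
      have := (mem_bx.1 h i).1
      rw [hwi] at this
      omega
    obtain ⟨z, hz, hc⟩ := ih w hv' (by rw [hwi]; omega) (by rw [hwi]; omega)
    refine ⟨z, hz, Relation.EqvGen.trans _ _ _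
      (Relation.EqvGen.symm _ _ (Relation.EqvGen.rel _ _ ?_)) hc⟩
    refine Or.inr ⟨(w, i), hO _ (mem_eb.2 ⟨hv', ?_⟩) fun h => hnot (mem_eb.1 h).1, rfl, htw⟩
    rw [htw]
    exact hv

/-- All points outside the inner box, or on its boundary, are connected to the outer boundary. -/
theorem out_con {x y : Vx d} {n m : ℕ} (O : Set (Ed d))
    (hO : ∀ e, e ∈ eb y m → e ∉ eb x n → e ∈ O) (v : Vx d) (hv : v ∈ bx y m)
    (hout : v ∉ bx x n ∨ v ∈ bd x n) :
    ∃ z ∈ bd y m, Con Prod.fst tgt (Wir y m) O v z := by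
  have key : ∃ i, x i + n ≤ v i ∨ v i ≤ x i - n := by
    rcases hout with h | h
    · by_contra hc
      push Not at hc
      apply h
      rw [mem_bx]
      intro i
      have := hc i
      omega
    · obtain ⟨-, i, hi⟩ := mem_bd.1 h
      refine ⟨i, ?_⟩
      omega
  obtain ⟨i, hi⟩ := key
  have h2 := mem_bx.1 hv i
  rcases hi with hi | hi
  · exact walk_up O hO i (y i + m - v i).toNat v hv hi (by omega)
  · exact walk_down O hO i (v i - (y i - m)).toNat v hv hi (by omega)

theorem out_out {x y : Vx d} {n m : ℕ} (O : Set (Ed d))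
    (hO : ∀ e, e ∈ eb y m → e ∉ eb x n → e ∈ O) (u v : Vx d) (hu : u ∈ bx y m)
    (hv : v ∈ bx y m) (hu' : u ∉ bx x n ∨ u ∈ bd x n) (hv' : v ∉ bx x n ∨ v ∈ bd x n) :
    Con Prod.fst tgt (Wir y m) O u v := by
  obtain ⟨z, hz, hcz⟩ := out_con O hO u hu hu'
  obtain ⟨w, hw, hcw⟩ := out_con O hO v hv hv'
  exact Relation.EqvGen.trans _ _ _ hcz
    (Relation.EqvGen.trans _ _ _ (Relation.EqvGen.rel _ _ (Or.inl ⟨hz, hw⟩))
      (Relation.EqvGen.symm _ _ hcw))

/-- From the outer box to the inner box. -/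
theorem forward {x y : Vx d} {n m : ℕ} (hsub : bx x n ⊆ bx y m) (α : Finset (Ed d))
    (hα : α ⊆ eb x n) (c : Vx d → Vx d) (hc1 : ∀ v ∈ bx x n, c v = v)
    (hc2 : ∀ v, v ∉ bx x n → c v ∈ bd x n) (u v : Vx d)
    (h : Con Prod.fst tgt (Wir y m)
      ((α ∪ (eb y m \ eb x n) : Finset (Ed d)) : Set (Ed d)) u v) :
    Con Prod.fst tgt (Wir x n) (α : Set (Ed d)) (c u) (c v) := by
  induction h with
  | rel a b hab =>
    rcases hab with ⟨ha, hb⟩ | ⟨e, he, rfl, rfl⟩
    · refine Relation.EqvGen.rel _ _ (Or.inl ⟨?_, ?_⟩)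
      · by_cases h : a ∈ bx x n
        · rw [hc1 a h]
          exact bd_inner hsub ha h
        · exact hc2 a h
      · by_cases h : b ∈ bx x n
        · rw [hc1 b h]
          exact bd_inner hsub hb h
        · exact hc2 b h
    · rw [Finset.mem_coe, Finset.mem_union, Finset.mem_sdiff] at he
      rcases he with he | ⟨-, he⟩
      · have h1 := mem_eb.1 (hα he)
        rw [hc1 _ h1.1, hc1 _ h1.2]
        exact Relation.EqvGen.rel _ _ (Or.inr ⟨e, he, rfl, rfl⟩)
      · refine Relation.EqvGen.rel _ _ (Or.inl ⟨?_, ?_⟩)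
        · by_cases h : e.1 ∈ bx x n
          · rw [hc1 _ h]
            exact fst_bd he h
          · exact hc2 _ h
        · by_cases h : tgt e ∈ bx x n
          · rw [hc1 _ h]
            exact tgt_bd he h
          · exact hc2 _ h
  | refl a => exact Relation.EqvGen.refl _
  | symm a b _ ih => exact Relation.EqvGen.symm _ _ ih
  | trans a b c' _ _ ih1 ih2 => exact Relation.EqvGen.trans _ _ _ ih1 ih2

/-- From the inner box to the outer box. -/
theorem backward {x y : Vx d} {n m : ℕ} (hsub : bx x n ⊆ bx y m) (α : Finset (Ed d))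
    (u v : Vx d) (h : Con Prod.fst tgt (Wir x n) (α : Set (Ed d)) u v) :
    Con Prod.fst tgt (Wir y m)
      ((α ∪ (eb y m \ eb x n) : Finset (Ed d)) : Set (Ed d)) u v := by
  induction h with
  | rel a b hab =>
    rcases hab with ⟨ha, hb⟩ | ⟨e, he, rfl, rfl⟩
    · refine out_out (x := x) (n := n) _ ?_ a b (hsub (mem_bd.1 ha).1) (hsub (mem_bd.1 hb).1)
        (Or.inr ha) (Or.inr hb)
      intro e he hne
      rw [Finset.mem_coe, Finset.mem_union, Finset.mem_sdiff]
      exact Or.inr ⟨he, hne⟩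
    · refine Relation.EqvGen.rel _ _ (Or.inr ⟨e, ?_, rfl, rfl⟩)
      rw [Finset.mem_coe, Finset.mem_union]
      exact Or.inl he
  | refl a => exact Relation.EqvGen.refl _
  | symm a b _ ih => exact Relation.EqvGen.symm _ _ ih
  | trans a b c' _ _ ih1 ih2 => exact Relation.EqvGen.trans _ _ _ ih1 ih2

end COP_

theorem p_COP (h_NCM : T_NCM) : T_COP := by
  classical
  intro d hd x y n m hsub α hα
  set b0 : Vx d := fun i => x i + n with hb0
  have hb0' : b0 ∈ bd x n := by
    rw [COP_.mem_bd]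
    refine ⟨COP_.mem_bx.2 fun i => ?_, ⟨0, hd⟩, Or.inr rfl⟩
    simp only [hb0]
    omega
  set c : Vx d → Vx d := fun v => if v ∈ bx x n then v else b0 with hc
  have hc1 : ∀ v ∈ bx x n, c v = v := fun v hv => by simp only [hc, hv, if_true]
  have hc2 : ∀ v, v ∉ bx x n → c v = b0 := fun v hv => by simp only [hc, hv, if_false]
  have hO : ∀ e, e ∈ eb y m → e ∉ eb x n →
      e ∈ ((α ∪ (eb y m \ eb x n) : Finset (Ed d)) : Set (Ed d)) := by
    intro e he hne
    rw [Finset.mem_coe, Finset.mem_union, Finset.mem_sdiff]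
    exact Or.inr ⟨he, hne⟩
  have hcc : ∀ v ∈ bx y m, Con Prod.fst tgt (Wir y m)
      ((α ∪ (eb y m \ eb x n) : Finset (Ed d)) : Set (Ed d)) v (c v) := by
    intro v hv
    by_cases h : v ∈ bx x n
    · rw [hc1 v h]
      exact Relation.EqvGen.refl _
    · rw [hc2 v h]
      exact COP_.out_out (x := x) (n := n) _ hO v b0 hv (hsub (COP_.mem_bd.1 hb0').1)
        (Or.inl h) (Or.inr hb0')
  refine h_NCM (Vx d) (Vx d) (Ed d) (Ed d) Prod.fst tgt Prod.fst tgt (Wir y m) (Wir x n)
    (bx y m) (bx x n) _ _ c ?_ ?_ ?_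
  · intro v _
    by_cases h : v ∈ bx x n
    · rw [hc1 v h]
      exact h
    · rw [hc2 v h]
      exact (COP_.mem_bd.1 hb0').1
  · intro v hv
    refine ⟨v, hsub hv, ?_⟩
    rw [hc1 v hv]
    exact Relation.EqvGen.refl _
  · intro u hu v hv
    constructor
    · exact COP_.forward hsub α hα c hc1 (fun v hv => by rw [hc2 v hv]; exact hb0') u v
    · intro h
      exact Relation.EqvGen.trans _ _ _ (hcc u hu)
        (Relation.EqvGen.trans _ _ _ (COP_.backward hsub α _ _ h)
          (Relation.EqvGen.symm _ _ (hcc v hv)))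

end Pool.Agent.FKT
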