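import Pool.Agent.FKT.TargetsA

set_option autoImplicit false

/-!
# TAS: the two-arm event, locality and translations
-/

namespace Pool.Agent.FKT

namespace TAS_

variable {d : ℕ}

theorem map_gen {V W : Type} {r : V → V → Prop} {p : W → W → Prop} (f : V → W)
    (h : ∀ a b, r a b → p (f a) (f b)) {a b : V} (hab : Relation.EqvGen r a b) :
    Relation.EqvGen p (f a) (f b) := by
  induction hab with
  | rel a b hab => exact Relation.EqvGen.rel _ _ (h a b hab)
  | refl a => exact Relation.EqvGen.refl _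
  | symm a b _ ih => exact Relation.EqvGen.symm _ _ ih
  | trans a b c _ _ ih1 ih2 => exact Relation.EqvGen.trans _ _ _ ih1 ih2

theorem mem_bx (x v : Vx d) (n : ℕ) :
    v ∈ bx x n ↔ ∀ i, x i - n ≤ v i ∧ v i ≤ x i + n := by
  unfold bx
  rw [Finset.mem_Icc, Pi.le_def, Pi.le_def]
  exact ⟨fun h i => ⟨h.1 i, h.2 i⟩, fun h => ⟨fun i => (h i).1, fun i => (h i).2⟩⟩

theorem mem_bx_add (x y v : Vx d) (n : ℕ) : v + y ∈ bx (x + y) n ↔ v ∈ bx x n := by
  rw [mem_bx, mem_bx]
  refine forall_congr' fun i => ?_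
  simp only [Pi.add_apply]
  constructor
  · rintro ⟨h1, h2⟩
    constructor <;> omega
  · rintro ⟨h1, h2⟩
    constructor <;> omega

theorem mem_bd_add (x y v : Vx d) (n : ℕ) : v + y ∈ bd (x + y) n ↔ v ∈ bd x n := by
  unfold bd
  rw [Finset.mem_filter, Finset.mem_filter, mem_bx_add]
  refine and_congr_right fun _ => exists_congr fun i => ?_
  simp only [Pi.add_apply]
  constructor
  · rintro (h | h)
    · left; omega
    · right; omega
  · rintro (h | h)
    · left; omega
    · right; omega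

theorem tgt_tr (y : Vx d) (e : Ed d) : tgt (trE y e) = tgt e + y := by
  have h1 : trE y e = (e.1 + y, e.2) := rfl
  rw [h1]
  unfold tgt
  simp only
  rw [add_right_comm]

theorem mem_eb (x : Vx d) (n : ℕ) (e : Ed d) : e ∈ eb x n ↔ e.1 ∈ bx x n ∧ tgt e ∈ bx x n := by
  unfold eb
  rw [Finset.mem_filter, Finset.mem_product]
  simp

theorem mem_eb_tr (x y : Vx d) (n : ℕ) (e : Ed d) :
    trE y e ∈ eb (x + y) n ↔ e ∈ eb x n := by
  rw [mem_eb, mem_eb, tgt_tr, mem_bx_add]
  have h1 : (trE y e).1 = e.1 + y := rfl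
  rw [h1, mem_bx_add]

theorem cn_add (x y : Vx d) (k : ℕ) (ω : Ed d → Bool) (a b : Vx d) :
    Cn (cfg ω ∩ (eb (x + y) k : Set (Ed d))) (a + y) (b + y) ↔
      Cn (cfg (sh y ω) ∩ (eb x k : Set (Ed d))) a b := by
  constructor
  · intro h
    have h1 := map_gen (p := Step Prod.fst tgt (no (Vx d))
      (cfg (sh y ω) ∩ (eb x k : Set (Ed d)))) (fun v : Vx d => v - y) ?_ h
    · simp only [add_sub_cancel_right] at h1
      exact h1
    · rintro u v (huv | ⟨e, ⟨he1, he2⟩, heu, hev⟩)
      · exact huv.elim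
      · right
        refine ⟨(trE y).symm e, ⟨?_, ?_⟩, ?_, ?_⟩
        · change ω (trE y ((trE y).symm e)) = true
          rw [Equiv.apply_symm_apply]
          exact he1
        · rw [Finset.mem_coe, ← mem_eb_tr x y, Equiv.apply_symm_apply]
          exact he2
        · rw [← heu]
          have h2 := Equiv.apply_symm_apply (trE y) e
          have h3 : (trE y ((trE y).symm e)).1 = ((trE y).symm e).1 + y := rfl
          rw [h2] at h3
          rw [h3, add_sub_cancel_right]
        · rw [← hev]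
          have h3 := tgt_tr y ((trE y).symm e)
          rw [Equiv.apply_symm_apply] at h3
          rw [h3, add_sub_cancel_right]
  · intro h
    refine map_gen (p := Step Prod.fst tgt (no (Vx d))
      (cfg ω ∩ (eb (x + y) k : Set (Ed d)))) (fun v : Vx d => v + y) ?_ h
    rintro u v (huv | ⟨e, ⟨he1, he2⟩, heu, hev⟩)
    · exact huv.elim
    · right
      refine ⟨trE y e, ⟨he1, ?_⟩, ?_, ?_⟩
      · rw [Finset.mem_coe, mem_eb_tr]
        exact he2
      · rw [← heu]
        rfl
      · rw [tgt_tr, hev]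

end TAS_

theorem p_TAS : T_TAS := by
  intro d x y i k
  constructor
  · intro O
    have h1 : ((rs (eb x k) O : Finset (Ed d)) : Set (Ed d)) ∩ (eb x k : Set (Ed d)) =
        O ∩ (eb x k : Set (Ed d)) := by
      ext e
      have h2 : e ∈ rs (eb x k) O ↔ e ∈ eb x k ∧ e ∈ O := by
        classical
        unfold rs
        simp
      rw [Set.mem_inter_iff, Set.mem_inter_iff, Finset.mem_coe, h2, Finset.mem_coe]
      tauto
    unfold TwoArm
    rw [h1]
  · intro ω
    have hx : x + y + Pi.single i 1 = (x + Pi.single i 1) + y := by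
      rw [add_right_comm]
    have hz : ∀ v : Vx d, (∃ z ∈ bd (x + y) k,
        Cn (cfg ω ∩ (eb (x + y) k : Set (Ed d))) z (v + y)) ↔
        ∃ z ∈ bd x k, Cn (cfg (sh y ω) ∩ (eb x k : Set (Ed d))) z v := by
      intro v
      constructor
      · rintro ⟨z, hz1, hz2⟩
        refine ⟨z - y, ?_, ?_⟩
        · rw [← TAS_.mem_bd_add x y, sub_add_cancel]
          exact hz1
        · rw [← TAS_.cn_add, sub_add_cancel]
          exact hz2
      · rintro ⟨z, hz1, hz2⟩
        exact ⟨z + y, (TAS_.mem_bd_add x y z k).2 hz1, (TAS_.cn_add x y k ω z v).2 hz2⟩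
    unfold TwoArm
    rw [hx, TAS_.cn_add, hz, hz]

end Pool.Agent.FKT
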