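import Pool.Agent.FKT.TargetsB
import Pool.Agent.FKT.P_COP
import Pool.Agent.FKT.P_ARM
import Pool.Agent.FKT.P_TAS

/-!
# Project FKT, target CRI: facts on crossings
-/

set_option autoImplicit false

namespace Pool.Agent.FKT

namespace CRI_

variable {d : ℕ}

/-- A connection which leaves the interior of a box reaches the boundary inside the box. -/
theorem key (O : Set (Ed d)) (y : Vx d) (b : ℕ) (x z : Vx d) (hx : x ∈ bx y b)
    (hz : z ∈ bx y b → z ∈ bd y b) (hc : Cn O x z) :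
    ∃ w ∈ bd y b, Cn (O ∩ (eb y b : Set (Ed d))) x w := by
  by_contra hno
  push Not at hno
  have hP : ∀ u v : Vx d, Step Prod.fst tgt (no (Vx d)) O u v →
      ((u ∈ bx y b ∧ u ∉ bd y b ∧ Cn (O ∩ (eb y b : Set (Ed d))) x u) ↔
      (v ∈ bx y b ∧ v ∉ bd y b ∧ Cn (O ∩ (eb y b : Set (Ed d))) x v)) := by
    rintro u v (huv | ⟨e, he, h1, h2⟩)
    · exact huv.elim
    · constructor
      · rintro ⟨hu, hu', hcu⟩
        have heb : e ∈ eb y b := by
          by_contra hcon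
          exact hu' (h1 ▸ COP_.fst_bd hcon (h1.symm ▸ hu))
        have hst : Cn (O ∩ (eb y b : Set (Ed d))) u v :=
          Relation.EqvGen.rel _ _ (Or.inr ⟨e, ⟨he, heb⟩, h1, h2⟩)
        have hcv : Cn (O ∩ (eb y b : Set (Ed d))) x v :=
          Relation.EqvGen.trans _ _ _ hcu hst
        exact ⟨h2 ▸ (COP_.mem_eb.1 heb).2, fun hv => hno v hv hcv, hcv⟩
      · rintro ⟨hv, hv', hcv⟩
        have heb : e ∈ eb y b := by
          by_contra hcon
          exact hv' (h2 ▸ COP_.tgt_bd hcon (h2.symm ▸ hv))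
        have hst : Cn (O ∩ (eb y b : Set (Ed d))) u v :=
          Relation.EqvGen.rel _ _ (Or.inr ⟨e, ⟨he, heb⟩, h1, h2⟩)
        have hcu : Cn (O ∩ (eb y b : Set (Ed d))) x u :=
          Relation.EqvGen.trans _ _ _ hcv (Relation.EqvGen.symm _ _ hst)
        exact ⟨h1 ▸ (COP_.mem_eb.1 heb).1, fun hu => hno u hu hcu, hcu⟩
  have hxx : x ∈ bx y b ∧ x ∉ bd y b ∧ Cn (O ∩ (eb y b : Set (Ed d))) x x :=
    ⟨hx, fun h => hno x h (Relation.EqvGen.refl x), Relation.EqvGen.refl x⟩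
  obtain ⟨hz1, hz2, -⟩ := (ARM_.inv hP hc).mp hxx
  exact hz2 (hz hz1)

theorem bx_mono (y : Vx d) {a b : ℕ} (h : a ≤ b) : bx y a ⊆ bx y b := by
  intro v hv
  rw [COP_.mem_bx] at hv ⊢
  intro i
  have h1 := hv i
  omega

theorem one (y y' : Vx d) (a a' b b' : ℕ) (O : Set (Ed d)) (h1 : bx y a ⊆ bx y' a')
    (h2 : bx y' b' ⊆ bx y b) (h3 : a' ≤ b') (h : CrA y a b O) : CrA y' a' b' O := by
  obtain ⟨x, hx, z, hz, hc⟩ := h
  obtain ⟨w, hw, hcw⟩ := key (O ∩ (eb y b : Set (Ed d))) y' b' x z (bx_mono y' h3 (h1 hx))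
    (fun hz' => COP_.bd_inner h2 hz hz') hc
  refine ⟨x, h1 hx, w, hw, ARM_.con_mono ?_ hcw⟩
  intro e he
  exact ⟨he.1.1, he.2⟩

theorem two (y : Vx d) (a b : ℕ) (O : Set (Ed d)) :
    CrA y a b O ↔ CrA y a b ((rs (eb y b) O : Finset (Ed d)) : Set (Ed d)) := by
  have h1 : ((rs (eb y b) O : Finset (Ed d)) : Set (Ed d)) ∩ (eb y b : Set (Ed d)) =
      O ∩ (eb y b : Set (Ed d)) := by
    ext e
    have h2 : e ∈ rs (eb y b) O ↔ e ∈ eb y b ∧ e ∈ O := by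
      classical
      unfold rs
      simp
    rw [Set.mem_inter_iff, Set.mem_inter_iff, Finset.mem_coe, h2, Finset.mem_coe]
    tauto
  unfold CrA
  rw [h1]

theorem four (y y' : Vx d) (a b : ℕ) (ω : Ed d → Bool) :
    CrA (y + y') a b (cfg ω) ↔ CrA y a b (cfg (sh y' ω)) := by
  constructor
  · rintro ⟨x, hx, z, hz, hc⟩
    refine ⟨x - y', ?_, z - y', ?_, ?_⟩
    · rw [← TAS_.mem_bx_add y y', sub_add_cancel]
      exact hx
    · rw [← TAS_.mem_bd_add y y', sub_add_cancel]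
      exact hz
    · rw [← TAS_.cn_add, sub_add_cancel, sub_add_cancel]
      exact hc
  · rintro ⟨x, hx, z, hz, hc⟩
    exact ⟨x + y', (TAS_.mem_bx_add y y' x a).2 hx, z + y', (TAS_.mem_bd_add y y' z b).2 hz,
      (TAS_.cn_add y y' b ω x z).2 hc⟩

theorem five (y : Vx d) (a b : ℕ) (ω : Ed d → Bool) (x : Vx d) (hx : x ∈ bx y a) (hab : a ≤ b)
    (h : InfC x ω) : CrA y a b (cfg ω) := by
  obtain ⟨z, hz, hz'⟩ := h.exists_notMem_finset (bx y b)
  obtain ⟨w, hw, hcw⟩ := key (cfg ω) y b x z (bx_mono y hab hx) (fun h' => absurd h' hz') hz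
  exact ⟨x, hx, w, hw, hcw⟩

theorem six (y : Vx d) (a : ℕ) (ω : Ed d → Bool) (h : ∀ x ∈ bx y a, ¬ InfC x ω) :
    ∃ b0 : ℕ, ∀ b, b0 ≤ b → ¬ CrA y a b (cfg ω) := by
  have hfin : (⋃ x ∈ bx y a, {w | Cn (cfg ω) x w}).Finite := by
    refine Set.Finite.biUnion (Finset.finite_toSet (bx y a)) fun x hx => ?_
    exact Set.not_infinite.1 (h x hx)
  refine ⟨∑ w ∈ hfin.toFinset, ∑ i, (w i - y i).natAbs + 1, fun b hb => ?_⟩
  rintro ⟨x, hx, z, hz, hc⟩
  have hz1 : z ∈ hfin.toFinset := by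
    rw [Set.Finite.mem_toFinset, Set.mem_iUnion₂]
    exact ⟨x, hx, ARM_.con_mono Set.inter_subset_left hc⟩
  obtain ⟨-, i, hi⟩ := COP_.mem_bd.1 hz
  have h1 : ∑ i, (z i - y i).natAbs ≤ ∑ w ∈ hfin.toFinset, ∑ i, (w i - y i).natAbs :=
    Finset.single_le_sum (f := fun w : Vx d => ∑ i, (w i - y i).natAbs)
      (fun _ _ => Nat.zero_le _) hz1
  have h2 : (z i - y i).natAbs ≤ ∑ i, (z i - y i).natAbs :=
    Finset.single_le_sum (f := fun i => (z i - y i).natAbs) (fun _ _ => Nat.zero_le _)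
      (Finset.mem_univ i)
  rcases hi with hi | hi <;> omega

end CRI_

theorem p_CRI : T_CRI := by
  intro d y y' a a' b b' O O'
  refine ⟨CRI_.one y y' a a' b b' O, CRI_.two y a b O, ?_, CRI_.four y y' a b, ?_,
    CRI_.six y a⟩
  · rintro hO ⟨x, hx, z, hz, hc⟩
    exact ⟨x, hx, z, hz, ARM_.con_mono (Set.inter_subset_inter_left _ hO) hc⟩
  · intro ω x hx hab h
    exact CRI_.five y a b ω x hx hab h

end Pool.Agent.FKT
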