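import Pool.Agent.FKT.TargetsB

/-!
# Project FKT: proof of the target FEN (finite energy)
-/

set_option autoImplicit false

namespace Pool.Agent.FKT

open Filter MeasureTheory

namespace FEN_

section fin

variable {V E : Type} [DecidableEq E]

omit [DecidableEq E] in
lemma wt_nonneg (s t : E → V) (R : V → V → Prop) (U : Finset V) (G : Finset E) {p q : ℝ}
    (hp : 0 < p) (hp1 : p < 1) (hq : 1 ≤ q) (ω : Finset E) : 0 ≤ wt s t R U G p q ω := by
  unfold wt bw
  have h1 : 0 ≤ 1 - p := by linarith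
  have h2 : 0 ≤ q := by linarith
  positivity

lemma wt_le (hADD : T_ADD) (s t : E → V) (R : V → V → Prop) (U : Finset V) (G' : Finset E)
    {p q : ℝ} (hp : 0 < p) (hp1 : p < 1) (hq : 1 ≤ q) (e : E) (he : e ∉ G') (hs : s e ∈ U)
    (ht : t e ∈ U) (ω : Finset E) (hω : ω ⊆ G') :
    wt s t R U (insert e G') p q ω ≤
      ((1 - p) * q / p) * wt s t R U (insert e G') p q (insert e ω) := by
  have heω : e ∉ ω := fun h => he (hω h)
  have hcard : ω.card ≤ G'.card := Finset.card_le_card hω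
  have h1 : ncl s t R U (ω : Set E) ≤ ncl s t R U ((insert e ω : Finset E) : Set E) + 1 := by
    rw [Finset.coe_insert]
    have h2 := (hADD V E s t R U).1 (ω : Set E) e hs ht
    by_cases h3 : Con s t R (ω : Set E) (s e) (t e)
    · rw [h2.1 h3]
      exact Nat.le_succ _
    · rw [h2.2 h3]
  have h4 : q ^ ncl s t R U (ω : Set E) ≤
      q * q ^ ncl s t R U ((insert e ω : Finset E) : Set E) := by
    rw [← pow_succ']
    exact pow_le_pow_right₀ hq h1
  unfold wt bw
  rw [Finset.card_insert_of_notMem he, Finset.card_insert_of_notMem heω]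
  have h5 : G'.card + 1 - ω.card = (G'.card - ω.card) + 1 := by omega
  have h6 : G'.card + 1 - (ω.card + 1) = G'.card - ω.card := by omega
  rw [h5, h6]
  have h7 : 0 ≤ p ^ ω.card * (1 - p) ^ (G'.card - ω.card + 1) := by
    have h8 : 0 ≤ 1 - p := by linarith
    positivity
  calc p ^ ω.card * (1 - p) ^ (G'.card - ω.card + 1) * q ^ ncl s t R U (ω : Set E)
      ≤ p ^ ω.card * (1 - p) ^ (G'.card - ω.card + 1) *
        (q * q ^ ncl s t R U ((insert e ω : Finset E) : Set E)) :=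
        mul_le_mul_of_nonneg_left h4 h7
    _ = ((1 - p) * q / p) * (p ^ (ω.card + 1) * (1 - p) ^ (G'.card - ω.card) *
        q ^ ncl s t R U ((insert e ω : Finset E) : Set E)) := by
        field_simp
        ring

lemma fin_sum (hADD : T_ADD) (s t : E → V) (R : V → V → Prop) (U : Finset V) (G : Finset E)
    {p q : ℝ} (hp : 0 < p) (hp1 : p < 1) (hq : 1 ≤ q) (e : E) (he : e ∈ G) (hs : s e ∈ U)
    (ht : t e ∈ U) (g : Finset E → ℝ) (hg : ∀ ω, 0 ≤ g ω) :
    ∑ ω ∈ G.powerset, wt s t R U G p q ω * g (insert e ω) ≤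
      (q / p) * ∑ ω ∈ G.powerset, wt s t R U G p q ω * g ω := by
  obtain ⟨G', he', rfl⟩ : ∃ G', e ∉ G' ∧ insert e G' = G :=
    ⟨G.erase e, Finset.notMem_erase e G, Finset.insert_erase he⟩
  rw [Finset.sum_powerset_insert he', Finset.sum_powerset_insert he', ← Finset.sum_add_distrib,
    ← Finset.sum_add_distrib, Finset.mul_sum]
  refine Finset.sum_le_sum fun ω hω => ?_
  rw [Finset.mem_powerset] at hω
  rw [Finset.insert_idem]
  have h1 := wt_le hADD s t R U G' hp hp1 hq e he' hs ht ω hω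
  have h2 := hg (insert e ω)
  have h3 := wt_nonneg s t R U (insert e G') hp hp1 hq ω
  have h4 := wt_nonneg s t R U (insert e G') hp hp1 hq (insert e ω)
  have h5 := hg ω
  set A := wt s t R U (insert e G') p q ω
  set B := wt s t R U (insert e G') p q (insert e ω)
  have h6 : (1 - p) * q / p + 1 ≤ q / p := by
    rw [div_add_one hp.ne', div_le_div_iff_of_pos_right hp]
    nlinarith
  have hqp : 0 ≤ q / p := by positivity
  calc A * g (insert e ω) + B * g (insert e ω)
      ≤ ((1 - p) * q / p) * B * g (insert e ω) + B * g (insert e ω) := by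
        have h7 := mul_le_mul_of_nonneg_right h1 h2
        linarith
    _ = ((1 - p) * q / p + 1) * (B * g (insert e ω)) := by ring
    _ ≤ (q / p) * (B * g (insert e ω)) :=
        mul_le_mul_of_nonneg_right h6 (mul_nonneg h4 h2)
    _ ≤ (q / p) * (A * g ω + B * g (insert e ω)) := by
        refine mul_le_mul_of_nonneg_left ?_ hqp
        have h8 := mul_nonneg h3 h5
        linarith

end fin

variable {d : ℕ}

lemma ev_bx (x : Vx d) : ∀ᶠ n : ℕ in atTop, x ∈ bx (0 : Vx d) n := by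
  have h1 : ∀ j : Fin d, ∀ᶠ n : ℕ in atTop, -(n : ℤ) ≤ x j ∧ x j ≤ (n : ℤ) := by
    intro j
    have h2 : Tendsto (fun n : ℕ => (n : ℤ)) atTop atTop := tendsto_natCast_atTop_atTop
    filter_upwards [h2.eventually_ge_atTop (x j), h2.eventually_ge_atTop (-x j)] with n h3 h4
    exact ⟨by linarith, h3⟩
  filter_upwards [eventually_all.2 h1] with n hn
  unfold bx
  rw [Finset.mem_Icc]
  constructor
  · intro j
    have h3 := (hn j).1
    show (0 : Vx d) j - (n : ℤ) ≤ x j
    rw [Pi.zero_apply]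
    linarith
  · intro j
    have h3 := (hn j).2
    show x j ≤ (0 : Vx d) j + (n : ℤ)
    rw [Pi.zero_apply]
    linarith

lemma ev_eb (e : Ed d) : ∀ᶠ n : ℕ in atTop, e ∈ eb (0 : Vx d) n := by
  filter_upwards [ev_bx e.1, ev_bx (tgt e)] with n h1 h2
  unfold eb
  rw [Finset.mem_filter, Finset.mem_product]
  exact ⟨⟨h1, Finset.mem_univ _⟩, h2⟩

lemma eb_ends (x : Vx d) (n : ℕ) : ∀ e ∈ eb x n, e.1 ∈ bx x n ∧ tgt e ∈ bx x n := by
  intro e he
  unfold eb at he
  rw [Finset.mem_filter, Finset.mem_product] at he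
  exact ⟨he.1.1, he.2⟩

lemma phi_le (hADD : T_ADD) (hFKG : T_FKG) {p q : ℝ} (hp : 0 < p) (hp1 : p < 1) (hq : 1 ≤ q)
    (n : ℕ) (e : Ed d) (he : e ∈ eb (0 : Vx d) n) (F : Finset (Ed d)) (heF : e ∈ F)
    (f : Finset (Ed d) → ℝ) (hf : ∀ ω, 0 ≤ f ω) :
    phi (0 : Vx d) n p q (fun ω => f (insert e (ω ∩ F))) ≤
      (q / p) * phi (0 : Vx d) n p q (fun ω => f (ω ∩ F)) := by
  have hpos := (hFKG (Vx d) (Ed d) Prod.fst tgt (Wir 0 n) (bx 0 n) (eb 0 n) p q hp hp1 hq
    (eb_ends 0 n)).2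
  have h1 := fin_sum hADD Prod.fst tgt (Wir (0 : Vx d) n) (bx 0 n) (eb 0 n) hp hp1 hq e he
    (eb_ends 0 n e he).1 (eb_ends 0 n e he).2 (fun ω => f (ω ∩ F)) (fun ω => hf _)
  have h2 : ∀ ω : Finset (Ed d), insert e ω ∩ F = insert e (ω ∩ F) := fun ω =>
    Finset.insert_inter_of_mem heF
  simp only [h2] at h1
  unfold phi Ex
  rw [← mul_div_assoc]
  exact div_le_div_of_nonneg_right h1 hpos.le

open Classical in
lemma real_eq (hLOC : T_LOC) (μ : Measure (Ed d → Bool)) (F : Finset (Ed d))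
    (Q : Finset (Ed d) → Prop) :
    μ.real {ω | Q (rs F (cfg ω))} = ∫ ω, (if Q (rs F (cfg ω)) then (1 : ℝ) else 0) ∂μ := by
  have hm : MeasurableSet {ω : Ed d → Bool | Q (rs F (cfg ω))} := (hLOC d 0 0 F).2 Q
  rw [← integral_indicator_one hm]
  refine integral_congr_ae (Filter.Eventually.of_forall fun ω => ?_)
  show Set.indicator _ _ ω = (if Q (rs F (cfg ω)) then (1 : ℝ) else 0)
  by_cases h : Q (rs F (cfg ω))
  · rw [if_pos h, Set.indicator_of_mem (show ω ∈ {ω : Ed d → Bool | Q (rs F (cfg ω))} from h)]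
    rfl
  · rw [if_neg h, Set.indicator_of_notMem
      (show ω ∉ {ω : Ed d → Bool | Q (rs F (cfg ω))} from h)]

lemma rs_union (F : Finset (Ed d)) (O : Set (Ed d)) (e : Ed d) :
    rs F (O ∪ {e}) = if e ∈ F then insert e (rs F O) else rs F O := by
  classical
  unfold rs
  ext x
  by_cases he : e ∈ F
  · rw [if_pos he]
    simp only [Finset.mem_filter, Finset.mem_insert, Set.mem_union, Set.mem_singleton_iff]
    constructor
    · rintro ⟨h1, h2 | h2⟩
      · exact Or.inr ⟨h1, h2⟩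
      · exact Or.inl h2
    · rintro (h1 | ⟨h1, h2⟩)
      · exact ⟨h1 ▸ he, Or.inr h1⟩
      · exact ⟨h1, Or.inl h2⟩
  · rw [if_neg he]
    simp only [Finset.mem_filter, Set.mem_union, Set.mem_singleton_iff]
    constructor
    · rintro ⟨h1, h2 | h2⟩
      · exact ⟨h1, h2⟩
      · exact absurd (h2 ▸ h1) he
    · rintro ⟨h1, h2⟩
      exact ⟨h1, Or.inl h2⟩

lemma single (hADD : T_ADD) (hFKG : T_FKG) (hLOC : T_LOC) {p q : ℝ} (hp : 0 < p) (hp1 : p < 1)
    (hq : 1 ≤ q) (μ : Measure (Ed d → Bool)) (hμ : IsWired d p q μ) (F : Finset (Ed d))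
    (e : Ed d) (Q : Finset (Ed d) → Prop) :
    μ.real {ω | Q (rs F (cfg ω ∪ {e}))} ≤ (q / p) * μ.real {ω | Q (rs F (cfg ω))} := by
  classical
  have hqp : 1 ≤ q / p := by
    rw [le_div_iff₀ hp]
    linarith
  by_cases heF : e ∈ F
  · have h1 : {ω : Ed d → Bool | Q (rs F (cfg ω ∪ {e}))} =
        {ω | (fun T => Q (insert e T)) (rs F (cfg ω))} := by
      ext ω
      simp only [Set.mem_ofPred_eq]
      rw [rs_union, if_pos heF]
    rw [h1, real_eq hLOC μ F (fun T => Q (insert e T)), real_eq hLOC μ F Q]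
    have h2 := ((hLOC d p q F).1 μ hμ (fun T => if Q (insert e T) then (1 : ℝ) else 0)).1
    have h3 := ((hLOC d p q F).1 μ hμ (fun T => if Q T then (1 : ℝ) else 0)).1
    refine le_of_tendsto_of_tendsto h2 (h3.const_mul (q / p)) ?_
    filter_upwards [ev_eb e] with n hn
    exact phi_le hADD hFKG hp hp1 hq n e hn F heF (fun T => if Q T then (1 : ℝ) else 0)
      (fun ω => by split_ifs <;> norm_num)
  · have h1 : {ω : Ed d → Bool | Q (rs F (cfg ω ∪ {e}))} = {ω | Q (rs F (cfg ω))} := by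
      ext ω
      simp only [Set.mem_ofPred_eq]
      rw [rs_union, if_neg heF]
    rw [h1]
    have h2 : 0 ≤ μ.real {ω : Ed d → Bool | Q (rs F (cfg ω))} := measureReal_nonneg
    nlinarith

end FEN_

open FEN_ in
theorem p_FEN (hADD : T_ADD) (hFKG : T_FKG) (hLOC : T_LOC) : T_FEN := by
  classical
  intro d p q hp hp1 hq μ hμ F P
  induction P using Finset.induction_on with
  | empty =>
    intro Q
    simp
  | insert e P he ih =>
    intro Q
    set Q' : Finset (Ed d) → Prop := fun T => Q (if e ∈ F then insert e T else T) with hQ'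
    have h1 : {ω : Ed d → Bool | Q (rs F (cfg ω ∪ ((insert e P : Finset (Ed d)) :
        Set (Ed d))))} = {ω | Q' (rs F (cfg ω ∪ (P : Set (Ed d))))} := by
      ext ω
      have h2 : cfg ω ∪ ((insert e P : Finset (Ed d)) : Set (Ed d)) =
          (cfg ω ∪ (P : Set (Ed d))) ∪ {e} := by
        rw [Finset.coe_insert, Set.insert_eq, Set.union_comm {e}, Set.union_assoc]
      simp only [Set.mem_ofPred_eq, hQ']
      rw [h2, rs_union]
    have h3 : {ω : Ed d → Bool | Q' (rs F (cfg ω))} = {ω | Q (rs F (cfg ω ∪ {e}))} := by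
      ext ω
      simp only [Set.mem_ofPred_eq, hQ']
      rw [rs_union]
    have hqp : 0 ≤ (q / p) ^ P.card := by
      have h4 : 0 ≤ q / p := div_nonneg (by linarith) hp.le
      positivity
    rw [h1, Finset.card_insert_of_notMem he, pow_succ]
    calc μ.real {ω | Q' (rs F (cfg ω ∪ (P : Set (Ed d))))}
        ≤ (q / p) ^ P.card * μ.real {ω | Q' (rs F (cfg ω))} := ih Q'
      _ = (q / p) ^ P.card * μ.real {ω | Q (rs F (cfg ω ∪ {e}))} := by rw [h3]
      _ ≤ (q / p) ^ P.card * ((q / p) * μ.real {ω | Q (rs F (cfg ω))}) :=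
        mul_le_mul_of_nonneg_left (single hADD hFKG hLOC hp hp1 hq μ hμ F e Q) hqp
      _ = (q / p) ^ P.card * (q / p) * μ.real {ω | Q (rs F (cfg ω))} := by ring

end Pool.Agent.FKT
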