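import Pool.Agent.FKT.TargetsB

/-!
# FKT, SUR: surgery, deterministic part
-/

set_option autoImplicit false

namespace Pool.Agent.FKT

open Filter MeasureTheory

namespace SUR_

theorem inv {α : Type} {r : α → α → Prop} {P : α → Prop} (h : ∀ a b, r a b → (P a ↔ P b))
    {a b : α} (hab : Relation.EqvGen r a b) : P a ↔ P b := by
  induction hab with
  | rel a b hr => exact h a b hr
  | refl a => exact Iff.rfl
  | symm a b _ ih => exact ih.symm
  | trans a b c _ _ ih1 ih2 => exact ih1.trans ih2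

theorem con_mono {V E : Type} {s t : E → V} {R : V → V → Prop} {O O' : Set E}
    (h : O ⊆ O') {a b : V} (hab : Con s t R O a b) : Con s t R O' a b := by
  induction hab with
  | rel a b hr =>
    rcases hr with hr | ⟨e, he, h1, h2⟩
    · exact Relation.EqvGen.rel _ _ (Or.inl hr)
    · exact Relation.EqvGen.rel _ _ (Or.inr ⟨e, h he, h1, h2⟩)
  | refl a => exact Relation.EqvGen.refl a
  | symm a b _ ih => exact Relation.EqvGen.symm _ _ ih
  | trans a b c _ _ ih1 ih2 => exact Relation.EqvGen.trans _ _ _ ih1 ih2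

/-- adding one edge -/
theorem add_edge {V E : Type} {s t : E → V} {W W' : Set E} {e : E} (hW : W' ⊆ insert e W)
    {u v : V} (huv : Con s t (no V) W' u v) (hn : ¬ Con s t (no V) W u v) :
    (Con s t (no V) W u (s e) ∧ Con s t (no V) W v (t e)) ∨
      (Con s t (no V) W u (t e) ∧ Con s t (no V) W v (s e)) := by
  let P : V → Prop := fun w => Con s t (no V) W u w ∨
    ((Con s t (no V) W u (s e) ∨ Con s t (no V) W u (t e)) ∧
      (Con s t (no V) W w (s e) ∨ Con s t (no V) W w (t e)))
  have hstep : ∀ a b, Step s t (no V) W' a b → (P a ↔ P b) := by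
    intro a b hab
    rcases hab with hab | ⟨f, hf, h1, h2⟩
    · exact absurd hab (by simp [no])
    · rcases hW hf with rfl | hf'
      · subst h1 h2
        have hr : Con s t (no V) W (s f) (s f) := Relation.EqvGen.refl _
        have hr' : Con s t (no V) W (t f) (t f) := Relation.EqvGen.refl _
        constructor
        · rintro (h3 | ⟨h3, _⟩)
          · exact Or.inr ⟨Or.inl h3, Or.inr hr'⟩
          · exact Or.inr ⟨h3, Or.inr hr'⟩
        · rintro (h3 | ⟨h3, _⟩)
          · exact Or.inr ⟨Or.inr h3, Or.inl hr⟩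
          · exact Or.inr ⟨h3, Or.inl hr⟩
      · have hab : Con s t (no V) W a b :=
          Relation.EqvGen.rel _ _ (Or.inr ⟨f, hf', h1, h2⟩)
        have hba : Con s t (no V) W b a := Relation.EqvGen.symm _ _ hab
        constructor
        · rintro (h3 | ⟨h3, h4⟩)
          · exact Or.inl (Relation.EqvGen.trans _ _ _ h3 hab)
          · refine Or.inr ⟨h3, ?_⟩
            rcases h4 with h4 | h4
            · exact Or.inl (Relation.EqvGen.trans _ _ _ hba h4)
            · exact Or.inr (Relation.EqvGen.trans _ _ _ hba h4)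
        · rintro (h3 | ⟨h3, h4⟩)
          · exact Or.inl (Relation.EqvGen.trans _ _ _ h3 hba)
          · refine Or.inr ⟨h3, ?_⟩
            rcases h4 with h4 | h4
            · exact Or.inl (Relation.EqvGen.trans _ _ _ hab h4)
            · exact Or.inr (Relation.EqvGen.trans _ _ _ hab h4)
  have hPu : P u := Or.inl (Relation.EqvGen.refl u)
  have hPv : P v := (inv hstep huv).1 hPu
  rcases hPv with h1 | ⟨h1, h2⟩
  · exact absurd h1 hn
  · rcases h1 with h1 | h1 <;> rcases h2 with h2 | h2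
    · exact absurd (Relation.EqvGen.trans _ _ _ h1 (Relation.EqvGen.symm _ _ h2)) hn
    · exact Or.inl ⟨h1, h2⟩
    · exact Or.inr ⟨h1, h2⟩
    · exact absurd (Relation.EqvGen.trans _ _ _ h1 (Relation.EqvGen.symm _ _ h2)) hn

variable {d : ℕ}

theorem mem_bx (x v : Vx d) (n : ℕ) :
    v ∈ bx x n ↔ ∀ i, x i - n ≤ v i ∧ v i ≤ x i + n := by
  unfold bx
  rw [Finset.mem_Icc]
  constructor
  · rintro ⟨h1, h2⟩ i
    exact ⟨h1 i, h2 i⟩
  · intro h
    exact ⟨fun i => (h i).1, fun i => (h i).2⟩

theorem mem_bd (x v : Vx d) (n : ℕ) :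
    v ∈ bd x n ↔ v ∈ bx x n ∧ ∃ i, v i = x i - n ∨ v i = x i + n := by
  unfold bd
  rw [Finset.mem_filter]

theorem mem_eb (x : Vx d) (n : ℕ) (e : Ed d) :
    e ∈ eb x n ↔ e.1 ∈ bx x n ∧ tgt e ∈ bx x n := by
  unfold eb
  rw [Finset.mem_filter, Finset.mem_product]
  simp

theorem tgt_apply (e : Ed d) (i : Fin d) : tgt e i = e.1 i + (if i = e.2 then 1 else 0) := by
  unfold tgt
  by_cases hi : i = e.2
  · rw [hi]
    simp
  · simp [hi]

/-- the closed set argument -/
theorem key (O : Set (Ed d)) (m : ℕ) (y v z : Vx d) (hv : v ∈ bx y m)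
    (hz : z ∈ bx y m → z ∈ bd y m) (hzv : Cn O z v) :
    ∃ b ∈ bd y m, Cn (O ∩ (eb y m : Set (Ed d))) b v := by
  by_contra hno
  push Not at hno
  have hP : ∀ a b : Vx d, Step Prod.fst tgt (no (Vx d)) O a b →
      ((a ∈ bx y m ∧ a ∉ bd y m ∧ Cn (O ∩ (eb y m : Set (Ed d))) a v) ↔
      (b ∈ bx y m ∧ b ∉ bd y m ∧ Cn (O ∩ (eb y m : Set (Ed d))) b v)) := by
    intro a b hab
    rcases hab with hab | ⟨e, he, h1, h2⟩
    · exact absurd hab (by simp [no])
    · have hint : ∀ w : Vx d, w ∈ bx y m → w ∉ bd y m →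
          ∀ i, y i - (m : ℤ) < w i ∧ w i < y i + m := by
        intro w hw hw' i
        rw [mem_bd] at hw'
        push Not at hw'
        have h3 := (hw' hw i)
        have h4 := (mem_bx y w m).mp hw i
        omega
      have hbe : ∀ i, b i = a i + (if i = e.2 then 1 else 0) := by
        intro i
        rw [← h2, ← h1]
        exact tgt_apply e i
      have hF : a ∈ bx y m → b ∈ bx y m → Cn (O ∩ (eb y m : Set (Ed d))) a b := by
        intro ha hb
        refine Relation.EqvGen.rel _ _ (Or.inr ⟨e, ⟨he, ?_⟩, h1, h2⟩)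
        rw [Finset.mem_coe, mem_eb]
        exact ⟨by rw [h1]; exact ha, by rw [h2]; exact hb⟩
      constructor
      · rintro ⟨ha, ha', hc⟩
        have hb : b ∈ bx y m := by
          rw [mem_bx]
          intro i
          have h3 := hint a ha ha' i
          have h4 := hbe i
          split_ifs at h4 <;> omega
        have hcb : Cn (O ∩ (eb y m : Set (Ed d))) b v :=
          Relation.EqvGen.trans _ _ _ (Relation.EqvGen.symm _ _ (hF ha hb)) hc
        exact ⟨hb, fun hbb => hno b hbb hcb, hcb⟩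
      · rintro ⟨hb, hb', hc⟩
        have ha : a ∈ bx y m := by
          rw [mem_bx]
          intro i
          have h3 := hint b hb hb' i
          have h4 := hbe i
          split_ifs at h4 <;> omega
        have hca : Cn (O ∩ (eb y m : Set (Ed d))) a v :=
          Relation.EqvGen.trans _ _ _ (hF ha hb) hc
        exact ⟨ha, fun haa => hno a haa hca, hca⟩
  have hvv : v ∈ bx y m ∧ v ∉ bd y m ∧ Cn (O ∩ (eb y m : Set (Ed d))) v v :=
    ⟨hv, fun h => hno v h (Relation.EqvGen.refl v), Relation.EqvGen.refl v⟩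
  obtain ⟨hz1, hz2, -⟩ := (inv hP hzv).mpr hvv
  exact hz2 (hz hz1)

/-- boxes are connected -/
theorem box_con (r : ℕ) : ∀ (N : ℕ) (x : Vx d), (∑ i, (x i).natAbs) = N →
    x ∈ bx (0 : Vx d) r → Cn (eb (0 : Vx d) r : Set (Ed d)) 0 x := by
  classical
  intro N
  induction N using Nat.strong_induction_on with
  | _ N ih =>
    intro x hN hx
    by_cases h0 : x = 0
    · rw [h0]
      exact Relation.EqvGen.refl _
    · obtain ⟨i, hi⟩ : ∃ i, x i ≠ 0 := by
        by_contra hcon
        push Not at hcon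
        exact h0 (funext hcon)
      have hxb := (mem_bx 0 x r).1 hx
      simp only [Pi.zero_apply, zero_sub, zero_add] at hxb
      have hsum : ∀ x' : Vx d, (∀ j, j ≠ i → x' j = x j) → (x' i).natAbs < (x i).natAbs →
          (∑ j, (x' j).natAbs) < N := by
        intro x' h1 h2
        rw [← hN]
        refine Finset.sum_lt_sum (fun j _ => ?_) ⟨i, Finset.mem_univ i, h2⟩
        by_cases hj : j = i
        · rw [hj]
          exact h2.le
        · rw [h1 j hj]
      rcases lt_or_gt_of_ne hi with hlt | hgt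
      · -- x i < 0
        set x' : Vx d := tgt (x, i) with hx'
        have h1 : ∀ j, j ≠ i → x' j = x j := by
          intro j hj
          rw [hx', tgt_apply]
          simp [hj]
        have h2 : x' i = x i + 1 := by
          rw [hx', tgt_apply]
          simp
        have hx'b : x' ∈ bx (0 : Vx d) r := by
          rw [mem_bx]
          intro j
          simp only [Pi.zero_apply, zero_sub, zero_add]
          by_cases hj : j = i
          · rw [hj, h2]
            have := hxb i
            omega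
          · rw [h1 j hj]
            exact hxb j
        have h3 := ih _ (hsum x' h1 (by omega)) x' rfl hx'b
        have h4 : Cn (eb (0 : Vx d) r : Set (Ed d)) x x' := by
          refine Relation.EqvGen.rel _ _ (Or.inr ⟨(x, i), ?_, rfl, rfl⟩)
          rw [Finset.mem_coe, mem_eb]
          exact ⟨hx, hx'b⟩
        exact Relation.EqvGen.trans _ _ _ h3 (Relation.EqvGen.symm _ _ h4)
      · -- x i > 0
        set x' : Vx d := fun j => if j = i then x j - 1 else x j with hx'
        have h1 : ∀ j, j ≠ i → x' j = x j := by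
          intro j hj
          rw [hx']
          simp [hj]
        have h2 : x' i = x i - 1 := by
          rw [hx']
          simp
        have hx'b : x' ∈ bx (0 : Vx d) r := by
          rw [mem_bx]
          intro j
          simp only [Pi.zero_apply, zero_sub, zero_add]
          by_cases hj : j = i
          · rw [hj, h2]
            have := hxb i
            omega
          · rw [h1 j hj]
            exact hxb j
        have h3 := ih _ (hsum x' h1 (by omega)) x' rfl hx'b
        have h5 : tgt (x', i) = x := by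
          funext j
          rw [tgt_apply]
          by_cases hj : j = i
          · rw [hj]
            simp only [if_true]
            omega
          · simp only [if_neg hj, add_zero]
            exact h1 j hj
        have h4 : Cn (eb (0 : Vx d) r : Set (Ed d)) x' x := by
          refine Relation.EqvGen.rel _ _ (Or.inr ⟨(x', i), ?_, rfl, h5⟩)
          rw [Finset.mem_coe, mem_eb, h5]
          exact ⟨hx'b, hx⟩
        exact Relation.EqvGen.trans _ _ _ h3 h4

end SUR_

open SUR_ in
theorem p_SUR : T_SUR := by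
  classical
  intro d r n O x hrn hx ⟨z1, hz1, hc1⟩ ⟨z2, hz2, hc2⟩ hnc
  -- the candidates
  let S : Finset (Finset (Ed d)) := (eb (0 : Vx d) r).powerset.filter fun P =>
    ¬ Cn ((O ∪ (P : Set (Ed d))) ∩ (eb (0 : Vx d) n : Set (Ed d))) 0 x
  have hS : (∅ : Finset (Ed d)) ∈ S := by
    refine Finset.mem_filter.2 ⟨Finset.empty_mem_powerset _, ?_⟩
    rw [Finset.coe_empty, Set.union_empty]
    exact hnc
  obtain ⟨P, hPS, hPmax⟩ := Finset.exists_max_image S Finset.card ⟨∅, hS⟩
  obtain ⟨hPsub, hPn⟩ := Finset.mem_filter.1 hPS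
  rw [Finset.mem_powerset] at hPsub
  have hsub : (eb (0 : Vx d) r : Set (Ed d)) ⊆ (eb (0 : Vx d) n : Set (Ed d)) := by
    have hbx : ∀ v : Vx d, v ∈ bx (0 : Vx d) r → v ∈ bx (0 : Vx d) n := by
      intro v hv
      rw [mem_bx] at hv ⊢
      intro j
      have h1 := hv j
      simp only [Pi.zero_apply, zero_sub, zero_add] at h1 ⊢
      omega
    intro e he
    rw [Finset.mem_coe, mem_eb] at he ⊢
    exact ⟨hbx _ he.1, hbx _ he.2⟩
  obtain ⟨e, he, heP⟩ : ∃ e ∈ eb (0 : Vx d) r, e ∉ P := by
    by_contra hcon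
    push Not at hcon
    apply hPn
    refine con_mono ?_ (box_con r _ x rfl hx)
    intro f hf
    exact ⟨Or.inr (hcon f hf), hsub hf⟩
  have hadd : Cn ((O ∪ ((insert e P : Finset (Ed d)) : Set (Ed d))) ∩
      (eb (0 : Vx d) n : Set (Ed d))) 0 x := by
    by_contra hcon
    have h1 : insert e P ∈ S := by
      refine Finset.mem_filter.2 ⟨?_, hcon⟩
      rw [Finset.mem_powerset]
      exact Finset.insert_subset he hPsub
    have h2 := hPmax _ h1
    rw [Finset.card_insert_of_notMem heP] at h2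
    omega
  set W : Set (Ed d) := (O ∪ (P : Set (Ed d))) ∩ (eb (0 : Vx d) n : Set (Ed d)) with hW
  have hins : (O ∪ ((insert e P : Finset (Ed d)) : Set (Ed d))) ∩
      (eb (0 : Vx d) n : Set (Ed d)) ⊆ insert e W := by
    rintro f ⟨h1, h2⟩
    rcases h1 with h1 | h1
    · exact Or.inr ⟨Or.inl h1, h2⟩
    · rw [Finset.mem_coe, Finset.mem_insert] at h1
      rcases h1 with h1 | h1
      · exact Or.inl h1
      · exact Or.inr ⟨Or.inr h1, h2⟩
  have hends := add_edge hins hadd hPn
  -- both ends are connected to the boundary and not to each other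
  have hOW : O ∩ (eb (0 : Vx d) n : Set (Ed d)) ⊆ W := fun f hf => ⟨Or.inl hf.1, hf.2⟩
  have hd1 : Cn W z1 0 := con_mono hOW hc1
  have hd2 : Cn W z2 x := con_mono hOW hc2
  have hkey : (∃ z ∈ bd (0 : Vx d) n, Cn W z e.1) ∧ (∃ z ∈ bd (0 : Vx d) n, Cn W z (tgt e)) ∧
      ¬ Cn W e.1 (tgt e) := by
    rcases hends with ⟨h1, h2⟩ | ⟨h1, h2⟩
    · refine ⟨⟨z1, hz1, Relation.EqvGen.trans _ _ _ hd1 h1⟩,
        ⟨z2, hz2, Relation.EqvGen.trans _ _ _ hd2 h2⟩, fun h3 => hPn ?_⟩
      exact Relation.EqvGen.trans _ _ _ h1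
        (Relation.EqvGen.trans _ _ _ h3 (Relation.EqvGen.symm _ _ h2))
    · refine ⟨⟨z2, hz2, Relation.EqvGen.trans _ _ _ hd2 h2⟩,
        ⟨z1, hz1, Relation.EqvGen.trans _ _ _ hd1 h1⟩, fun h3 => hPn ?_⟩
      exact Relation.EqvGen.trans _ _ _ h1
        (Relation.EqvGen.trans _ _ _ (Relation.EqvGen.symm _ _ h3)
          (Relation.EqvGen.symm _ _ h2))
  obtain ⟨⟨w1, hw1, hk1⟩, ⟨w2, hw2, hk2⟩, hk3⟩ := hkey
  have heb := (mem_eb 0 r e).1 he
  have hy := (mem_bx 0 e.1 r).1 heb.1
  simp only [Pi.zero_apply, zero_sub, zero_add] at hy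
  have hcast : ((n - r : ℕ) : ℤ) = (n : ℤ) - r := by
    push_cast [Nat.cast_sub hrn.le]
    ring
  have hfar : ∀ z : Vx d, z ∈ bd (0 : Vx d) n → z ∈ bx e.1 (n - r) → z ∈ bd e.1 (n - r) := by
    intro z hz hzb
    rw [mem_bd] at hz ⊢
    refine ⟨hzb, ?_⟩
    obtain ⟨_, i, hi⟩ := hz
    have h1 := (mem_bx e.1 z (n - r)).1 hzb i
    have h2 := hy i
    simp only [Pi.zero_apply, zero_sub, zero_add] at hi
    refine ⟨i, ?_⟩
    rw [hcast] at h1 ⊢
    omega
  have hv1 : e.1 ∈ bx e.1 (n - r) := by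
    rw [mem_bx]
    intro i
    omega
  have hv2 : tgt e ∈ bx e.1 (n - r) := by
    rw [mem_bx]
    intro i
    rw [tgt_apply, hcast]
    split_ifs <;> omega
  have hsub2 : (eb e.1 (n - r) : Set (Ed d)) ⊆ (eb (0 : Vx d) n : Set (Ed d)) := by
    have hbx : ∀ v : Vx d, v ∈ bx e.1 (n - r) → v ∈ bx (0 : Vx d) n := by
      intro v hv
      rw [mem_bx] at hv ⊢
      intro j
      have h1 := hv j
      have h2 := hy j
      rw [hcast] at h1
      simp only [Pi.zero_apply, zero_sub, zero_add]
      omega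
    intro f hf
    rw [Finset.mem_coe, mem_eb] at hf ⊢
    exact ⟨hbx _ hf.1, hbx _ hf.2⟩
  obtain ⟨b1, hb1, hl1⟩ := key W (n - r) e.1 e.1 w1 hv1 (hfar w1 hw1) hk1
  obtain ⟨b2, hb2, hl2⟩ := key W (n - r) e.1 (tgt e) w2 hv2 (hfar w2 hw2) hk2
  have hWs : W ∩ (eb e.1 (n - r) : Set (Ed d)) ⊆
      (O ∪ (P : Set (Ed d))) ∩ (eb e.1 (n - r) : Set (Ed d)) := fun f hf => ⟨hf.1.1, hf.2⟩
  refine ⟨P, hPsub, e, he, ?_, ⟨b1, hb1, con_mono hWs hl1⟩, ⟨b2, hb2, con_mono hWs hl2⟩⟩
  intro hcon
  apply hk3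
  have hWs' : (O ∪ (P : Set (Ed d))) ∩ (eb e.1 (n - r) : Set (Ed d)) ⊆ W :=
    fun f hf => ⟨hf.1, hsub2 hf.2⟩
  exact con_mono hWs' hcon

end Pool.Agent.FKT
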