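import Pool.Agent.FKT.DefsB
import Pool.Agent.FKT.TargetsA

/-!
# Project FKT, part B: targets (the box is connected to infinity with high probability)

Final theorem of part B: for `q ≥ 1` and `pcr d q < p < 1` there are `c, C > 0` such that the
wired measure gives probability at most `C / r^c` to the event that no vertex of `Λ_r` has an
infinite cluster. Every docstring contains the proof.
-/

set_option autoImplicit false

namespace Pool.Agent.FKT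

open Filter MeasureTheory

/-! ## Entropy -/

/-- LGS. The log-sum inequality. Proof: let `A = Σ a`, `B = Σ b`. If `A = 0` all `a i = 0`.
Otherwise `B > 0`, and if `a i > 0` then `b i > 0` and
`log (a i / b i) - log (A / B) = log (a i B / (b i A)) ≥ 1 - b i A / (a i B)`
(`Real.one_sub_inv_le_log_of_pos`); multiply by `a i`; for `a i = 0` trivial; sum up. -/
def T_LGS : Prop := ∀ (ι : Type) (I : Finset ι) (a b : ι → ℝ), (∀ i ∈ I, 0 ≤ a i) →
  (∀ i ∈ I, 0 ≤ b i) → (∀ i ∈ I, b i = 0 → a i = 0) →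
    (∑ i ∈ I, a i) * Real.log ((∑ i ∈ I, a i) / ∑ i ∈ I, b i) ≤
      ∑ i ∈ I, a i * Real.log (a i / b i)

/-- ENU. Entropy of the square of a two-valued function. Proof: let `φ = h^2`, `m = Σ w φ`. If
`m = 0` then both terms vanish. Otherwise `Σ w φ log φ - m log m = Σ w φ log (φ / m) ≤
Σ w φ (φ / m - 1) = (Σ w φ^2 - m^2) / m`. With `X = Σ_{β} w` this is
`X (1 - X) (x^2 - y^2)^2 / (X x^2 + (1 - X) y^2)`, and `(x + y)^2 ≤ 2 x^2 + 2 y^2`,
`X (1 - X) (x^2 + y^2) ≤ X x^2 + (1 - X) y^2`. -/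
def T_ENU : Prop := ∀ (ι : Type) [Fintype ι] (w : ι → ℝ) (β : ι → Bool) (x y : ℝ),
  (∀ i, 0 ≤ w i) → ∑ i, w i = 1 →
    (∑ i, w i * ((if β i = true then x else y) ^ 2 *
        Real.log ((if β i = true then x else y) ^ 2))) -
      (∑ i, w i * (if β i = true then x else y) ^ 2) *
        Real.log (∑ i, w i * (if β i = true then x else y) ^ 2) ≤ 2 * (x - y) ^ 2

/-- ENL. Lower bound for the entropy of a square. Proof: `A2 = Σ w h^2`, `A1 = Σ w |h|`. If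
`A2 = 0` trivial. Otherwise `A1 > 0` and for `h i ≠ 0`:
`log (h^2 / A2) = 2 log (|h| A1 / A2) + log (A2 / A1^2) ≥ 2 (1 - A2 / (|h| A1)) + log (A2 / A1^2)`.
Multiply by `w h^2` and sum. -/
def T_ENL : Prop := ∀ (ι : Type) [Fintype ι] (w h : ι → ℝ), (∀ i, 0 ≤ w i) → ∑ i, w i = 1 →
  (∑ i, w i * h i ^ 2) * Real.log ((∑ i, w i * h i ^ 2) / (∑ i, w i * |h i|) ^ 2) ≤
    (∑ i, w i * (h i ^ 2 * Real.log (h i ^ 2))) -
      (∑ i, w i * h i ^ 2) * Real.log (∑ i, w i * h i ^ 2)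

/-- PRD. Identities for averages and conditional expectations. Proof: finite sums. (2): the map
`(u, s) ↦` (update of `u` at `i` by `s`, old value `u i`) preserves the weight
`∏ l * l i s`. (5): both sides are the sum over `v` and `s` of `∏ l (v) * l i s * f` at the
configuration with value `s` at `i`, `u k` for `k < j`, `v k` for `k ≥ j` (if `i ≥ j` the left
side does not depend on the updated coordinate; use (2)). (6): split the sum over `u` into its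
parts `< j` and `≥ j` (the pair `(u, v)` and the pair with the coordinates `≥ j` exchanged have
the same weight). (7) similar. -/
def T_PRD : Prop := ∀ (n : ℕ) (S : Type) [Fintype S] (l : Fin n → S → ℝ), PW l →
  PE l (fun _ => 1) = 1 ∧
  (∀ (i : Fin n) (f : (Fin n → S) → ℝ), PE l (Av l i f) = PE l f) ∧
  (∀ (i : Fin n) (f g : (Fin n → S) → ℝ) (u : Fin n → S),
    Av l i (fun v => f v * Av l i g v) u = Av l i f u * Av l i g u) ∧
  (∀ (f : (Fin n → S) → ℝ) (u : Fin n → S), CE l 0 f u = PE l f ∧ CE l n f u = f u) ∧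
  (∀ (i : Fin n) (j : ℕ) (f : (Fin n → S) → ℝ) (u : Fin n → S),
    Av l i (CE l j f) u = CE l j (Av l i f) u) ∧
  (∀ (j : ℕ) (f g : (Fin n → S) → ℝ),
    PE l (fun u => CE l j f u * g u) = PE l fun u => CE l j f u * CE l j g u) ∧
  ∀ (j k : ℕ) (f : (Fin n → S) → ℝ) (u : Fin n → S), CE l j (CE l k f) u = CE l (min j k) f u

/-- ENT. Tensorisation of the entropy. Proof: induction on `n`, writing `Fin (n+1) → S` as
`S × (Fin n → S)` (`Fin.cons`, `Fin.consEquiv`, `Fin.prod_univ_succ`, `Fin.sum_univ_succ`):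
`Et φ = Σ_s l 0 s Et_rest (φ (s, ·)) + Ent_s (E_rest φ)`; the first term is bounded by induction,
and `Ent_s (Σ_v w_v φ (·, v)) ≤ Σ_v w_v Ent_s (φ (·, v))` by T_LGS for every `s` (with
`a_v = w_v φ (s, v)`, `b_v = w_v Σ_{s'} l 0 s' φ (s', v)`; the terms with `l 0 s = 0` vanish).
Or: `φ_j = CE l j φ`, `Et φ = Σ_j PE (φ log (φ_{j+1} / φ_j))` for `φ > 0` (apply it to `φ + ε` and
let `ε → 0`, `Real.continuous_mul_log`), and `Av_j (φ log ψ) ≤ Ei_j φ` when `Av_j ψ = 1`. -/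
def T_ENT : Prop := ∀ (n : ℕ) (S : Type) [Fintype S] (l : Fin n → S → ℝ), PW l →
  ∀ f : (Fin n → S) → ℝ, (∀ u, 0 ≤ f u) → Et l f ≤ ∑ i, PE l (Ei l i f)

/-- ORT. Orthogonality of the martingale differences and commutation. Proof: by T_PRD (6), (7)
`PE (Lj j f ^ 2) = PE (CE (j+1) f ^ 2) - PE (CE j f ^ 2)`: telescoping with (4) gives (1). (2):
`PE (Vi i h) = PE ((h - Av i h)^2)` by T_PRD (2), (3); `Lj j` and `Av i` commute (5), so
`h - Av i h = Lj j (f - Av i f)` for `h = Lj j f`; by (1) for `f - Av i f`, whose mean is `0`, the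
sum is `PE ((f - Av i f)^2) = PE (Vi i f)`. (3): if `0 ≤ f ≤ 1` then `0 ≤ CE ≤ 1`, so
`|Lj j f u| ≤ 1` and `Lj^2 ≤ |Lj|`; use (1). Hypothesis: T_PRD. -/
def T_ORT : Prop := ∀ (n : ℕ) (S : Type) [Fintype S] (l : Fin n → S → ℝ), PW l →
  ∀ f : (Fin n → S) → ℝ,
    (∑ j ∈ Finset.range n, PE l (fun u => Lj l j f u ^ 2) =
      PE l (fun u => f u ^ 2) - PE l f ^ 2) ∧
    (∀ i : Fin n, ∑ j ∈ Finset.range n, PE l (Vi l i (Lj l j f)) = PE l (Vi l i f)) ∧
    ((∀ u, 0 ≤ f u ∧ f u ≤ 1) → PE l (fun u => f u ^ 2) - PE l f ^ 2 ≤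
      ∑ j ∈ Finset.range n, PE l fun u => |Lj l j f u|)

/-- FSA. The Falik-Samorodnitsky inequality. Proof: let `h_j = Lj l j f`, `V = Σ_j PE (h_j^2)`
(T_ORT (1)). By T_ENL (weights `∏ l`), T_ENT for `h_j^2` and the hypothesis,
`PE (h_j^2) log (PE (h_j^2) / (PE |h_j|)^2) ≤ Et (h_j^2) ≤ Σ_i PE (Ei i (h_j^2)) ≤
K Σ_i PE (Vi i h_j)`. Sum over `j`: T_LGS on the left (`PE |h_j| = 0` implies `PE (h_j^2) = 0`)
and T_ORT (2) on the right. Hypotheses: T_LGS, T_ENL, T_ENT, T_PRD, T_ORT. -/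
def T_FSA : Prop := ∀ (n : ℕ) (S : Type) [Fintype S] (l : Fin n → S → ℝ), PW l →
  ∀ (f : (Fin n → S) → ℝ) (K : ℝ),
    (∀ (j : ℕ) (i : Fin n) (u : Fin n → S),
      Ei l i (fun v => Lj l j f v ^ 2) u ≤ K * Vi l i (Lj l j f) u) →
    (PE l (fun u => f u ^ 2) - PE l f ^ 2) *
      Real.log ((PE l (fun u => f u ^ 2) - PE l f ^ 2) /
        ∑ j ∈ Finset.range n, (PE l fun u => |Lj l j f u|) ^ 2) ≤
      K * ∑ i, PE l (Vi l i f)

/-! ## Encoding a monotone measure -/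

/-- RUL. Existence of random rules. Proof: `0 ≤ cpr ≤ 1`. For each `j` let `a = cpr m j` and
`l j r = ` volume of `{U ∈ (0, 1] | ∀ x, r x = true ↔ U ≤ a x}`. The rules
`r_U = (x ↦ decide (U ≤ a x))` partition `(0, 1]`, so the weights sum to `1`, the rules with
`r x = true` have total weight `a x`, and a rule with `l j r ≠ 0` is some `r_U`, so
`a x ≤ a y` and `r x = true` imply `r y = true`. -/
def T_RUL : Prop := ∀ (n : ℕ) (c : ℝ) (m : (Fin n → Bool) → ℝ), Mon c m →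
  ∃ l : Fin n → Rule n → ℝ, Enc m l

/-- BND. The conditional probabilities are in `[c, 1 - c]`, and are increasing. Proof: (1) sum
`lo`, `hi` over the `w` with `trn j w = trn j x` (the involution changing the bit `j` does not
change `trn j w`). (2) let `x ≤ y`. `four_functions_theorem` with all four functions equal to `m`
(lattice `Fin n → Bool`), `s = {w | trn j w = trn j x, w j = true}`,
`t = {w | trn j w = trn j y, w j = false}`: `s ⊼ t` is contained in the set of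
`trn j w = trn j x, w j = false` and `s ⊻ t` in the set of `trn j w = trn j y, w j = true`. This
says `A1 x * A0 y ≤ A0 x * A1 y`, i.e. `cpr m j x ≤ cpr m j y` as all sums are positive.
(3) by definition. (4) sum over the classes of `trn j`. -/
def T_BND : Prop := ∀ (n : ℕ) (c : ℝ) (m : (Fin n → Bool) → ℝ), Mon c m → ∀ j : Fin n,
  (∀ x, c ≤ cpr m j x ∧ cpr m j x ≤ 1 - c) ∧
  (∀ x y : Fin n → Bool, x ≤ y → cpr m j x ≤ cpr m j y) ∧
  (∀ x : Fin n → Bool, cpr m j (trn j x) = cpr m j x) ∧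
  ∑ w, m w * cpr m j w = ∑ w, m w * if w j = true then 1 else 0

/-- STP. The states. Proof: induction on the number of steps. (2) the bit `i` is decided at step
`i` and never changed. (3), (4): up to time `i` the states agree; the bit `i` is `r (st u i)`. -/
def T_STP : Prop := ∀ (n : ℕ) (u : Fin n → Rule n),
  (∀ (v : Fin n → Rule n) (j : ℕ), (∀ i : Fin n, (i : ℕ) < j → u i = v i) → st u j = st v j) ∧
  ((∀ j : ℕ, st u j = trn j (st u n)) ∧ ∀ i : Fin n, st u n i = u i (st u i)) ∧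
  (∀ (i : Fin n) (r r' : Rule n), r (st u i) = r' (st u i) →
    ∀ k, st (Function.update u i r) k = st (Function.update u i r') k) ∧
  ∀ (i : Fin n) (r r' : Rule n), r (st u i) = false → r' (st u i) = true →
    (∀ k : Fin n, i < k → ∀ x y : Fin n → Bool, x ≤ y → u k x = true → u k y = true) →
      ∀ k, st (Function.update u i r) k ≤ st (Function.update u i r') k

/-- LAW. The law of the states. Proof: (1) by induction on `j` (for all `F`): `st u (j+1)` is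
`st u j` with the bit `j` set to `u j (st u j)`, and `st u j` depends only on the `u i`, `i < j`
(T_STP (1)), so `PE (F (st u (j+1))) = PE (cpr m j (st u j) F (.. true ..) + (1 - cpr) F (.. false
..))`; the right side has the same recursion by the definition of `cpr`
(`Σ_{w : trn j w = x, w j = true} m w = cpr m j x * Σ_{w : trn j w = x} m w`). (2) is (1) with
`j = n`. Hypotheses: T_STP, T_BND. -/
def T_LAW : Prop := ∀ (n : ℕ) (c : ℝ) (m : (Fin n → Bool) → ℝ) (l : Fin n → Rule n → ℝ),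
  Mon c m → Enc m l →
    (∀ (j : ℕ) (F : (Fin n → Bool) → ℝ),
      PE l (fun u => F (st u j)) = ∑ w, m w * F (trn j w)) ∧
    ∀ F : (Fin n → Bool) → ℝ, PE l (fun u => F (st u n)) = ∑ w, m w * F w

/-- TWO. Logarithmic Sobolev inequality in one coordinate. Proof: let `h = Lj l j (F (st · n))`.
For `k ≤ i`, `CE l k g (update u i r)` does not depend on `r`; for `k > i` it depends on `r` only
through the bit `r (st u i)` (T_STP (1), (3)). So `r ↦ h (update u i r)` is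
`if r (st u i) then x else y`; T_ENU with the weights `l i` gives `Ei ≤ 2 (x - y)^2`, and
`Vi = X (1 - X) (x - y)^2` with `X = cpr m i (st u i) ∈ [c, 1 - c]` (Enc.mean, T_BND), so
`X (1 - X) ≥ c (1 - c)`. Hypotheses: T_ENU, T_STP, T_BND. -/
def T_TWO : Prop := ∀ (n : ℕ) (c : ℝ) (m : (Fin n → Bool) → ℝ) (l : Fin n → Rule n → ℝ),
  Mon c m → Enc m l → ∀ (F : (Fin n → Bool) → ℝ) (j : ℕ) (i : Fin n) (u : Fin n → Rule n),
    Ei l i (fun v => Lj l j (fun u => F (st u n)) v ^ 2) u ≤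
      2 / (c * (1 - c)) * Vi l i (Lj l j fun u => F (st u n)) u

/-- CPV. The variance in one coordinate is bounded by the covariance. Proof: put
`g u = F (st u n)`, `x(u) = cpr m j (st u j)`, `b(u) = 1` if `u j (st u j) = true`, else `0`. As
a function of the rule `r = u j` (the others fixed) `g` is `gp(u)` if `r (st u j) = true` and
`gm(u)` otherwise (T_STP (1), (3)); if the other rules have nonzero weight they are monotone
(`Enc.mono`, T_BND (2)) so `gm ≤ gp` (T_STP (4), `F` monotone). So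
`Vi l j g = x (1 - x) (gp - gm)^2 ≤ x (1 - x) (gp - gm) = Av j (g b) - Av j g * x` for all `u` of
nonzero weight. Since `x(u)` does not depend on `u j` (T_STP (1)):
`PE (Vi l j g) ≤ PE (g b) - PE (g x)`. Call the right side `Q`. By T_LAW and
`st u j = trn j (st u n)`, `st u n j = u j (st u j)` (T_STP (2)) and T_BND (3):
`Q = Σ m F 1_{w j} - Σ m F cpr m j ≤ cvb m F j` by Mathlib's `fkg` (`F`, `cpr m j` monotone and
nonnegative; `m` log-supermodular) and T_BND (4). This proves (1) and also (2), the bound `Q ≤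
cvb`. Hypotheses: T_PRD, T_STP, T_BND, T_LAW. -/
def T_CPV : Prop := ∀ (n : ℕ) (c : ℝ) (m : (Fin n → Bool) → ℝ) (l : Fin n → Rule n → ℝ),
  Mon c m → Enc m l → ∀ F : (Fin n → Bool) → ℝ, Monotone F → (∀ w, 0 ≤ F w ∧ F w ≤ 1) →
    ∀ j : Fin n, PE l (Vi l j fun u => F (st u n)) ≤ cvb m F j ∧
      PE l (fun u => F (st u n) * if st u n j = true then 1 else 0) -
        PE l (fun u => F (st u n) * cpr m j (st u j)) ≤ cvb m F j

/-- CPL. The absolute mean of the martingale difference is bounded by the covariance. Proof, with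
the symbols of T_CPV: let `G = CE l (j+1) g`. As a function of `r = u j` it is `Dp(u)` if `r (st u j) = true`,
`Dm(u)` otherwise, with `Dm ≤ Dp` (averages over the coordinates `> j` of the functions `gm`,
`gp`; all rules of nonzero weight are monotone; `u i`, `i < j`, arbitrary); and
`CE l j g = x Dp + (1 - x) Dm`. So `Av j |Lj| = 2 x (1 - x) (Dp - Dm) = 2 (Av j (G b) - Av j G * x)`
and `PE |Lj| = 2 (PE (G b) - PE (G x)) = 2 (PE (g b) - PE (g x))`, because `b`, `x` depend only on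
the coordinates `≤ j`. Now T_CPV (2). Hypotheses: T_PRD, T_STP, T_BND, T_CPV. -/
def T_CPL : Prop := ∀ (n : ℕ) (c : ℝ) (m : (Fin n → Bool) → ℝ) (l : Fin n → Rule n → ℝ),
  Mon c m → Enc m l → ∀ F : (Fin n → Bool) → ℝ, Monotone F → (∀ w, 0 ≤ F w ∧ F w ≤ 1) →
    ∀ j : Fin n, PE l (fun u => |Lj l j (fun u => F (st u n)) u|) ≤ 2 * cvb m F j

/-- FSM. The inequality for monotone measures. Proof: T_RUL gives `l`; T_FSA for
`g u = F (st u n)` and `K = 2 / (c (1 - c))` (T_TWO); `V` by T_LAW; T_CPV (1) on the right; on the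
left `Σ_j (PE |Lj|)^2 ≤ 4 Σ cvb^2` (T_CPL; sums over `Finset.range n` and `Fin n`,
`Finset.sum_range`). If `Σ_j (PE |Lj|)^2 = 0` then `V = 0` by T_ORT (3) and the left side is `0`.
The second claim is T_ORT (3) with T_CPL. Hypotheses: T_RUL, T_FSA, T_TWO, T_LAW, T_CPV, T_CPL,
T_ORT. -/
def T_FSM : Prop := ∀ (n : ℕ) (c : ℝ) (m : (Fin n → Bool) → ℝ), Mon c m →
  ∀ F : (Fin n → Bool) → ℝ, Monotone F → (∀ w, 0 ≤ F w ∧ F w ≤ 1) →
    (∑ w, m w * F w ^ 2 - (∑ w, m w * F w) ^ 2) *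
      Real.log ((∑ w, m w * F w ^ 2 - (∑ w, m w * F w) ^ 2) / (4 * ∑ j, cvb m F j ^ 2)) ≤
      2 / (c * (1 - c)) * ∑ j, cvb m F j ∧
    ∑ w, m w * F w ^ 2 - (∑ w, m w * F w) ^ 2 ≤ 2 * ∑ j, cvb m F j

/-- FSF. The same for a measure on the subsets of a finite set. Proof: transport by an enumeration
`Fin n ≃ G` (`G.equivFin`, `n = G.card`): to `w` corresponds the set of the `e ∈ G` whose index
has `w = true`; `⊓`, `⊔` become `∩`, `∪`. Hypothesis: T_FSM. -/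
def T_FSF : Prop := ∀ (E : Type) [DecidableEq E] (G : Finset E) (m : Finset E → ℝ) (c : ℝ),
  (∀ T, T ⊆ G → 0 < m T) → ∑ T ∈ G.powerset, m T = 1 →
  (∀ a b, a ⊆ G → b ⊆ G → m a * m b ≤ m (a ∩ b) * m (a ∪ b)) → 0 < c → c ≤ 1 / 2 →
  (∀ e ∈ G, ∀ T, T ⊆ G → e ∉ T → c * m T ≤ (1 - c) * m (insert e T) ∧
    c * m (insert e T) ≤ (1 - c) * m T) →
  ∀ f : Finset E → ℝ, (∀ a b, a ⊆ b → b ⊆ G → f a ≤ f b) → (∀ a, 0 ≤ f a ∧ f a ≤ 1) →
  ∀ κ : E → ℝ, (∀ e ∈ G, κ e = (∑ T ∈ G.powerset, m T * (f T * if e ∈ T then 1 else 0)) -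
    (∑ T ∈ G.powerset, m T * f T) * ∑ T ∈ G.powerset, m T * if e ∈ T then 1 else 0) →
    (∑ T ∈ G.powerset, m T * f T ^ 2 - (∑ T ∈ G.powerset, m T * f T) ^ 2) *
      Real.log ((∑ T ∈ G.powerset, m T * f T ^ 2 - (∑ T ∈ G.powerset, m T * f T) ^ 2) /
        (4 * ∑ e ∈ G, κ e ^ 2)) ≤ 2 / (c * (1 - c)) * ∑ e ∈ G, κ e ∧
    ∑ T ∈ G.powerset, m T * f T ^ 2 - (∑ T ∈ G.powerset, m T * f T) ^ 2 ≤ 2 * ∑ e ∈ G, κ e

/-! ## The wired measure: marginals, derivative, monotonicity in `p` -/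

/-- MAR. Finite marginals of the wired measure. Proof: for `N` large `F ⊆ eb 0 N = G`; put
`M T = Σ_{ω ⊆ G, ω ∩ F = T} wt ω`, so `phi 0 N (1_{ω ∩ F = T}) = M T / Σ wt`, which tends to
`μ.real (Cyl F T)`. (1) `four_functions_theorem` in `Finset E` for `wt` (log-supermodular on
`G.powerset`, T_ADD) with `s = {ω ⊆ G | ω ∩ F = a}`, `t = {ω ⊆ G | ω ∩ F = b}`. (2) for
`e ∉ ω`, `e ∈ G`, by T_ADD (1), (2): `wt (insert e ω) = (p / (1 - p)) * wt ω` or
`(p / ((1 - p) q)) * wt ω`; since `c ≤ p / (p + q (1 - p)) ≤ p`, `c ≤ 1 - p`, both ratios are in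
`[c / (1 - c), (1 - c) / c]`; sum over `ω ∩ F = T`. (3) the total mass is `1` (the cylinders
`Cyl F T`, `T ⊆ F`, partition the space, T_CYL for measurability), and by (2) all are positive if
one is. Hypotheses: T_ADD, T_FKG (positivity of the total weight), T_CYL. -/
def T_MAR : Prop := ∀ (d : ℕ) (p q c : ℝ), 0 < p → p < 1 → 1 ≤ q → 0 < c →
  c ≤ p / (p + q * (1 - p)) → c ≤ 1 - p → ∀ μ : Measure (Ed d → Bool), IsWired d p q μ →
  ∀ F : Finset (Ed d),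
    (∀ a b, a ⊆ F → b ⊆ F → μ.real (Cyl F a) * μ.real (Cyl F b) ≤
      μ.real (Cyl F (a ∩ b)) * μ.real (Cyl F (a ∪ b))) ∧
    (∀ e ∈ F, ∀ T, T ⊆ F → e ∉ T →
      c * μ.real (Cyl F T) ≤ (1 - c) * μ.real (Cyl F (insert e T)) ∧
      c * μ.real (Cyl F (insert e T)) ≤ (1 - c) * μ.real (Cyl F T)) ∧
    (∀ T, T ⊆ F → 0 < μ.real (Cyl F T)) ∧ ∑ T ∈ F.powerset, μ.real (Cyl F T) = 1

/-- FSL. The inequality for increasing local events of the wired measure. Proof: T_FSF with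
`G = F`, `m T = μ.real (Cyl F T)` (T_MAR), `f T = ind (P T)`;
`μ.real {P (rs F (cfg ω))} = Σ_{T ⊆ F} μ.real (Cyl F T) ind (P T)` and similarly for the
intersection with `{ω e = true}`, `e ∈ F`; `f^2 = f`, so `V = x (1 - x)`; `c ≤ 1/2` as
`c ≤ p / (p + q (1 - p)) ≤ p` and `c ≤ 1 - p`. Hypotheses: T_FSF, T_MAR, T_CYL. -/
def T_FSL : Prop := ∀ (d : ℕ) (p q c : ℝ), 0 < p → p < 1 → 1 ≤ q → 0 < c →
  c ≤ p / (p + q * (1 - p)) → c ≤ 1 - p → ∀ μ : Measure (Ed d → Bool), IsWired d p q μ →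
  ∀ (F : Finset (Ed d)) (P : Finset (Ed d) → Prop), (∀ a b, a ⊆ b → P a → P b) →
  ∀ (A : Set (Ed d → Bool)), A = {ω | P (rs F (cfg ω))} →
    (μ.real A * (1 - μ.real A)) *
      Real.log ((μ.real A * (1 - μ.real A)) / (4 * ∑ e ∈ F, cv μ A e ^ 2)) ≤
      2 / (c * (1 - c)) * ∑ e ∈ F, cv μ A e ∧
    μ.real A * (1 - μ.real A) ≤ 2 * ∑ e ∈ F, cv μ A e

/-- DER. Differentiation in `p`. Proof: `bw x G ω = x^k (1 - x)^(n - k)` has the derivative
`((k - n x) / (x (1 - x))) bw x G ω` at `0 < x < 1` (`k = |ω| ≤ n = |G|`); so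
`Ex` (a quotient of two polynomials with positive denominator, T_FKG) is differentiable with
derivative `(1 / (p (1 - p))) (Ex (f |ω|) - Ex f * Ex |ω|)`, and `|ω| = Σ_{e ∈ G} 1_{e ∈ ω}` on
`G.powerset`. Each covariance is nonnegative (T_FKG, `1_{e ∈ ω}` is increasing) and
`1 / (p (1 - p)) ≥ 1`. Hypothesis: T_FKG. -/
def T_DER : Prop := ∀ (V E : Type) [DecidableEq E] (s t : E → V) (R : V → V → Prop)
  (U : Finset V) (G : Finset E) (q : ℝ), 1 ≤ q → (∀ e ∈ G, s e ∈ U ∧ t e ∈ U) →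
  ∀ (f : Finset E → ℝ) (p : ℝ), 0 < p → p < 1 →
    DifferentiableAt ℝ (fun x => Ex s t R U G x q f) p ∧
    ((∀ a b, a ⊆ b → f a ≤ f b) →
      (∀ e ∈ G, 0 ≤ Ex s t R U G p q (fun ω => f ω * ind (e ∈ ω)) -
        Ex s t R U G p q f * Ex s t R U G p q fun ω => ind (e ∈ ω)) ∧
      ∀ H, H ⊆ G → ∑ e ∈ H, (Ex s t R U G p q (fun ω => f ω * ind (e ∈ ω)) -
        Ex s t R U G p q f * Ex s t R U G p q fun ω => ind (e ∈ ω)) ≤
          deriv (fun x => Ex s t R U G x q f) p)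

/-- MOP. Monotonicity in `p` of the wired measure, and nonnegative covariances. Proof: (1) for
every large `N` the function `x ↦ phi 0 N x q (1_{P (ω ∩ F)})` is nondecreasing on `(0, 1)`
(T_DER with `H = ∅`: derivative `≥ 0`; `monotoneOn_of_deriv_nonneg`), and tends to
`μ.real` (T_LOC with `f = ind (P ·)`). (2) the covariance is the limit of the finite ones,
`≥ 0` by T_DER (`e ∈ eb 0 N` for `N` large). Hypotheses: T_DER, T_LOC. -/
def T_MOP : Prop := ∀ (d : ℕ) (p p' q : ℝ), 0 < p → p ≤ p' → p' < 1 → 1 ≤ q →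
  ∀ μ μ' : Measure (Ed d → Bool), IsWired d p q μ → IsWired d p' q μ' →
  ∀ (F : Finset (Ed d)) (P : Finset (Ed d) → Prop), (∀ a b, a ⊆ b → P a → P b) →
    μ.real {ω | P (rs F (cfg ω))} ≤ μ'.real {ω | P (rs F (cfg ω))} ∧
    ∀ e : Ed d, 0 ≤ cv μ {ω | P (rs F (cfg ω))} e

/-- CVL. Convergence of probabilities and covariances of local events. Proof: T_LOC for the set
`F` and for `insert e F` (`P ((ω ∩ insert e F) ∩ F)` and `e ∈ ω ∩ insert e F ↔ e ∈ ω`);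
the integral of an indicator is `μ.real`. Hypothesis: T_LOC. -/
def T_CVL : Prop := ∀ (d : ℕ) (p q : ℝ) (μ : Measure (Ed d → Bool)), IsWired d p q μ →
  ∀ (F : Finset (Ed d)) (P : Finset (Ed d) → Prop),
    Tendsto (fun N : ℕ => phi (0 : Vx d) N p q fun ω => ind (P (ω ∩ F))) atTop
      (nhds (μ.real {ω | P (rs F (cfg ω))})) ∧
    ∀ e : Ed d, Tendsto (fun N : ℕ => phi (0 : Vx d) N p q
        (fun ω => ind (P (ω ∩ F)) * ind (e ∈ ω)) -
      phi (0 : Vx d) N p q (fun ω => ind (P (ω ∩ F))) *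
        phi (0 : Vx d) N p q fun ω => ind (e ∈ ω)) atTop
      (nhds (cv μ {ω | P (rs F (cfg ω))} e))

/-! ## Crossings -/

/-- CRI. Facts on crossings. Proof: (1) let `x ∈ bx y a` be connected to `z ∈ bd y b` in
`O ∩ eb y b`. `x ∈ bx y' a' ⊆ bx y' b'`. If `z ∈ bx y' b'` then `z ∈ bd y' b'` because
`bx y' b' ⊆ bx y b`. Let `D` be the set of the points connected to `x` in `O ∩ eb y' b'`; if `D`
does not meet `bd y' b'` it is contained in `bx y' b' \ bd y' b'` and closed under all steps of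
`O` (an edge with an end in `bx y' b' \ bd y' b'` is in `eb y' b'`), so `z ∈ D`: contradiction.
(2), (3) definition and monotonicity of connection. (4) translation, `v ↦ v + y`. (5) the infinite
cluster of `x` has a point outside the finite set `bx y b`; same argument as (1). (6) if all the
clusters of the points of `bx y a` are finite they are contained in the interior of `bx y b` for
large `b`. -/
def T_CRI : Prop := ∀ (d : ℕ) (y y' : Vx d) (a a' b b' : ℕ) (O O' : Set (Ed d)),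
  (bx y a ⊆ bx y' a' → bx y' b' ⊆ bx y b → a' ≤ b' → CrA y a b O → CrA y' a' b' O) ∧
  (CrA y a b O ↔ CrA y a b ((rs (eb y b) O : Finset (Ed d)) : Set (Ed d))) ∧
  (O ⊆ O' → CrA y a b O → CrA y a b O') ∧
  (∀ ω : Ed d → Bool, CrA (y + y') a b (cfg ω) ↔ CrA y a b (cfg (sh y' ω))) ∧
  (∀ ω : Ed d → Bool, ∀ x ∈ bx y a, a ≤ b → InfC x ω → CrA y a b (cfg ω)) ∧
  ∀ ω : Ed d → Bool, (∀ x ∈ bx y a, ¬ InfC x ω) → ∃ b0 : ℕ, ∀ b, b0 ≤ b → ¬ CrA y a b (cfg ω)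

/-- SHC. Covariances of `F_ρ` with the translates of an edge. Proof: let `y = Pi.single i j`,
`A = Fv d K ρ`, `B = {ω | CrA (-y) ρ (K - ρ) (cfg ω)}`. By T_CRI (4) `A = sh y ⁻¹' B`
(`0 = -y + y`) and `ω (trE y e) = sh y ω e`, so by T_INV `cv μ A (trE y e) = cv μ B e`
(`Measure.map_apply`, measurability by T_LOC). By T_CRI (1) both `A` and `B` contain
`Fv d K (ρ - s)` and are contained in `Fv d K (ρ + s)` (`j ≤ s ≤ ρ`, `2 (ρ + s) ≤ K`), so
`|cv μ B e - cv μ A e| ≤ μ.real (symmetric difference) ≤ th (ρ + s) - th (ρ - s)`: with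
`h = 1_B - 1_A`, `cv` difference `= ∫ h (1_e - μ.real {e})` and `|1_e - μ.real {e}| ≤ 1`.
Hypotheses: T_INV, T_LOC, T_CRI. -/
def T_SHC : Prop := ∀ (d : ℕ), 0 < d → ∀ (p q : ℝ), 0 < p → p < 1 → 1 ≤ q →
  ∀ μ : Measure (Ed d → Bool), IsWired d p q μ → ∀ (K ρ s j : ℕ) (i : Fin d) (e : Ed d),
    j ≤ s → s ≤ ρ → 2 * (ρ + s) ≤ K →
      |cv μ (Fv d K ρ) (trE (Pi.single i (j : ℤ)) e) - cv μ (Fv d K ρ) e| ≤
        th μ K (ρ + s) - th μ K (ρ - s)

/-- THM. Facts on `th`. Proof: probabilities; (1) `Fv d K ρ ⊆ Fv d K ρ'` by T_CRI (1). (2) T_MOP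
with `F = eb 0 (K - ρ)`, T_CRI (2), (3). (3) T_CRI (5): `{InfC 0} ⊆ Fv d K ρ`. Hypotheses: T_CRI,
T_MOP. -/
def T_THM : Prop := ∀ (d : ℕ) (p p' q : ℝ), 0 < p → p ≤ p' → p' < 1 → 1 ≤ q →
  ∀ μ μ' : Measure (Ed d → Bool), IsWired d p q μ → IsWired d p' q μ' → ∀ (K ρ : ℕ),
    (0 ≤ th μ K ρ ∧ th μ K ρ ≤ 1) ∧
    (∀ ρ', ρ ≤ ρ' → 2 * ρ' ≤ K → th μ K ρ ≤ th μ K ρ') ∧
    th μ K ρ ≤ th μ' K ρ ∧
    (2 * ρ ≤ K → μ.real {ω | InfC (0 : Vx d) ω} ≤ th μ K ρ)

/-- KEY. Lower bound for the sum of the covariances. Proof: `A = Fv d K ρ`, `x = th μ K ρ ≥ θ0`,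
`V = x (1 - x) ≥ θ0 (1 - x)`, `S = Σ_{e ∈ eb 0 (2K)} cv e ≥ S' = Σ_{e ∈ eb 0 K} cv e ≥ 0`
(T_MOP (2); `A` is a local increasing event, T_CRI (2), (3)). `s = t^3`, `s / r ≤ 1 / t`.
Case A: `cv e ≤ 80 / t` for all `e ∈ eb 0 K`. T_FSL with `F = eb 0 K` (`P T = CrA 0 ρ (K - ρ) T`;
`CrA .. (cfg ω) ↔ CrA .. (rs (eb 0 K) (cfg ω))`): if `V = 0` then `1 - x = 0`, trivial. Else
`S' ≥ V / 2 > 0`, `4 Σ cv^2 ≤ 320 S' / t`. If `S' < V sqrt t / 320` then
`log (V / (4 Σ cv^2)) ≥ (log t) / 2`, so `S' ≥ V (log t) c (1 - c) / 4`; otherwise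
`S' ≥ V sqrt t / 320 ≥ V (log t) / 640`. And `log r ≤ 8 log t` since `r < (t + 1)^4 ≤ t^8`.
Case B: `cv e > 80 / t` for some `e ∈ eb 0 K`. By T_SHC (`i` any direction, `j ≤ s`)
`cv (trE (j e_i) e) ≥ 80 / t - 40 s / r ≥ 40 / t`; these `s + 1` edges are distinct and in
`eb 0 (2K)`, so `S ≥ (s + 1) 40 / t ≥ 40 t^2`, while
`θ0 * min .. / 8 * log r * (1 - x) ≤ log t ≤ t^2`.
Hypotheses: T_MOP, T_FSL, T_SHC, T_CRI. -/
def T_KEY : Prop := ∀ (d : ℕ), 0 < d → ∀ (p q c θ0 : ℝ), 0 < p → p < 1 → 1 ≤ q → 0 < c →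
  c ≤ p / (p + q * (1 - p)) → c ≤ 1 - p → 0 < θ0 → ∀ μ : Measure (Ed d → Bool),
  IsWired d p q μ → ∀ K ρ r t : ℕ, 2 ≤ t → t ^ 4 ≤ r → r < (t + 1) ^ 4 → r ≤ ρ → ρ < 2 * r →
    8 * r ≤ K → θ0 ≤ th μ K ρ →
    th μ K (ρ + t ^ 3) - th μ K (ρ - t ^ 3) ≤ 40 * (t : ℝ) ^ 3 / r →
      θ0 * min (c * (1 - c) / 4) (1 / 640) / 8 * Real.log r * (1 - th μ K ρ) ≤
        ∑ e ∈ eb (0 : Vx d) (2 * K), cv μ (Fv d K ρ) e

/-- PIG. Pigeonhole. Proof: `Σ_{ρ ∈ [r, 2r)} (a (ρ + s) - a (ρ - s)) =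
Σ_{k ∈ [2r - s, 2r + s)} a k - Σ_{k ∈ [r - s, r + s)} a k ≤ 2 s`; the terms are nonnegative, so at
most `r / 20` of them are larger than `40 s / r`. -/
def T_PIG : Prop := ∀ (a : ℕ → ℝ) (r s : ℕ), 1 ≤ s → s ≤ r →
  (∀ i j, i ≤ j → j ≤ 3 * r → a i ≤ a j) → 0 ≤ a 0 → a (3 * r) ≤ 1 →
    (r : ℝ) / 2 ≤ ((Finset.Ico r (2 * r)).filter fun ρ =>
      a (ρ + s) - a (ρ - s) ≤ 40 * (s : ℝ) / r).card

/-- ABS. Passing to the limit in an integrated differential inequality. Proof: for each `N` the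
function `x ↦ f N x - ∫_a^x min m (G N)` is nondecreasing on `[a, b]` (its derivative is
`f' N x - min m (G N x) ≥ 0` in the interior), so `f N b - f N a ≥ ∫_a^b min m (G N)`; by dominated
convergence (`intervalIntegral.tendsto_integral_filter_of_dominated_convergence`, bound `m`) the
right side tends to `∫_a^b min m (L x) = m (b - a)`. -/
def T_ABS : Prop := ∀ (a b m A B : ℝ) (f G : ℕ → ℝ → ℝ) (L : ℝ → ℝ), a ≤ b → 0 ≤ m →
  (∀ N, ∀ x ∈ Set.Icc a b, DifferentiableAt ℝ (f N) x) →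
  (∀ N, ContinuousOn (G N) (Set.Icc a b)) →
  (∀ N, ∀ x ∈ Set.Icc a b, 0 ≤ G N x ∧ G N x ≤ deriv (f N) x) →
  (∀ x ∈ Set.Icc a b, Tendsto (fun N => G N x) atTop (nhds (L x))) →
  (∀ x ∈ Set.Icc a b, m ≤ L x) →
  Tendsto (fun N => f N a) atTop (nhds A) → Tendsto (fun N => f N b) atTop (nhds B) →
    m * (b - a) ≤ B - A

/-- INT. The recursive inequality. Proof: `c = min (p1 / (p1 + q (1 - p1))) (1 - p2)` satisfies
the conditions of T_KEY for all `x ∈ [p1, p2]`; `c1 = c2 / 2`, `c2` the constant of T_KEY. Fix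
`K, r, p < p'`, `t` with `t^4 ≤ r < (t+1)^4` (`t ≥ 2` as `r ≥ 16`). For `x ∈ [p, p']` T_PIG for
`a ρ = th (Φ x) K ρ`, `s = t^3` gives at least `r / 2` good `ρ ∈ [r, 2r)`, for which T_KEY gives
`Σ_e cv (Φ x) (Fv d K ρ) e ≥ c2 log r (1 - th (Φ x) K ρ) ≥ c2 log r v'`,
`v' = 1 - th (Φ p') K (2r)` (T_THM (1), (2)); the others are `≥ 0` (T_MOP). So
`L x = Σ_{ρ ∈ [r, 2r)} Σ_{e ∈ eb 0 (2K)} cv (Φ x) (Fv d K ρ) e ≥ m = (r / 2) c2 log r v'`. Apply
T_ABS on `[p, p']` with `f N x = Σ_ρ phi 0 (N + 2K) x q (ind (CrA 0 ρ (K - ρ) ·))` and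
`G N x = ` the sum over `ρ` and `e ∈ eb 0 (2K)` of the covariances for `phi 0 (N + 2K) x q`
(T_DER; continuity in `x` from differentiability; convergence by T_CVL with `F = eb 0 K`,
`CrA .. ω ↔ CrA .. (ω ∩ F)`, T_CRI (2)). Result: `m (p' - p) ≤ Σ_ρ (th (Φ p') K ρ - th (Φ p) K ρ)
≤ r (1 - th (Φ p) K r)`. Hypotheses: T_KEY, T_PIG, T_ABS, T_THM, T_MOP, T_DER, T_CVL, T_CRI. -/
def T_INT : Prop := ∀ (d : ℕ), 0 < d → ∀ (q p1 p2 θ0 : ℝ), 1 ≤ q → 0 < p1 → p1 < p2 → p2 < 1 →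
  0 < θ0 → ∃ c1 : ℝ, 0 < c1 ∧ ∀ Φ : ℝ → Measure (Ed d → Bool),
    (∀ x ∈ Set.Icc p1 p2, IsWired d x q (Φ x)) → ∀ K : ℕ,
    (∀ ρ, 2 * ρ ≤ K → θ0 ≤ th (Φ p1) K ρ) → ∀ r : ℕ, 16 ≤ r → 8 * r ≤ K →
      ∀ p p' : ℝ, p1 ≤ p → p < p' → p' ≤ p2 →
        (1 - th (Φ p') K (2 * r)) * (c1 * (p' - p) * Real.log r) ≤ 1 - th (Φ p) K r

/-- ITE. Iteration. Proof: let `δ = p2 - p1`, `c = min (c1 δ / (4 e)) (1 / 2)`, `R` large (for bounded `R` the bound is trivial with a large `C`, as `v ≤ 1`). Let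
`J = ⌊c log R⌋`, `r_J = R`, `r_{j-1} = ⌊r_j / 2⌋`; `r_0 ≥ R / 2^J - 1 ≥ R^(1/4) ≥ 16`; with
`x_j = p1 + (j / J) δ`, `v r_j x_j ≤ v (2 r_{j-1}) x_j ≤ v r_{j-1} x_{j-1} / (c1 (δ / J) log
r_{j-1})` and `c1 (δ / J) log r_{j-1} ≥ c1 δ (log R) / (4 J) ≥ e`. So
`v R p2 ≤ exp (-J) ≤ e R^(-c)`. -/
def T_ITE : Prop := ∀ (p1 p2 c1 : ℝ), p1 < p2 → 0 < c1 → ∃ c C : ℝ, 0 < c ∧ 0 < C ∧
  ∀ (R0 : ℕ) (v : ℕ → ℝ → ℝ), (∀ r x, 0 ≤ v r x) → (∀ r x, v r x ≤ 1) →
    (∀ r r' x, p1 ≤ x → x ≤ p2 → r ≤ r' → r' ≤ R0 → v r' x ≤ v r x) →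
    (∀ r x x', 16 ≤ r → 2 * r ≤ R0 → p1 ≤ x → x < x' → x' ≤ p2 →
      v (2 * r) x' * (c1 * (x' - x) * Real.log r) ≤ v r x) →
    ∀ R : ℕ, 1 ≤ R → R ≤ R0 → v R p2 ≤ C / (R : ℝ) ^ c

/-- BOX. The theorem of part B. Proof: there is `p1` with `max 0 (pcr d q) < p1 < p` and a wired
measure at `p1` with `θ0 = μ.real {InfC 0} > 0` (otherwise the set in the definition of `pcr`
would contain numbers larger than its supremum; it is bounded above by `1`); `p2 = p`. Let `Φ x`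
be a wired measure at `x`, `x ∈ (0, 1)` (T_EXI), with `Φ p1` that measure and `Φ p = μ` (wired
measures are unique by T_CYL: the limits are the same). T_THM (4): `θ0 ≤ th (Φ p1) K ρ`. T_INT,
T_ITE with `R0 = K / 4`, `v r x = 1 - th (Φ x) K r` for `x ∈ [p1, p]`, `2 r ≤ K` (and `0`
elsewhere, or clamp): `1 - th μ K r ≤ C / r^c` for `K ≥ 4 r`, `c, C` independent of `K`. Let
`K → ∞`: the events `{¬ CrA 0 r b}` contain, for `b` large, each `ω` of the event in question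
(T_CRI (6)); they increase with `b` (T_CRI (1)), so the event is the increasing union of its
intersections with them, each of measure at most `C / r^c` (`Monotone.measure_iUnion`).
Hypotheses: T_EXI, T_CYL, T_THM, T_INT, T_ITE, T_CRI. -/
def T_BOX : Prop := ∀ (d : ℕ), 0 < d → ∀ (q p : ℝ), 1 ≤ q → pcr d q < p → p < 1 →
  ∃ c C : ℝ, 0 < c ∧ ∀ μ : Measure (Ed d → Bool), IsWired d p q μ → ∀ r : ℕ, 1 ≤ r →
    μ.real {ω | ∀ x ∈ bx (0 : Vx d) r, ¬ InfC x ω} ≤ C / (r : ℝ) ^ c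

/-! ## Part C: the truncated radius -/

/-- FEN. Finite energy. Proof: by induction on `P` it is enough to treat `P = {e}`
(`rs F (O ∪ {e}) = rs F (rs F O ∪ {e})`-type identities). Finite volume, `e ∈ G`, `f ≥ 0`:
`Σ_ω wt ω f (insert e ω) = Σ_{ω ∌ e} (wt ω + wt (insert e ω)) f (insert e ω)` and
`wt ω ≤ ((1 - p) q / p) wt (insert e ω)` (T_ADD), `1 + (1 - p) q / p ≤ q / p`. Then the limit
(T_LOC). Hypotheses: T_ADD, T_FKG (positivity of the total weight), T_LOC. -/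
def T_FEN : Prop := ∀ (d : ℕ) (p q : ℝ), 0 < p → p < 1 → 1 ≤ q →
  ∀ μ : Measure (Ed d → Bool), IsWired d p q μ →
  ∀ (F P : Finset (Ed d)) (Q : Finset (Ed d) → Prop),
    μ.real {ω | Q (rs F (cfg ω ∪ (P : Set (Ed d))))} ≤
      (q / p) ^ P.card * μ.real {ω | Q (rs F (cfg ω))}

/-- SUR. Surgery. Proof: among the sets `P ⊆ eb 0 r` such that `0` and `x` are not connected in
`(O ∪ P) ∩ eb 0 n` (`P = ∅` is one, `P = eb 0 r` is not: boxes are connected) take a maximal one,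
and `e ∈ eb 0 r \ P`. Adding `e` connects `0` and `x`, so the two ends of `e` are connected in
`(O ∪ P) ∩ eb 0 n`, one to `0` and the other one to `x`, hence not to each other. In the smaller
box `e.1 + Λ_{n - r} ⊆ Λ_n` they are not connected either, and each is connected inside it to
its boundary, since it is connected in `O ∪ P` to a point of `bd 0 n`, which is not in the interior
of that box (the closed set argument of T_ARM / T_CRI (1)). -/
def T_SUR : Prop := ∀ (d r n : ℕ) (O : Set (Ed d)) (x : Vx d), r < n → x ∈ bx (0 : Vx d) r →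
  (∃ z ∈ bd (0 : Vx d) n, Cn (O ∩ (eb (0 : Vx d) n : Set (Ed d))) z 0) →
  (∃ z ∈ bd (0 : Vx d) n, Cn (O ∩ (eb (0 : Vx d) n : Set (Ed d))) z x) →
  ¬ Cn (O ∩ (eb (0 : Vx d) n : Set (Ed d))) 0 x →
    ∃ P : Finset (Ed d), P ⊆ eb (0 : Vx d) r ∧ ∃ e ∈ eb (0 : Vx d) r,
      TwoArm (O ∪ (P : Set (Ed d))) e.1 e.2 (n - r)

/-- UNB. The union bound. Let `0 < r < n` and let `A` be the event that the cluster of `0` is
finite and contains a point of `bd 0 n`. If `ω ∈ A` and some `x ∈ bx 0 r` has an infinite cluster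
then `0` and `x` are both connected to `bd 0 n` in `cfg ω ∩ eb 0 n` (closed set argument) and not
connected to each other, so T_SUR applies. Hence `A` is contained in the union of
`{∀ x ∈ bx 0 r, ¬ InfC x ω}` and of the events `{TwoArm (cfg ω ∪ P) e.1 e.2 (n - r)}`,
`P ⊆ eb 0 r`, `e ∈ eb 0 r`; T_FEN (with `F = eb e.1 (n - r)`, T_TAS (1)) and the hypothesis on
two arms; `|P| ≤ |eb 0 r| ≤ d (2 r + 1)^d` (T_CNT). Hypotheses: T_SUR, T_FEN, T_TAS, T_CNT. -/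
def T_UNB : Prop := ∀ (d : ℕ), 0 < d → ∀ (p q D : ℝ), 0 < p → p < 1 → 1 ≤ q →
  ∀ μ : Measure (Ed d → Bool), IsWired d p q μ → ∀ r n : ℕ, 0 < r → r < n →
  (∀ (x : Vx d) (i : Fin d), μ.real {ω | TwoArm (cfg ω) x i (n - r)} ≤ D) →
    μ.real {ω | {w | Cn (cfg ω) (0 : Vx d) w}.Finite ∧
      ∃ z ∈ bd (0 : Vx d) n, Cn (cfg ω) 0 z} ≤
    μ.real {ω | ∀ x ∈ bx (0 : Vx d) r, ¬ InfC x ω} +
      (d * (2 * r + 1) ^ d : ℝ) * (2 * q / p) ^ (d * (2 * r + 1) ^ d) * D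

/-- NUC. Numerical choice of `r`. Proof: put `L = log n` and
`r = ⌊(ε L)^(1/d)⌋` with `ε > 0` small (depending on `d`, `M`): then
`d (2r+1)^d M^{d (2r+1)^d} ≤ n^{1/8}` and `sqrt (log (n - r + 1) / (n - r)) ≤ n^{-1/4}` for `n`
large, and `C1 / r^c ≤ C' / L^{c / d}`; for small `n` (where this `r` may be `0`, or the bounds are
not yet valid) the last alternative `1 ≤ C' / (log n)^c'` holds with a large `C'`. -/
def T_NUC : Prop := ∀ (d : ℕ), 0 < d → ∀ (M C0 C1 c : ℝ), 1 ≤ M → 0 ≤ C0 → 0 ≤ C1 → 0 < c →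
  ∃ c' C' : ℝ, 0 < c' ∧ ∀ n : ℕ, 2 ≤ n →
    (∃ r : ℕ, 0 < r ∧ r < n ∧ C1 / (r : ℝ) ^ c +
      (d * (2 * r + 1) ^ d : ℝ) * M ^ (d * (2 * r + 1) ^ d) *
        (C0 * Real.sqrt (Real.log ((n - r : ℕ) + 1) / (n - r : ℕ))) ≤
          C' / (Real.log n) ^ c') ∨ 1 ≤ C' / (Real.log n) ^ c'

/-- RAD. The theorem of part C. Proof: T_BOX (`c`, `C1 = max C 0`), T_QBK (`0 < d`; here
`0 < p` because `pcr d q ≥ 0`: the set contains a nonnegative number or is empty, `Real.sSup`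
of the empty set is `0`), T_UNB with `D = C (q^2 / p) sqrt (..)`, T_NUC with `M = 2 q / p`.
Hypotheses: T_BOX, T_QBK, T_UNB, T_NUC. -/
def T_RAD : Prop := ∀ (d : ℕ), 0 < d → ∀ (q p : ℝ), 1 ≤ q → pcr d q < p → p < 1 →
  ∃ c C : ℝ, 0 < c ∧ ∀ μ : Measure (Ed d → Bool), IsWired d p q μ → ∀ n : ℕ, 2 ≤ n →
    μ.real {ω | {w | Cn (cfg ω) (0 : Vx d) w}.Finite ∧
      ∃ z ∈ bd (0 : Vx d) n, Cn (cfg ω) 0 z} ≤ C / (Real.log n) ^ c

end Pool.Agent.FKT
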