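import Pool.Agent.FKT.TargetsA

set_option autoImplicit false

namespace Pool.Agent.FKT

open Filter MeasureTheory

namespace BER_

variable {E : Type}

theorem congr {p : ℝ} {G : Finset E} {f g : Finset E → ℝ} (h : ∀ ω, ω ⊆ G → f ω = g ω) :
    EB p G f = EB p G g := by
  unfold EB
  exact Finset.sum_congr rfl fun ω hω => by rw [h ω (Finset.mem_powerset.mp hω)]

theorem lin (p : ℝ) (G : Finset E) (a b : ℝ) (f g : Finset E → ℝ) :
    EB p G (fun ω => a * f ω + b * g ω) = a * EB p G f + b * EB p G g := by
  unfold EB
  rw [Finset.mul_sum, Finset.mul_sum, ← Finset.sum_add_distrib]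
  exact Finset.sum_congr rfl fun ω _ => by ring

theorem empty (p : ℝ) (f : Finset E → ℝ) : EB p ∅ f = f ∅ := by
  unfold EB bw
  simp

theorem bw_nonneg {p : ℝ} (h0 : 0 ≤ p) (h1 : p ≤ 1) (G ω : Finset E) : 0 ≤ bw p G ω := by
  unfold bw
  have : 0 ≤ 1 - p := by linarith
  positivity

variable [DecidableEq E]

theorem insE (p : ℝ) (G : Finset E) (e : E) (f : Finset E → ℝ) (he : e ∉ G) :
    EB p (insert e G) f = (1 - p) * EB p G f + p * EB p G fun ω => f (insert e ω) := by
  unfold EB
  rw [Finset.sum_powerset_insert he, Finset.mul_sum, Finset.mul_sum]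
  congr 1
  · refine Finset.sum_congr rfl fun ω hω => ?_
    have h1 := Finset.card_le_card (Finset.mem_powerset.mp hω)
    unfold bw
    rw [Finset.card_insert_of_notMem he, Nat.succ_sub h1, pow_succ]
    ring
  · refine Finset.sum_congr rfl fun ω hω => ?_
    have h2 : e ∉ ω := fun h => he (Finset.mem_powerset.mp hω h)
    unfold bw
    rw [Finset.card_insert_of_notMem he, Finset.card_insert_of_notMem h2, Nat.succ_sub_succ,
      pow_succ]
    ring

theorem total (p : ℝ) (G : Finset E) : EB p G (fun _ => 1) = 1 := by
  induction G using Finset.induction_on with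
  | empty => exact empty p _
  | insert e G he ih =>
    rw [insE p G e _ he, ih]
    ring

theorem const (p : ℝ) (G : Finset E) (c : ℝ) : EB p G (fun _ => c) = c := by
  have h := lin p G c 0 (fun _ => 1) (fun _ => 1)
  rw [total] at h
  simpa using h

theorem split (p : ℝ) (G' H : Finset E) : ∀ f : Finset E → ℝ, Disjoint G' H →
    EB p (G' ∪ H) f = EB p G' fun α => EB p H fun γ => f (α ∪ γ) := by
  induction H using Finset.induction_on with
  | empty =>
    intro f _
    rw [Finset.union_empty]
    refine congr fun α _ => ?_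
    rw [empty, Finset.union_empty]
  | insert e H he ih =>
    intro f hd
    obtain ⟨h1, h2⟩ := Finset.disjoint_insert_right.mp hd
    have h3 : e ∉ G' ∪ H := by
      rw [Finset.mem_union]
      rintro (h | h)
      · exact h1 h
      · exact he h
    rw [Finset.union_insert, insE p _ e f h3, ih _ h2, ih _ h2, ← lin]
    refine congr fun α _ => ?_
    rw [insE p H e _ he]
    simp only [Finset.union_insert]

end BER_

open BER_ in
theorem p_BER : T_BER := by
  intro E _ p G
  refine ⟨fun e f he => insE p G e f he, total p G, ?_, ?_, ?_⟩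
  · intro G' f hG
    have h1 := split p G' (G \ G') (fun ω => f (ω ∩ G')) Finset.disjoint_sdiff
    rw [Finset.union_sdiff_of_subset hG] at h1
    rw [h1]
    refine congr fun α hα => ?_
    have h2 : EB p (G \ G') (fun γ => f ((α ∪ γ) ∩ G')) = EB p (G \ G') (fun _ => f α) := by
      refine congr fun γ hγ => ?_
      congr 1
      ext x
      simp only [Finset.mem_inter, Finset.mem_union]
      refine ⟨?_, fun h => ⟨Or.inl h, hα h⟩⟩
      rintro ⟨h | h, h'⟩
      · exact h
      · exact absurd h' (Finset.mem_sdiff.mp (hγ h)).2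
    rw [h2, const]
  · intro G' f hG
    have h1 := split p G' (G \ G') f Finset.disjoint_sdiff
    rwa [Finset.union_sdiff_of_subset hG] at h1
  · intro h0 h1 f g h
    unfold EB
    exact Finset.sum_le_sum fun ω hω => mul_le_mul_of_nonneg_left
      (h ω (Finset.mem_powerset.mp hω)) (bw_nonneg h0 h1 G ω)

end Pool.Agent.FKT
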