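import Pool.Agent.FKT.TargetsA

/-!
# FKT, target CNT: counting in boxes
-/

set_option autoImplicit false

namespace Pool.Agent.FKT

open Finset

namespace CNT_

/-- A box with a special side in direction `i`. -/
noncomputable def sl {d : ℕ} (m : ℕ) (i : Fin d) (s : Finset ℤ) : Finset (Vx d) :=
  Fintype.piFinset fun j => if j = i then s else Icc (-(m : ℤ)) m

theorem card_side (m : ℕ) : (Icc (-(m : ℤ)) m).card = 2 * m + 1 := by
  rw [Int.card_Icc]
  omega

theorem card_sl {d : ℕ} (m : ℕ) (i : Fin d) (s : Finset ℤ) :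
    (sl m i s).card = s.card * (2 * m + 1) ^ (d - 1) := by
  unfold sl
  rw [Fintype.card_piFinset, ← Finset.mul_prod_erase _ _ (Finset.mem_univ i), if_pos rfl]
  congr 1
  rw [Finset.prod_congr rfl (g := fun _ => 2 * m + 1)]
  · rw [Finset.prod_const, Finset.card_erase_of_mem (Finset.mem_univ i), Finset.card_univ,
      Fintype.card_fin]
  · intro j hj
    rw [if_neg (Finset.ne_of_mem_erase hj), card_side]

theorem mem_bx {d : ℕ} (m : ℕ) (v : Vx d) :
    v ∈ bx (0 : Vx d) m ↔ ∀ i, -(m : ℤ) ≤ v i ∧ v i ≤ m := by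
  unfold bx
  rw [Finset.mem_Icc, Pi.le_def, Pi.le_def]
  simp only [Pi.zero_apply, zero_sub, zero_add]
  exact ⟨fun h i => ⟨h.1 i, h.2 i⟩, fun h => ⟨fun i => (h i).1, fun i => (h i).2⟩⟩

theorem mem_sl {d : ℕ} (m : ℕ) (i : Fin d) (s : Finset ℤ) (v : Vx d) :
    v ∈ sl m i s ↔ v i ∈ s ∧ ∀ j, j ≠ i → -(m : ℤ) ≤ v j ∧ v j ≤ m := by
  unfold sl
  rw [Fintype.mem_piFinset]
  constructor
  · intro h
    refine ⟨by simpa using h i, fun j hj => ?_⟩
    have h1 := h j
    rw [if_neg hj, Finset.mem_Icc] at h1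
    exact h1
  · rintro ⟨h1, h2⟩ j
    by_cases hj : j = i
    · subst hj
      simpa using h1
    · rw [if_neg hj, Finset.mem_Icc]
      exact h2 j hj

theorem card_bx {d : ℕ} (m : ℕ) : (bx (0 : Vx d) m).card = (2 * m + 1) ^ d := by
  have h : bx (0 : Vx d) m = Fintype.piFinset fun _ => Icc (-(m : ℤ)) m := by
    ext v
    rw [mem_bx, Fintype.mem_piFinset]
    simp only [Finset.mem_Icc]
  rw [h, Fintype.card_piFinset, Finset.prod_const, card_side, Finset.card_univ,
    Fintype.card_fin]

end CNT_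

open CNT_ in
theorem p_CNT : T_CNT := by
  intro d _ m
  refine ⟨?_, ?_, ?_⟩
  · calc (eb (0 : Vx d) m).card ≤ ((bx (0 : Vx d) m) ×ˢ (Finset.univ : Finset (Fin d))).card :=
        Finset.card_filter_le _ _
      _ = d * (2 * m + 1) ^ d := by
        rw [Finset.card_product, card_bx, Finset.card_univ, Fintype.card_fin, mul_comm]
  · have hsub : bd (0 : Vx d) m ⊆ (Finset.univ : Finset (Fin d)).biUnion
        (fun i => sl m i {-(m : ℤ)} ∪ sl m i {(m : ℤ)}) := by
      intro v hv
      unfold bd at hv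
      rw [Finset.mem_filter, mem_bx] at hv
      obtain ⟨h1, i, h2⟩ := hv
      rw [Finset.mem_biUnion]
      refine ⟨i, Finset.mem_univ i, ?_⟩
      simp only [Pi.zero_apply, zero_sub, zero_add] at h2
      rw [Finset.mem_union, mem_sl, mem_sl, Finset.mem_singleton, Finset.mem_singleton]
      rcases h2 with h2 | h2
      · exact Or.inl ⟨h2, fun j _ => h1 j⟩
      · exact Or.inr ⟨h2, fun j _ => h1 j⟩
    refine (Finset.card_le_card hsub).trans (Finset.card_biUnion_le.trans ?_)
    have h3 : ∀ i ∈ (Finset.univ : Finset (Fin d)),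
        (sl m i {-(m : ℤ)} ∪ sl m i {(m : ℤ)}).card ≤ 2 * (2 * m + 1) ^ (d - 1) := by
      intro i _
      refine (Finset.card_union_le _ _).trans (le_of_eq ?_)
      rw [card_sl, card_sl, Finset.card_singleton, Finset.card_singleton]
      ring
    refine (Finset.sum_le_sum h3).trans (le_of_eq ?_)
    rw [Finset.sum_const, Finset.card_univ, Fintype.card_fin, smul_eq_mul]
    ring
  · intro i
    have h1 : ((sl m i (Icc (-(m : ℤ)) (m - 1))).image fun v => ((v, i) : Ed d)).card =
        2 * m * (2 * m + 1) ^ (d - 1) := by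
      rw [Finset.card_image_of_injective _ (fun v w h => (Prod.ext_iff.mp h).1), card_sl,
        Int.card_Icc]
      congr 1
      omega
    rw [← h1]
    refine Finset.card_le_card ?_
    intro e he
    rw [Finset.mem_image] at he
    obtain ⟨v, hv, rfl⟩ := he
    rw [mem_sl, Finset.mem_Icc] at hv
    obtain ⟨⟨h2, h3⟩, h4⟩ := hv
    rw [Finset.mem_filter]
    refine ⟨?_, rfl⟩
    unfold eb
    rw [Finset.mem_filter, Finset.mem_product, mem_bx, mem_bx]
    have key1 : ∀ j, -(m : ℤ) ≤ v j ∧ v j ≤ m := by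
      intro j
      by_cases hj : j = i
      · subst hj
        constructor <;> omega
      · exact h4 j hj
    have key2 : ∀ j, -(m : ℤ) ≤ (tgt ((v, i) : Ed d)) j ∧ (tgt ((v, i) : Ed d)) j ≤ m := by
      intro j
      have h5 : (tgt ((v, i) : Ed d)) j = v j + (Pi.single i (1 : ℤ) : Vx d) j := rfl
      rw [h5]
      by_cases hj : j = i
      · subst hj
        rw [Pi.single_eq_same]
        constructor <;> omega
      · rw [Pi.single_eq_of_ne hj, add_zero]
        exact h4 j hj
    exact ⟨⟨key1, Finset.mem_univ _⟩, key2⟩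

end Pool.Agent.FKT
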