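import Pool.Agent.FKT.TargetsB

set_option autoImplicit false

/-!
# ABS: the limit of an integrated differential inequality
-/

namespace Pool.Agent.FKT

open Filter MeasureTheory

theorem p_ABS : T_ABS := by
  intro a b m A B f G L hab hm hf hG hfG hGL hL hA hB
  have hc : ∀ N, ContinuousOn (fun x => min m (G N x)) (Set.Icc a b) := fun N =>
    continuousOn_const.inf (hG N)
  have h1 : ∀ N, (∫ x in a..b, min m (G N x)) ≤ f N b - f N a := by
    intro N
    apply intervalIntegral.integral_le_sub_of_hasDeriv_right_of_le (g' := deriv (f N)) hab
    · exact fun x hx => (hf N x hx).continuousAt.continuousWithinAt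
    · exact fun x hx => (hf N x (Set.Ioo_subset_Icc_self hx)).hasDerivAt.hasDerivWithinAt
    · exact (hc N).integrableOn_Icc
    · exact fun x hx =>
        le_trans (min_le_right _ _) (hfG N x (Set.Ioo_subset_Icc_self hx)).2
  have hsub : Set.uIoc a b ⊆ Set.Icc a b := by
    rw [Set.uIoc_of_le hab]
    exact Set.Ioc_subset_Icc_self
  have h2 : Tendsto (fun N => ∫ x in a..b, min m (G N x)) atTop
      (nhds (∫ _x in a..b, m)) := by
    apply intervalIntegral.tendsto_integral_filter_of_dominated_convergence (fun _ => m)
    · refine Eventually.of_forall fun N => ?_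
      have h3 : AEStronglyMeasurable (fun x => min m (G N x))
          (volume.restrict (Set.Icc a b)) :=
        (hc N).aestronglyMeasurable measurableSet_Icc
      exact h3.mono_measure (Measure.restrict_mono hsub le_rfl)
    · refine Eventually.of_forall fun N => ae_of_all _ fun x hx => ?_
      rw [Real.norm_eq_abs, abs_of_nonneg (le_min hm (hfG N x (hsub hx)).1)]
      exact min_le_left _ _
    · exact intervalIntegrable_const
    · refine ae_of_all _ fun x hx => ?_
      have h4 : Tendsto (fun N => min m (G N x)) atTop (nhds (min m (L x))) :=
        tendsto_const_nhds.min (hGL x (hsub hx))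
      rw [min_eq_left (hL x (hsub hx))] at h4
      exact h4
  rw [intervalIntegral.integral_const, smul_eq_mul, mul_comm] at h2
  exact le_of_tendsto_of_tendsto' h2 (hB.sub hA) h1

end Pool.Agent.FKT
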