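import Pool.Agent.FKT.TargetsB

/-!
# Project FKT: BND, the conditional probabilities
-/

set_option autoImplicit false

namespace Pool.Agent.FKT

namespace BND_

variable {n : ℕ}

/-- The weight of the configurations that agree with `x` before `j` and have the bit `b` at `j`. -/
noncomputable def A (m : (Fin n → Bool) → ℝ) (j : Fin n) (b : Bool) (x : Fin n → Bool) : ℝ :=
  ∑ w : Fin n → Bool, if trn j w = trn j x ∧ w j = b then m w else 0

noncomputable def S (m : (Fin n → Bool) → ℝ) (j : Fin n) (x : Fin n → Bool) : ℝ :=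
  ∑ w : Fin n → Bool, if trn j w = trn j x then m w else 0

theorem cpr_eq (m : (Fin n → Bool) → ℝ) (j : Fin n) (x : Fin n → Bool) :
    cpr m j x = A m j true x / S m j x := rfl

theorem S_eq (m : (Fin n → Bool) → ℝ) (j : Fin n) (x : Fin n → Bool) :
    S m j x = A m j true x + A m j false x := by
  unfold S A
  rw [← Finset.sum_add_distrib]
  refine Finset.sum_congr rfl fun w _ => ?_
  by_cases h : trn j w = trn j x
  · cases hw : w j <;> simp [h]
  · simp [h]

theorem trn_update (j : Fin n) (w : Fin n → Bool) (b : Bool) :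
    trn j (Function.update w j b) = trn j w := by
  funext i
  unfold trn
  by_cases h : (i : ℕ) < j
  · have : i ≠ j := by
      rintro rfl
      exact lt_irrefl _ h
    simp [h, this]
  · simp [h]

theorem trn_trn (j : ℕ) (w : Fin n → Bool) : trn j (trn j w) = trn j w := by
  funext i
  unfold trn
  by_cases h : (i : ℕ) < j <;> simp [h]

theorem A_pos {m : (Fin n → Bool) → ℝ} (hm : ∀ w, 0 < m w) (j : Fin n) (b : Bool)
    (x : Fin n → Bool) : 0 < A m j b x := by
  unfold A
  refine Finset.sum_pos' (fun w _ => ?_) ⟨Function.update x j b, Finset.mem_univ _, ?_⟩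
  · split_ifs
    · exact (hm w).le
    · exact le_rfl
  · rw [if_pos ⟨trn_update j x b, by simp⟩]
    exact hm _

/-- The flip of the bit `j`. -/
def flip (j : Fin n) : Equiv.Perm (Fin n → Bool) where
  toFun w := Function.update w j (!w j)
  invFun w := Function.update w j (!w j)
  left_inv w := by
    funext i
    by_cases h : i = j
    · subst h; simp
    · simp [h]
  right_inv w := by
    funext i
    by_cases h : i = j
    · subst h; simp
    · simp [h]

theorem A_flip (m : (Fin n → Bool) → ℝ) (j : Fin n) (b : Bool) (x : Fin n → Bool) :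
    A m j b x = ∑ w : Fin n → Bool,
      if trn j w = trn j x ∧ w j = !b then m (Function.update w j b) else 0 := by
  unfold A
  rw [← Equiv.sum_comp (flip j)]
  refine Finset.sum_congr rfl fun w _ => ?_
  have e1 : flip j w = Function.update w j (!w j) := rfl
  rw [e1, trn_update]
  by_cases h : trn j w = trn j x
  · cases hw : w j <;> cases b <;> simp [h]
  · simp [h]

theorem bound {m : (Fin n → Bool) → ℝ} {a c : ℝ} (j : Fin n) (b : Bool) (x : Fin n → Bool)
    (h : ∀ w : Fin n → Bool, a * m (Function.update w j (!b)) ≤ c * m (Function.update w j b)) :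
    a * A m j (!b) x ≤ c * A m j b x := by
  rw [A_flip m j b x]
  unfold A
  rw [Finset.mul_sum, Finset.mul_sum]
  refine Finset.sum_le_sum fun w _ => ?_
  by_cases hw : trn j w = trn j x ∧ w j = !b
  · rw [if_pos hw, if_pos hw]
    have := h w
    have e : Function.update w j (!b) = w := by
      rw [← hw.2]
      exact Function.update_eq_self j w
    rwa [e] at this
  · rw [if_neg hw, if_neg hw]
    simp

theorem A_filter (m : (Fin n → Bool) → ℝ) (j : Fin n) (b : Bool) (x : Fin n → Bool) :
    A m j b x = ∑ w ∈ Finset.univ.filter (fun w : Fin n → Bool => trn j w = trn j x ∧ w j = b),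
      m w := by
  unfold A
  rw [Finset.sum_filter]

theorem trn_inf (j : ℕ) (a b : Fin n → Bool) : trn j (a ⊓ b) = trn j a ⊓ trn j b := by
  funext i
  unfold trn
  by_cases h : (i : ℕ) < j <;> simp [h]

theorem trn_sup (j : ℕ) (a b : Fin n → Bool) : trn j (a ⊔ b) = trn j a ⊔ trn j b := by
  funext i
  unfold trn
  by_cases h : (i : ℕ) < j <;> simp [h]

theorem trn_mono (j : ℕ) {a b : Fin n → Bool} (h : a ≤ b) : trn j a ≤ trn j b := by
  intro i
  unfold trn
  by_cases h' : (i : ℕ) < j
  · simp only [h', if_true]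
    exact h i
  · simp [h']

theorem four {m : (Fin n → Bool) → ℝ} (hm : ∀ w, 0 < m w)
    (hs : ∀ a b, m a * m b ≤ m (a ⊓ b) * m (a ⊔ b)) (j : Fin n) {x y : Fin n → Bool}
    (hxy : x ≤ y) : A m j true x * A m j false y ≤ A m j false x * A m j true y := by
  have hm0 : (0 : (Fin n → Bool) → ℝ) ≤ m := fun w => (hm w).le
  have key := four_functions_theorem (f₁ := m) (f₂ := m) (f₃ := m) (f₄ := m) hm0 hm0 hm0 hm0 hs
    (Finset.univ.filter (fun w : Fin n → Bool => trn j w = trn j x ∧ w j = true))
    (Finset.univ.filter (fun w : Fin n → Bool => trn j w = trn j y ∧ w j = false))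
  rw [A_filter m j true x, A_filter m j false y, A_filter m j false x, A_filter m j true y]
  have hle := trn_mono (j : ℕ) hxy
  refine key.trans (mul_le_mul ?_ ?_ ?_ ?_)
  · refine Finset.sum_le_sum_of_subset_of_nonneg ?_ fun w _ _ => (hm w).le
    intro w hw
    obtain ⟨a, ha, b, hb, rfl⟩ := Finset.mem_infs.mp hw
    rw [Finset.mem_filter] at ha hb ⊢
    refine ⟨Finset.mem_univ _, ?_, ?_⟩
    · rw [trn_inf, ha.2.1, hb.2.1]
      exact inf_eq_left.mpr hle
    · show (a j ⊓ b j) = false
      rw [ha.2.2, hb.2.2]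
      rfl
  · refine Finset.sum_le_sum_of_subset_of_nonneg ?_ fun w _ _ => (hm w).le
    intro w hw
    obtain ⟨a, ha, b, hb, rfl⟩ := Finset.mem_sups.mp hw
    rw [Finset.mem_filter] at ha hb ⊢
    refine ⟨Finset.mem_univ _, ?_, ?_⟩
    · rw [trn_sup, ha.2.1, hb.2.1]
      exact sup_eq_right.mpr hle
    · show (a j ⊔ b j) = true
      rw [ha.2.2, hb.2.2]
      rfl
  · exact Finset.sum_nonneg fun w _ => (hm w).le
  · exact Finset.sum_nonneg fun w _ => (hm w).le

theorem S_congr (m : (Fin n → Bool) → ℝ) (j : Fin n) {v w : Fin n → Bool}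
    (h : trn j v = trn j w) : S m j v = S m j w := by
  unfold S
  rw [h]

theorem total {m : (Fin n → Bool) → ℝ} (hm : ∀ w, 0 < m w) (j : Fin n) :
    ∑ w, m w * cpr m j w = ∑ w, m w * if w j = true then 1 else 0 := by
  have hS : ∀ x, 0 < S m j x := fun x => by
    rw [S_eq]
    exact add_pos (A_pos hm j true x) (A_pos hm j false x)
  have e1 : ∀ w, m w * cpr m j w = ∑ v : Fin n → Bool,
      if trn j v = trn j w ∧ v j = true then m w * m v / S m j v else 0 := by
    intro w
    rw [cpr_eq, A, mul_div_assoc', Finset.mul_sum, Finset.sum_div]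
    refine Finset.sum_congr rfl fun v _ => ?_
    by_cases h : trn j v = trn j w ∧ v j = true
    · rw [if_pos h, if_pos h, S_congr m j h.1]
    · rw [if_neg h, if_neg h]
      simp
  rw [Finset.sum_congr rfl fun w _ => e1 w, Finset.sum_comm]
  refine Finset.sum_congr rfl fun v _ => ?_
  by_cases hv : v j = true
  · rw [if_pos hv]
    have e2 : ∀ w : Fin n → Bool,
        (if trn j v = trn j w ∧ v j = true then m w * m v / S m j v else 0) =
        (if trn j w = trn j v then m w else 0) * (m v / S m j v) := by
      intro w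
      by_cases h : trn j w = trn j v
      · rw [if_pos ⟨h.symm, hv⟩, if_pos h, mul_div_assoc]
      · rw [if_neg (fun h' => h h'.1.symm), if_neg h, zero_mul]
    rw [Finset.sum_congr rfl fun w _ => e2 w, ← Finset.sum_mul]
    have e3 : (∑ w : Fin n → Bool, if trn j w = trn j v then m w else 0) = S m j v := rfl
    rw [e3, mul_one, mul_div_cancel₀ _ (hS v).ne']
  · rw [if_neg hv, mul_zero]
    exact Finset.sum_eq_zero fun w _ => if_neg fun h => hv h.2

end BND_

open BND_

theorem p_BND : T_BND := by
  intro n c m hm j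
  have hA := fun b x => A_pos hm.pos j b x
  have hS : ∀ x, 0 < S m j x := fun x => by
    rw [S_eq]
    exact add_pos (hA true x) (hA false x)
  refine ⟨fun x => ?_, fun x y hxy => ?_, fun x => ?_, total hm.pos j⟩
  · have h1 := bound (m := m) (a := c) (c := 1 - c) j true x (fun w => hm.lo w j)
    have h2 := bound (m := m) (a := c) (c := 1 - c) j false x (fun w => hm.hi w j)
    simp only [Bool.not_true, Bool.not_false] at h1 h2
    rw [cpr_eq, le_div_iff₀ (hS x), div_le_iff₀ (hS x), S_eq]
    constructor <;> linarith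
  · rw [cpr_eq, cpr_eq, div_le_div_iff₀ (hS x) (hS y), S_eq, S_eq]
    have := four hm.pos hm.sup j hxy
    nlinarith
  · rw [cpr_eq, cpr_eq, A, A, S, S, trn_trn]

end Pool.Agent.FKT
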