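import Pool.Agent.FKT.TargetsB

/-!
# FKT: BOX, the theorem of part B (assembly)
-/

set_option autoImplicit false

namespace Pool.Agent.FKT

open Filter MeasureTheory

namespace BOX_

/-- The critical point is at least `0`. -/
theorem pcr_nonneg (d : ℕ) (q : ℝ) : 0 ≤ pcr d q :=
  Real.sSup_nonneg fun _ hp => hp.1

/-- Above the critical point there is a smaller parameter with percolation. -/
theorem below (d : ℕ) (q p : ℝ) (h : pcr d q < p) (hp : p < 1) :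
    ∃ p1 : ℝ, 0 < p1 ∧ p1 < p ∧ ∃ μ : Measure (Ed d → Bool), IsWired d p1 q μ ∧
      μ {ω | InfC (0 : Vx d) ω} ≠ 0 := by
  have h0 := pcr_nonneg d q
  obtain ⟨p1, h1, h2⟩ := exists_between h
  refine ⟨p1, by linarith, h2, ?_⟩
  by_contra hcon
  push Not at hcon
  have hmem : p1 ∈ {p : ℝ | 0 ≤ p ∧ p ≤ 1 ∧ ∀ μ : Measure (Ed d → Bool), IsWired d p q μ →
      μ {ω | InfC (0 : Vx d) ω} = 0} := ⟨by linarith, by linarith, hcon⟩
  have hb : BddAbove {p : ℝ | 0 ≤ p ∧ p ≤ 1 ∧ ∀ μ : Measure (Ed d → Bool), IsWired d p q μ →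
      μ {ω | InfC (0 : Vx d) ω} = 0} := ⟨1, fun x hx => hx.2.1⟩
  have h3 : p1 ≤ pcr d q := le_csSup hb hmem
  linarith

theorem bx_mono {d : ℕ} (x : Vx d) {a b : ℕ} (h : a ≤ b) : bx x a ⊆ bx x b := by
  unfold bx
  have h' : (a : ℤ) ≤ b := by exact_mod_cast h
  refine Finset.Icc_subset_Icc (fun i => ?_) (fun i => ?_)
  · show x i - (b : ℤ) ≤ x i - (a : ℤ)
    omega
  · show x i + (a : ℤ) ≤ x i + (b : ℤ)
    omega

/-- Measurability of the crossing events. -/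
theorem meas_Fv (hLOC : T_LOC) (hCRI : T_CRI) (d K ρ : ℕ) : MeasurableSet (Fv d K ρ) := by
  have h1 := (hLOC d (1 / 2) 1 (eb 0 (K - ρ))).2
    (fun T => CrA (0 : Vx d) ρ (K - ρ) (T : Set (Ed d)))
  have h2 : {ω : Ed d → Bool | CrA (0 : Vx d) ρ (K - ρ)
      ((rs (eb 0 (K - ρ)) (cfg ω) : Finset (Ed d)) : Set (Ed d))} = Fv d K ρ := by
    ext ω
    exact ((hCRI d 0 0 ρ ρ (K - ρ) (K - ρ) (cfg ω) (cfg ω)).2.1).symm
  rw [h2] at h1
  exact h1

end BOX_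

open BOX_ in
theorem p_BOX (hEXI : T_EXI) (hTHM : T_THM) (hINT : T_INT) (hITE : T_ITE) (hCRI : T_CRI)
    (hLOC : T_LOC) : T_BOX := by
  classical
  intro d hd q p hq hpc hp1
  obtain ⟨p1, hp0, hpp, μ1, hμ1, hne⟩ := below d q p hpc hp1
  have hprob1 := hμ1.prob
  obtain ⟨θ0, hθ⟩ : ∃ θ0 : ℝ, θ0 = μ1.real {ω | InfC (0 : Vx d) ω} := ⟨_, rfl⟩
  have hθ0 : 0 < θ0 := by
    rw [hθ]
    exact ENNReal.toReal_pos hne (measure_ne_top μ1 _)
  obtain ⟨c1, hc1, hI⟩ := hINT d hd q p1 p θ0 hq hp0 hpp hp1 hθ0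
  obtain ⟨c, C, hc, hC, hT⟩ := hITE p1 p c1 hpp hc1
  refine ⟨c, C, hc, fun μ hμ r hr => ?_⟩
  have hprob := hμ.prob
  -- the family of wired measures
  have hex : ∀ x : ℝ, ∃ ν : Measure (Ed d → Bool), x ∈ Set.Icc p1 p → IsWired d x q ν := by
    intro x
    by_cases hx : x ∈ Set.Icc p1 p
    · obtain ⟨ν, hν⟩ := hEXI d hd x q (lt_of_lt_of_le hp0 hx.1) (lt_of_le_of_lt hx.2 hp1) hq
      exact ⟨ν, fun _ => hν⟩
    · exact ⟨μ, fun h => absurd h hx⟩
  choose Ψ hΨ using hex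
  obtain ⟨Φ, hΦ1, hΦ2, hΦ⟩ : ∃ Φ : ℝ → Measure (Ed d → Bool), Φ p1 = μ1 ∧ Φ p = μ ∧
      ∀ x ∈ Set.Icc p1 p, IsWired d x q (Φ x) := by
    refine ⟨fun x => if x = p1 then μ1 else if x = p then μ else Ψ x, if_pos rfl, ?_, ?_⟩
    · show (if p = p1 then μ1 else if p = p then μ else Ψ p) = μ
      rw [if_neg hpp.ne', if_pos rfl]
    · intro x hx
      show IsWired d x q (if x = p1 then μ1 else if x = p then μ else Ψ x)
      by_cases h1 : x = p1
      · rw [if_pos h1, h1]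
        exact hμ1
      · rw [if_neg h1]
        by_cases h2 : x = p
        · rw [if_pos h2, h2]
          exact hμ
        · rw [if_neg h2]
          exact hΨ x hx
  have hpos : ∀ x ∈ Set.Icc p1 p, 0 < x ∧ x < 1 := fun x hx =>
    ⟨lt_of_lt_of_le hp0 hx.1, lt_of_le_of_lt hx.2 hp1⟩
  -- the bound for finite `K`
  have key : ∀ K : ℕ, 4 * r ≤ K → 1 - th μ K r ≤ C / (r : ℝ) ^ c := by
    intro K hK
    have hθK : ∀ ρ, 2 * ρ ≤ K → θ0 ≤ th (Φ p1) K ρ := by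
      intro ρ hρ
      rw [hΦ1, hθ]
      exact (hTHM d p1 p1 q hp0 le_rfl (hpp.trans hp1) hq μ1 μ1 hμ1 hμ1 K ρ).2.2.2 hρ
    have hI' := hI Φ hΦ K hθK
    have hv := hT (K / 4) (fun (s : ℕ) (x : ℝ) =>
      if x ∈ Set.Icc p1 p then 1 - th (Φ x) K s else 0) ?_ ?_ ?_ ?_ r hr (by omega)
    · have hpI : p ∈ Set.Icc p1 p := ⟨hpp.le, le_rfl⟩
      simp only [if_pos hpI, hΦ2] at hv
      exact hv
    · intro s x
      by_cases hx : x ∈ Set.Icc p1 p
      · have h := (hTHM d x x q (hpos x hx).1 le_rfl (hpos x hx).2 hq _ _ (hΦ x hx) (hΦ x hx)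
          K s).1.2
        simp only [if_pos hx]
        linarith
      · simp only [if_neg hx]
        exact le_rfl
    · intro s x
      by_cases hx : x ∈ Set.Icc p1 p
      · have h := (hTHM d x x q (hpos x hx).1 le_rfl (hpos x hx).2 hq _ _ (hΦ x hx) (hΦ x hx)
          K s).1.1
        simp only [if_pos hx]
        linarith
      · simp only [if_neg hx]
        exact zero_le_one
    · intro s s' x hx1 hx2 hss hs'
      have hx : x ∈ Set.Icc p1 p := ⟨hx1, hx2⟩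
      have h := (hTHM d x x q (hpos x hx).1 le_rfl (hpos x hx).2 hq _ _ (hΦ x hx) (hΦ x hx)
        K s).2.1 s' hss (by omega)
      simp only [if_pos hx]
      linarith
    · intro s x x' hs hs2 hx1 hxx hx2
      have hx : x ∈ Set.Icc p1 p := ⟨hx1, hxx.le.trans hx2⟩
      have hx' : x' ∈ Set.Icc p1 p := ⟨hx1.trans hxx.le, hx2⟩
      simp only [if_pos hx, if_pos hx']
      exact hI' s hs (by omega) x x' hx1 hxx hx2
  -- the increasing union
  have hBn : ∀ n : ℕ, μ (Fv d (4 * r + n) r)ᶜ ≤ ENNReal.ofReal (C / (r : ℝ) ^ c) := by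
    intro n
    have h1 := key (4 * r + n) (by omega)
    have h2 : μ.real (Fv d (4 * r + n) r)ᶜ = 1 - th μ (4 * r + n) r :=
      probReal_compl_eq_one_sub (meas_Fv hLOC hCRI d (4 * r + n) r)
    rw [← h2] at h1
    rw [← ofReal_measureReal (measure_ne_top μ _)]
    exact ENNReal.ofReal_le_ofReal h1
  have hmono : Monotone fun n : ℕ => (Fv d (4 * r + n) r)ᶜ := by
    intro n n' hn
    refine Set.compl_subset_compl.2 fun ω hω => ?_
    exact (hCRI d 0 0 r r (4 * r + n' - r) (4 * r + n - r) (cfg ω) (cfg ω)).1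
      (bx_mono 0 le_rfl) (bx_mono 0 (by omega)) (by omega) hω
  have hsub : {ω : Ed d → Bool | ∀ x ∈ bx (0 : Vx d) r, ¬ InfC x ω} ⊆
      ⋃ n : ℕ, (Fv d (4 * r + n) r)ᶜ := by
    intro ω hω
    obtain ⟨b0, hb0⟩ := (hCRI d 0 0 r r 0 0 (cfg ω) (cfg ω)).2.2.2.2.2 ω hω
    refine Set.mem_iUnion.2 ⟨b0, fun h => ?_⟩
    exact hb0 (4 * r + b0 - r) (by omega) h
  have hfin : μ {ω : Ed d → Bool | ∀ x ∈ bx (0 : Vx d) r, ¬ InfC x ω} ≤
      ENNReal.ofReal (C / (r : ℝ) ^ c) := by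
    refine (measure_mono hsub).trans ?_
    rw [hmono.measure_iUnion]
    exact iSup_le hBn
  exact ENNReal.toReal_le_of_le_ofReal (by positivity) hfin

end Pool.Agent.FKT
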