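import Pool.Agent.FKT.TargetsB

/-!
FKT, target CPL: the absolute mean of the martingale difference.
-/

set_option autoImplicit false

namespace Pool.Agent.FKT

open Filter MeasureTheory

namespace CPL_

section prod

variable {S : Type} [Fintype S] {n : ℕ}

lemma PE_sub (l : Fin n → S → ℝ) (f g : (Fin n → S) → ℝ) :
    PE l (fun u => f u - g u) = PE l f - PE l g := by
  simp only [PE, mul_sub, Finset.sum_sub_distrib]

lemma PE_mul (l : Fin n → S → ℝ) (a : ℝ) (f : (Fin n → S) → ℝ) :
    PE l (fun u => a * f u) = a * PE l f := by
  simp only [PE, Finset.mul_sum]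
  exact Finset.sum_congr rfl (fun u _ => by ring)

lemma PE_const (l : Fin n → S → ℝ) (h : PE l (fun _ => 1) = 1) (a : ℝ) :
    PE l (fun _ => a) = a := by
  have := PE_mul l a (fun _ => 1)
  simp only [mul_one] at this
  rw [this, h, mul_one]

lemma CE_upd (l : Fin n → S → ℝ) (j : Fin n) (f : (Fin n → S) → ℝ) (u : Fin n → S) (s : S) :
    CE l j f (Function.update u j s) = CE l j f u := by
  unfold CE
  congr 1
  funext v
  congr 1
  funext i
  by_cases hi : (i : ℕ) < j
  · rw [if_pos hi, if_pos hi, Function.update_of_ne]
    rintro rfl
    exact lt_irrefl _ hi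
  · rw [if_neg hi, if_neg hi]

lemma Av_CE (l : Fin n → S → ℝ) (hl : PW l) (j : Fin n) (f : (Fin n → S) → ℝ) (u : Fin n → S) :
    Av l j (CE l j f) u = CE l j f u := by
  unfold Av
  simp only [CE_upd]
  rw [← Finset.sum_mul, hl.tot, one_mul]

lemma Av_upd (l : Fin n → S → ℝ) (j : Fin n) (f : (Fin n → S) → ℝ) (u : Fin n → S) (s : S) :
    Av l j f (Function.update u j s) = Av l j f u := by
  unfold Av
  simp only [Function.update_idem]

lemma Av_CE_succ (l : Fin n → S → ℝ) (hl : PW l)
    (q5 : ∀ (i : Fin n) (j : ℕ) (f : (Fin n → S) → ℝ) (u : Fin n → S),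
      Av l i (CE l j f) u = CE l j (Av l i f) u)
    (j : Fin n) (f : (Fin n → S) → ℝ) (u : Fin n → S) :
    Av l j (CE l (j + 1) f) u = CE l j f u := by
  rw [q5, ← Av_CE l hl j f u, q5]
  unfold CE
  congr 1
  funext v
  have : (fun i : Fin n => if (i : ℕ) < j + 1 then u i else v i) =
      Function.update (fun i : Fin n => if (i : ℕ) < j then u i else v i) j (u j) := by
    funext i
    by_cases hi : i = j
    · subst hi
      rw [Function.update_self, if_pos (Nat.lt_succ_self _)]
    · rw [Function.update_of_ne hi]
      have hne : (i : ℕ) ≠ j := fun h => hi (Fin.ext h)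
      by_cases h : (i : ℕ) < j
      · rw [if_pos h, if_pos (by omega)]
      · rw [if_neg h, if_neg (by omega)]
  rw [this, Av_upd]

/-- Self adjointness, for a function fixed by the conditional expectation. -/
lemma PE_CE (l : Fin n → S → ℝ)
    (q6 : ∀ (j : ℕ) (f g : (Fin n → S) → ℝ),
      PE l (fun u => CE l j f u * g u) = PE l fun u => CE l j f u * CE l j g u)
    (j : ℕ) (g b : (Fin n → S) → ℝ) (hb : ∀ u, CE l j b u = b u) :
    PE l (fun u => CE l j g u * b u) = PE l fun u => g u * b u := by
  have h1 := q6 j g b
  have h2 := q6 j b g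
  rw [h1]
  have h3 : (fun u => CE l j g u * CE l j b u) = fun u => CE l j b u * CE l j g u := by
    funext u
    ring
  rw [h3, ← h2]
  congr 1
  funext u
  rw [hb, mul_comm]

end prod

end CPL_

open CPL_ in
/-- The absolute mean of the martingale difference is bounded by the covariance. -/
theorem p_CPL (h_PRD : T_PRD) (h_STP : T_STP) (h_BND : T_BND) (h_CPV : T_CPV) : T_CPL := by
  intro n c m l hm hl F hF hF01 j
  obtain ⟨q1, q2, q3, -, q5, q6, -⟩ := h_PRD n (Rule n) l hl.pw
  have hcpv := (h_CPV n c m l hm hl F hF hF01 j).2
  set g : (Fin n → Rule n) → ℝ := fun u => F (st u n) with hg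
  set b : (Fin n → Rule n) → ℝ := fun u => if u j (st u j) = true then (1 : ℝ) else 0 with hb
  set x : (Fin n → Rule n) → ℝ := fun u => cpr m j (st u j) with hx
  have hst : ∀ (u v : Fin n → Rule n), (∀ i : Fin n, (i : ℕ) < j → u i = v i) →
      st u j = st v j := fun u v h => (h_STP n u).1 v j h
  have hstU : ∀ (u : Fin n → Rule n) (s : Rule n), st (Function.update u j s) j = st u j := by
    intro u s
    refine hst _ _ (fun i hi => ?_)
    rw [Function.update_of_ne]
    rintro rfl
    exact lt_irrefl _ hi
  -- the bit and its conditional probability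
  have hbU : ∀ (u : Fin n → Rule n) (s : Rule n), b (Function.update u j s) =
      if s (st u j) = true then (1 : ℝ) else 0 := by
    intro u s
    simp only [hb, hstU, Function.update_self]
  have hCb : ∀ u, CE l (j + 1) b u = b u := by
    intro u
    have : (fun v : Fin n → Rule n => b fun i => if (i : ℕ) < j + 1 then u i else v i) =
        fun _ => b u := by
      funext v
      set w : Fin n → Rule n := fun i => if (i : ℕ) < (j : ℕ) + 1 then u i else v i with hw
      have h1 : st w j = st u j := by
        refine hst _ _ (fun i hi => ?_)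
        simp only [hw]
        rw [if_pos (by omega)]
      have h2 : w j = u j := by
        simp only [hw]
        rw [if_pos (Nat.lt_succ_self (j : ℕ))]
      simp only [hb]
      rw [h1, h2]
    unfold CE
    rw [this]
    exact PE_const l q1 _
  have hCx : ∀ u, CE l j x u = x u := by
    intro u
    have : (fun v : Fin n → Rule n => x fun i => if (i : ℕ) < j then u i else v i) =
        fun _ => x u := by
      funext v
      set w : Fin n → Rule n := fun i => if (i : ℕ) < (j : ℕ) then u i else v i with hw
      have h1 : st w j = st u j := by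
        refine hst _ _ (fun i hi => ?_)
        simp only [hw]
        rw [if_pos hi]
      simp only [hx]
      rw [h1]
    unfold CE
    rw [this]
    exact PE_const l q1 _
  have hAb : ∀ u, Av l j b u = x u := by
    intro u
    have h1 := hl.mean j (st u j)
    simp only [hx]
    rw [← h1]
    unfold Av
    refine Finset.sum_congr rfl (fun s _ => ?_)
    rw [hbU]
    split_ifs <;> simp
  -- the conditional expectation as a function of the rule
  have key : ∀ u, Av l j (fun u => |Lj l j g u|) u = 2 * Av l j (fun u => Lj l j g u * b u) u := by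
    intro u
    set φ : Rule n → ℝ := fun s => CE l (j + 1) g (Function.update u j s) with hφ
    set M : ℝ := CE l j g u with hM
    have hsum : ∑ s, l j s * φ s = M := by
      have := Av_CE_succ l hl.pw q5 j g u
      rw [← hM] at this
      rw [← this]
      rfl
    have hL : ∀ s, Lj l j g (Function.update u j s) = φ s - M := by
      intro s
      unfold Lj
      rw [CE_upd]
    have hmono : ∀ s s' : Rule n, (s (st u j) = s' (st u j) ∨
        (s (st u j) = false ∧ s' (st u j) = true)) → φ s ≤ φ s' := by
      intro s s' hss
      simp only [hφ, CE, PE]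
      refine Finset.sum_le_sum (fun v _ => ?_)
      by_cases hv : ∏ i, l i (v i) = 0
      · rw [hv, zero_mul, zero_mul]
      have hv' : ∀ i, l i (v i) ≠ 0 := by
        intro i h0
        exact hv (Finset.prod_eq_zero (Finset.mem_univ i) h0)
      have hpos : 0 ≤ ∏ i, l i (v i) := Finset.prod_nonneg (fun i _ => hl.pw.nn i (v i))
      refine mul_le_mul_of_nonneg_left ?_ hpos
      simp only [hg]
      refine hF ?_
      set w : Fin n → Rule n := fun i => if (i : ℕ) < (j : ℕ) + 1 then u i else v i with hw
      have hwu : ∀ r : Rule n, (fun i : Fin n => if (i : ℕ) < (j : ℕ) + 1 then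
          Function.update u j r i else v i) = Function.update w j r := by
        intro r
        funext i
        by_cases hi : i = j
        · subst hi
          rw [Function.update_self, Function.update_self, if_pos (Nat.lt_succ_self _)]
        · rw [Function.update_of_ne hi, Function.update_of_ne hi]
      have hwst : st w j = st u j := by
        refine hst _ _ (fun i hi => ?_)
        simp only [hw]
        rw [if_pos (by omega)]
      rw [hwu s, hwu s']
      rcases hss with h | ⟨h1, h2⟩
      · have := (h_STP n w).2.2.1 j s s' (by rw [hwst]; exact h) n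
        rw [this]
      · refine (h_STP n w).2.2.2 j s s' (by rw [hwst]; exact h1) (by rw [hwst]; exact h2)
          (fun k hk y y' hyy hy => ?_) n
        have hwk : w k = v k := by
          simp only [hw]
          rw [if_neg]
          have : (j : ℕ) < k := hk
          omega
        rw [hwk] at hy ⊢
        exact hl.mono k (v k) (hv' k) y y' ((h_BND n c m hm k).2.1 y y' hyy) hy
    have htot : ∑ s, l j s = 1 := hl.pw.tot j
    have hup : ∀ s : Rule n, s (st u j) = true → M ≤ φ s := by
      intro s hs
      rw [← hsum]
      have : ∑ s' : Rule n, l j s' * φ s' ≤ ∑ s' : Rule n, l j s' * φ s := by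
        refine Finset.sum_le_sum (fun s' _ => mul_le_mul_of_nonneg_left (hmono s' s ?_)
          (hl.pw.nn j s'))
        rcases Bool.eq_false_or_eq_true (s' (st u j)) with h | h
        · left
          rw [h, hs]
        · right
          exact ⟨h, hs⟩
      rwa [← Finset.sum_mul, htot, one_mul] at this
    have hlo : ∀ s : Rule n, s (st u j) = false → φ s ≤ M := by
      intro s hs
      rw [← hsum]
      have : ∑ s' : Rule n, l j s' * φ s ≤ ∑ s' : Rule n, l j s' * φ s' := by
        refine Finset.sum_le_sum (fun s' _ => mul_le_mul_of_nonneg_left (hmono s s' ?_)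
          (hl.pw.nn j s'))
        rcases Bool.eq_false_or_eq_true (s' (st u j)) with h | h
        · right
          exact ⟨hs, h⟩
        · left
          rw [h, hs]
      rwa [← Finset.sum_mul, htot, one_mul] at this
    have habs : ∀ s : Rule n, |φ s - M| =
        2 * ((φ s - M) * if s (st u j) = true then (1 : ℝ) else 0) - (φ s - M) := by
      intro s
      by_cases hs : s (st u j) = true
      · rw [if_pos hs, abs_of_nonneg (sub_nonneg.mpr (hup s hs))]
        ring
      · rw [if_neg hs, abs_of_nonpos (sub_nonpos.mpr (hlo s (by simpa using hs)))]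
        ring
    have hzero : ∑ s, l j s * (φ s - M) = 0 := by
      simp only [mul_sub, Finset.sum_sub_distrib]
      rw [hsum, ← Finset.sum_mul, htot, one_mul, sub_self]
    unfold Av
    simp only [hL, hbU, habs]
    simp only [mul_sub (l j _)]
    rw [Finset.sum_sub_distrib]
    have h2 : ∑ s, (l j s * φ s - l j s * M) = 0 := by
      rw [← hzero]
      exact Finset.sum_congr rfl (fun s _ => by ring)
    rw [h2, sub_zero, Finset.mul_sum]
    exact Finset.sum_congr rfl (fun s _ => by ring)
  -- conclusion
  have h1 : PE l (fun u => |Lj l j g u|) = 2 * PE l (fun u => Lj l j g u * b u) := by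
    rw [← q2 j (fun u => |Lj l j g u|), ← q2 j (fun u => Lj l j g u * b u), ← PE_mul]
    congr 1
    funext u
    exact key u
  have h2 : PE l (fun u => Lj l j g u * b u) =
      PE l (fun u => CE l (j + 1) g u * b u) - PE l (fun u => CE l j g u * b u) := by
    rw [← PE_sub]
    congr 1
    funext u
    unfold Lj
    ring
  have h3 : PE l (fun u => CE l (j + 1) g u * b u) = PE l fun u => g u * b u :=
    PE_CE l q6 (j + 1) g b hCb
  have h4 : PE l (fun u => CE l j g u * b u) = PE l (fun u => CE l j g u * x u) := by
    rw [← q2 j (fun u => CE l j g u * b u)]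
    congr 1
    funext u
    have h5 := q3 j b (CE l j g) u
    have h6 : (fun v => b v * Av l j (CE l j g) v) = fun v => CE l j g v * b v := by
      funext v
      rw [Av_CE l hl.pw, mul_comm]
    rw [h6, hAb, Av_CE l hl.pw] at h5
    rw [h5, mul_comm]
  have h5 : PE l (fun u => CE l j g u * x u) = PE l fun u => g u * x u :=
    PE_CE l q6 j g x hCx
  have h6 : (fun u => F (st u n) * if st u n j = true then (1 : ℝ) else 0) =
      fun u => g u * b u := by
    funext u
    simp only [hg, hb]
    rw [(h_STP n u).2.1.2 j]
  rw [h6] at hcpv
  rw [h1, h2, h3, h4, h5]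
  exact mul_le_mul_of_nonneg_left hcpv (by norm_num)

end Pool.Agent.FKT
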