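import Pool.Agent.FKT.TargetsB

/-!
# Project FKT: the variance in one coordinate is bounded by the covariance (T_CPV) (helper21)
-/

set_option autoImplicit false

namespace Pool.Agent.FKT

namespace CPV_

/-- The sum of a two-valued function. -/
theorem sum_two {ι : Type} [Fintype ι] (w : ι → ℝ) (β : ι → Bool) (X a b : ℝ)
    (hw : ∑ s, w s = 1) (hX : (∑ s, if β s = true then w s else 0) = X) :
    ∑ s, w s * (if β s = true then a else b) = X * a + (1 - X) * b := by
  have h1 : ∀ s, w s * (if β s = true then a else b) =
      (if β s = true then w s else 0) * a + (w s - if β s = true then w s else 0) * b := by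
    intro s
    by_cases h : β s = true
    · simp [h]
    · simp [h]
  rw [Finset.sum_congr rfl fun s _ => h1 s, Finset.sum_add_distrib, ← Finset.sum_mul,
    ← Finset.sum_mul, Finset.sum_sub_distrib, hX, hw]

theorem st_upd (h_STP : T_STP) {n : ℕ} (u : Fin n → Rule n) (j : Fin n) (r : Rule n) :
    st (Function.update u j r) j = st u j := by
  refine (h_STP n (Function.update u j r)).1 u j fun i hi => ?_
  rw [Function.update_of_ne]
  rintro rfl
  exact lt_irrefl _ hi

end CPV_

open CPV_ in
theorem p_CPV (h_PRD : T_PRD) (h_STP : T_STP) (h_BND : T_BND) (h_LAW : T_LAW) : T_CPV := by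
  intro n c m l hm hl F hF hF01 j
  have hAv := (h_PRD n (Rule n) l hl.pw).2.1 j
  obtain ⟨b1, b2, b3, b4⟩ := h_BND n c m hm j
  have hc0 := hm.c0
  have hc1 := hm.c1
  -- the state at time `j`
  have hst : ∀ (u : Fin n → Rule n) (r : Rule n), st (Function.update u j r) j = st u j :=
    fun u r => st_upd h_STP u j r
  have hbit : ∀ u : Fin n → Rule n, st u n j = u j (st u j) :=
    fun u => (h_STP n u).2.1.2 j
  have hbit' : ∀ (u : Fin n → Rule n) (r : Rule n),
      st (Function.update u j r) n j = r (st u j) := by
    intro u r
    rw [hbit, hst, Function.update_self]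
  obtain ⟨gp, hgp⟩ : ∃ gp : (Fin n → Rule n) → ℝ,
      ∀ u, gp u = F (st (Function.update u j fun _ => true) n) := ⟨_, fun _ => rfl⟩
  obtain ⟨gm, hgm⟩ : ∃ gm : (Fin n → Rule n) → ℝ,
      ∀ u, gm u = F (st (Function.update u j fun _ => false) n) := ⟨_, fun _ => rfl⟩
  have hval : ∀ (u : Fin n → Rule n) (r : Rule n), F (st (Function.update u j r) n) =
      if r (st u j) = true then gp u else gm u := by
    intro u r
    by_cases hr : r (st u j) = true
    · rw [if_pos hr, hgp, (h_STP n u).2.2.1 j r (fun _ => true) hr n]
    · rw [if_neg hr, hgm, (h_STP n u).2.2.1 j r (fun _ => false) (by simpa using hr) n]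
  have hmean : ∀ u : Fin n → Rule n,
      (∑ r : Rule n, if r (st u j) = true then l j r else 0) = cpr m j (st u j) :=
    fun u => hl.mean j (st u j)
  have htot : ∑ r : Rule n, l j r = 1 := hl.pw.tot j
  -- the averages
  have hV : ∀ u : Fin n → Rule n, Vi l j (fun u => F (st u n)) u =
      cpr m j (st u j) * (1 - cpr m j (st u j)) * (gp u - gm u) ^ 2 := by
    intro u
    unfold Vi Av
    simp only [hval]
    have e1 : ∀ (r : Rule n) (x y : ℝ), (if r (st u j) = true then x else y) ^ 2 =
        if r (st u j) = true then x ^ 2 else y ^ 2 := by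
      intro r x y
      split_ifs <;> rfl
    simp only [e1]
    rw [sum_two (l j) (fun r : Rule n => r (st u j)) _ _ _ htot (hmean u),
      sum_two (l j) (fun r : Rule n => r (st u j)) _ _ _ htot (hmean u)]
    ring
  have hB : ∀ u : Fin n → Rule n,
      Av l j (fun u => F (st u n) * if st u n j = true then 1 else 0) u =
        cpr m j (st u j) * gp u := by
    intro u
    unfold Av
    simp only [hbit', hval]
    have e1 : ∀ (r : Rule n) (x y : ℝ), ((if r (st u j) = true then x else y) *
        if r (st u j) = true then 1 else 0) = if r (st u j) = true then x else 0 := by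
      intro r x y
      split_ifs <;> simp
    simp only [e1]
    rw [sum_two (l j) (fun r : Rule n => r (st u j)) _ _ _ htot (hmean u)]
    ring
  have hX : ∀ u : Fin n → Rule n,
      Av l j (fun u => F (st u n) * cpr m j (st u j)) u =
        (cpr m j (st u j) * gp u + (1 - cpr m j (st u j)) * gm u) * cpr m j (st u j) := by
    intro u
    unfold Av
    simp only [hst, hval]
    rw [← sum_two (l j) (fun r : Rule n => r (st u j)) _ _ _ htot (hmean u), Finset.sum_mul]
    exact Finset.sum_congr rfl fun r _ => by ring
  -- pointwise comparison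
  have hpt : ∀ u : Fin n → Rule n, (∏ i, l i (u i)) * Vi l j (fun u => F (st u n)) u ≤
      (∏ i, l i (u i)) *
        (Av l j (fun u => F (st u n) * if st u n j = true then 1 else 0) u -
          Av l j (fun u => F (st u n) * cpr m j (st u j)) u) := by
    intro u
    by_cases hw : ∏ i, l i (u i) = 0
    · rw [hw, zero_mul, zero_mul]
    · refine mul_le_mul_of_nonneg_left ?_ (Finset.prod_nonneg fun i _ => hl.pw.nn i (u i))
      have hle : st (Function.update u j fun _ => false) n ≤
          st (Function.update u j fun _ => true) n := by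
        refine (h_STP n u).2.2.2 j (fun _ => false) (fun _ => true) rfl rfl ?_ n
        intro k _ x y hxy hx
        have hk : l k (u k) ≠ 0 := fun h => hw (Finset.prod_eq_zero (Finset.mem_univ k) h)
        exact hl.mono k (u k) hk x y ((h_BND n c m hm k).2.1 x y hxy) hx
      rw [hV, hB, hX]
      have k1 := hF hle
      obtain ⟨k2, k3⟩ := hF01 (st (Function.update u j fun _ => true) n)
      obtain ⟨k4, k5⟩ := hF01 (st (Function.update u j fun _ => false) n)
      obtain ⟨k6, k7⟩ := b1 (st u j)
      rw [← hgp] at k1 k2 k3
      rw [← hgm] at k1 k4 k5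
      generalize gp u = gp at *
      generalize gm u = gm at *
      generalize cpr m j (st u j) = x at *
      have k8 : 0 ≤ x * (1 - x) := mul_nonneg (by linarith) (by linarith)
      have k9 : (gp - gm) ^ 2 ≤ gp - gm := by nlinarith
      have k10 := mul_le_mul_of_nonneg_left k9 k8
      calc x * (1 - x) * (gp - gm) ^ 2 ≤ x * (1 - x) * (gp - gm) := k10
        _ = x * gp - (x * gp + (1 - x) * gm) * x := by ring
  -- the expectations
  have hQ : PE l (Vi l j fun u => F (st u n)) ≤
      PE l (fun u => F (st u n) * if st u n j = true then 1 else 0) -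
        PE l (fun u => F (st u n) * cpr m j (st u j)) := by
    rw [← hAv (fun u => F (st u n) * if st u n j = true then 1 else 0),
      ← hAv (fun u => F (st u n) * cpr m j (st u j))]
    unfold PE
    rw [← Finset.sum_sub_distrib]
    refine (Finset.sum_le_sum fun u _ => hpt u).trans (le_of_eq ?_)
    exact Finset.sum_congr rfl fun u _ => by ring
  have hC : PE l (fun u => F (st u n) * if st u n j = true then 1 else 0) -
      PE l (fun u => F (st u n) * cpr m j (st u j)) ≤ cvb m F j := by
    have e1 : PE l (fun u => F (st u n) * if st u n j = true then 1 else 0) =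
        ∑ w, m w * (F w * if w j = true then 1 else 0) :=
      (h_LAW n c m l hm hl).2 fun w => F w * if w j = true then 1 else 0
    have e2 : PE l (fun u => F (st u n) * cpr m j (st u j)) =
        ∑ w, m w * (F w * cpr m j w) := by
      have e3 : (fun u : Fin n → Rule n => F (st u n) * cpr m j (st u j)) =
          fun u => (fun w => F w * cpr m j w) (st u n) := by
        funext u
        have e4 : cpr m j (st u j) = cpr m j (st u n) := by
          rw [(h_STP n u).2.1.1 j, b3]
        show F (st u n) * cpr m j (st u j) = F (st u n) * cpr m j (st u n)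
        rw [e4]
      rw [e3]
      exact (h_LAW n c m l hm hl).2 fun w => F w * cpr m j w
    have e5 := fkg F (fun w => cpr m j w) m (fun w => (hm.pos w).le) (fun w => (hF01 w).1)
      (fun w => (by linarith [(b1 w).1] : (0 : ℝ) ≤ cpr m j w)) hF b2 hm.sup
    rw [hm.tot, one_mul, b4] at e5
    rw [e1, e2]
    unfold cvb
    linarith
  exact ⟨hQ.trans hC, hC⟩

end Pool.Agent.FKT
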