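import Pool.Agent.FKT.TargetsB

/-!
# FKT: CVL, convergence of probabilities and covariances of local events
-/

set_option autoImplicit false

namespace Pool.Agent.FKT

open Filter MeasureTheory

namespace CVL_

variable {d : ℕ}

theorem mem_rs (F : Finset (Ed d)) (O : Set (Ed d)) (e : Ed d) : e ∈ rs F O ↔ e ∈ F ∧ e ∈ O := by
  classical
  unfold rs
  rw [Finset.mem_filter]

theorem rs_inter (e : Ed d) (F : Finset (Ed d)) (O : Set (Ed d)) :
    rs (insert e F) O ∩ F = rs F O := by
  ext a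
  rw [Finset.mem_inter, mem_rs, mem_rs, Finset.mem_insert]
  tauto

theorem fin_inter (e : Ed d) (F w : Finset (Ed d)) : (w ∩ insert e F) ∩ F = w ∩ F := by
  ext a
  simp only [Finset.mem_inter, Finset.mem_insert]
  tauto

/-- The integral of the indicator of a local event. -/
theorem integral_ind (μ : Measure (Ed d → Bool)) (P : (Ed d → Bool) → Prop)
    (hP : MeasurableSet {ω | P ω}) : ∫ ω, ind (P ω) ∂μ = μ.real {ω | P ω} := by
  have h : (fun ω => ind (P ω)) = {ω | P ω}.indicator (fun _ => (1 : ℝ)) := by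
    funext ω
    by_cases h1 : P ω
    · rw [Set.indicator_of_mem (show ω ∈ {ω | P ω} from h1)]
      unfold ind
      rw [if_pos h1]
    · rw [Set.indicator_of_notMem (show ω ∉ {ω | P ω} from h1)]
      unfold ind
      rw [if_neg h1]
  rw [h, integral_indicator hP, integral_const, smul_eq_mul, mul_one,
    measureReal_restrict_apply_univ]

theorem ind_mul (P Q : Prop) : ind P * ind Q = ind (P ∧ Q) := by
  unfold ind
  by_cases hP : P <;> by_cases hQ : Q <;> simp [hP, hQ]

end CVL_

open CVL_ in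
theorem p_CVL (h_LOC : T_LOC) : T_CVL := by
  intro d p q μ hμ F P
  have h1 : ∀ (G : Finset (Ed d)) (Q : Finset (Ed d) → Prop),
      Tendsto (fun N : ℕ => phi (0 : Vx d) N p q fun ω => ind (Q (ω ∩ G))) atTop
        (nhds (μ.real {ω | Q (rs G (cfg ω))})) := by
    intro G Q
    obtain ⟨h2, h3⟩ := h_LOC d p q G
    have h4 := (h2 μ hμ fun T => ind (Q T)).1
    rw [integral_ind μ (fun ω => Q (rs G (cfg ω))) (h3 Q)] at h4
    exact h4
  refine ⟨h1 F P, fun e => ?_⟩
  have h5 := h1 (insert e F) fun T => P (T ∩ F) ∧ e ∈ T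
  have h6 := h1 {e} fun T => e ∈ T
  have e5 : (fun N : ℕ => phi (0 : Vx d) N p q fun ω =>
      ind (P ((ω ∩ insert e F) ∩ F) ∧ e ∈ ω ∩ insert e F)) =
      fun N : ℕ => phi (0 : Vx d) N p q fun ω => ind (P (ω ∩ F)) * ind (e ∈ ω) := by
    funext N
    congr 1
    funext w
    rw [fin_inter, ind_mul]
    have : (e ∈ w ∩ insert e F) = (e ∈ w) := by
      simp
    rw [this]
  have s5 : {ω : Ed d → Bool | P (rs (insert e F) (cfg ω) ∩ F) ∧ e ∈ rs (insert e F) (cfg ω)} =
      {ω | P (rs F (cfg ω))} ∩ {ω | ω e = true} := by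
    ext ω
    simp only [Set.mem_setOf_eq, Set.mem_inter_iff, rs_inter, mem_rs, Finset.mem_insert, cfg,
      true_or, true_and]
  have e6 : (fun N : ℕ => phi (0 : Vx d) N p q fun ω => ind (e ∈ ω ∩ {e})) =
      fun N : ℕ => phi (0 : Vx d) N p q fun ω => ind (e ∈ ω) := by
    funext N
    congr 1
    funext w
    have : (e ∈ w ∩ {e}) = (e ∈ w) := by
      simp
    rw [this]
  have s6 : {ω : Ed d → Bool | e ∈ rs {e} (cfg ω)} = {ω | ω e = true} := by
    ext ω
    simp only [Set.mem_setOf_eq, mem_rs, Finset.mem_singleton, cfg, true_and]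
  rw [s5] at h5
  rw [s6] at h6
  have h7 := (h5.congr fun N => congrFun e5 N).sub ((h1 F P).mul (h6.congr fun N => congrFun e6 N))
  exact h7

end Pool.Agent.FKT
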