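import Pool.Agent.FKT.TargetsB

set_option autoImplicit false

namespace Pool.Agent.FKT

theorem DER_alg (k m n p P P' Q Q' : ℝ) (hp0 : p ≠ 0) (hp1 : 1 - p ≠ 0)
    (hA : k * P' * p = k * P) (hB : m * Q' * (1 - p) = m * Q) (hn : n = k + m) :
    k * P' * Q + P * (m * Q' * (-1)) = (k - n * p) / (p * (1 - p)) * (P * Q) := by
  rw [div_mul_eq_mul_div, eq_div_iff (mul_ne_zero hp0 hp1)]
  linear_combination (Q * (1 - p)) * hA - (P * p) * hB + P * Q * p * hn

theorem DER_pow (x : ℝ) (k : ℕ) : (k : ℝ) * x ^ (k - 1) * x = k * x ^ k := by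
  cases k with
  | zero => simp
  | succ k =>
    rw [Nat.add_sub_cancel, pow_succ]
    ring

theorem DER_bw {E : Type} (G ω : Finset E) (h : ω ⊆ G) (p : ℝ) (hp0 : 0 < p) (hp1 : p < 1) :
    HasDerivAt (fun x => bw x G ω)
      (((ω.card : ℝ) - G.card * p) / (p * (1 - p)) * bw p G ω) p := by
  unfold bw
  have hc : ω.card ≤ G.card := Finset.card_le_card h
  have h1 : HasDerivAt (fun x : ℝ => x ^ ω.card) ((ω.card : ℝ) * p ^ (ω.card - 1)) p :=
    hasDerivAt_pow _ _
  have h2 : HasDerivAt (fun x : ℝ => (1 - x) ^ (G.card - ω.card))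
      (((G.card - ω.card : ℕ) : ℝ) * (1 - p) ^ (G.card - ω.card - 1) * (-1)) p :=
    ((hasDerivAt_id p).const_sub 1).pow (G.card - ω.card)
  refine (h1.mul h2).congr_deriv ?_
  refine DER_alg (ω.card : ℝ) ((G.card - ω.card : ℕ) : ℝ) G.card p (p ^ ω.card)
    (p ^ (ω.card - 1)) ((1 - p) ^ (G.card - ω.card)) ((1 - p) ^ (G.card - ω.card - 1))
    hp0.ne' (by linarith) (DER_pow p _) (DER_pow (1 - p) _) ?_
  rw [Nat.cast_sub hc]
  ring

section

variable {V E : Type} (s t : E → V) (R : V → V → Prop) (U : Finset V) (G : Finset E) (q : ℝ)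

/-- The numerator. -/
noncomputable def DER_N (g : Finset E → ℝ) (x : ℝ) : ℝ :=
  ∑ ω ∈ G.powerset, wt s t R U G x q ω * g ω

theorem DER_N_deriv (g : Finset E → ℝ) (p : ℝ) (hp0 : 0 < p) (hp1 : p < 1) :
    HasDerivAt (DER_N s t R U G q g)
      (1 / (p * (1 - p)) * (DER_N s t R U G q (fun ω => g ω * ω.card) p -
        G.card * p * DER_N s t R U G q g p)) p := by
  have h : HasDerivAt (fun x => ∑ ω ∈ G.powerset, wt s t R U G x q ω * g ω)
      (∑ ω ∈ G.powerset, (((ω.card : ℝ) - G.card * p) / (p * (1 - p)) * bw p G ω) *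
        q ^ ncl s t R U (ω : Set E) * g ω) p := by
    refine HasDerivAt.fun_sum fun ω hω => ?_
    exact ((DER_bw G ω (Finset.mem_powerset.1 hω) p hp0 hp1).mul_const _).mul_const _
  refine h.congr_deriv ?_
  unfold DER_N wt
  rw [Finset.mul_sum, ← Finset.sum_sub_distrib, Finset.mul_sum]
  refine Finset.sum_congr rfl fun ω _ => ?_
  ring

theorem DER_Ex (g : Finset E → ℝ) (x : ℝ) :
    Ex s t R U G x q g = DER_N s t R U G q g x / DER_N s t R U G q (fun _ => 1) x := by
  unfold Ex DER_N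
  simp only [mul_one]

theorem DER_sum (g : Finset E → ℝ) (x : ℝ) :
    DER_N s t R U G q (fun ω => g ω * ω.card) x =
      ∑ e ∈ G, DER_N s t R U G q (fun ω => g ω * ind (e ∈ ω)) x := by
  unfold DER_N
  rw [Finset.sum_comm]
  refine Finset.sum_congr rfl fun ω hω => ?_
  rw [← Finset.mul_sum, ← Finset.mul_sum]
  have h : (∑ e ∈ G, ind (e ∈ ω)) = (ω.card : ℝ) := by
    rw [← Finset.sum_subset (Finset.mem_powerset.1 hω) (fun e _ he => by
      unfold ind
      rw [if_neg he])]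
    rw [Finset.sum_congr rfl (fun e he => by
      unfold ind
      rw [if_pos he] : ∀ e ∈ ω, ind (e ∈ ω) = 1)]
    rw [Finset.sum_const, nsmul_eq_mul, mul_one]
  rw [h]

end

theorem p_DER (h_FKG : T_FKG) : T_DER := by
  intro V E _ s t R U G q hq hG f p hp0 hp1
  obtain ⟨hfkg, hpos⟩ := h_FKG V E s t R U G p q hp0 hp1 hq hG
  have hZ : 0 < DER_N s t R U G q (fun _ => 1) p := by
    unfold DER_N
    simpa only [mul_one] using hpos
  have hfun : (fun x => Ex s t R U G x q f) =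
      fun x => DER_N s t R U G q f x / DER_N s t R U G q (fun _ => 1) x :=
    funext fun x => DER_Ex s t R U G q f x
  have hd : HasDerivAt (fun x => Ex s t R U G x q f)
      (1 / (p * (1 - p)) * ∑ e ∈ G, (Ex s t R U G p q (fun ω => f ω * ind (e ∈ ω)) -
        Ex s t R U G p q f * Ex s t R U G p q fun ω => ind (e ∈ ω))) p := by
    rw [hfun]
    have h1 := (DER_N_deriv s t R U G q f p hp0 hp1).fun_div
      (DER_N_deriv s t R U G q (fun _ => 1) p hp0 hp1) hZ.ne'
    refine h1.congr_deriv ?_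
    have h2 : DER_N s t R U G q (fun ω => (1 : ℝ) * ω.card) p =
        ∑ e ∈ G, DER_N s t R U G q (fun ω => ind (e ∈ ω)) p := by
      rw [DER_sum s t R U G q (fun _ => 1) p]
      simp only [one_mul]
    rw [h2, DER_sum s t R U G q f p, Finset.sum_sub_distrib, ← Finset.mul_sum]
    simp only [DER_Ex s t R U G q]
    rw [← Finset.sum_div, ← Finset.sum_div]
    have hp : p * (1 - p) ≠ 0 := mul_ne_zero hp0.ne' (by linarith)
    generalize (∑ e ∈ G, DER_N s t R U G q (fun ω => f ω * ind (e ∈ ω)) p) = A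
    generalize (∑ e ∈ G, DER_N s t R U G q (fun ω => ind (e ∈ ω)) p) = B
    generalize DER_N s t R U G q f p = C
    generalize hZ' : DER_N s t R U G q (fun _ => 1) p = Z at hZ
    have hZ0 : Z ≠ 0 := hZ.ne'
    generalize p * (1 - p) = y at hp
    field_simp
    ring
  refine ⟨hd.differentiableAt, fun hmono => ?_⟩
  have hcov : ∀ e ∈ G, 0 ≤ Ex s t R U G p q (fun ω => f ω * ind (e ∈ ω)) -
      Ex s t R U G p q f * Ex s t R U G p q fun ω => ind (e ∈ ω) := by
    intro e _
    have h1 := hfkg f (fun ω => ind (e ∈ ω)) hmono (by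
      intro a b hab
      unfold ind
      by_cases h : e ∈ a
      · rw [if_pos h, if_pos (hab h)]
      · rw [if_neg h]
        split_ifs
        · exact zero_le_one
        · exact le_rfl)
    linarith
  refine ⟨hcov, fun H hH => ?_⟩
  rw [hd.deriv]
  have h1 : ∑ e ∈ H, (Ex s t R U G p q (fun ω => f ω * ind (e ∈ ω)) -
      Ex s t R U G p q f * Ex s t R U G p q fun ω => ind (e ∈ ω)) ≤
      ∑ e ∈ G, (Ex s t R U G p q (fun ω => f ω * ind (e ∈ ω)) -
        Ex s t R U G p q f * Ex s t R U G p q fun ω => ind (e ∈ ω)) :=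
    Finset.sum_le_sum_of_subset_of_nonneg hH fun e he _ => hcov e he
  have h2 : 0 ≤ ∑ e ∈ G, (Ex s t R U G p q (fun ω => f ω * ind (e ∈ ω)) -
      Ex s t R U G p q f * Ex s t R U G p q fun ω => ind (e ∈ ω)) := Finset.sum_nonneg hcov
  have h3 : 1 ≤ 1 / (p * (1 - p)) := by
    rw [le_div_iff₀ (by nlinarith)]
    nlinarith
  calc _ ≤ _ := h1
    _ = 1 * _ := (one_mul _).symm
    _ ≤ _ := mul_le_mul_of_nonneg_right h3 h2

end Pool.Agent.FKT
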