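import Pool.Agent.FKT.TargetsB

/-!
# Project FKT: target `T_ENL`
-/

set_option autoImplicit false

namespace Pool.Agent.FKT

namespace ENL_

theorem pt (a2 a1 x : ℝ) (h2 : 0 < a2) (h1 : 0 < a1) :
    x ^ 2 * (Real.log a2 + 2 + Real.log (a2 / a1 ^ 2)) - 2 * (a2 / a1) * |x| ≤
      x ^ 2 * Real.log (x ^ 2) := by
  rcases eq_or_ne x 0 with hx | hx
  · subst hx
    simp
  · have hax : 0 < |x| := abs_pos.2 hx
    have hy : 0 < |x| * a1 / a2 := by positivity
    have hlog := Real.one_sub_inv_le_log_of_pos hy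
    have e1 : Real.log (|x| * a1 / a2) = Real.log |x| + Real.log a1 - Real.log a2 := by
      rw [Real.log_div (by positivity) (ne_of_gt h2), Real.log_mul (ne_of_gt hax) (ne_of_gt h1)]
    have e2 : Real.log (a2 / a1 ^ 2) = Real.log a2 - 2 * Real.log a1 := by
      rw [Real.log_div (ne_of_gt h2) (by positivity), Real.log_pow]
      push_cast
      ring
    have e3 : Real.log (x ^ 2) = 2 * Real.log |x| := by
      rw [← sq_abs, Real.log_pow]
      push_cast
      ring
    have e4 : (|x| * a1 / a2)⁻¹ = a2 / (|x| * a1) := by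
      rw [inv_div]
    rw [e1, e4] at hlog
    have hx2 : 0 < x ^ 2 := by positivity
    have e5 : x ^ 2 * (a2 / (|x| * a1)) = (a2 / a1) * |x| := by
      have : x ^ 2 = |x| * |x| := by rw [abs_mul_abs_self]; ring
      rw [this]
      field_simp
    have h6 := mul_le_mul_of_nonneg_left hlog hx2.le
    rw [e2, e3]
    nlinarith [h6, e5]

end ENL_

theorem p_ENL : T_ENL := by
  intro ι _ w h hw _
  set A2 := ∑ i, w i * h i ^ 2 with hA2
  set A1 := ∑ i, w i * |h i| with hA1
  have h20 : 0 ≤ A2 := Finset.sum_nonneg fun i _ => mul_nonneg (hw i) (sq_nonneg _)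
  rcases eq_or_lt_of_le h20 with h0 | hpos
  · have hz : ∀ i, w i * h i ^ 2 = 0 := by
      intro i
      exact (Finset.sum_eq_zero_iff_of_nonneg
        (fun i _ => mul_nonneg (hw i) (sq_nonneg (h i)))).1 h0.symm i (Finset.mem_univ i)
    have hs : ∑ i, w i * (h i ^ 2 * Real.log (h i ^ 2)) = 0 := by
      apply Finset.sum_eq_zero
      intro i _
      rw [← mul_assoc, hz i, zero_mul]
    rw [hs, ← h0]
    simp
  · have h10 : 0 ≤ A1 := Finset.sum_nonneg fun i _ => mul_nonneg (hw i) (abs_nonneg _)
    have h1pos : 0 < A1 := by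
      rcases eq_or_lt_of_le h10 with h1 | h1
      · exfalso
        have hz : ∀ i, w i * |h i| = 0 := by
          intro i
          exact (Finset.sum_eq_zero_iff_of_nonneg
            (fun i _ => mul_nonneg (hw i) (abs_nonneg (h i)))).1 h1.symm i (Finset.mem_univ i)
        have : A2 = 0 := by
          rw [hA2]
          apply Finset.sum_eq_zero
          intro i _
          have h3 : h i ^ 2 = |h i| * |h i| := by rw [abs_mul_abs_self]; ring
          rw [h3, ← mul_assoc, hz i, zero_mul]
        linarith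
      · exact h1
    have key : ∑ i, (w i * h i ^ 2 * (Real.log A2 + 2 + Real.log (A2 / A1 ^ 2)) -
        2 * (A2 / A1) * (w i * |h i|)) ≤ ∑ i, w i * (h i ^ 2 * Real.log (h i ^ 2)) := by
      apply Finset.sum_le_sum
      intro i _
      have hp := mul_le_mul_of_nonneg_left (ENL_.pt A2 A1 (h i) hpos h1pos) (hw i)
      calc w i * h i ^ 2 * (Real.log A2 + 2 + Real.log (A2 / A1 ^ 2)) -
            2 * (A2 / A1) * (w i * |h i|)
          = w i * (h i ^ 2 * (Real.log A2 + 2 + Real.log (A2 / A1 ^ 2)) -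
            2 * (A2 / A1) * |h i|) := by ring
        _ ≤ w i * (h i ^ 2 * Real.log (h i ^ 2)) := hp
    rw [Finset.sum_sub_distrib, ← Finset.sum_mul, ← Finset.mul_sum, ← hA2, ← hA1] at key
    have e6 : 2 * (A2 / A1) * A1 = 2 * A2 := by
      field_simp
    rw [e6] at key
    linarith [key]

end Pool.Agent.FKT
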