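import Pool.Agent.FKT.TargetsB

set_option autoImplicit false

namespace Pool.Agent.FKT

open Filter MeasureTheory

namespace ENT_

theorem xlog {x y : ℝ} (h : x ≠ 0 → y ≠ 0) :
    x * Real.log (x / y) = x * Real.log x - x * Real.log y := by
  by_cases hx : x = 0
  · simp [hx]
  · rw [Real.log_div hx (h hx)]
    ring

/-- Convexity of the entropy. -/
theorem conv (h_LGS : T_LGS) {S V : Type} [Fintype S] [Fintype V] (a : S → ℝ) (w : V → ℝ)
    (φ : S → V → ℝ) (ha : ∀ s, 0 ≤ a s) (hw : ∀ v, 0 ≤ w v) (hφ : ∀ s v, 0 ≤ φ s v) :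
    (∑ s, a s * ((∑ v, w v * φ s v) * Real.log (∑ v, w v * φ s v))) -
        (∑ s, a s * ∑ v, w v * φ s v) * Real.log (∑ s, a s * ∑ v, w v * φ s v) ≤
      ∑ v, w v * ((∑ s, a s * (φ s v * Real.log (φ s v))) -
        (∑ s, a s * φ s v) * Real.log (∑ s, a s * φ s v)) := by
  set m : V → ℝ := fun v => ∑ s, a s * φ s v with hm
  set Q : S → ℝ := fun s => ∑ v, w v * φ s v with hQ
  set P : ℝ := ∑ s, a s * Q s with hP
  have hPm : P = ∑ v, w v * m v := by
    rw [hP]
    simp only [hQ, hm, Finset.mul_sum]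
    rw [Finset.sum_comm]
    exact Finset.sum_congr rfl fun v _ => Finset.sum_congr rfl fun s _ => by ring
  have hm0 : ∀ v, 0 ≤ m v := fun v => Finset.sum_nonneg fun s _ => mul_nonneg (ha s) (hφ s v)
  have hQ0 : ∀ s, 0 ≤ Q s := fun s => Finset.sum_nonneg fun v _ => mul_nonneg (hw v) (hφ s v)
  have hmle : ∀ s v, a s * φ s v ≤ m v := fun s v =>
    Finset.single_le_sum (f := fun s => a s * φ s v)
      (fun s _ => mul_nonneg (ha s) (hφ s v)) (Finset.mem_univ s)
  have hQle : ∀ s, a s * Q s ≤ P := fun s =>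
    Finset.single_le_sum (f := fun s => a s * Q s)
      (fun s _ => mul_nonneg (ha s) (hQ0 s)) (Finset.mem_univ s)
  have key : ∀ s, a s * (Q s * Real.log (Q s) - Q s * Real.log P) ≤
      ∑ v, w v * (a s * (φ s v * Real.log (φ s v)) - a s * φ s v * Real.log (m v)) := by
    intro s
    rcases (ha s).eq_or_lt with h0 | h0
    · rw [← h0]
      simp
    · have hmv : ∀ v, φ s v ≠ 0 → m v ≠ 0 := fun v h => by
        have h1 : 0 < φ s v := lt_of_le_of_ne (hφ s v) (Ne.symm h)
        have h2 := hmle s v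
        have h3 : 0 < a s * φ s v := mul_pos h0 h1
        linarith [h2, h3] |> fun h4 : 0 < m v => h4.ne'
      have hPs : Q s ≠ 0 → P ≠ 0 := fun h => by
        have h1 : 0 < Q s := lt_of_le_of_ne (hQ0 s) (Ne.symm h)
        have h3 : 0 < a s * Q s := mul_pos h0 h1
        have h4 : 0 < P := lt_of_lt_of_le h3 (hQle s)
        exact h4.ne'
      have h1 := h_LGS V Finset.univ (fun v => w v * φ s v) (fun v => w v * m v)
        (fun v _ => mul_nonneg (hw v) (hφ s v)) (fun v _ => mul_nonneg (hw v) (hm0 v))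
        (fun v _ h => by
          rcases mul_eq_zero.1 h with h | h
          · rw [h, zero_mul]
          · have : φ s v = 0 := by
              by_contra hc
              exact hmv v hc h
            rw [this, mul_zero])
      have h2 : ∀ v, w v * φ s v * Real.log (w v * φ s v / (w v * m v)) =
          w v * (φ s v * Real.log (φ s v) - φ s v * Real.log (m v)) := fun v => by
        by_cases hwv : w v = 0
        · rw [hwv]
          simp
        · rw [mul_div_mul_left _ _ hwv, mul_assoc, xlog (hmv v)]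
      simp only [h2] at h1
      rw [← hPm] at h1
      have h3 : (∑ i, w i * φ s i) = Q s := rfl
      rw [h3, xlog hPs] at h1
      have h4 := mul_le_mul_of_nonneg_left h1 h0.le
      refine h4.trans (le_of_eq ?_)
      rw [Finset.mul_sum]
      exact Finset.sum_congr rfl fun v _ => by ring
  have h5 := Finset.sum_le_sum fun s (_ : s ∈ Finset.univ) => key s
  have h6 : ∑ s, a s * (Q s * Real.log (Q s) - Q s * Real.log P) =
      (∑ s, a s * (Q s * Real.log (Q s))) - P * Real.log P := by
    have : P * Real.log P = ∑ s, a s * Q s * Real.log P := by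
      rw [hP, Finset.sum_mul]
    rw [this, ← Finset.sum_sub_distrib]
    exact Finset.sum_congr rfl fun s _ => by ring
  have h7 : ∑ s, ∑ v, w v * (a s * (φ s v * Real.log (φ s v)) -
      a s * φ s v * Real.log (m v)) = ∑ v, w v * ((∑ s, a s * (φ s v * Real.log (φ s v))) -
        m v * Real.log (m v)) := by
    rw [Finset.sum_comm]
    refine Finset.sum_congr rfl fun v _ => ?_
    rw [← Finset.mul_sum, Finset.sum_sub_distrib, ← Finset.sum_mul]
  rw [h6, h7] at h5
  exact h5

theorem PE_succ {S : Type} [Fintype S] {n : ℕ} (l : Fin (n + 1) → S → ℝ)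
    (f : (Fin (n + 1) → S) → ℝ) :
    PE l f = ∑ s, l 0 s * PE (fun i => l i.succ) fun v => f (Fin.cons s v) := by
  unfold PE
  rw [← (Fin.consEquiv (fun _ : Fin (n + 1) => S)).sum_comp, Fintype.sum_prod_type]
  refine Finset.sum_congr rfl fun s _ => ?_
  rw [Finset.mul_sum]
  refine Finset.sum_congr rfl fun v _ => ?_
  show (∏ i, l i ((Fin.cons s v : Fin (n + 1) → S) i)) * f (Fin.cons s v) = _
  rw [Fin.prod_univ_succ]
  simp only [Fin.cons_zero, Fin.cons_succ]
  ring

theorem Av_succ {S : Type} [Fintype S] {n : ℕ} (l : Fin (n + 1) → S → ℝ)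
    (f : (Fin (n + 1) → S) → ℝ) (i : Fin n) (s : S) (v : Fin n → S) :
    Av l i.succ f (Fin.cons s v) =
      Av (fun i => l i.succ) i (fun v => f (Fin.cons s v)) v := by
  unfold Av
  refine Finset.sum_congr rfl fun t _ => ?_
  show l i.succ t * f (Function.update (Fin.cons s v) i.succ t) =
    l i.succ t * f (Fin.cons s (Function.update v i t))
  rw [Fin.cons_update]

theorem Av_zero {S : Type} [Fintype S] {n : ℕ} (l : Fin (n + 1) → S → ℝ)
    (f : (Fin (n + 1) → S) → ℝ) (s : S) (v : Fin n → S) :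
    Av l 0 f (Fin.cons s v) = ∑ t, l 0 t * f (Fin.cons t v) := by
  unfold Av
  refine Finset.sum_congr rfl fun t _ => ?_
  rw [Fin.update_cons_zero]

theorem Ei_succ {S : Type} [Fintype S] {n : ℕ} (l : Fin (n + 1) → S → ℝ)
    (f : (Fin (n + 1) → S) → ℝ) (i : Fin n) (s : S) (v : Fin n → S) :
    Ei l i.succ f (Fin.cons s v) =
      Ei (fun i => l i.succ) i (fun v => f (Fin.cons s v)) v := by
  unfold Ei
  rw [Av_succ, Av_succ]

theorem Ei_zero {S : Type} [Fintype S] {n : ℕ} (l : Fin (n + 1) → S → ℝ)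
    (f : (Fin (n + 1) → S) → ℝ) (s : S) (v : Fin n → S) :
    Ei l 0 f (Fin.cons s v) = (∑ t, l 0 t * (f (Fin.cons t v) * Real.log (f (Fin.cons t v)))) -
      (∑ t, l 0 t * f (Fin.cons t v)) * Real.log (∑ t, l 0 t * f (Fin.cons t v)) := by
  unfold Ei
  rw [Av_zero, Av_zero]

theorem main (h_LGS : T_LGS) (S : Type) [Fintype S] (n : ℕ) : ∀ (l : Fin n → S → ℝ), PW l →
    ∀ f : (Fin n → S) → ℝ, (∀ u, 0 ≤ f u) → Et l f ≤ ∑ i, PE l (Ei l i f) := by
  induction n with
  | zero =>
    intro l _ f _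
    have h : ∀ g : (Fin 0 → S) → ℝ, PE l g = g default := by
      intro g
      unfold PE
      rw [Fintype.sum_unique]
      simp
    unfold Et
    rw [h, h]
    simp
  | succ n ih =>
    intro l hl f hf
    set l' : Fin n → S → ℝ := fun i => l i.succ with hl'
    have hPW : PW l' := ⟨fun i s => hl.nn i.succ s, fun i => hl.tot i.succ⟩
    have h1 : ∀ s, Et l' (fun v => f (Fin.cons s v)) ≤
        ∑ i, PE l' (Ei l' i fun v => f (Fin.cons s v)) := fun s =>
      ih l' hPW _ fun u => hf _
    have h2 := conv h_LGS (l 0) (fun v : Fin n → S => ∏ i, l' i (v i))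
      (fun s v => f (Fin.cons s v)) (hl.nn 0)
      (fun v => Finset.prod_nonneg fun i _ => hPW.nn i _) (fun s v => hf _)
    have e0 : PE l (Ei l 0 f) = ∑ v : Fin n → S, (∏ i, l' i (v i)) *
        ((∑ s, l 0 s * (f (Fin.cons s v) * Real.log (f (Fin.cons s v)))) -
          (∑ s, l 0 s * f (Fin.cons s v)) * Real.log (∑ s, l 0 s * f (Fin.cons s v))) := by
      rw [PE_succ]
      simp only [Ei_zero]
      rw [← Finset.sum_mul, hl.tot 0, one_mul]
      rfl
    have e1 : ∀ i : Fin n, PE l (Ei l i.succ f) =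
        ∑ s, l 0 s * PE l' (Ei l' i fun v => f (Fin.cons s v)) := by
      intro i
      rw [PE_succ]
      refine Finset.sum_congr rfl fun s _ => ?_
      congr 1
      unfold PE
      refine Finset.sum_congr rfl fun v _ => ?_
      show _ * Ei l i.succ f (Fin.cons s v) = _
      rw [Ei_succ]
    have e2 : Et l f = (∑ s, l 0 s * Et l' fun v => f (Fin.cons s v)) +
        ((∑ s, l 0 s * ((PE l' fun v => f (Fin.cons s v)) *
          Real.log (PE l' fun v => f (Fin.cons s v)))) -
          (∑ s, l 0 s * PE l' fun v => f (Fin.cons s v)) *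
            Real.log (∑ s, l 0 s * PE l' fun v => f (Fin.cons s v))) := by
      unfold Et
      rw [PE_succ, PE_succ]
      have : ∀ a b c d : ℝ, a = b + c → a - d = b + (c - d) := fun a b c d h => by
        rw [h]
        ring
      refine this _ _ _ _ ?_
      rw [← Finset.sum_add_distrib]
      exact Finset.sum_congr rfl fun s _ => by ring
    rw [e2, Fin.sum_univ_succ, e0]
    have h3 : ∑ s, l 0 s * Et l' (fun v => f (Fin.cons s v)) ≤
        ∑ i : Fin n, PE l (Ei l i.succ f) := by
      calc ∑ s, l 0 s * Et l' (fun v => f (Fin.cons s v))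
          ≤ ∑ s, l 0 s * ∑ i, PE l' (Ei l' i fun v => f (Fin.cons s v)) :=
            Finset.sum_le_sum fun s _ => mul_le_mul_of_nonneg_left (h1 s) (hl.nn 0 s)
        _ = ∑ i : Fin n, PE l (Ei l i.succ f) := by
            simp only [e1, Finset.mul_sum]
            rw [Finset.sum_comm]
    have h4 : (∑ s, l 0 s * ((PE l' fun v => f (Fin.cons s v)) *
          Real.log (PE l' fun v => f (Fin.cons s v)))) -
          (∑ s, l 0 s * PE l' fun v => f (Fin.cons s v)) *
            Real.log (∑ s, l 0 s * PE l' fun v => f (Fin.cons s v)) ≤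
        ∑ v : Fin n → S, (∏ i, l' i (v i)) *
        ((∑ s, l 0 s * (f (Fin.cons s v) * Real.log (f (Fin.cons s v)))) -
          (∑ s, l 0 s * f (Fin.cons s v)) * Real.log (∑ s, l 0 s * f (Fin.cons s v))) := h2
    linarith

end ENT_

theorem p_ENT (h_LGS : T_LGS) : T_ENT := by
  intro n S _ l hl f hf
  exact ENT_.main h_LGS S n l hl f hf

end Pool.Agent.FKT
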