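import Pool.Agent.FKT.TargetsB

/-!
# Project FKT: entropy of the square of a two-valued function (target ENU)
-/

set_option autoImplicit false

namespace Pool.Agent.FKT

namespace ENU_

/-- A sum of values of a two-valued function. -/
theorem two_val (ι : Type) [Fintype ι] (w : ι → ℝ) (β : ι → Bool) (F : ℝ → ℝ) (x y : ℝ)
    (h1 : ∑ i, w i = 1) :
    ∑ i, w i * F (if β i = true then x else y) =
      (∑ i, if β i = true then w i else 0) * F x +
        (1 - ∑ i, if β i = true then w i else 0) * F y := by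
  rw [← h1, ← Finset.sum_sub_distrib, Finset.sum_mul, Finset.sum_mul, ← Finset.sum_add_distrib]
  refine Finset.sum_congr rfl fun i _ => ?_
  by_cases h : β i = true
  · simp [h]
  · simp [h]

theorem step (a m : ℝ) (ha : 0 ≤ a) (hm : 0 < m) :
    a * Real.log a ≤ a * (Real.log m + (a / m - 1)) := by
  rcases ha.eq_or_lt with h | h
  · rw [← h]; simp
  · refine mul_le_mul_of_nonneg_left ?_ ha
    have h1 : Real.log (a / m) ≤ a / m - 1 := Real.log_le_sub_one_of_pos (div_pos h hm)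
    rw [Real.log_div h.ne' hm.ne'] at h1
    linarith

theorem core (X x y : ℝ) (h0 : 0 ≤ X) (h1 : X ≤ 1) :
    X * (x ^ 2 * Real.log (x ^ 2)) + (1 - X) * (y ^ 2 * Real.log (y ^ 2)) -
      (X * x ^ 2 + (1 - X) * y ^ 2) * Real.log (X * x ^ 2 + (1 - X) * y ^ 2) ≤
        2 * (x - y) ^ 2 := by
  have hX : 0 ≤ 1 - X := by linarith
  have hx : 0 ≤ x ^ 2 := sq_nonneg x
  have hy : 0 ≤ y ^ 2 := sq_nonneg y
  have hA : 0 ≤ X * x ^ 2 := mul_nonneg h0 hx
  have hB : 0 ≤ (1 - X) * y ^ 2 := mul_nonneg hX hy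
  obtain ⟨m, hm⟩ : ∃ m, m = X * x ^ 2 + (1 - X) * y ^ 2 := ⟨_, rfl⟩
  rw [← hm]
  have hm0 : 0 ≤ m := by rw [hm]; linarith
  have hR : 0 ≤ 2 * (x - y) ^ 2 := by positivity
  rcases hm0.eq_or_lt with h | h
  · have hA0 : X * x ^ 2 = 0 := by linarith
    have hB0 : (1 - X) * y ^ 2 = 0 := by linarith
    rw [← mul_assoc, ← mul_assoc, hA0, hB0, ← h]
    simpa using hR
  · have e1 := mul_le_mul_of_nonneg_left (step (x ^ 2) m hx h) h0
    have e2 := mul_le_mul_of_nonneg_left (step (y ^ 2) m hy h) hX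
    have e3 : X * (x ^ 2 * (Real.log m + (x ^ 2 / m - 1))) +
        (1 - X) * (y ^ 2 * (Real.log m + (y ^ 2 / m - 1))) =
          m * Real.log m + (X * (1 - X) * (x ^ 2 - y ^ 2) ^ 2) / m := by
      rw [hm] at h ⊢
      field_simp
      ring
    have e4 : (X * (1 - X) * (x ^ 2 - y ^ 2) ^ 2) / m ≤ 2 * (x - y) ^ 2 := by
      rw [div_le_iff₀ h]
      have f1 : X * (1 - X) * (x ^ 2 + y ^ 2) ≤ m := by
        rw [hm]
        nlinarith [mul_nonneg (mul_nonneg h0 h0) hx, mul_nonneg (mul_nonneg hX hX) hy,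
          mul_nonneg (mul_nonneg h0 hX) hx, mul_nonneg (mul_nonneg h0 hX) hy]
      have f2 : (x ^ 2 - y ^ 2) ^ 2 ≤ 2 * (x - y) ^ 2 * (x ^ 2 + y ^ 2) := by
        have : 2 * (x - y) ^ 2 * (x ^ 2 + y ^ 2) - (x ^ 2 - y ^ 2) ^ 2 =
            (x - y) ^ 2 * (x - y) ^ 2 := by
          ring
        nlinarith [mul_self_nonneg ((x - y) ^ 2)]
      have f3 : X * (1 - X) * (x ^ 2 - y ^ 2) ^ 2 ≤
          X * (1 - X) * (2 * (x - y) ^ 2 * (x ^ 2 + y ^ 2)) :=
        mul_le_mul_of_nonneg_left f2 (mul_nonneg h0 hX)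
      have f4 : 2 * (x - y) ^ 2 * (X * (1 - X) * (x ^ 2 + y ^ 2)) ≤ 2 * (x - y) ^ 2 * m :=
        mul_le_mul_of_nonneg_left f1 hR
      linarith
    linarith

end ENU_

theorem p_ENU : T_ENU := by
  intro ι _ w β x y hw h1
  obtain ⟨X, hX⟩ : ∃ X, X = ∑ i, if β i = true then w i else 0 := ⟨_, rfl⟩
  have g1 := ENU_.two_val ι w β (fun z => z ^ 2 * Real.log (z ^ 2)) x y h1
  have g2 := ENU_.two_val ι w β (fun z => z ^ 2) x y h1
  rw [g1, g2, ← hX]
  refine ENU_.core X x y ?_ ?_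
  · rw [hX]
    refine Finset.sum_nonneg fun i _ => ?_
    split_ifs
    · exact hw i
    · exact le_refl 0
  · rw [hX, ← h1]
    refine Finset.sum_le_sum fun i _ => ?_
    split_ifs
    · exact le_refl _
    · exact hw i

end Pool.Agent.FKT
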