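import Pool.Agent.FKT.TargetsB

/-!
# FKT, FSA: the Falik-Samorodnitsky inequality
-/

set_option autoImplicit false

namespace Pool.Agent.FKT

namespace FSA_

variable {S : Type} [Fintype S] {n : ℕ}

theorem w_nonneg {l : Fin n → S → ℝ} (hl : PW l) (u : Fin n → S) : 0 ≤ ∏ i, l i (u i) :=
  Finset.prod_nonneg fun i _ => hl.nn i (u i)

theorem PE_mono {l : Fin n → S → ℝ} (hl : PW l) {f g : (Fin n → S) → ℝ} (h : ∀ u, f u ≤ g u) :
    PE l f ≤ PE l g :=
  Finset.sum_le_sum fun u _ => mul_le_mul_of_nonneg_left (h u) (w_nonneg hl u)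

theorem PE_mul (l : Fin n → S → ℝ) (K : ℝ) (f : (Fin n → S) → ℝ) :
    PE l (fun u => K * f u) = K * PE l f := by
  unfold PE
  rw [Finset.mul_sum]
  exact Finset.sum_congr rfl fun u _ => by ring

theorem PE_nonneg {l : Fin n → S → ℝ} (hl : PW l) {f : (Fin n → S) → ℝ} (h : ∀ u, 0 ≤ f u) :
    0 ≤ PE l f :=
  Finset.sum_nonneg fun u _ => mul_nonneg (w_nonneg hl u) (h u)

theorem PE_abs_zero {l : Fin n → S → ℝ} (hl : PW l) {f : (Fin n → S) → ℝ}
    (h : PE l (fun u => |f u|) = 0) : PE l (fun u => f u ^ 2) = 0 := by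
  have h1 := (Finset.sum_eq_zero_iff_of_nonneg
    (fun u _ => mul_nonneg (w_nonneg hl u) (abs_nonneg (f u)))).mp h
  refine Finset.sum_eq_zero fun u hu => ?_
  rcases mul_eq_zero.mp (h1 u hu) with h2 | h2
  · rw [h2, zero_mul]
  · show (∏ i, l i (u i)) * f u ^ 2 = 0
    rw [abs_eq_zero.mp h2]
    ring

end FSA_

open FSA_ in
theorem p_FSA (h₁ : T_LGS) (h₂ : T_ENL) (h₃ : T_ENT) (h₄ : T_PRD) (h₅ : T_ORT) : T_FSA := by
  intro n S _ l hl f K hK
  obtain ⟨o1, o2, -⟩ := h₅ n S l hl f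
  have hw1 : ∑ u : Fin n → S, ∏ i, l i (u i) = 1 := by
    have := (h₄ n S l hl).1
    unfold PE at this
    simpa using this
  set a : ℕ → ℝ := fun j => PE l (fun u => Lj l j f u ^ 2) with ha
  set b : ℕ → ℝ := fun j => (PE l fun u => |Lj l j f u|) ^ 2 with hb
  have hj : ∀ j ∈ Finset.range n, a j * Real.log (a j / b j) ≤
      K * ∑ i, PE l (Vi l i (Lj l j f)) := by
    intro j _
    have e1 := h₂ (Fin n → S) (fun u => ∏ i, l i (u i)) (Lj l j f) (w_nonneg hl) hw1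
    have e2 := h₃ n S l hl (fun u => Lj l j f u ^ 2) (fun u => sq_nonneg _)
    have e3 : ∑ i, PE l (Ei l i (fun u => Lj l j f u ^ 2)) ≤
        ∑ i, PE l (fun u => K * Vi l i (Lj l j f) u) :=
      Finset.sum_le_sum fun i _ => PE_mono hl (fun u => hK j i u)
    have e4 : ∑ i, PE l (fun u => K * Vi l i (Lj l j f) u) =
        K * ∑ i, PE l (Vi l i (Lj l j f)) := by
      rw [Finset.mul_sum]
      exact Finset.sum_congr rfl fun i _ => PE_mul l K _
    rw [e4] at e3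
    refine le_trans ?_ (e2.trans e3)
    exact e1
  have hsum := Finset.sum_le_sum hj
  have hl1 := h₁ ℕ (Finset.range n) a b (fun j _ => PE_nonneg hl (fun u => sq_nonneg _))
    (fun j _ => sq_nonneg _) (fun j _ h0 => PE_abs_zero hl (pow_eq_zero_iff (two_ne_zero) |>.mp h0))
  rw [o1] at hl1
  refine hl1.trans (hsum.trans (le_of_eq ?_))
  rw [← Finset.mul_sum, Finset.sum_comm]
  congr 1
  exact Finset.sum_congr rfl fun i _ => o2 i

end Pool.Agent.FKT
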