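import Pool.Agent.FKT.TargetsB

/-!
# FKT: target FSF (transport of FSM to the subsets of a finite set)
-/

set_option autoImplicit false

namespace Pool.Agent.FKT

open Filter MeasureTheory

namespace FSF_

section

variable {E : Type} (G : Finset E)

/-- The enumeration of `G`. -/
noncomputable def ph : Fin G.card ↪ E :=
  (G.equivFin.symm.toEmbedding).trans (Function.Embedding.subtype _)

/-- The set of a configuration. -/
noncomputable def S (w : Fin G.card → Bool) : Finset E :=
  (Finset.univ.filter (fun i => w i = true)).map (ph G)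

lemma ph_mem (i : Fin G.card) : ph G i ∈ G := (G.equivFin.symm i).2

lemma ph_surj {e : E} (he : e ∈ G) : ∃ i, ph G i = e :=
  ⟨G.equivFin ⟨e, he⟩, by simp [ph]⟩

lemma mem_S {w : Fin G.card → Bool} {i : Fin G.card} : ph G i ∈ S G w ↔ w i = true := by
  rw [S, Finset.mem_map]
  constructor
  · rintro ⟨j, hj, hji⟩
    rw [(ph G).injective hji] at hj
    exact (Finset.mem_filter.1 hj).2
  · intro h
    exact ⟨i, Finset.mem_filter.2 ⟨Finset.mem_univ _, h⟩, rfl⟩

lemma S_sub (w : Fin G.card → Bool) : S G w ⊆ G := by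
  intro e he
  rw [S, Finset.mem_map] at he
  obtain ⟨i, -, rfl⟩ := he
  exact ph_mem G i

lemma ext_G {A B : Finset E} (hA : A ⊆ G) (hB : B ⊆ G)
    (h : ∀ i, ph G i ∈ A ↔ ph G i ∈ B) : A = B := by
  ext e
  constructor
  · intro he
    obtain ⟨i, rfl⟩ := ph_surj G (hA he)
    exact (h i).1 he
  · intro he
    obtain ⟨i, rfl⟩ := ph_surj G (hB he)
    exact (h i).2 he

/-- Transport of sums. -/
lemma sum_S [DecidableEq E] (h : Finset E → ℝ) : ∑ w : Fin G.card → Bool, h (S G w) = ∑ T ∈ G.powerset, h T := by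
  apply Finset.sum_bij' (fun w _ => S G w) (fun T _ => fun i => decide (ph G i ∈ T))
  · intro w _
    exact Finset.mem_powerset.2 (S_sub G w)
  · intro T _
    exact Finset.mem_univ _
  · intro w _
    funext i
    rw [Bool.eq_iff_iff, decide_eq_true_iff, mem_S]
  · intro T hT
    apply ext_G G (S_sub G _) (Finset.mem_powerset.1 hT)
    intro i
    rw [mem_S, decide_eq_true_iff]
  · intro w _
    rfl

/-- Transport of sums over the coordinates. -/
lemma sum_ph (h : E → ℝ) : ∑ i : Fin G.card, h (ph G i) = ∑ e ∈ G, h e := by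
  rw [← Finset.sum_coe_sort G h, ← Equiv.sum_comp G.equivFin.symm]
  rfl

lemma S_mono {a b : Fin G.card → Bool} (hab : a ≤ b) : S G a ⊆ S G b := by
  intro e he
  obtain ⟨i, rfl⟩ := ph_surj G (S_sub G a he)
  rw [mem_S] at he ⊢
  have h1 := hab i
  rw [he] at h1
  exact top_le_iff.1 h1

variable [DecidableEq E]

lemma S_inf (a b : Fin G.card → Bool) : S G (a ⊓ b) = S G a ∩ S G b := by
  apply ext_G G (S_sub G _) (Finset.inter_subset_left.trans (S_sub G a))
  intro i
  rw [Finset.mem_inter, mem_S, mem_S, mem_S, Pi.inf_apply]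
  cases a i <;> cases b i <;> decide

lemma S_sup (a b : Fin G.card → Bool) : S G (a ⊔ b) = S G a ∪ S G b := by
  apply ext_G G (S_sub G _) (Finset.union_subset (S_sub G a) (S_sub G b))
  intro i
  rw [Finset.mem_union, mem_S, mem_S, mem_S, Pi.sup_apply]
  cases a i <;> cases b i <;> decide

lemma S_upd (w : Fin G.card → Bool) (j : Fin G.card) :
    ph G j ∉ S G (Function.update w j false) ∧
      S G (Function.update w j true) = insert (ph G j) (S G (Function.update w j false)) := by
  refine ⟨?_, ?_⟩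
  · rw [mem_S, Function.update_self]
    decide
  · apply ext_G G (S_sub G _) (Finset.insert_subset (ph_mem G j) (S_sub G _))
    intro i
    rw [Finset.mem_insert, mem_S, mem_S]
    by_cases h : i = j
    · subst h
      rw [Function.update_self]
      exact ⟨fun _ => Or.inl rfl, fun _ => rfl⟩
    · rw [Function.update_of_ne h, Function.update_of_ne h]
      exact ⟨fun h1 => Or.inr h1, fun h1 => h1.resolve_left fun h2 => h ((ph G).injective h2)⟩

end

end FSF_

open FSF_ in
/-- FSF. -/
theorem p_FSF (hFSM : T_FSM) : T_FSF := by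
  intro E _ G m c hpos htot hsup hc0 hc1 hins f hmono hf κ hκ
  have hMon : Mon c (fun w : Fin G.card → Bool => m (S G w)) := by
    refine ⟨fun w => hpos _ (S_sub G w), ?_, ?_, hc0, hc1, ?_, ?_⟩
    · rw [sum_S G m]
      exact htot
    · intro a b
      rw [S_inf, S_sup]
      exact hsup _ _ (S_sub G a) (S_sub G b)
    · intro w j
      obtain ⟨h1, h2⟩ := S_upd G w j
      rw [h2]
      exact (hins _ (ph_mem G j) _ (S_sub G _) h1).1
    · intro w j
      obtain ⟨h1, h2⟩ := S_upd G w j
      rw [h2]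
      exact (hins _ (ph_mem G j) _ (S_sub G _) h1).2
  have hFm : Monotone (fun w : Fin G.card → Bool => f (S G w)) := fun a b hab =>
    hmono _ _ (S_mono G hab) (S_sub G b)
  have key := hFSM G.card c _ hMon (fun w => f (S G w)) hFm (fun w => hf _)
  have e1 : ∑ w : Fin G.card → Bool, m (S G w) * f (S G w) ^ 2 =
      ∑ T ∈ G.powerset, m T * f T ^ 2 := sum_S G (fun T => m T * f T ^ 2)
  have e2 : ∑ w : Fin G.card → Bool, m (S G w) * f (S G w) =
      ∑ T ∈ G.powerset, m T * f T := sum_S G (fun T => m T * f T)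
  have e3 : ∀ j : Fin G.card, cvb (fun w => m (S G w)) (fun w => f (S G w)) j = κ (ph G j) := by
    intro j
    rw [hκ _ (ph_mem G j), cvb, e2]
    rw [← sum_S G (fun T => m T * (f T * if ph G j ∈ T then 1 else 0)),
      ← sum_S G (fun T => m T * if ph G j ∈ T then 1 else 0)]
    simp only [mem_S]
  rw [e1, e2] at key
  have e4 : ∑ j, cvb (fun w => m (S G w)) (fun w => f (S G w)) j ^ 2 = ∑ e ∈ G, κ e ^ 2 := by
    rw [← sum_ph G (fun e => κ e ^ 2)]
    exact Finset.sum_congr rfl fun j _ => by rw [e3]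
  have e5 : ∑ j, cvb (fun w => m (S G w)) (fun w => f (S G w)) j = ∑ e ∈ G, κ e := by
    rw [← sum_ph G κ]
    exact Finset.sum_congr rfl fun j _ => by rw [e3]
  rw [e4, e5] at key
  exact key

end Pool.Agent.FKT
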