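import Pool.Agent.FKT.TargetsB

/-!
# Project FKT: the inequality for monotone measures (T_FSM)
-/

set_option autoImplicit false

namespace Pool.Agent.FKT

open Filter MeasureTheory

namespace FSM_

/-- The expectation of a nonnegative function is nonnegative. -/
theorem PE_nonneg {S : Type} [Fintype S] {n : ℕ} {l : Fin n → S → ℝ} (hl : PW l)
    {f : (Fin n → S) → ℝ} (hf : ∀ u, 0 ≤ f u) : 0 ≤ PE l f :=
  Finset.sum_nonneg fun u _ =>
    mul_nonneg (Finset.prod_nonneg fun i _ => hl.nn i (u i)) (hf u)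

/-- Comparison of logarithms. -/
theorem log_compare {V S T : ℝ} (hV : 0 ≤ V) (hS : 0 < S) (hST : S ≤ T) :
    V * Real.log (V / T) ≤ V * Real.log (V / S) := by
  rcases hV.eq_or_lt with h | h
  · rw [← h, zero_mul, zero_mul]
  · apply mul_le_mul_of_nonneg_left _ hV
    apply Real.log_le_log (div_pos h (lt_of_lt_of_le hS hST))
    exact div_le_div_of_nonneg_left hV hS hST

end FSM_

open FSM_ in
/-- The inequality for monotone measures. -/
theorem p_FSM (h_RUL : T_RUL) (h_FSA : T_FSA) (h_TWO : T_TWO) (h_LAW : T_LAW) (h_CPV : T_CPV)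
    (h_CPL : T_CPL) (h_ORT : T_ORT) : T_FSM := by
  intro n c m hm F hF hF01
  obtain ⟨l, hl⟩ := h_RUL n c m hm
  have hlaw := (h_LAW n c m l hm hl).2
  have e1 : PE l (fun u => F (st u n)) = ∑ w, m w * F w := hlaw F
  have e2 : PE l (fun u => F (st u n) ^ 2) = ∑ w, m w * F w ^ 2 := hlaw fun w => F w ^ 2
  obtain ⟨o1, -, o3⟩ := h_ORT n (Rule n) l hl.pw fun u => F (st u n)
  have o3' := o3 fun u => hF01 (st u n)
  have hfsa := h_FSA n (Rule n) l hl.pw (fun u => F (st u n)) (2 / (c * (1 - c)))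
    fun j i u => h_TWO n c m l hm hl F j i u
  rw [Finset.sum_range] at o3' hfsa
  rw [e1, e2] at o1 o3' hfsa
  set V : ℝ := ∑ w, m w * F w ^ 2 - (∑ w, m w * F w) ^ 2 with hVdef
  have hV : 0 ≤ V := by
    rw [← o1]
    exact Finset.sum_nonneg fun j _ => PE_nonneg hl.pw fun u => sq_nonneg _
  have hcpl : ∀ j : Fin n, PE l (fun u => |Lj l j (fun u => F (st u n)) u|) ≤ 2 * cvb m F j :=
    h_CPL n c m l hm hl F hF hF01
  have hPj : ∀ j : Fin n, 0 ≤ PE l (fun u => |Lj l j (fun u => F (st u n)) u|) := fun j =>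
    PE_nonneg hl.pw fun u => abs_nonneg _
  have hcv : ∀ j : Fin n, 0 ≤ cvb m F j := fun j => by
    have h1 := hcpl j
    have h2 := hPj j
    linarith
  have hcvs : 0 ≤ ∑ j, cvb m F j := Finset.sum_nonneg fun j _ => hcv j
  have hc0 := hm.c0
  have hc1 := hm.c1
  have hK : 0 ≤ 2 / (c * (1 - c)) := by
    apply div_nonneg (by norm_num)
    exact mul_nonneg hc0.le (by linarith)
  have hVsum : V ≤ 2 * ∑ j, cvb m F j := by
    rw [Finset.mul_sum]
    exact o3'.trans (Finset.sum_le_sum fun j _ => hcpl j)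
  refine ⟨?_, hVsum⟩
  have hright : 2 / (c * (1 - c)) * ∑ i, PE l (Vi l i fun u => F (st u n)) ≤
      2 / (c * (1 - c)) * ∑ j, cvb m F j :=
    mul_le_mul_of_nonneg_left
      (Finset.sum_le_sum fun j _ => (h_CPV n c m l hm hl F hF hF01 j).1) hK
  set S : ℝ := ∑ j : Fin n, (PE l fun u => |Lj l j (fun u => F (st u n)) u|) ^ 2 with hS
  have hS0 : 0 ≤ S := Finset.sum_nonneg fun j _ => sq_nonneg _
  have hST : S ≤ 4 * ∑ j, cvb m F j ^ 2 := by
    rw [Finset.mul_sum]
    apply Finset.sum_le_sum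
    intro j _
    have h1 := pow_le_pow_left₀ (hPj j) (hcpl j) 2
    calc (PE l fun u => |Lj l j (fun u => F (st u n)) u|) ^ 2 ≤ (2 * cvb m F j) ^ 2 := h1
      _ = 4 * cvb m F j ^ 2 := by ring
  rcases hS0.eq_or_lt with h | h
  · have hz : ∀ j : Fin n, PE l (fun u => |Lj l j (fun u => F (st u n)) u|) = 0 := by
      intro j
      have h1 : ∑ j : Fin n, (PE l fun u => |Lj l j (fun u => F (st u n)) u|) ^ 2 = 0 := by
        rw [← hS, ← h]
      have h2 := (Finset.sum_eq_zero_iff_of_nonneg fun j _ => sq_nonneg _).1 h1 j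
        (Finset.mem_univ j)
      exact pow_eq_zero_iff (two_ne_zero) |>.1 h2
    have hV0 : V = 0 := by
      apply le_antisymm _ hV
      refine o3'.trans (le_of_eq ?_)
      exact Finset.sum_eq_zero fun j _ => hz j
    rw [hV0, zero_mul]
    exact mul_nonneg hK hcvs
  · exact (log_compare hV h hST).trans (hfsa.trans hright)

end Pool.Agent.FKT
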