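import Pool.Agent.FKT.TargetsB

/-!
# FKT, target INT: the recursive inequality
-/

set_option autoImplicit false

namespace Pool.Agent.FKT

open Filter MeasureTheory

namespace INT_

theorem exists_root (r : ℕ) : ∃ t : ℕ, t ^ 4 ≤ r ∧ r < (t + 1) ^ 4 := by
  refine ⟨Nat.sqrt (Nat.sqrt r), ?_, ?_⟩
  · calc (Nat.sqrt (Nat.sqrt r)) ^ 4 = ((Nat.sqrt (Nat.sqrt r)) ^ 2) ^ 2 := by ring
      _ ≤ (Nat.sqrt r) ^ 2 := Nat.pow_le_pow_left (Nat.sqrt_le' _) 2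
      _ ≤ r := Nat.sqrt_le' _
  · have h1 : Nat.sqrt r + 1 ≤ (Nat.sqrt (Nat.sqrt r) + 1) ^ 2 := Nat.lt_succ_sqrt' _
    calc r < (Nat.sqrt r + 1) ^ 2 := Nat.lt_succ_sqrt' _
      _ ≤ ((Nat.sqrt (Nat.sqrt r) + 1) ^ 2) ^ 2 := Nat.pow_le_pow_left h1 2
      _ = (Nat.sqrt (Nat.sqrt r) + 1) ^ 4 := by ring

theorem bx_mono {d a b : ℕ} (h : a ≤ b) : bx (0 : Vx d) a ⊆ bx (0 : Vx d) b := by
  unfold bx
  apply Finset.Icc_subset_Icc
  · intro i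
    simp only [Pi.zero_apply]
    omega
  · intro i
    simp only [Pi.zero_apply]
    omega

theorem eb_mono {d a b : ℕ} (h : a ≤ b) : eb (0 : Vx d) a ⊆ eb (0 : Vx d) b := by
  intro e he
  unfold eb at *
  rw [Finset.mem_filter, Finset.mem_product] at *
  exact ⟨⟨bx_mono h he.1.1, he.1.2⟩, bx_mono h he.2⟩

theorem eb_ends {d n : ℕ} (e : Ed d) (he : e ∈ eb (0 : Vx d) n) :
    e.1 ∈ bx (0 : Vx d) n ∧ tgt e ∈ bx (0 : Vx d) n := by
  unfold eb at he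
  rw [Finset.mem_filter, Finset.mem_product] at he
  exact ⟨he.1.1, he.2⟩

theorem rs_coe {d : ℕ} (F ω : Finset (Ed d)) : rs F (ω : Set (Ed d)) = ω ∩ F := by
  unfold rs
  ext e
  simp only [Finset.mem_filter, Finset.mem_inter, Finset.mem_coe]
  exact and_comm

/-- The crossing event for finite configurations. -/
def Pr (d K ρ : ℕ) (T : Finset (Ed d)) : Prop := CrA (0 : Vx d) ρ (K - ρ) (T : Set (Ed d))

theorem Pr_mono (hC : T_CRI) {d K ρ : ℕ} (a b : Finset (Ed d)) (h : a ⊆ b)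
    (ha : Pr d K ρ a) : Pr d K ρ b :=
  (hC d 0 0 ρ ρ (K - ρ) (K - ρ) (a : Set (Ed d)) (b : Set (Ed d))).2.2.1
    (Finset.coe_subset.mpr h) ha

theorem Pr_inter (hC : T_CRI) {d K ρ : ℕ} (ω : Finset (Ed d)) :
    Pr d K ρ (ω ∩ eb (0 : Vx d) (K - ρ)) ↔ Pr d K ρ ω := by
  have h := (hC d 0 0 ρ ρ (K - ρ) (K - ρ) (ω : Set (Ed d)) (ω : Set (Ed d))).2.1
  rw [rs_coe] at h
  exact h.symm

theorem Fv_eq (hC : T_CRI) (d K ρ : ℕ) :
    {ω : Ed d → Bool | Pr d K ρ (rs (eb (0 : Vx d) (K - ρ)) (cfg ω))} = Fv d K ρ := by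
  ext ω
  exact ((hC d 0 0 ρ ρ (K - ρ) (K - ρ) (cfg ω) (cfg ω)).2.1).symm

theorem ind_mono {P Q : Prop} (h : P → Q) : ind P ≤ ind Q := by
  unfold ind
  by_cases hp : P
  · rw [if_pos hp, if_pos (h hp)]
  · rw [if_neg hp]
    split_ifs <;> norm_num

theorem cv_nonneg (hC : T_CRI) (hM : T_MOP) {d K ρ : ℕ} {x q : ℝ} (h0 : 0 < x) (h1 : x < 1)
    (hq : 1 ≤ q) {μ : Measure (Ed d → Bool)} (hμ : IsWired d x q μ) (e : Ed d) :
    0 ≤ cv μ (Fv d K ρ) e := by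
  have h := (hM d x x q h0 le_rfl h1 hq μ μ hμ hμ (eb (0 : Vx d) (K - ρ)) (Pr d K ρ)
    (fun a b hab => Pr_mono hC a b hab)).2 e
  rw [Fv_eq hC] at h
  exact h

theorem tend1 (hC : T_CRI) (hV : T_CVL) {d : ℕ} {x q : ℝ} {μ : Measure (Ed d → Bool)}
    (hμ : IsWired d x q μ) (K ρ : ℕ) :
    Tendsto (fun N : ℕ => phi (0 : Vx d) (N + 2 * K) x q fun ω => ind (Pr d K ρ ω)) atTop
      (nhds (th μ K ρ)) := by
  have h := (hV d x q μ hμ (eb (0 : Vx d) (K - ρ)) (Pr d K ρ)).1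
  simp only [Pr_inter hC] at h
  rw [Fv_eq hC] at h
  exact (tendsto_add_atTop_iff_nat (2 * K)).mpr h

theorem tend2 (hC : T_CRI) (hV : T_CVL) {d : ℕ} {x q : ℝ} {μ : Measure (Ed d → Bool)}
    (hμ : IsWired d x q μ) (K ρ : ℕ) (e : Ed d) :
    Tendsto (fun N : ℕ => phi (0 : Vx d) (N + 2 * K) x q
        (fun ω => ind (Pr d K ρ ω) * ind (e ∈ ω)) -
      phi (0 : Vx d) (N + 2 * K) x q (fun ω => ind (Pr d K ρ ω)) *
        phi (0 : Vx d) (N + 2 * K) x q fun ω => ind (e ∈ ω)) atTop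
      (nhds (cv μ (Fv d K ρ) e)) := by
  have h := (hV d x q μ hμ (eb (0 : Vx d) (K - ρ)) (Pr d K ρ)).2 e
  simp only [Pr_inter hC] at h
  rw [Fv_eq hC] at h
  exact (tendsto_add_atTop_iff_nat (2 * K)).mpr h

theorem dphi (hD : T_DER) {d n : ℕ} {x q : ℝ} (hq : 1 ≤ q) (h0 : 0 < x) (h1 : x < 1)
    (f : Finset (Ed d) → ℝ) : DifferentiableAt ℝ (fun y => phi (0 : Vx d) n y q f) x :=
  (hD (Vx d) (Ed d) Prod.fst tgt (Wir 0 n) (bx 0 n) (eb 0 n) q hq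
    (fun e he => eb_ends e he) f x h0 h1).1

/-- The finite volume functions. -/
noncomputable def fN (d K r : ℕ) (q : ℝ) (N : ℕ) (x : ℝ) : ℝ :=
  ∑ ρ ∈ Finset.Ico r (2 * r), phi (0 : Vx d) (N + 2 * K) x q fun ω => ind (Pr d K ρ ω)

/-- The sums of the finite volume covariances. -/
noncomputable def GN (d K r : ℕ) (q : ℝ) (N : ℕ) (x : ℝ) : ℝ :=
  ∑ ρ ∈ Finset.Ico r (2 * r), ∑ e ∈ eb (0 : Vx d) (2 * K),
    (phi (0 : Vx d) (N + 2 * K) x q (fun ω => ind (Pr d K ρ ω) * ind (e ∈ ω)) -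
      phi (0 : Vx d) (N + 2 * K) x q (fun ω => ind (Pr d K ρ ω)) *
        phi (0 : Vx d) (N + 2 * K) x q fun ω => ind (e ∈ ω))

theorem fN_diff (hD : T_DER) {d K r N : ℕ} {x q : ℝ} (hq : 1 ≤ q) (h0 : 0 < x) (h1 : x < 1) :
    DifferentiableAt ℝ (fN d K r q N) x := by
  have h : fN d K r q N = fun y => ∑ ρ ∈ Finset.Ico r (2 * r),
      phi (0 : Vx d) (N + 2 * K) y q fun ω => ind (Pr d K ρ ω) := rfl
  rw [h]
  exact DifferentiableAt.fun_sum fun ρ _ => dphi hD hq h0 h1 _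

theorem GN_cont (hD : T_DER) {d K r N : ℕ} {x q : ℝ} (hq : 1 ≤ q) (h0 : 0 < x) (h1 : x < 1) :
    ContinuousAt (GN d K r q N) x := by
  have h : GN d K r q N = fun y => ∑ ρ ∈ Finset.Ico r (2 * r), ∑ e ∈ eb (0 : Vx d) (2 * K),
    (phi (0 : Vx d) (N + 2 * K) y q (fun ω => ind (Pr d K ρ ω) * ind (e ∈ ω)) -
      phi (0 : Vx d) (N + 2 * K) y q (fun ω => ind (Pr d K ρ ω)) *
        phi (0 : Vx d) (N + 2 * K) y q fun ω => ind (e ∈ ω)) := rfl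
  rw [h]
  apply DifferentiableAt.continuousAt (𝕜 := ℝ)
  exact DifferentiableAt.fun_sum fun ρ _ => DifferentiableAt.fun_sum fun e _ =>
    (dphi hD hq h0 h1 _).sub ((dphi hD hq h0 h1 _).mul (dphi hD hq h0 h1 _))

theorem GN_bound (hC : T_CRI) (hD : T_DER) {d K r N : ℕ} {x q : ℝ} (hq : 1 ≤ q) (h0 : 0 < x)
    (h1 : x < 1) : 0 ≤ GN d K r q N x ∧ GN d K r q N x ≤ deriv (fN d K r q N) x := by
  have hsub : eb (0 : Vx d) (2 * K) ⊆ eb (0 : Vx d) (N + 2 * K) := eb_mono (by omega)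
  have hder : deriv (fN d K r q N) x = ∑ ρ ∈ Finset.Ico r (2 * r),
      deriv (fun y => phi (0 : Vx d) (N + 2 * K) y q fun ω => ind (Pr d K ρ ω)) x := by
    have h : fN d K r q N = fun y => ∑ ρ ∈ Finset.Ico r (2 * r),
      phi (0 : Vx d) (N + 2 * K) y q fun ω => ind (Pr d K ρ ω) := rfl
    rw [h]
    exact deriv_fun_sum fun ρ _ => dphi hD hq h0 h1 _
  have key := fun ρ : ℕ => (hD (Vx d) (Ed d) Prod.fst tgt (Wir 0 (N + 2 * K))
    (bx 0 (N + 2 * K)) (eb 0 (N + 2 * K)) q hq (fun e he => eb_ends e he)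
    (fun ω => ind (Pr d K ρ ω)) x h0 h1).2
    (fun a b hab => ind_mono (Pr_mono hC a b hab))
  constructor
  · exact Finset.sum_nonneg fun ρ _ => Finset.sum_nonneg fun e he => (key ρ).1 e (hsub he)
  · rw [hder]
    exact Finset.sum_le_sum fun ρ _ => (key ρ).2 _ hsub

theorem frac_mono {a b q : ℝ} (hab : a ≤ b) (hb : b < 1) (hq : 1 ≤ q) :
    a / (a + q * (1 - a)) ≤ b / (b + q * (1 - b)) := by
  have h1 : 0 < a + q * (1 - a) := by nlinarith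
  have h2 : 0 < b + q * (1 - b) := by nlinarith
  rw [div_le_div_iff₀ h1 h2]
  nlinarith

end INT_

open INT_ in
theorem p_INT (hKEY : T_KEY) (hPIG : T_PIG) (hABS : T_ABS) (hTHM : T_THM) (hMOP : T_MOP)
    (hDER : T_DER) (hCVL : T_CVL) (hCRI : T_CRI) : T_INT := by
  intro d hd q p1 p2 θ0 hq hp1 hp12 hp2 hθ0
  set c : ℝ := min (p1 / (p1 + q * (1 - p1))) (1 - p2) with hc
  have hden : 0 < p1 + q * (1 - p1) := by nlinarith
  have hc0 : 0 < c := lt_min (div_pos hp1 hden) (by linarith)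
  have hc1 : c < 1 := lt_of_le_of_lt (min_le_right _ _) (by linarith)
  set c2 : ℝ := θ0 * min (c * (1 - c) / 4) (1 / 640) / 8 with hc2
  have hc2pos : 0 < c2 := by
    have h1 : 0 < c * (1 - c) / 4 := by
      have := mul_pos hc0 (sub_pos.mpr hc1)
      linarith
    have h2 : 0 < min (c * (1 - c) / 4) (1 / 640) := lt_min h1 (by norm_num)
    have := mul_pos hθ0 h2
    rw [hc2]
    linarith
  refine ⟨c2 / 2, by linarith, ?_⟩
  intro Φ hΦ K hθ r hr hrK p p' hpp hpp' hp'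
  obtain ⟨t, ht1, ht2⟩ := exists_root r
  have ht : 2 ≤ t := by
    by_contra hcon
    have : t ≤ 1 := by omega
    have h3 : (t + 1) ^ 4 ≤ 2 ^ 4 := Nat.pow_le_pow_left (by omega) 4
    omega
  have hs1 : 1 ≤ t ^ 3 := Nat.one_le_pow _ _ (by omega)
  have hs2 : t ^ 3 ≤ r := le_trans (Nat.pow_le_pow_right (by omega) (by omega)) ht1
  have hlog : 0 ≤ Real.log r := Real.log_nonneg (by
    have : (1 : ℝ) ≤ (r : ℝ) := by exact_mod_cast (by omega : 1 ≤ r)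
    exact this)
  have hrpos : (0 : ℝ) < r := by
    have : 0 < r := by omega
    exact_mod_cast this
  have hp0 : 0 < p := lt_of_lt_of_le hp1 hpp
  have hp'1 : p' < 1 := lt_of_le_of_lt hp' hp2
  have hIp : p ∈ Set.Icc p1 p2 := ⟨hpp, by linarith⟩
  have hIp' : p' ∈ Set.Icc p1 p2 := ⟨by linarith, hp'⟩
  have hI1 : p1 ∈ Set.Icc p1 p2 := ⟨le_rfl, hp12.le⟩
  set v' : ℝ := 1 - th (Φ p') K (2 * r) with hv'
  have hv0 : 0 ≤ v' := by
    have := (hTHM d p' p' q (by linarith) le_rfl hp'1 hq (Φ p') (Φ p') (hΦ _ hIp') (hΦ _ hIp')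
      K (2 * r)).1.2
    rw [hv']
    linarith
  -- the lower bound of the limit function
  have hL : ∀ x ∈ Set.Icc p p', (r : ℝ) / 2 * (c2 * Real.log r * v') ≤
      ∑ ρ ∈ Finset.Ico r (2 * r), ∑ e ∈ eb (0 : Vx d) (2 * K), cv (Φ x) (Fv d K ρ) e := by
    intro x hx
    have hx0 : 0 < x := lt_of_lt_of_le hp0 hx.1
    have hx1 : x < 1 := lt_of_le_of_lt hx.2 hp'1
    have hIx : x ∈ Set.Icc p1 p2 := ⟨le_trans hpp hx.1, le_trans hx.2 hp'⟩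
    have hW := hΦ x hIx
    have hT := hTHM d x x q hx0 le_rfl hx1 hq (Φ x) (Φ x) hW hW K
    have hpig := hPIG (fun ρ => th (Φ x) K ρ) r (t ^ 3) hs1 hs2
      (fun i j hij hj => (hT i).2.1 j hij (by omega)) (hT 0).1.1 (hT (3 * r)).1.2
    have hnn : ∀ ρ ∈ Finset.Ico r (2 * r), 0 ≤ ∑ e ∈ eb (0 : Vx d) (2 * K),
        cv (Φ x) (Fv d K ρ) e := fun ρ _ =>
      Finset.sum_nonneg fun e _ => cv_nonneg hCRI hMOP hx0 hx1 hq hW e
    have hv2 : 0 ≤ c2 * Real.log r * v' := mul_nonneg (mul_nonneg hc2pos.le hlog) hv0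
    have hgood : ∀ ρ ∈ (Finset.Ico r (2 * r)).filter (fun ρ =>
        th (Φ x) K (ρ + t ^ 3) - th (Φ x) K (ρ - t ^ 3) ≤ 40 * ((t ^ 3 : ℕ) : ℝ) / r),
        c2 * Real.log r * v' ≤ ∑ e ∈ eb (0 : Vx d) (2 * K), cv (Φ x) (Fv d K ρ) e := by
      intro ρ hρ
      rw [Finset.mem_filter, Finset.mem_Ico] at hρ
      obtain ⟨⟨hρ1, hρ2⟩, hρ3⟩ := hρ
      have hcx : c ≤ x / (x + q * (1 - x)) :=
        le_trans (min_le_left _ _) (frac_mono hIx.1 hx1 hq)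
      have hcx' : c ≤ 1 - x := le_trans (min_le_right _ _) (by linarith [hIx.2])
      have hth : θ0 ≤ th (Φ x) K ρ := le_trans (hθ ρ (by omega))
        (hTHM d p1 x q hp1 hIx.1 hx1 hq (Φ p1) (Φ x) (hΦ _ hI1) hW K ρ).2.2.1
      have hkey := hKEY d hd x q c θ0 hx0 hx1 hq hc0 hcx hcx' hθ0 (Φ x) hW K ρ r t ht ht1 ht2
        hρ1 hρ2 hrK hth (by push_cast at hρ3; exact hρ3)
      refine le_trans ?_ hkey
      have hmon : th (Φ x) K ρ ≤ th (Φ p') K (2 * r) :=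
        le_trans ((hT ρ).2.1 (2 * r) (by omega) (by omega))
          (hTHM d x p' q hx0 hx.2 hp'1 hq (Φ x) (Φ p') hW (hΦ _ hIp') K (2 * r)).2.2.1
      have hle : v' ≤ 1 - th (Φ x) K ρ := by
        rw [hv']
        linarith
      exact mul_le_mul_of_nonneg_left hle (mul_nonneg hc2pos.le hlog)
    calc (r : ℝ) / 2 * (c2 * Real.log r * v')
        ≤ (((Finset.Ico r (2 * r)).filter (fun ρ =>
          th (Φ x) K (ρ + t ^ 3) - th (Φ x) K (ρ - t ^ 3) ≤ 40 * ((t ^ 3 : ℕ) : ℝ) / r)).card : ℝ)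
          * (c2 * Real.log r * v') := mul_le_mul_of_nonneg_right hpig hv2
      _ = ∑ ρ ∈ (Finset.Ico r (2 * r)).filter (fun ρ =>
          th (Φ x) K (ρ + t ^ 3) - th (Φ x) K (ρ - t ^ 3) ≤ 40 * ((t ^ 3 : ℕ) : ℝ) / r),
          c2 * Real.log r * v' := by rw [Finset.sum_const, nsmul_eq_mul]
      _ ≤ ∑ ρ ∈ (Finset.Ico r (2 * r)).filter (fun ρ =>
          th (Φ x) K (ρ + t ^ 3) - th (Φ x) K (ρ - t ^ 3) ≤ 40 * ((t ^ 3 : ℕ) : ℝ) / r),
          ∑ e ∈ eb (0 : Vx d) (2 * K), cv (Φ x) (Fv d K ρ) e := Finset.sum_le_sum hgood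
      _ ≤ ∑ ρ ∈ Finset.Ico r (2 * r), ∑ e ∈ eb (0 : Vx d) (2 * K), cv (Φ x) (Fv d K ρ) e :=
          Finset.sum_le_sum_of_subset_of_nonneg (Finset.filter_subset _ _)
            fun ρ hρ _ => hnn ρ hρ
  have hm : 0 ≤ (r : ℝ) / 2 * (c2 * Real.log r * v') :=
    mul_nonneg (by linarith) (mul_nonneg (mul_nonneg hc2pos.le hlog) hv0)
  have hmain := hABS p p' ((r : ℝ) / 2 * (c2 * Real.log r * v'))
    (∑ ρ ∈ Finset.Ico r (2 * r), th (Φ p) K ρ) (∑ ρ ∈ Finset.Ico r (2 * r), th (Φ p') K ρ)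
    (fN d K r q) (GN d K r q)
    (fun x => ∑ ρ ∈ Finset.Ico r (2 * r), ∑ e ∈ eb (0 : Vx d) (2 * K), cv (Φ x) (Fv d K ρ) e)
    hpp'.le hm
    (fun N x hx => fN_diff hDER hq (lt_of_lt_of_le hp0 hx.1) (lt_of_le_of_lt hx.2 hp'1))
    (fun N x hx => (GN_cont hDER hq (lt_of_lt_of_le hp0 hx.1)
      (lt_of_le_of_lt hx.2 hp'1)).continuousWithinAt)
    (fun N x hx => GN_bound hCRI hDER hq (lt_of_lt_of_le hp0 hx.1)
      (lt_of_le_of_lt hx.2 hp'1))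
    (fun x hx => tendsto_finsetSum _ fun ρ _ => tendsto_finsetSum _ fun e _ =>
      tend2 hCRI hCVL (hΦ x ⟨le_trans hpp hx.1, le_trans hx.2 hp'⟩) K ρ e)
    hL
    (tendsto_finsetSum _ fun ρ _ => tend1 hCRI hCVL (hΦ p hIp) K ρ)
    (tendsto_finsetSum _ fun ρ _ => tend1 hCRI hCVL (hΦ p' hIp') K ρ)
  have hup : (∑ ρ ∈ Finset.Ico r (2 * r), th (Φ p') K ρ) -
      ∑ ρ ∈ Finset.Ico r (2 * r), th (Φ p) K ρ ≤ (r : ℝ) * (1 - th (Φ p) K r) := by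
    rw [← Finset.sum_sub_distrib]
    calc ∑ ρ ∈ Finset.Ico r (2 * r), (th (Φ p') K ρ - th (Φ p) K ρ)
        ≤ ∑ ρ ∈ Finset.Ico r (2 * r), (1 - th (Φ p) K r) := by
          apply Finset.sum_le_sum
          intro ρ hρ
          rw [Finset.mem_Ico] at hρ
          have h1 := (hTHM d p' p' q (by linarith) le_rfl hp'1 hq (Φ p') (Φ p') (hΦ _ hIp')
            (hΦ _ hIp') K ρ).1.2
          have h2 := (hTHM d p p q hp0 le_rfl (by linarith) hq (Φ p) (Φ p) (hΦ _ hIp)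
            (hΦ _ hIp) K r).2.1 ρ hρ.1 (by omega)
          linarith
      _ = (r : ℝ) * (1 - th (Φ p) K r) := by
          rw [Finset.sum_const, Nat.card_Ico, nsmul_eq_mul]
          congr 2
          omega
  have hfin : (r : ℝ) * (v' * (c2 / 2 * (p' - p) * Real.log r)) ≤
      (r : ℝ) * (1 - th (Φ p) K r) := by
    calc (r : ℝ) * (v' * (c2 / 2 * (p' - p) * Real.log r))
        = (r : ℝ) / 2 * (c2 * Real.log r * v') * (p' - p) := by ring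
      _ ≤ _ := le_trans hmain hup
  exact le_of_mul_le_mul_left hfin hrpos

end Pool.Agent.FKT
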