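import Pool.Agent.FKT.TargetsB

set_option autoImplicit false

namespace Pool.Agent.FKT

/-- The induction of T_ITE. -/
lemma ite_ind (p1 p2 c1 h : ℝ) (ρ0 : ℕ) (h0 : 0 < h) (hc : 0 < c1) (hρ : 16 ≤ ρ0)
    (hL : Real.exp 1 ≤ c1 * h * Real.log ρ0) (R0 : ℕ) (v : ℕ → ℝ → ℝ)
    (v0 : ∀ r x, 0 ≤ v r x) (v1 : ∀ r x, v r x ≤ 1)
    (mo : ∀ r r' x, p1 ≤ x → x ≤ p2 → r ≤ r' → r' ≤ R0 → v r' x ≤ v r x)
    (re : ∀ r x x', 16 ≤ r → 2 * r ≤ R0 → p1 ≤ x → x < x' → x' ≤ p2 →
      v (2 * r) x' * (c1 * (x' - x) * Real.log r) ≤ v r x) :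
    ∀ j : ℕ, ∀ ρ : ℕ, ρ ≤ R0 → 2 ^ j * ρ0 ≤ ρ → p1 + j * h ≤ p2 →
      v ρ (p1 + j * h) ≤ Real.exp (-j) := by
  intro j
  induction j with
  | zero =>
    intro ρ _ _ _
    simpa using v1 ρ (p1 + ((0 : ℕ) : ℝ) * h)
  | succ j ih =>
    intro ρ hR h2 hp
    have hr : 2 ^ j * ρ0 ≤ ρ / 2 := by
      rw [Nat.le_div_iff_mul_le (by norm_num)]
      calc 2 ^ j * ρ0 * 2 = 2 ^ (j + 1) * ρ0 := by ring
        _ ≤ ρ := h2
    have h2r : 2 * (ρ / 2) ≤ ρ := Nat.mul_div_le ρ 2
    have hρr : ρ0 ≤ ρ / 2 := le_trans (Nat.le_mul_of_pos_left ρ0 (by positivity)) hr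
    have hcast : ((j + 1 : ℕ) : ℝ) = (j : ℝ) + 1 := by push_cast; ring
    have hj0 : (0 : ℝ) ≤ j := Nat.cast_nonneg j
    have hx' : p1 + ((j + 1 : ℕ) : ℝ) * h = p1 + (j : ℝ) * h + h := by rw [hcast]; ring
    have hpj : p1 + (j : ℝ) * h ≤ p2 := by rw [hx'] at hp; linarith
    have ihj := ih (ρ / 2) (by omega) hr hpj
    have hp1j : p1 ≤ p1 + (j : ℝ) * h := by nlinarith
    have hre := re (ρ / 2) (p1 + (j : ℝ) * h) (p1 + ((j + 1 : ℕ) : ℝ) * h) (by omega) (by omega)
      hp1j (by rw [hx']; linarith) hp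
    have hmo := mo (2 * (ρ / 2)) ρ (p1 + ((j + 1 : ℕ) : ℝ) * h) (by rw [hx']; linarith) hp h2r hR
    have hlog : Real.log ρ0 ≤ Real.log ((ρ / 2 : ℕ) : ℝ) := by
      apply Real.log_le_log
      · exact_mod_cast (by omega : 0 < ρ0)
      · exact_mod_cast hρr
    have hge : Real.exp 1 ≤ c1 * (p1 + ((j + 1 : ℕ) : ℝ) * h - (p1 + (j : ℝ) * h)) *
        Real.log ((ρ / 2 : ℕ) : ℝ) := by
      have : p1 + ((j + 1 : ℕ) : ℝ) * h - (p1 + (j : ℝ) * h) = h := by rw [hx']; ring
      rw [this]
      exact hL.trans (mul_le_mul_of_nonneg_left hlog (by positivity))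
    have hv := v0 (2 * (ρ / 2)) (p1 + ((j + 1 : ℕ) : ℝ) * h)
    have h3 : v (2 * (ρ / 2)) (p1 + ((j + 1 : ℕ) : ℝ) * h) * Real.exp 1 ≤ Real.exp (-j) :=
      (mul_le_mul_of_nonneg_left hge hv).trans (hre.trans ihj)
    have h4 : Real.exp (-((j + 1 : ℕ) : ℝ)) * Real.exp 1 = Real.exp (-j) := by
      rw [← Real.exp_add, hcast]
      congr 1
      ring
    rw [← h4] at h3
    exact hmo.trans (le_of_mul_le_mul_right h3 (Real.exp_pos 1))

theorem t_ite : T_ITE := by
  intro p1 p2 c1 hp hc1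
  have he : 0 < Real.exp 1 := Real.exp_pos 1
  set δ := p2 - p1 with hδ
  have hδ0 : 0 < δ := by rw [hδ]; linarith
  set c := min (c1 * δ / (4 * Real.exp 1)) (1 / 2) with hcdef
  have hc0 : 0 < c := by
    rw [hcdef]
    apply lt_min
    · positivity
    · norm_num
  have hc2 : c ≤ 1 / 2 := min_le_right _ _
  have hc3 : c ≤ c1 * δ / (4 * Real.exp 1) := min_le_left _ _
  refine ⟨c, 65536, hc0, by norm_num, ?_⟩
  intro R0 v v0 v1 mo re R hR1 hRR0
  have hR1' : (1 : ℝ) ≤ R := by exact_mod_cast hR1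
  have hRpos : (0 : ℝ) < R := by linarith
  have hRc : 0 < (R : ℝ) ^ c := Real.rpow_pos_of_pos hRpos c
  rcases le_or_gt R 65536 with hsmall | hbig
  · -- bounded R
    have h1 : (R : ℝ) ^ c ≤ 65536 := by
      calc (R : ℝ) ^ c ≤ (R : ℝ) ^ (1 : ℝ) :=
            Real.rpow_le_rpow_of_exponent_le hR1' (by linarith)
        _ = R := Real.rpow_one _
        _ ≤ 65536 := by exact_mod_cast hsmall
    rw [le_div_iff₀ hRc]
    calc v R p2 * (R : ℝ) ^ c ≤ 1 * (R : ℝ) ^ c := mul_le_mul_of_nonneg_right (v1 R p2) hRc.le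
      _ ≤ 65536 := by linarith
  · have hlogR : 0 ≤ Real.log R := Real.log_nonneg hR1'
    set J := ⌊c * Real.log R⌋₊ with hJ
    have hJle : (J : ℝ) ≤ c * Real.log R := Nat.floor_le (by positivity)
    have hJlt : c * Real.log R < J + 1 := Nat.lt_floor_add_one _
    have key : v R p2 ≤ Real.exp (-J) := by
      rcases Nat.eq_zero_or_pos J with h0 | h0
      · rw [h0]
        simpa using v1 R p2
      · have hJ0 : (0 : ℝ) < J := by exact_mod_cast h0
        set ρ0 := R / 2 ^ J with hρ0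
        -- lower bound for ρ0
        have h2J : (2 : ℝ) ^ J ≤ Real.sqrt R := by
          have e1 : (2 : ℝ) ^ J = Real.exp (J * Real.log 2) := by
            rw [mul_comm, Real.exp_mul, Real.exp_log (by norm_num), Real.rpow_natCast]
          have e2 : Real.sqrt R = Real.exp (Real.log R / 2) := by
            rw [Real.sqrt_eq_rpow, Real.rpow_def_of_pos hRpos]
            congr 1
            ring
          rw [e1, e2]
          apply Real.exp_le_exp.mpr
          have hl2 : Real.log 2 ≤ 1 := by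
            have := Real.log_two_lt_d9
            linarith
          have hl20 : 0 ≤ Real.log 2 := Real.log_nonneg (by norm_num)
          calc (J : ℝ) * Real.log 2 ≤ J * 1 := mul_le_mul_of_nonneg_left hl2 hJ0.le
            _ ≤ c * Real.log R := by linarith
            _ ≤ 1 / 2 * Real.log R := mul_le_mul_of_nonneg_right hc2 hlogR
            _ = Real.log R / 2 := by ring
        have hs : Real.sqrt R * Real.sqrt R = R := Real.mul_self_sqrt hRpos.le
        have hq : Real.sqrt (Real.sqrt R) * Real.sqrt (Real.sqrt R) = Real.sqrt R :=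
          Real.mul_self_sqrt (Real.sqrt_nonneg _)
        have hs256 : (256 : ℝ) ≤ Real.sqrt R := by
          apply Real.le_sqrt_of_sq_le
          have : (65536 : ℝ) ≤ R := by exact_mod_cast hbig.le
          nlinarith
        have hq16 : (16 : ℝ) ≤ Real.sqrt (Real.sqrt R) := by
          apply Real.le_sqrt_of_sq_le
          nlinarith
        have h2Jpos : (0 : ℝ) < (2 : ℝ) ^ J := by positivity
        have hdiv : Real.sqrt R ≤ (R : ℝ) / 2 ^ J := by
          rw [le_div_iff₀ h2Jpos]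
          calc Real.sqrt R * 2 ^ J ≤ Real.sqrt R * Real.sqrt R :=
                mul_le_mul_of_nonneg_left h2J (Real.sqrt_nonneg _)
            _ = R := hs
        have hfl : (R : ℝ) / 2 ^ J < (ρ0 : ℝ) + 1 := by
          rw [div_lt_iff₀ h2Jpos]
          have h5 : R < (R / 2 ^ J + 1) * 2 ^ J := by
            have := Nat.lt_div_mul_add (a := R) (b := 2 ^ J) (by positivity)
            calc R < R / 2 ^ J * 2 ^ J + 2 ^ J := this
              _ = (R / 2 ^ J + 1) * 2 ^ J := by ring
          exact_mod_cast h5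
        have hρq : Real.sqrt (Real.sqrt R) ≤ ρ0 := by nlinarith
        have hρ16 : 16 ≤ ρ0 := by
          have : (16 : ℝ) ≤ ρ0 := hq16.trans hρq
          exact_mod_cast this
        have hρpos : (0 : ℝ) < ρ0 := by
          have : (16 : ℝ) ≤ ρ0 := hq16.trans hρq
          linarith
        have hlog : Real.log R / 4 ≤ Real.log ρ0 := by
          have e3 : Real.log (Real.sqrt (Real.sqrt R)) = Real.log R / 4 := by
            rw [Real.log_sqrt (Real.sqrt_nonneg _), Real.log_sqrt hRpos.le]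
            ring
          rw [← e3]
          exact Real.log_le_log (by linarith) hρq
        have hh0 : 0 < δ / J := by positivity
        have hL : Real.exp 1 ≤ c1 * (δ / J) * Real.log ρ0 := by
          have h6 : c1 * (δ / J) * (Real.log R / 4) ≤ c1 * (δ / J) * Real.log ρ0 :=
            mul_le_mul_of_nonneg_left hlog (by positivity)
          refine le_trans ?_ h6
          have h7 : c1 * (δ / J) * (Real.log R / 4) = c1 * δ * Real.log R / (4 * J) := by
            field_simp
          rw [h7, le_div_iff₀ (by positivity)]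
          have h8 : c * (4 * Real.exp 1) ≤ c1 * δ := by
            rwa [le_div_iff₀ (by positivity)] at hc3
          calc Real.exp 1 * (4 * J) ≤ Real.exp 1 * (4 * (c * Real.log R)) := by
                apply mul_le_mul_of_nonneg_left _ he.le
                linarith
            _ = c * (4 * Real.exp 1) * Real.log R := by ring
            _ ≤ c1 * δ * Real.log R := mul_le_mul_of_nonneg_right h8 hlogR
        have hlast : p1 + (J : ℝ) * (δ / J) = p2 := by
          rw [mul_div_cancel₀ _ hJ0.ne', hδ]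
          ring
        have := ite_ind p1 p2 c1 (δ / J) ρ0 hh0 hc1 hρ16 hL R0 v v0 v1 mo re J R hRR0
          (by rw [hρ0]; exact Nat.mul_div_le R (2 ^ J)) (by rw [hlast])
        rwa [hlast] at this
    refine key.trans ?_
    rw [le_div_iff₀ hRc]
    have h9 : (R : ℝ) ^ c = Real.exp (c * Real.log R) := by
      rw [Real.rpow_def_of_pos hRpos]
      congr 1
      ring
    rw [h9, ← Real.exp_add]
    calc Real.exp (-(J : ℝ) + c * Real.log R) ≤ Real.exp 1 :=
          Real.exp_le_exp.mpr (by linarith)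
      _ ≤ 65536 := by
          have := Real.exp_one_lt_d9
          linarith

end Pool.Agent.FKT
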