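import Pool.Agent.FKT.TargetsB

/-!
# FKT, KEY: lower bound for the sum of the covariances
-/

set_option autoImplicit false

namespace Pool.Agent.FKT

open Filter MeasureTheory

namespace KEY_

theorem log_r {r t : ℕ} (ht : 2 ≤ t) (h1 : t ^ 4 ≤ r) (h2 : r < (t + 1) ^ 4) :
    Real.log r ≤ 8 * Real.log t := by
  have ht0 : (2 : ℝ) ≤ t := by exact_mod_cast ht
  have hr0 : (0 : ℝ) < r := by
    have : 0 < r := lt_of_lt_of_le (by positivity) h1
    exact_mod_cast this
  have h3 : (r : ℝ) ≤ (t : ℝ) ^ 8 := by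
    have h4 : (r : ℝ) ≤ ((t : ℝ) + 1) ^ 4 := by exact_mod_cast h2.le
    have h5 : (t : ℝ) + 1 ≤ (t : ℝ) ^ 2 := by nlinarith
    calc (r : ℝ) ≤ ((t : ℝ) + 1) ^ 4 := h4
      _ ≤ ((t : ℝ) ^ 2) ^ 4 := by gcongr
      _ = (t : ℝ) ^ 8 := by ring
  calc Real.log r ≤ Real.log ((t : ℝ) ^ 8) := Real.log_le_log hr0 h3
    _ = 8 * Real.log t := by rw [Real.log_pow]; norm_num

theorem mem_bx {d : ℕ} {n : ℕ} {v : Vx d} :
    v ∈ bx (0 : Vx d) n ↔ ∀ k, -(n : ℤ) ≤ v k ∧ v k ≤ n := by
  unfold bx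
  rw [Finset.mem_Icc, Pi.le_def, Pi.le_def]
  simp only [Pi.zero_apply, zero_sub, zero_add]
  constructor
  · rintro ⟨h1, h2⟩ k
    exact ⟨h1 k, h2 k⟩
  · intro h
    exact ⟨fun k => (h k).1, fun k => (h k).2⟩

theorem mem_eb {d : ℕ} {n : ℕ} {e : Ed d} :
    e ∈ eb (0 : Vx d) n ↔ e.1 ∈ bx (0 : Vx d) n ∧ tgt e ∈ bx (0 : Vx d) n := by
  unfold eb
  rw [Finset.mem_filter, Finset.mem_product]
  constructor
  · rintro ⟨⟨h1, -⟩, h2⟩
    exact ⟨h1, h2⟩
  · rintro ⟨h1, h2⟩
    exact ⟨⟨h1, Finset.mem_univ _⟩, h2⟩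

theorem eb_trans {d : ℕ} {n j N : ℕ} {e : Ed d} (i : Fin d) (he : e ∈ eb (0 : Vx d) n)
    (h : n + j ≤ N) : trE (Pi.single i (j : ℤ)) e ∈ eb (0 : Vx d) N := by
  rw [mem_eb] at he ⊢
  have key : ∀ v : Vx d, v ∈ bx (0 : Vx d) n → v + Pi.single i (j : ℤ) ∈ bx (0 : Vx d) N := by
    intro v hv
    rw [mem_bx] at hv ⊢
    intro k
    have h1 := hv k
    have h2 : (0 : ℤ) ≤ (Pi.single i (j : ℤ) : Vx d) k ∧ (Pi.single i (j : ℤ) : Vx d) k ≤ j := by
      by_cases hk : k = i
      · subst hk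
        rw [Pi.single_eq_same]
        exact ⟨Int.natCast_nonneg _, le_rfl⟩
      · rw [Pi.single_eq_of_ne hk]
        exact ⟨le_rfl, Int.natCast_nonneg _⟩
    have h3 : (n : ℤ) + j ≤ N := by exact_mod_cast h
    rw [Pi.add_apply]
    constructor <;> omega
  refine ⟨key _ he.1, ?_⟩
  have h4 : tgt (trE (Pi.single i (j : ℤ)) e) = tgt e + Pi.single i (j : ℤ) := by
    show (e.1 + Pi.single i (j : ℤ)) + Pi.single e.2 1 = (e.1 + Pi.single e.2 1) + _
    abel
  rw [h4]
  exact key _ he.2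

theorem eb_mono {d : ℕ} {n N : ℕ} (h : n ≤ N) : eb (0 : Vx d) n ⊆ eb (0 : Vx d) N := by
  intro e he
  rw [mem_eb, mem_bx, mem_bx] at he ⊢
  have h3 : (n : ℤ) ≤ N := by exact_mod_cast h
  refine ⟨fun k => ?_, fun k => ?_⟩
  · have := he.1 k
    omega
  · have := he.2 k
    omega

/-- the purely numerical part of case A -/
theorem caseA {x c S' Q t : ℝ} (ht : 2 ≤ t) (hx1 : x ≤ 1) (hx0 : 0 < x) (hc : 0 < c) (hc1 : c < 1)
    (hQ : 4 * Q ≤ 320 * S' / t) (hQ0 : 0 ≤ Q) (hQS : Q = 0 → S' = 0)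
    (h1 : (x * (1 - x)) * Real.log ((x * (1 - x)) / (4 * Q)) ≤ 2 / (c * (1 - c)) * S')
    (h2 : x * (1 - x) ≤ 2 * S') :
    min (c * (1 - c) / 4) (1 / 640) * Real.log t * (x * (1 - x)) ≤ S' := by
  set V := x * (1 - x) with hV
  have hV0 : 0 ≤ V := mul_nonneg hx0.le (by linarith)
  have hlt : 0 ≤ Real.log t := Real.log_nonneg (by linarith)
  rcases hV0.eq_or_lt with h0 | hVp
  · rw [← h0, mul_zero]
    linarith
  have hS : 0 < S' := by linarith
  have hQp : 0 < Q := by
    rcases hQ0.eq_or_lt with h | h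
    · have := hQS h.symm
      linarith
    · exact h
  have ht0 : 0 < t := by linarith
  have hst : 0 < √t := Real.sqrt_pos.mpr ht0
  have hst2 : √t * √t = t := Real.mul_self_sqrt ht0.le
  by_cases hcase : V * √t / 320 ≤ S'
  · have h3 : Real.log t ≤ 2 * √t := by
      have h4 : Real.log t = 2 * Real.log (√t) := by
        rw [Real.log_sqrt ht0.le]; ring
      rw [h4]
      have := Real.log_le_sub_one_of_pos hst
      linarith
    calc min (c * (1 - c) / 4) (1 / 640) * Real.log t * V ≤ (1 / 640) * (2 * √t) * V := by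
          gcongr
          exact min_le_right _ _
      _ = V * √t / 320 := by ring
      _ ≤ S' := hcase
  · rw [not_le] at hcase
    have h3 : √t < V / (4 * Q) := by
      rw [lt_div_iff₀ (by positivity)]
      have h4 : 320 * S' / t < V * √t / t := by
        rw [div_lt_div_iff_of_pos_right ht0]
        linarith
      have h5 : √t * (V * √t / t) = V := by
        field_simp
        rw [Real.sq_sqrt ht0.le]
      calc √t * (4 * Q) ≤ √t * (320 * S' / t) := by gcongr
        _ < √t * (V * √t / t) := by gcongr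
        _ = V := h5
    have h6 : Real.log t / 2 ≤ Real.log (V / (4 * Q)) := by
      rw [← Real.log_sqrt ht0.le]
      exact Real.log_le_log hst h3.le
    have h7 : V * (Real.log t / 2) ≤ 2 / (c * (1 - c)) * S' := by
      refine le_trans ?_ h1
      gcongr
    have hcc : 0 < c * (1 - c) := mul_pos hc (by linarith)
    have h8 : c * (1 - c) / 4 * Real.log t * V ≤ S' := by
      have h9 : V * (Real.log t / 2) * (c * (1 - c)) ≤ 2 * S' := by
        calc V * (Real.log t / 2) * (c * (1 - c)) ≤ 2 / (c * (1 - c)) * S' * (c * (1 - c)) := by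
              gcongr
          _ = 2 * S' := by
              have hc' : c * (1 - c) ≠ 0 := hcc.ne'
              rw [div_mul_eq_mul_div, div_mul_cancel₀ _ hc']
      linarith
    refine le_trans ?_ h8
    gcongr
    exact min_le_left _ _

end KEY_

open KEY_ in
theorem p_KEY (h_MOP : T_MOP) (h_FSL : T_FSL) (h_SHC : T_SHC) (h_CRI : T_CRI) : T_KEY := by
  intro d hd p q c θ0 hp hp1 hq hc hc1 hc2 hθ μ hμ K ρ r t ht hr1 hr2 hρ1 hρ2 hK hth hdiff
  have := hμ.prob
  set x : ℝ := th μ K ρ with hx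
  have hx1 : x ≤ 1 := by
    rw [hx]
    unfold th
    exact measureReal_le_one
  have hx0 : 0 < x := lt_of_lt_of_le hθ hth
  set A : Set (Ed d → Bool) := Fv d K ρ with hA
  have hxA : x = μ.real A := rfl
  set F0 : Finset (Ed d) := eb (0 : Vx d) (K - ρ) with hF0
  set P : Finset (Ed d) → Prop := fun T => CrA (0 : Vx d) ρ (K - ρ) (T : Set (Ed d)) with hP
  have hmono : ∀ a b : Finset (Ed d), a ⊆ b → P a → P b := by
    intro a b hab
    exact (h_CRI d 0 0 ρ ρ (K - ρ) (K - ρ) (a : Set (Ed d)) (b : Set (Ed d))).2.2.1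
      (Finset.coe_subset.mpr hab)
  have hAP : A = {ω | P (rs F0 (cfg ω))} := by
    ext ω
    exact (h_CRI d 0 0 ρ ρ (K - ρ) (K - ρ) (cfg ω) (cfg ω)).2.1
  have hcv : ∀ e, 0 ≤ cv μ A e := by
    intro e
    have := (h_MOP d p p q hp le_rfl hp1 hq μ μ hμ hμ F0 P hmono).2 e
    rwa [← hAP] at this
  have ht0 : (2 : ℝ) ≤ t := by exact_mod_cast ht
  have htp : (0 : ℝ) < t := by linarith
  have hlogr := log_r ht hr1 hr2
  have hlogt : 0 ≤ Real.log t := Real.log_nonneg (by linarith)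
  have hcc1 : c < 1 := by linarith
  set m : ℝ := min (c * (1 - c) / 4) (1 / 640) with hm
  have hm0 : 0 ≤ m := by
    rw [hm]
    refine le_min ?_ (by norm_num)
    have : 0 ≤ c * (1 - c) := mul_nonneg hc.le (by linarith)
    linarith
  have hm1 : m ≤ 1 / 640 := min_le_right _ _
  have h1x : 0 ≤ 1 - x := by linarith
  -- reduction of the left side
  have hleft : θ0 * m / 8 * Real.log r * (1 - x) ≤ m * Real.log t * (x * (1 - x)) := by
    calc θ0 * m / 8 * Real.log r * (1 - x) ≤ x * m / 8 * (8 * Real.log t) * (1 - x) := by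
          gcongr
      _ = m * Real.log t * (x * (1 - x)) := by ring
  by_cases hcase : ∀ e ∈ F0, cv μ A e ≤ 80 / t
  · -- case A
    have hsub : F0 ⊆ eb (0 : Vx d) (2 * K) := eb_mono (by omega)
    have hSS : ∑ e ∈ F0, cv μ A e ≤ ∑ e ∈ eb (0 : Vx d) (2 * K), cv μ A e :=
      Finset.sum_le_sum_of_subset_of_nonneg hsub (fun e _ _ => hcv e)
    obtain ⟨f1, f2⟩ := h_FSL d p q c hp hp1 hq hc hc1 hc2 μ hμ F0 P hmono A hAP
    rw [← hxA] at f1 f2
    have hQ : 4 * ∑ e ∈ F0, cv μ A e ^ 2 ≤ 320 * (∑ e ∈ F0, cv μ A e) / t := by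
      have h1 : ∑ e ∈ F0, cv μ A e ^ 2 ≤ ∑ e ∈ F0, 80 / t * cv μ A e := by
        refine Finset.sum_le_sum fun e he => ?_
        rw [sq]
        exact mul_le_mul_of_nonneg_right (hcase e he) (hcv e)
      rw [← Finset.mul_sum] at h1
      calc 4 * ∑ e ∈ F0, cv μ A e ^ 2 ≤ 4 * (80 / t * ∑ e ∈ F0, cv μ A e) := by gcongr
        _ = 320 * (∑ e ∈ F0, cv μ A e) / t := by ring
    have hQ0 : 0 ≤ ∑ e ∈ F0, cv μ A e ^ 2 := Finset.sum_nonneg fun e _ => sq_nonneg _
    have hQS : ∑ e ∈ F0, cv μ A e ^ 2 = 0 → ∑ e ∈ F0, cv μ A e = 0 := by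
      intro h
      have h1 := (Finset.sum_eq_zero_iff_of_nonneg (fun e _ => sq_nonneg (cv μ A e))).mp h
      exact Finset.sum_eq_zero fun e he => by
        simpa using h1 e he
    have hA' := caseA ht0 hx1 hx0 hc hcc1 hQ hQ0 hQS f1 f2
    exact hleft.trans (hA'.trans hSS)
  · -- case B
    push Not at hcase
    obtain ⟨e, he, hbig⟩ := hcase
    set s : ℕ := t ^ 3 with hs
    have hst : s ≤ t ^ 4 := Nat.pow_le_pow_right (by omega) (by omega)
    have hsr : s ≤ r := hst.trans hr1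
    set i : Fin d := ⟨0, hd⟩
    have hr0 : (0 : ℝ) < r := by
      have : 0 < r := lt_of_lt_of_le (by positivity) hr1
      exact_mod_cast this
    have hsr2 : 40 * (t : ℝ) ^ 3 / r ≤ 40 / t := by
      rw [div_le_div_iff₀ hr0 htp]
      have : (t : ℝ) ^ 4 ≤ r := by exact_mod_cast hr1
      nlinarith
    have hlow : ∀ j ∈ Finset.range (s + 1), 40 / (t : ℝ) ≤
        cv μ A (trE (Pi.single i (j : ℤ)) e) := by
      intro j hj
      have hj' : j ≤ s := Nat.lt_succ_iff.mp (Finset.mem_range.mp hj)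
      have h1 := h_SHC d hd p q hp hp1 hq μ hμ K ρ s j i e hj' (by omega) (by omega)
      have h2 := (abs_le.mp (h1.trans hdiff)).1
      have h3 : (80 : ℝ) / t = 40 / t + 40 / t := by ring
      linarith
    have hinj : Set.InjOn (fun j : ℕ => trE (Pi.single i (j : ℤ)) e)
        (Finset.range (s + 1) : Set ℕ) := by
      intro j _ j' _ h
      have h1 : e.1 + Pi.single i (j : ℤ) = e.1 + Pi.single i (j' : ℤ) := congrArg Prod.fst h
      have h2 := add_left_cancel h1
      have h3 := congrFun h2 i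
      rw [Pi.single_eq_same, Pi.single_eq_same] at h3
      exact_mod_cast h3
    have himg : (Finset.range (s + 1)).image (fun j : ℕ => trE (Pi.single i (j : ℤ)) e) ⊆
        eb (0 : Vx d) (2 * K) := by
      intro e' he'
      rw [Finset.mem_image] at he'
      obtain ⟨j, hj, rfl⟩ := he'
      have hj' : j ≤ s := Nat.lt_succ_iff.mp (Finset.mem_range.mp hj)
      exact eb_trans i he (by omega)
    have hS : ((s : ℝ) + 1) * (40 / t) ≤ ∑ e ∈ eb (0 : Vx d) (2 * K), cv μ A e := by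
      calc ((s : ℝ) + 1) * (40 / t) = ∑ _j ∈ Finset.range (s + 1), 40 / (t : ℝ) := by
            rw [Finset.sum_const, Finset.card_range, nsmul_eq_mul]
            push_cast
            ring
        _ ≤ ∑ j ∈ Finset.range (s + 1), cv μ A (trE (Pi.single i (j : ℤ)) e) :=
            Finset.sum_le_sum hlow
        _ = ∑ e' ∈ (Finset.range (s + 1)).image
            (fun j : ℕ => trE (Pi.single i (j : ℤ)) e), cv μ A e' := by
            rw [Finset.sum_image hinj]
        _ ≤ _ := Finset.sum_le_sum_of_subset_of_nonneg himg (fun e _ _ => hcv e)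
    refine hleft.trans (le_trans ?_ hS)
    have h1 : x * (1 - x) ≤ 1 := by nlinarith
    have h2 : 0 ≤ x * (1 - x) := mul_nonneg hx0.le h1x
    have h3 : Real.log t ≤ t := by
      have := Real.log_le_sub_one_of_pos htp
      linarith
    have h4 : m * Real.log t * (x * (1 - x)) ≤ (1 / 640) * t * 1 := by gcongr
    have h5 : (40 : ℝ) * t ^ 2 ≤ ((s : ℝ) + 1) * (40 / t) := by
      have h6 : (s : ℝ) = (t : ℝ) ^ 3 := by rw [hs]; push_cast; ring
      rw [h6, ← mul_div_assoc, le_div_iff₀ htp]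
      nlinarith
    nlinarith

end Pool.Agent.FKT
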