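import Pool.Agent.FKT.TargetsB

set_option autoImplicit false

/-!
# LAW: the law of the states
-/

namespace Pool.Agent.FKT

namespace LAW_

theorem cls {n : ℕ} (m : (Fin n → Bool) → ℝ) (hm : ∀ w, 0 < m w) (j : Fin n)
    (G : (Fin n → Bool) → ℝ) :
    ∑ w, m w * (cpr m j w * G (trn j w)) =
      ∑ w, m w * (if w j = true then G (trn j w) else 0) := by
  have hS : ∀ w : Fin n → Bool,
      0 < ∑ v : Fin n → Bool, if trn j v = trn j w then m v else 0 := by
    intro w
    apply Finset.sum_pos'
    · intro v _
      split_ifs
      · exact (hm v).le
      · exact le_rfl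
    · exact ⟨w, Finset.mem_univ _, by simp [hm w]⟩
  have h1 : ∀ w : Fin n → Bool, m w * (cpr m j w * G (trn j w)) =
      ∑ v : Fin n → Bool, (if trn j v = trn j w ∧ v j = true then m v else 0) *
        (m w * G (trn j w) / ∑ v : Fin n → Bool, if trn j v = trn j w then m v else 0) := by
    intro w
    rw [← Finset.sum_mul]
    unfold cpr
    ring
  rw [Finset.sum_congr rfl fun w _ => h1 w, Finset.sum_comm]
  refine Finset.sum_congr rfl fun v _ => ?_
  by_cases hv : v j = true
  · rw [if_pos hv]
    have h2 : ∀ w : Fin n → Bool,
        (if trn j v = trn j w ∧ v j = true then m v else 0) *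
        (m w * G (trn j w) / ∑ v : Fin n → Bool, if trn j v = trn j w then m v else 0) =
        (m v * G (trn j v) / ∑ u : Fin n → Bool, if trn j u = trn j v then m u else 0) *
          (if trn j w = trn j v then m w else 0) := by
      intro w
      by_cases hw : trn j v = trn j w
      · rw [if_pos ⟨hw, hv⟩, if_pos hw.symm, hw]
        ring
      · rw [if_neg (fun h => hw h.1), if_neg (fun h => hw h.symm)]
        ring
    rw [Finset.sum_congr rfl fun w _ => h2 w, ← Finset.mul_sum]
    exact div_mul_cancel₀ _ (hS v).ne'
  · rw [if_neg hv, mul_zero]
    apply Finset.sum_eq_zero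
    intro w _
    rw [if_neg (fun h => hv h.2), zero_mul]

theorem trn_succ {n : ℕ} (j : Fin n) (w : Fin n → Bool) :
    trn ((j : ℕ) + 1) w = Function.update (trn j w) j (w j) := by
  funext i
  by_cases h : i = j
  · subst h
    rw [Function.update_self]
    unfold trn
    rw [if_pos (Nat.lt_succ_self _)]
  · rw [Function.update_of_ne h]
    unfold trn
    have h1 : (i : ℕ) ≠ j := fun h' => h (Fin.ext h')
    by_cases h2 : (i : ℕ) < j
    · rw [if_pos h2, if_pos (by omega)]
    · rw [if_neg h2, if_neg (by omega)]

theorem trn_of_le {n : ℕ} (j : ℕ) (h : n ≤ j) (w : Fin n → Bool) : trn j w = w := by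
  funext i
  unfold trn
  rw [if_pos (by omega)]

theorem st_succ {n : ℕ} (u : Fin n → Rule n) (j : Fin n) :
    st u ((j : ℕ) + 1) = Function.update (st u j) j (u j (st u j)) := by
  funext i
  by_cases h : i = j
  · subst h
    rw [Function.update_self]
    show (if (i : ℕ) = i then u i (st u i) else st u i i) = _
    rw [if_pos rfl]
  · rw [Function.update_of_ne h]
    have h1 : (i : ℕ) ≠ j := fun h' => h (Fin.ext h')
    show (if (i : ℕ) = j then u i (st u j) else st u j i) = _
    rw [if_neg h1]

theorem st_succ_of_le {n : ℕ} (u : Fin n → Rule n) (j : ℕ) (h : n ≤ j) :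
    st u (j + 1) = st u j := by
  funext i
  show (if (i : ℕ) = j then u i (st u j) else st u j i) = _
  rw [if_neg (by omega)]

theorem main (h_PRD : T_PRD) (h_STP : T_STP) (h_BND : T_BND) {n : ℕ} (c : ℝ)
    (m : (Fin n → Bool) → ℝ) (l : Fin n → Rule n → ℝ) (hm : Mon c m) (hE : Enc m l) :
    ∀ (j : ℕ) (F : (Fin n → Bool) → ℝ),
      PE l (fun u => F (st u j)) = ∑ w, m w * F (trn j w) := by
  have hP := h_PRD n (Rule n) l hE.pw
  intro j
  induction j with
  | zero =>
    intro F
    have h1 : ∀ w : Fin n → Bool, trn 0 w = fun _ => false := by
      intro w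
      funext i
      unfold trn
      rw [if_neg (by omega)]
    have h2 : PE l (fun u => F (st u 0)) = F (fun _ => false) * PE l (fun _ => 1) := by
      unfold PE
      rw [Finset.mul_sum]
      refine Finset.sum_congr rfl fun u _ => ?_
      show (∏ i, l i (u i)) * F (fun _ => false) = F (fun _ => false) * ((∏ i, l i (u i)) * 1)
      ring
    rw [h2, hP.1, mul_one]
    have h3 : ∑ w, m w * F (trn 0 w) = ∑ w, m w * F (fun _ => false) :=
      Finset.sum_congr rfl fun w _ => by rw [h1]
    rw [h3, ← Finset.sum_mul, hm.tot, one_mul]
  | succ j ih =>
    intro F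
    by_cases hj : n ≤ j
    · have h1 : (fun u : Fin n → Rule n => F (st u (j + 1))) = fun u => F (st u j) := by
        funext u
        rw [st_succ_of_le u j hj]
      rw [h1, ih F]
      refine Finset.sum_congr rfl fun w _ => ?_
      rw [trn_of_le j hj, trn_of_le (j + 1) (by omega)]
    · obtain ⟨jj, hjj⟩ : ∃ jj : Fin n, (jj : ℕ) = j := ⟨⟨j, by omega⟩, rfl⟩
      subst hjj
      have hb := h_BND n c m hm jj
      have h1 : ∀ u : Fin n → Rule n, Av l jj (fun u => F (st u ((jj : ℕ) + 1))) u =
          cpr m jj (st u jj) * F (Function.update (st u jj) jj true) +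
            (1 - cpr m jj (st u jj)) * F (Function.update (st u jj) jj false) := by
        intro u
        unfold Av
        have h2 : ∀ s : Rule n, st (Function.update u jj s) jj = st u jj := by
          intro s
          apply (h_STP n (Function.update u jj s)).1 u jj
          intro i hi
          rw [Function.update_of_ne]
          intro h
          rw [h] at hi
          exact lt_irrefl _ hi
        have h3 : ∀ s : Rule n, l jj s * F (st (Function.update u jj s) ((jj : ℕ) + 1)) =
            (if s (st u jj) = true then l jj s else 0) *
              F (Function.update (st u jj) jj true) +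
            (l jj s - (if s (st u jj) = true then l jj s else 0)) *
              F (Function.update (st u jj) jj false) := by
          intro s
          rw [st_succ, h2, Function.update_self]
          by_cases hs : s (st u jj) = true
          · rw [if_pos hs, hs]
            ring
          · rw [if_neg hs]
            have hs' : s (st u jj) = false := by simpa using hs
            rw [hs']
            ring
        rw [Finset.sum_congr rfl fun s _ => h3 s, Finset.sum_add_distrib, ← Finset.sum_mul,
          ← Finset.sum_mul, Finset.sum_sub_distrib, hE.mean, hE.pw.tot]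
      have h4 := hP.2.1 jj (fun u => F (st u ((jj : ℕ) + 1)))
      have h5 : (Av l jj fun u => F (st u ((jj : ℕ) + 1))) = fun u =>
          (fun x => cpr m jj x * F (Function.update x jj true) +
            (1 - cpr m jj x) * F (Function.update x jj false)) (st u jj) := by
        funext u
        exact h1 u
      have h8 := ih (fun x => cpr m jj x * F (Function.update x jj true) +
        (1 - cpr m jj x) * F (Function.update x jj false))
      rw [← h4, h5]
      refine h8.trans ?_
      have h6 : ∀ w : Fin n → Bool,
          m w * (cpr m jj (trn jj w) * F (Function.update (trn jj w) jj true) +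
            (1 - cpr m jj (trn jj w)) * F (Function.update (trn jj w) jj false)) =
          m w * (cpr m jj w * F (Function.update (trn jj w) jj true)) +
            m w * F (Function.update (trn jj w) jj false) -
            m w * (cpr m jj w * F (Function.update (trn jj w) jj false)) := by
        intro w
        rw [hb.2.2.1 w]
        ring
      have h7 : ∀ w : Fin n → Bool, m w * F (trn ((jj : ℕ) + 1) w) =
          m w * (if w jj = true then F (Function.update (trn jj w) jj true) else 0) +
            m w * F (Function.update (trn jj w) jj false) -
            m w * (if w jj = true then F (Function.update (trn jj w) jj false) else 0) := by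
        intro w
        rw [trn_succ]
        by_cases hw : w jj = true
        · rw [if_pos hw, if_pos hw, hw]
          ring
        · have hw' : w jj = false := by simpa using hw
          rw [if_neg hw, if_neg hw, hw']
          ring
      rw [Finset.sum_congr rfl fun w _ => h6 w, Finset.sum_congr rfl fun w _ => h7 w,
        Finset.sum_sub_distrib, Finset.sum_sub_distrib, Finset.sum_add_distrib,
        Finset.sum_add_distrib,
        cls m hm.pos jj (fun x => F (Function.update x jj true)),
        cls m hm.pos jj (fun x => F (Function.update x jj false))]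

end LAW_

theorem p_LAW (h_PRD : T_PRD) (h_STP : T_STP) (h_BND : T_BND) : T_LAW := by
  intro n c m l hm hE
  have h1 := LAW_.main h_PRD h_STP h_BND c m l hm hE
  refine ⟨h1, fun F => ?_⟩
  rw [h1 n F]
  refine Finset.sum_congr rfl fun w _ => ?_
  rw [LAW_.trn_of_le n le_rfl]

end Pool.Agent.FKT
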