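import Pool.Agent.FKT.TargetsB

/-!
# FKT, LGS: the log-sum inequality
-/

set_option autoImplicit false

namespace Pool.Agent.FKT

theorem p_LGS : T_LGS := by
  intro ι I a b ha hb hab
  set A : ℝ := ∑ i ∈ I, a i with hA
  set B : ℝ := ∑ i ∈ I, b i with hB
  have hA0 : 0 ≤ A := Finset.sum_nonneg ha
  rcases hA0.eq_or_lt with h0 | hpos
  · have hz : ∀ i ∈ I, a i = 0 := (Finset.sum_eq_zero_iff_of_nonneg ha).mp h0.symm
    rw [← h0, zero_mul]
    refine le_of_eq (Eq.symm (Finset.sum_eq_zero fun i hi => ?_))
    rw [hz i hi, zero_mul]
  · have hBpos : 0 < B := by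
      have hB0 : 0 ≤ B := Finset.sum_nonneg hb
      rcases hB0.eq_or_lt with h1 | h1
      · exfalso
        have hz : ∀ i ∈ I, b i = 0 := (Finset.sum_eq_zero_iff_of_nonneg hb).mp h1.symm
        have : A = 0 := Finset.sum_eq_zero fun i hi => hab i hi (hz i hi)
        linarith
      · exact h1
    have key : ∀ i ∈ I, a i - b i * (A / B) ≤ a i * Real.log (a i / b i) -
        a i * Real.log (A / B) := by
      intro i hi
      rcases (ha i hi).eq_or_lt with h1 | h1
      · rw [← h1]
        have : 0 ≤ b i * (A / B) := mul_nonneg (hb i hi) (by positivity)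
        simpa using this
      · have hbi : 0 < b i := by
          rcases (hb i hi).eq_or_lt with h2 | h2
          · have := hab i hi h2.symm
            linarith
          · exact h2
        have h3 : 0 < a i / b i := by positivity
        have h4 : 0 < A / B := by positivity
        have h5 := Real.one_sub_inv_le_log_of_pos (div_pos h3 h4)
        rw [Real.log_div h3.ne' h4.ne'] at h5
        have h6 := mul_le_mul_of_nonneg_left h5 h1.le
        have h7 : a i * (1 - (a i / b i / (A / B))⁻¹) = a i - b i * (A / B) := by
          field_simp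
        rw [h7] at h6
        linarith
    have hsum := Finset.sum_le_sum key
    rw [Finset.sum_sub_distrib, Finset.sum_sub_distrib, ← Finset.sum_mul, ← Finset.sum_mul,
      ← hA, ← hB] at hsum
    have h8 : A - B * (A / B) = 0 := by
      field_simp
      ring
    rw [h8] at hsum
    linarith

end Pool.Agent.FKT
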