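import Pool.Agent.FKT.TargetsA

/-!
# FKT: positive association of the random-cluster measure
-/

set_option autoImplicit false

namespace Pool.Agent.FKT

open Filter MeasureTheory
open scoped FinsetFamily

namespace FKG_

theorem bw_pos {E : Type} {p : ℝ} (h0 : 0 < p) (h1 : p < 1) (G ω : Finset E) : 0 < bw p G ω := by
  have h : 0 < 1 - p := by linarith
  unfold bw
  positivity

theorem bw_mul {E : Type} [DecidableEq E] (p : ℝ) {G a b : Finset E} (ha : a ⊆ G) (hb : b ⊆ G) :
    bw p G a * bw p G b = bw p G (a ∩ b) * bw p G (a ∪ b) := by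
  have h1 := Finset.card_union_add_card_inter a b
  have h2 := Finset.card_le_card ha
  have h3 := Finset.card_le_card hb
  have h4 := Finset.card_le_card (Finset.union_subset ha hb)
  have h5 := Finset.card_le_card ((Finset.inter_subset_left (s₁ := a) (s₂ := b)).trans ha)
  unfold bw
  have e1 : a.card + b.card = (a ∩ b).card + (a ∪ b).card := by omega
  have e2 : (G.card - a.card) + (G.card - b.card) =
      (G.card - (a ∩ b).card) + (G.card - (a ∪ b).card) := by omega
  calc p ^ a.card * (1 - p) ^ (G.card - a.card) * (p ^ b.card * (1 - p) ^ (G.card - b.card))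
      = p ^ (a.card + b.card) * (1 - p) ^ ((G.card - a.card) + (G.card - b.card)) := by
        rw [pow_add, pow_add]; ring
    _ = p ^ ((a ∩ b).card + (a ∪ b).card) *
          (1 - p) ^ ((G.card - (a ∩ b).card) + (G.card - (a ∪ b).card)) := by rw [e1, e2]
    _ = _ := by rw [pow_add, pow_add]; ring

theorem wt_pos {V E : Type} (s t : E → V) (R : V → V → Prop) (U : Finset V) (G : Finset E)
    {p q : ℝ} (h0 : 0 < p) (h1 : p < 1) (hq : 1 ≤ q) (ω : Finset E) : 0 < wt s t R U G p q ω := by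
  unfold wt
  exact mul_pos (bw_pos h0 h1 G ω) (pow_pos (by linarith) _)

theorem wt_mul (hA : T_ADD) {V E : Type} [DecidableEq E] (s t : E → V) (R : V → V → Prop)
    (U : Finset V) (G : Finset E) {p q : ℝ} (h0 : 0 < p) (h1 : p < 1) (hq : 1 ≤ q)
    (hG : ∀ e ∈ G, s e ∈ U ∧ t e ∈ U) {a b : Finset E} (ha : a ⊆ G) (hb : b ⊆ G) :
    wt s t R U G p q a * wt s t R U G p q b ≤
      wt s t R U G p q (a ∩ b) * wt s t R U G p q (a ∪ b) := by
  have h := (hA V E s t R U).2 a b (fun e he => hG e (ha he))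
  have h2 : q ^ (ncl s t R U (a : Set E) + ncl s t R U (b : Set E)) ≤
      q ^ (ncl s t R U ((a ∪ b : Finset E) : Set E) +
        ncl s t R U ((a ∩ b : Finset E) : Set E)) := pow_le_pow_right₀ hq h
  have h3 : 0 ≤ bw p G (a ∩ b) * bw p G (a ∪ b) :=
    (mul_pos (bw_pos h0 h1 G _) (bw_pos h0 h1 G _)).le
  unfold wt
  calc bw p G a * q ^ ncl s t R U (a : Set E) * (bw p G b * q ^ ncl s t R U (b : Set E))
      = (bw p G a * bw p G b) * q ^ (ncl s t R U (a : Set E) + ncl s t R U (b : Set E)) := by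
        rw [pow_add]; ring
    _ = (bw p G (a ∩ b) * bw p G (a ∪ b)) *
          q ^ (ncl s t R U (a : Set E) + ncl s t R U (b : Set E)) := by rw [bw_mul p ha hb]
    _ ≤ (bw p G (a ∩ b) * bw p G (a ∪ b)) *
          q ^ (ncl s t R U ((a ∪ b : Finset E) : Set E) +
            ncl s t R U ((a ∩ b : Finset E) : Set E)) := mul_le_mul_of_nonneg_left h2 h3
    _ = _ := by rw [pow_add]; ring

theorem core (hA : T_ADD) {V E : Type} [DecidableEq E] (s t : E → V) (R : V → V → Prop)
    (U : Finset V) (G : Finset E) {p q : ℝ} (h0 : 0 < p) (h1 : p < 1) (hq : 1 ≤ q)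
    (hG : ∀ e ∈ G, s e ∈ U ∧ t e ∈ U) (f g : Finset E → ℝ) (f0 : ∀ a, 0 ≤ f a)
    (g0 : ∀ a, 0 ≤ g a) (hf : ∀ a b : Finset E, a ⊆ b → f a ≤ f b)
    (hg : ∀ a b : Finset E, a ⊆ b → g a ≤ g b) :
    (∑ ω ∈ G.powerset, wt s t R U G p q ω * f ω) * (∑ ω ∈ G.powerset, wt s t R U G p q ω * g ω) ≤
      (∑ ω ∈ G.powerset, wt s t R U G p q ω) *
        ∑ ω ∈ G.powerset, wt s t R U G p q ω * (f ω * g ω) := by
  classical
  set w : Finset E → ℝ := fun a => if a ⊆ G then wt s t R U G p q a else 0 with hw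
  have hw0 : ∀ a, 0 ≤ w a := by
    intro a
    by_cases ha : a ⊆ G
    · simp only [hw, if_pos ha]; exact (wt_pos s t R U G h0 h1 hq a).le
    · simp only [hw, if_neg ha]; exact le_refl _
  have hwa : ∀ a, a ⊆ G → w a = wt s t R U G p q a := fun a ha => by simp only [hw, if_pos ha]
  have key := four_functions_theorem (α := Finset E) (β := ℝ) (f₁ := fun a => w a * f a)
    (f₂ := fun a => w a * g a) (f₃ := w) (f₄ := fun a => w a * (f a * g a))
    (fun a => mul_nonneg (hw0 a) (f0 a)) (fun a => mul_nonneg (hw0 a) (g0 a)) (fun a => hw0 a)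
    (fun a => mul_nonneg (hw0 a) (mul_nonneg (f0 a) (g0 a))) ?_ G.powerset G.powerset
  · have e1 : G.powerset ⊼ G.powerset = G.powerset := by
      ext a
      rw [Finset.mem_infs, Finset.mem_powerset]
      constructor
      · rintro ⟨b, hb, c, _, rfl⟩
        exact Finset.inter_subset_left.trans (Finset.mem_powerset.1 hb)
      · intro ha
        exact ⟨a, Finset.mem_powerset.2 ha, a, Finset.mem_powerset.2 ha, inf_idem _⟩
    have e2 : G.powerset ⊻ G.powerset = G.powerset := by
      ext a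
      rw [Finset.mem_sups, Finset.mem_powerset]
      constructor
      · rintro ⟨b, hb, c, hc, rfl⟩
        exact Finset.union_subset (Finset.mem_powerset.1 hb) (Finset.mem_powerset.1 hc)
      · intro ha
        exact ⟨a, Finset.mem_powerset.2 ha, a, Finset.mem_powerset.2 ha, sup_idem _⟩
    rw [e1, e2] at key
    have c1 : ∑ a ∈ G.powerset, w a * f a = ∑ ω ∈ G.powerset, wt s t R U G p q ω * f ω :=
      Finset.sum_congr rfl fun a ha => by rw [hwa a (Finset.mem_powerset.1 ha)]
    have c2 : ∑ a ∈ G.powerset, w a * g a = ∑ ω ∈ G.powerset, wt s t R U G p q ω * g ω :=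
      Finset.sum_congr rfl fun a ha => by rw [hwa a (Finset.mem_powerset.1 ha)]
    have c3 : ∑ a ∈ G.powerset, w a = ∑ ω ∈ G.powerset, wt s t R U G p q ω :=
      Finset.sum_congr rfl fun a ha => by rw [hwa a (Finset.mem_powerset.1 ha)]
    have c4 : ∑ a ∈ G.powerset, w a * (f a * g a) =
        ∑ ω ∈ G.powerset, wt s t R U G p q ω * (f ω * g ω) :=
      Finset.sum_congr rfl fun a ha => by rw [hwa a (Finset.mem_powerset.1 ha)]
    rw [← c1, ← c2, ← c3, ← c4]
    exact key
  · intro a b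
    show w a * f a * (w b * g b) ≤ w (a ∩ b) * (w (a ∪ b) * (f (a ∪ b) * g (a ∪ b)))
    by_cases ha : a ⊆ G
    · by_cases hb : b ⊆ G
      · rw [hwa a ha, hwa b hb, hwa (a ∩ b) (Finset.inter_subset_left.trans ha),
          hwa (a ∪ b) (Finset.union_subset ha hb)]
        have k1 := wt_mul hA s t R U G h0 h1 hq hG ha hb
        have k2 : f a * g b ≤ f (a ∪ b) * g (a ∪ b) :=
          mul_le_mul (hf _ _ Finset.subset_union_left) (hg _ _ Finset.subset_union_right) (g0 _)
            (f0 _)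
        calc wt s t R U G p q a * f a * (wt s t R U G p q b * g b)
            = (wt s t R U G p q a * wt s t R U G p q b) * (f a * g b) := by ring
          _ ≤ (wt s t R U G p q (a ∩ b) * wt s t R U G p q (a ∪ b)) *
                (f (a ∪ b) * g (a ∪ b)) :=
              mul_le_mul k1 k2 (mul_nonneg (f0 _) (g0 _))
                (mul_pos (wt_pos s t R U G h0 h1 hq _) (wt_pos s t R U G h0 h1 hq _)).le
          _ = _ := by ring
      · have : w b = 0 := by simp only [hw, if_neg hb]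
        rw [this]
        have : 0 ≤ w (a ∩ b) * (w (a ∪ b) * (f (a ∪ b) * g (a ∪ b))) :=
          mul_nonneg (hw0 _) (mul_nonneg (hw0 _) (mul_nonneg (f0 _) (g0 _)))
        simpa using this
    · have : w a = 0 := by simp only [hw, if_neg ha]
      rw [this]
      have : 0 ≤ w (a ∩ b) * (w (a ∪ b) * (f (a ∪ b) * g (a ∪ b))) :=
        mul_nonneg (hw0 _) (mul_nonneg (hw0 _) (mul_nonneg (f0 _) (g0 _)))
      simpa using this

end FKG_

/-- FKG. -/
theorem p_FKG (hA : T_ADD) : T_FKG := by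
  intro V E _ s t R U G p q h0 h1 hq hG
  have hZ : 0 < ∑ ω ∈ G.powerset, wt s t R U G p q ω :=
    Finset.sum_pos (fun ω _ => FKG_.wt_pos s t R U G h0 h1 hq ω) (Finset.powerset_nonempty G)
  refine ⟨fun f g hf hg => ?_, hZ⟩
  have k := FKG_.core hA s t R U G h0 h1 hq hG (fun a => f a - f ∅) (fun a => g a - g ∅)
    (fun a => sub_nonneg.2 (hf _ _ (Finset.empty_subset a)))
    (fun a => sub_nonneg.2 (hg _ _ (Finset.empty_subset a)))
    (fun a b hab => sub_le_sub_right (hf _ _ hab) _)
    (fun a b hab => sub_le_sub_right (hg _ _ hab) _)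
  unfold Ex
  set Z := ∑ ω ∈ G.powerset, wt s t R U G p q ω with hZd
  set F := ∑ ω ∈ G.powerset, wt s t R U G p q ω * f ω with hF
  set K := ∑ ω ∈ G.powerset, wt s t R U G p q ω * g ω with hK
  set M := ∑ ω ∈ G.powerset, wt s t R U G p q ω * (f ω * g ω) with hM
  have e1 : ∑ ω ∈ G.powerset, wt s t R U G p q ω * (f ω - f ∅) = F - f ∅ * Z := by
    rw [hF, hZd, Finset.mul_sum, ← Finset.sum_sub_distrib]
    exact Finset.sum_congr rfl fun a _ => by ring
  have e2 : ∑ ω ∈ G.powerset, wt s t R U G p q ω * (g ω - g ∅) = K - g ∅ * Z := by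
    rw [hK, hZd, Finset.mul_sum, ← Finset.sum_sub_distrib]
    exact Finset.sum_congr rfl fun a _ => by ring
  have e3 : ∑ ω ∈ G.powerset, wt s t R U G p q ω * ((f ω - f ∅) * (g ω - g ∅)) =
      M - f ∅ * K - g ∅ * F + f ∅ * g ∅ * Z := by
    rw [hM, hK, hF, hZd, Finset.mul_sum, Finset.mul_sum, Finset.mul_sum,
      ← Finset.sum_sub_distrib, ← Finset.sum_sub_distrib, ← Finset.sum_add_distrib]
    exact Finset.sum_congr rfl fun a _ => by ring
  rw [e1, e2, e3] at k
  have k2 : F * K ≤ Z * M := by nlinarith [k]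
  rw [div_mul_div_comm, div_le_div_iff₀ (mul_pos hZ hZ) hZ]
  calc F * K * Z ≤ Z * M * Z := mul_le_mul_of_nonneg_right k2 hZ.le
    _ = M * (Z * Z) := by ring

end Pool.Agent.FKT
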