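import Pool.Agent.FKT.TargetsA

set_option autoImplicit false

/-! Target LIM of the project FKT: limits of local functions. -/

namespace Pool.Agent.FKT

open Filter

namespace LIM_

variable {d : ℕ}

theorem phi_add (x : Vx d) (n : ℕ) (p q : ℝ) (f g : Finset (Ed d) → ℝ) :
    phi x n p q (fun ω => f ω + g ω) = phi x n p q f + phi x n p q g := by
  unfold phi Ex
  rw [← add_div, ← Finset.sum_add_distrib]
  congr 1
  apply Finset.sum_congr rfl
  intro ω _
  ring

theorem phi_smul (x : Vx d) (n : ℕ) (p q c : ℝ) (f : Finset (Ed d) → ℝ) :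
    phi x n p q (fun ω => c * f ω) = c * phi x n p q f := by
  unfold phi Ex
  rw [mul_div_assoc', Finset.mul_sum]
  congr 1
  apply Finset.sum_congr rfl
  intro ω _
  ring

/-- Indicator of `S ⊆ ω`. -/
noncomputable def ii (S ω : Finset (Ed d)) : ℝ := if S ⊆ ω then 1 else 0

theorem ii_mono (S a b : Finset (Ed d)) (h : a ⊆ b) : ii S a ≤ ii S b := by
  unfold ii
  by_cases h1 : S ⊆ a
  · rw [if_pos h1, if_pos (h1.trans h)]
  · rw [if_neg h1]
    split_ifs <;> norm_num

theorem phi_ii_nonneg (x : Vx d) (n : ℕ) {p q : ℝ} (hp : 0 < p) (hp1 : p < 1) (hq : 1 ≤ q)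
    (S : Finset (Ed d)) : 0 ≤ phi x n p q (ii S) := by
  have hw : ∀ ω : Finset (Ed d),
      0 ≤ wt Prod.fst tgt (Wir x n) (bx x n) (eb x n) p q ω := by
    intro ω
    unfold wt bw
    have h1 : 0 ≤ 1 - p := by linarith
    positivity
  unfold phi Ex
  apply div_nonneg
  · apply Finset.sum_nonneg
    intro ω _
    apply mul_nonneg (hw ω)
    unfold ii
    split_ifs <;> norm_num
  · exact Finset.sum_nonneg fun ω _ => hw ω

theorem mem_bx (x : Vx d) (n : ℕ) (v : Vx d) :
    v ∈ bx x n ↔ ∀ i, x i - n ≤ v i ∧ v i ≤ x i + n := by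
  unfold bx
  rw [Finset.mem_Icc, Pi.le_def, Pi.le_def]
  exact forall_and.symm

theorem mem_bx_of_large (x v : Vx d) (n : ℕ) (h : ∑ i, (v i - x i).natAbs ≤ n) :
    v ∈ bx x n := by
  rw [mem_bx]
  intro i
  have h1 : (v i - x i).natAbs ≤ ∑ i, (v i - x i).natAbs :=
    Finset.single_le_sum (f := fun i => (v i - x i).natAbs) (fun _ _ => Nat.zero_le _)
      (Finset.mem_univ i)
  omega

theorem bx_sub (x y : Vx d) (n m : ℕ) (h : ∑ i, (x i - y i).natAbs + n ≤ m) :
    bx x n ⊆ bx y m := by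
  intro v hv
  rw [mem_bx] at hv ⊢
  intro i
  have h1 : (x i - y i).natAbs ≤ ∑ i, (x i - y i).natAbs :=
    Finset.single_le_sum (f := fun i => (x i - y i).natAbs) (fun _ _ => Nat.zero_le _)
      (Finset.mem_univ i)
  have h2 := hv i
  omega

theorem sub_eb (x : Vx d) (S : Finset (Ed d)) : ∃ n₀, ∀ n, n₀ ≤ n → S ⊆ eb x n := by
  refine ⟨∑ e ∈ S, (∑ i, (e.1 i - x i).natAbs + ∑ i, (tgt e i - x i).natAbs), fun n hn e he => ?_⟩
  have h1 : (∑ i, (e.1 i - x i).natAbs + ∑ i, (tgt e i - x i).natAbs) ≤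
      ∑ e ∈ S, (∑ i, (e.1 i - x i).natAbs + ∑ i, (tgt e i - x i).natAbs) :=
    Finset.single_le_sum
      (f := fun e : Ed d => ∑ i, (e.1 i - x i).natAbs + ∑ i, (tgt e i - x i).natAbs)
      (fun _ _ => Nat.zero_le _) he
  unfold eb
  rw [Finset.mem_filter, Finset.mem_product]
  refine ⟨⟨mem_bx_of_large x e.1 n (by omega), Finset.mem_univ _⟩,
    mem_bx_of_large x (tgt e) n (by omega)⟩

theorem cmp (h_DOM : T_DOM) (hd : 0 < d) {p q : ℝ} (hp : 0 < p) (hp1 : p < 1) (hq : 1 ≤ q)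
    (S : Finset (Ed d)) (x y : Vx d) (n m : ℕ) (h : bx x n ⊆ bx y m) (hS : S ⊆ eb x n) :
    phi y m p q (ii S) ≤ phi x n p q (ii S) := by
  have h1 := h_DOM d hd p q hp hp1 hq x y n m h (ii S) (ii_mono S)
  have h2 : (fun ω => ii S (ω ∩ eb x n)) = ii S := by
    funext ω
    unfold ii
    have h3 : S ⊆ ω ∩ eb x n ↔ S ⊆ ω := by
      constructor
      · intro h4
        exact h4.trans Finset.inter_subset_left
      · intro h4
        exact Finset.subset_inter h4 hS
    simp only [h3]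
  rw [h2] at h1
  exact h1

theorem lim_ii (h_DOM : T_DOM) (hd : 0 < d) {p q : ℝ} (hp : 0 < p) (hp1 : p < 1) (hq : 1 ≤ q)
    (S : Finset (Ed d)) : ∃ l : ℝ, ∀ x : Vx d,
      Tendsto (fun n : ℕ => phi x n p q (ii S)) atTop (nhds l) := by
  obtain ⟨n₀, hn₀⟩ := sub_eb (0 : Vx d) S
  have hanti : Antitone fun n : ℕ => phi (0 : Vx d) (n + n₀) p q (ii S) := by
    intro a b hab
    apply cmp h_DOM hd hp hp1 hq S 0 0 (a + n₀) (b + n₀)
    · apply bx_sub
      simp only [sub_self, Int.natAbs_zero, Finset.sum_const_zero]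
      omega
    · exact hn₀ _ (by omega)
  have hbdd : BddBelow (Set.range fun n : ℕ => phi (0 : Vx d) (n + n₀) p q (ii S)) := by
    refine ⟨0, ?_⟩
    rintro y ⟨n, rfl⟩
    exact phi_ii_nonneg _ _ hp hp1 hq S
  have ht := tendsto_atTop_ciInf hanti hbdd
  set l := ⨅ n : ℕ, phi (0 : Vx d) (n + n₀) p q (ii S) with hl
  have h0 : Tendsto (fun n : ℕ => phi (0 : Vx d) n p q (ii S)) atTop (nhds l) :=
    (tendsto_add_atTop_iff_nat n₀).1 ht
  refine ⟨l, fun x => ?_⟩
  obtain ⟨n₁, hn₁⟩ := sub_eb x S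
  set N := ∑ i, (x i).natAbs with hN
  have e1 : ∑ i, (x i - (0 : Vx d) i).natAbs = N := by simp [hN]
  have e2 : ∑ i, ((0 : Vx d) i - x i).natAbs = N := by simp [hN]
  have hlow : Tendsto (fun n : ℕ => phi (0 : Vx d) (n + N) p q (ii S)) atTop (nhds l) :=
    (tendsto_add_atTop_iff_nat N).2 h0
  have hup : Tendsto (fun n : ℕ => phi (0 : Vx d) (n - N) p q (ii S)) atTop (nhds l) :=
    h0.comp (tendsto_sub_atTop_nat N)
  refine tendsto_of_tendsto_of_tendsto_of_le_of_le' hlow hup ?_ ?_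
  · filter_upwards [eventually_ge_atTop n₁] with n hn
    exact cmp h_DOM hd hp hp1 hq S x 0 n (n + N) (bx_sub _ _ _ _ (by rw [e1]; omega)) (hn₁ n hn)
  · filter_upwards [eventually_ge_atTop (N + n₀)] with n hn
    exact cmp h_DOM hd hp hp1 hq S 0 x (n - N) n (bx_sub _ _ _ _ (by rw [e2]; omega))
      (hn₀ _ (by omega))

theorem lim_gen (h_DOM : T_DOM) (hd : 0 < d) {p q : ℝ} (hp : 0 < p) (hp1 : p < 1) (hq : 1 ≤ q)
    (F : Finset (Ed d)) : ∀ (S : Finset (Ed d)) (f : Finset (Ed d) → ℝ), ∃ l : ℝ, ∀ x : Vx d,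
      Tendsto (fun n : ℕ => phi x n p q fun ω => ii S ω * f (ω ∩ F)) atTop (nhds l) := by
  classical
  induction F using Finset.induction_on with
  | empty =>
    intro S f
    obtain ⟨l, hl⟩ := lim_ii h_DOM hd hp hp1 hq S
    refine ⟨f ∅ * l, fun x => ?_⟩
    have h1 : ∀ n : ℕ, phi x n p q (fun ω => ii S ω * f (ω ∩ ∅))
        = f ∅ * phi x n p q (ii S) := by
      intro n
      rw [← phi_smul]
      congr 1
      funext ω
      rw [Finset.inter_empty, mul_comm]
    simp only [h1]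
    exact (hl x).const_mul _
  | insert e F he ih =>
    intro S f
    obtain ⟨l₁, hl₁⟩ := ih S f
    obtain ⟨l₂, hl₂⟩ := ih (insert e S) (fun T => f (insert e T) - f T)
    refine ⟨l₁ + l₂, fun x => ?_⟩
    have h1 : ∀ n : ℕ, phi x n p q (fun ω => ii S ω * f (ω ∩ insert e F))
        = phi x n p q (fun ω => ii S ω * f (ω ∩ F)) +
          phi x n p q (fun ω => ii (insert e S) ω * (f (insert e (ω ∩ F)) - f (ω ∩ F))) := by
      intro n
      rw [← phi_add]
      congr 1
      funext ω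
      by_cases heω : e ∈ ω
      · have h2 : ω ∩ insert e F = insert e (ω ∩ F) := by
          rw [Finset.inter_insert_of_mem heω]
        have h3 : ii (insert e S) ω = ii S ω := by
          unfold ii
          have : insert e S ⊆ ω ↔ S ⊆ ω := by
            rw [Finset.insert_subset_iff]
            exact ⟨fun h => h.2, fun h => ⟨heω, h⟩⟩
          simp only [this]
        rw [h2, h3]
        ring
      · have h2 : ω ∩ insert e F = ω ∩ F := by
          rw [Finset.inter_insert_of_notMem heω]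
        have h3 : ii (insert e S) ω = 0 := by
          unfold ii
          rw [if_neg]
          intro h
          exact heω (h (Finset.mem_insert_self e S))
        rw [h2, h3]
        ring
    simp only [h1]
    exact (hl₁ x).add (hl₂ x)

end LIM_

theorem p_LIM (h_DOM : T_DOM) : T_LIM := by
  intro d hd p q hp hp1 hq F f
  obtain ⟨l, hl⟩ := LIM_.lim_gen h_DOM hd hp hp1 hq F ∅ f
  refine ⟨l, fun x => ?_⟩
  refine (hl x).congr fun n => ?_
  congr 1
  funext ω
  unfold LIM_.ii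
  rw [if_pos (Finset.empty_subset ω), one_mul]

end Pool.Agent.FKT
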