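import Pool.Agent.FKT.TargetsA

/-!
# FKT: LOC, local functions under the wired measure
-/

set_option autoImplicit false

namespace Pool.Agent.FKT

open Filter MeasureTheory

namespace LOC_

variable {d : ℕ}

theorem rs_sub (F : Finset (Ed d)) (O : Set (Ed d)) : rs F O ⊆ F := by
  classical
  intro e he
  unfold rs at he
  exact (Finset.mem_filter.mp he).1

theorem mem_rs (F : Finset (Ed d)) (O : Set (Ed d)) (e : Ed d) : e ∈ rs F O ↔ e ∈ F ∧ e ∈ O := by
  classical
  unfold rs
  rw [Finset.mem_filter]

theorem rs_eq_iff (F T : Finset (Ed d)) (hT : T ⊆ F) (ω : Ed d → Bool) :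
    rs F (cfg ω) = T ↔ ω ∈ Cyl F T := by
  constructor
  · intro h e he
    rw [← h, mem_rs]
    exact ⟨fun h1 => ⟨he, h1⟩, fun h1 => h1.2⟩
  · intro h
    ext e
    rw [mem_rs]
    constructor
    · rintro ⟨h1, h2⟩
      exact (h e h1).mp h2
    · intro h1
      exact ⟨hT h1, (h e (hT h1)).mpr h1⟩

/-- Expansion on the configurations of the boxes. -/
theorem exp1 (F : Finset (Ed d)) (f : Finset (Ed d) → ℝ) (ω : Finset (Ed d)) :
    f (ω ∩ F) = ∑ T ∈ F.powerset, f T * (if ω ∩ F = T then 1 else 0) := by
  rw [Finset.sum_eq_single (ω ∩ F)]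
  · simp
  · intro T _ hT
    rw [if_neg (fun h => hT h.symm), mul_zero]
  · intro h
    exact absurd (Finset.mem_powerset.mpr Finset.inter_subset_right) h

/-- Expansion on the infinite configurations. -/
theorem exp2 (F : Finset (Ed d)) (f : Finset (Ed d) → ℝ) (ω : Ed d → Bool) :
    f (rs F (cfg ω)) = ∑ T ∈ F.powerset, f T * (Cyl F T).indicator (fun _ => (1 : ℝ)) ω := by
  rw [Finset.sum_eq_single (rs F (cfg ω))]
  · rw [Set.indicator_of_mem ((rs_eq_iff F _ (rs_sub F _) ω).mp rfl), mul_one]
  · intro T hT hne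
    rw [Set.indicator_of_notMem, mul_zero]
    intro h
    exact hne ((rs_eq_iff F T (Finset.mem_powerset.mp hT) ω).mpr h).symm
  · intro h
    exact absurd (Finset.mem_powerset.mpr (rs_sub F _)) h

theorem phi_lin (x : Vx d) (n : ℕ) (p q : ℝ) (s : Finset (Finset (Ed d)))
    (f : Finset (Ed d) → ℝ) (g : Finset (Ed d) → Finset (Ed d) → ℝ) :
    phi x n p q (fun ω => ∑ T ∈ s, f T * g T ω) = ∑ T ∈ s, f T * phi x n p q (g T) := by
  unfold phi Ex
  simp only [Finset.mul_sum]
  rw [Finset.sum_comm, Finset.sum_div]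
  apply Finset.sum_congr rfl
  intro T _
  rw [← mul_div_assoc, Finset.mul_sum]
  congr 1
  apply Finset.sum_congr rfl
  intro ω _
  ring

end LOC_

open LOC_ in
theorem p_LOC (hC : T_CYL) : T_LOC := by
  classical
  intro d p q F
  refine ⟨?_, ?_⟩
  · intro μ hμ f
    haveI := hμ.prob
    have hm : ∀ T : Finset (Ed d), MeasurableSet (Cyl F T) := (hC d).1 F
    have hI : ∀ T : Finset (Ed d),
        Integrable ((Cyl F T).indicator (fun _ => (1 : ℝ))) μ := by
      intro T
      exact (integrable_const (1 : ℝ)).indicator (hm T)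
    have hf : (fun ω => f (rs F (cfg ω))) =
        fun ω => ∑ T ∈ F.powerset, f T * (Cyl F T).indicator (fun _ => (1 : ℝ)) ω := by
      funext ω
      exact exp2 F f ω
    refine ⟨?_, ?_⟩
    · have h1 : (fun n : ℕ => phi (0 : Vx d) n p q fun ω => f (ω ∩ F)) =
          fun n : ℕ => ∑ T ∈ F.powerset,
            f T * phi (0 : Vx d) n p q (fun ω => if ω ∩ F = T then 1 else 0) := by
        funext n
        rw [← phi_lin]
        congr 1
        funext ω
        exact exp1 F f ω
      have h2 : (∫ ω, f (rs F (cfg ω)) ∂μ) = ∑ T ∈ F.powerset, f T * μ.real (Cyl F T) := by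
        rw [hf, integral_finset_sum]
        · apply Finset.sum_congr rfl
          intro T _
          rw [integral_const_mul]
          congr 1
          have h3 := integral_indicator_one (μ := μ) (hm T)
          exact h3
        · intro T _
          exact (hI T).const_mul _
      rw [h1, h2]
      apply tendsto_finset_sum
      intro T hT
      exact (hμ.lim F T (Finset.mem_powerset.mp hT)).const_mul (f T)
    · rw [hf]
      apply integrable_finset_sum
      intro T _
      exact (hI T).const_mul _
  · intro P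
    have h1 : {ω : Ed d → Bool | P (rs F (cfg ω))} =
        ⋃ T ∈ F.powerset.filter P, Cyl F T := by
      ext ω
      simp only [Set.mem_iUnion, Finset.mem_filter, Finset.mem_powerset]
      constructor
      · intro h
        exact ⟨rs F (cfg ω), ⟨rs_sub F _, h⟩, (rs_eq_iff F _ (rs_sub F _) ω).mp rfl⟩
      · rintro ⟨T, ⟨hT, hP⟩, h⟩
        have h2 := (rs_eq_iff F T hT ω).mpr h
        show P (rs F (cfg ω))
        rw [h2]
        exact hP
    rw [h1]
    exact Finset.measurableSet_biUnion _ fun T _ => (hC d).1 F T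

end Pool.Agent.FKT
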