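import Pool.Agent.FKT.TargetsB
import Pool.Agent.FKT.P_FKG
import Pool.Agent.FKT.P_LOC
import Pool.Agent.FKT.P_LIM

/-!
# FKT: MAR, finite marginals of the wired measure
-/

set_option autoImplicit false

namespace Pool.Agent.FKT

open Filter MeasureTheory
open scoped FinsetFamily

namespace MAR_

section gen

variable {V E : Type} [DecidableEq E] (s t : E → V) (R : V → V → Prop) (U : Finset V)
  (G : Finset E) (p q : ℝ)

/-- The weight of the configurations with the trace `T` on `F`. -/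
noncomputable def MM (F T : Finset E) : ℝ :=
  ∑ ω ∈ G.powerset, wt s t R U G p q ω * (if ω ∩ F = T then 1 else 0)

theorem MM_eq (F T : Finset E) : MM s t R U G p q F T =
    ∑ ω ∈ G.powerset.filter (fun ω => ω ∩ F = T), wt s t R U G p q ω := by
  unfold MM
  rw [Finset.sum_filter]
  refine Finset.sum_congr rfl fun ω _ => ?_
  by_cases h : ω ∩ F = T
  · rw [if_pos h, if_pos h, mul_one]
  · rw [if_neg h, if_neg h, mul_zero]

theorem sup (hA : T_ADD) {p q : ℝ} (h0 : 0 < p) (h1 : p < 1) (hq : 1 ≤ q)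
    (hG : ∀ e ∈ G, s e ∈ U ∧ t e ∈ U) (F A B : Finset E) :
    MM s t R U G p q F A * MM s t R U G p q F B ≤
      MM s t R U G p q F (A ∩ B) * MM s t R U G p q F (A ∪ B) := by
  classical
  set w : Finset E → ℝ := fun a => if a ⊆ G then wt s t R U G p q a else 0 with hw
  have hw0 : ∀ a, 0 ≤ w a := by
    intro a
    by_cases ha : a ⊆ G
    · simp only [hw, if_pos ha]; exact (FKG_.wt_pos s t R U G h0 h1 hq a).le
    · simp only [hw, if_neg ha]; exact le_refl _
  have hwa : ∀ a, a ⊆ G → w a = wt s t R U G p q a := fun a ha => by simp only [hw, if_pos ha]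
  have hi0 : ∀ a T : Finset E, (0 : ℝ) ≤ (if a ∩ F = T then 1 else 0) := by
    intro a T
    by_cases h : a ∩ F = T
    · rw [if_pos h]; exact zero_le_one
    · rw [if_neg h]
  have key := four_functions_theorem (α := Finset E) (β := ℝ)
    (f₁ := fun a => w a * (if a ∩ F = A then 1 else 0))
    (f₂ := fun a => w a * (if a ∩ F = B then 1 else 0))
    (f₃ := fun a => w a * (if a ∩ F = A ∩ B then 1 else 0))
    (f₄ := fun a => w a * (if a ∩ F = A ∪ B then 1 else 0))
    (fun a => mul_nonneg (hw0 a) (hi0 a _)) (fun a => mul_nonneg (hw0 a) (hi0 a _))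
    (fun a => mul_nonneg (hw0 a) (hi0 a _)) (fun a => mul_nonneg (hw0 a) (hi0 a _)) ?_
    G.powerset G.powerset
  · have e1 : G.powerset ⊼ G.powerset = G.powerset := by
      ext a
      rw [Finset.mem_infs, Finset.mem_powerset]
      constructor
      · rintro ⟨b, hb, c, _, rfl⟩
        exact Finset.inter_subset_left.trans (Finset.mem_powerset.1 hb)
      · intro ha
        exact ⟨a, Finset.mem_powerset.2 ha, a, Finset.mem_powerset.2 ha, inf_idem _⟩
    have e2 : G.powerset ⊻ G.powerset = G.powerset := by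
      ext a
      rw [Finset.mem_sups, Finset.mem_powerset]
      constructor
      · rintro ⟨b, hb, c, hc, rfl⟩
        exact Finset.union_subset (Finset.mem_powerset.1 hb) (Finset.mem_powerset.1 hc)
      · intro ha
        exact ⟨a, Finset.mem_powerset.2 ha, a, Finset.mem_powerset.2 ha, sup_idem _⟩
    rw [e1, e2] at key
    have c1 : ∀ T : Finset E, ∑ a ∈ G.powerset, w a * (if a ∩ F = T then (1 : ℝ) else 0) =
        MM s t R U G p q F T :=
      fun T => Finset.sum_congr rfl fun a ha => by rw [hwa a (Finset.mem_powerset.1 ha)]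
    rw [c1, c1, c1, c1] at key
    exact key
  · intro a b
    show w a * (if a ∩ F = A then 1 else 0) * (w b * (if b ∩ F = B then 1 else 0)) ≤
      w (a ∩ b) * (if (a ∩ b) ∩ F = A ∩ B then 1 else 0) *
        (w (a ∪ b) * (if (a ∪ b) ∩ F = A ∪ B then 1 else 0))
    have hr0 : 0 ≤ w (a ∩ b) * (if (a ∩ b) ∩ F = A ∩ B then 1 else 0) *
        (w (a ∪ b) * (if (a ∪ b) ∩ F = A ∪ B then 1 else 0)) :=
      mul_nonneg (mul_nonneg (hw0 _) (hi0 _ _)) (mul_nonneg (hw0 _) (hi0 _ _))
    by_cases ha : a ⊆ G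
    · by_cases hb : b ⊆ G
      · by_cases hA' : a ∩ F = A
        · by_cases hB' : b ∩ F = B
          · have e1 : (a ∩ b) ∩ F = A ∩ B := by
              rw [← hA', ← hB']
              ext x
              simp only [Finset.mem_inter]
              tauto
            have e2 : (a ∪ b) ∩ F = A ∪ B := by
              rw [← hA', ← hB', Finset.union_inter_distrib_right]
            rw [if_pos hA', if_pos hB', if_pos e1, if_pos e2, mul_one, mul_one, mul_one, mul_one,
              hwa a ha, hwa b hb, hwa (a ∩ b) (Finset.inter_subset_left.trans ha),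
              hwa (a ∪ b) (Finset.union_subset ha hb)]
            exact FKG_.wt_mul hA s t R U G h0 h1 hq hG ha hb
          · rw [if_neg hB', mul_zero, mul_zero]
            exact hr0
        · rw [if_neg hA', mul_zero, zero_mul]
          exact hr0
      · have : w b = 0 := by simp only [hw, if_neg hb]
        rw [this, zero_mul, mul_zero]
        exact hr0
    · have : w a = 0 := by simp only [hw, if_neg ha]
      rw [this, zero_mul, zero_mul]
      exact hr0

/-- The configurations with one more edge in the trace. -/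
theorem MM_insert (F T : Finset E) (e : E) (heG : e ∈ G) (heF : e ∈ F) (heT : e ∉ T) :
    MM s t R U G p q F (insert e T) =
      ∑ ω ∈ G.powerset.filter (fun ω => ω ∩ F = T), wt s t R U G p q (insert e ω) := by
  rw [MM_eq]
  symm
  refine Finset.sum_bij' (fun ω _ => insert e ω) (fun ω _ => ω.erase e) ?_ ?_ ?_ ?_ ?_
  · intro ω hω
    rw [Finset.mem_filter, Finset.mem_powerset] at hω ⊢
    refine ⟨Finset.insert_subset heG hω.1, ?_⟩
    rw [Finset.insert_inter_of_mem heF, hω.2]
  · intro ω hω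
    rw [Finset.mem_filter, Finset.mem_powerset] at hω ⊢
    refine ⟨(Finset.erase_subset _ _).trans hω.1, ?_⟩
    rw [Finset.erase_inter, hω.2, Finset.erase_insert heT]
  · intro ω hω
    rw [Finset.mem_filter, Finset.mem_powerset] at hω
    refine Finset.erase_insert ?_
    intro h
    apply heT
    rw [← hω.2]
    exact Finset.mem_inter.2 ⟨h, heF⟩
  · intro ω hω
    rw [Finset.mem_filter, Finset.mem_powerset] at hω
    refine Finset.insert_erase ?_
    have h1 : e ∈ ω ∩ F := by
      rw [hω.2]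
      exact Finset.mem_insert_self _ _
    exact (Finset.mem_inter.1 h1).1
  · intro ω _
    rfl

/-- The ratio of the weights. -/
theorem ratio (hA : T_ADD) {p q c : ℝ} (h0 : 0 < p) (h1 : p < 1) (hq : 1 ≤ q) (hc : 0 < c)
    (hc1 : c ≤ p / (p + q * (1 - p))) (hc2 : c ≤ 1 - p)
    (hG : ∀ e ∈ G, s e ∈ U ∧ t e ∈ U) (e : E) (heG : e ∈ G) (ω : Finset E) (hω : ω ⊆ G)
    (heω : e ∉ ω) :
    c * wt s t R U G p q ω ≤ (1 - c) * wt s t R U G p q (insert e ω) ∧
      c * wt s t R U G p q (insert e ω) ≤ (1 - c) * wt s t R U G p q ω := by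
  have hp1 : 0 < 1 - p := by linarith
  have hq0 : 0 < q := by linarith
  have hden : 0 < p + q * (1 - p) := by positivity
  have hc3 : c * (p + q * (1 - p)) ≤ p := by
    rw [le_div_iff₀ hden] at hc1
    exact hc1
  have hqp : (1 - p) ≤ q * (1 - p) := by nlinarith
  have hc4 : c ≤ p := by nlinarith
  have hcard : (insert e ω).card = ω.card + 1 := Finset.card_insert_of_notMem heω
  have hle : ω.card + 1 ≤ G.card := by
    rw [← hcard]
    exact Finset.card_le_card (Finset.insert_subset heG hω)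
  obtain ⟨k, hk⟩ : ∃ k, G.card = ω.card + 1 + k := ⟨G.card - (ω.card + 1), by omega⟩
  have hb : (1 - p) * bw p G (insert e ω) = p * bw p G ω := by
    unfold bw
    rw [hcard, hk, show ω.card + 1 + k - (ω.card + 1) = k by omega,
      show ω.card + 1 + k - ω.card = k + 1 by omega, pow_succ, pow_succ]
    ring
  have hbp : 0 < bw p G ω := FKG_.bw_pos h0 h1 G ω
  have hbq : bw p G (insert e ω) = p * bw p G ω / (1 - p) := by
    rw [← hb]
    field_simp
  have hcoe : ((insert e ω : Finset E) : Set E) = insert e (ω : Set E) := Finset.coe_insert _ _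
  obtain ⟨hs, ht⟩ := hG e heG
  obtain ⟨hA1, hA2⟩ := (hA V E s t R U).1 (ω : Set E) e hs ht
  unfold wt
  rw [hcoe]
  by_cases hcon : Con s t R (ω : Set E) (s e) (t e)
  · rw [hA1 hcon, hbq]
    set Q := q ^ ncl s t R U (ω : Set E) with hQ
    have hQ0 : 0 < Q := pow_pos hq0 _
    have hW : 0 < bw p G ω * Q := mul_pos hbp hQ0
    constructor
    · rw [show (1 - c) * (p * bw p G ω / (1 - p) * Q) =
        ((1 - c) * p * (bw p G ω * Q)) / (1 - p) by ring, le_div_iff₀ hp1]
      nlinarith
    · rw [show c * (p * bw p G ω / (1 - p) * Q) =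
        (c * p * (bw p G ω * Q)) / (1 - p) by ring, div_le_iff₀ hp1]
      nlinarith
  · have hn := hA2 hcon
    rw [← hn, pow_succ, hbq]
    set Q := q ^ ncl s t R U (insert e (ω : Set E)) with hQ
    have hQ0 : 0 < Q := pow_pos hq0 _
    have hW : 0 < bw p G ω * Q := mul_pos hbp hQ0
    constructor
    · rw [show (1 - c) * (p * bw p G ω / (1 - p) * Q) =
        ((1 - c) * p * (bw p G ω * Q)) / (1 - p) by ring, le_div_iff₀ hp1]
      have h3 : c * (q * (1 - p)) ≤ (1 - c) * p := by linarith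
      have h4 := mul_le_mul_of_nonneg_right h3 hW.le
      nlinarith
    · rw [show c * (p * bw p G ω / (1 - p) * Q) =
        (c * p * (bw p G ω * Q)) / (1 - p) by ring, div_le_iff₀ hp1]
      have h3 : c * p ≤ (1 - c) * (q * (1 - p)) := by
        have h5 : c * p ≤ (1 - c) * (1 - p) := by linarith
        have h6 : 0 ≤ 1 - c := by linarith
        exact h5.trans (mul_le_mul_of_nonneg_left hqp h6)
      have h4 := mul_le_mul_of_nonneg_right h3 hW.le
      nlinarith

theorem energy (hA : T_ADD) {p q c : ℝ} (h0 : 0 < p) (h1 : p < 1) (hq : 1 ≤ q) (hc : 0 < c)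
    (hc1 : c ≤ p / (p + q * (1 - p))) (hc2 : c ≤ 1 - p)
    (hG : ∀ e ∈ G, s e ∈ U ∧ t e ∈ U) (F T : Finset E) (e : E) (heG : e ∈ G) (heF : e ∈ F)
    (heT : e ∉ T) :
    c * MM s t R U G p q F T ≤ (1 - c) * MM s t R U G p q F (insert e T) ∧
      c * MM s t R U G p q F (insert e T) ≤ (1 - c) * MM s t R U G p q F T := by
  have hm : ∀ ω ∈ G.powerset.filter (fun ω => ω ∩ F = T), ω ⊆ G ∧ e ∉ ω := by
    intro ω hω
    rw [Finset.mem_filter, Finset.mem_powerset] at hω
    refine ⟨hω.1, fun h => heT ?_⟩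
    rw [← hω.2]
    exact Finset.mem_inter.2 ⟨h, heF⟩
  rw [MM_insert s t R U G p q F T e heG heF heT, MM_eq, Finset.mul_sum, Finset.mul_sum,
    Finset.mul_sum, Finset.mul_sum]
  constructor
  · exact Finset.sum_le_sum fun ω hω =>
      (ratio s t R U G hA h0 h1 hq hc hc1 hc2 hG e heG ω (hm ω hω).1 (hm ω hω).2).1
  · exact Finset.sum_le_sum fun ω hω =>
      (ratio s t R U G hA h0 h1 hq hc hc1 hc2 hG e heG ω (hm ω hω).1 (hm ω hω).2).2

end gen

theorem eb_ends {d : ℕ} (x : Vx d) (n : ℕ) : ∀ e ∈ eb x n, e.1 ∈ bx x n ∧ tgt e ∈ bx x n := by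
  intro e he
  unfold eb at he
  rw [Finset.mem_filter, Finset.mem_product] at he
  exact ⟨he.1.1, he.2⟩

theorem phi_eq {d : ℕ} (n : ℕ) (p q : ℝ) (F T : Finset (Ed d)) :
    (phi (0 : Vx d) n p q fun ω => if ω ∩ F = T then 1 else 0) =
      MM Prod.fst tgt (Wir (0 : Vx d) n) (bx 0 n) (eb 0 n) p q F T /
        ∑ ω ∈ (eb (0 : Vx d) n).powerset,
          wt Prod.fst tgt (Wir (0 : Vx d) n) (bx 0 n) (eb 0 n) p q ω := rfl

theorem tot_pos {d : ℕ} (n : ℕ) {p q : ℝ} (h0 : 0 < p) (h1 : p < 1) (hq : 1 ≤ q) :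
    0 < ∑ ω ∈ (eb (0 : Vx d) n).powerset,
      wt Prod.fst tgt (Wir (0 : Vx d) n) (bx 0 n) (eb 0 n) p q ω :=
  Finset.sum_pos (fun ω _ => FKG_.wt_pos _ _ _ _ _ h0 h1 hq ω) (Finset.powerset_nonempty _)

theorem phi_tot {d : ℕ} (n : ℕ) {p q : ℝ} (h0 : 0 < p) (h1 : p < 1) (hq : 1 ≤ q)
    (F : Finset (Ed d)) :
    ∑ T ∈ F.powerset, (phi (0 : Vx d) n p q fun ω => if ω ∩ F = T then 1 else 0) = 1 := by
  have h2 := LOC_.phi_lin (0 : Vx d) n p q F.powerset (fun _ => 1)
    (fun T ω => if ω ∩ F = T then 1 else 0)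
  simp only [one_mul] at h2
  rw [← h2]
  have h3 : (fun ω : Finset (Ed d) => ∑ T ∈ F.powerset, if ω ∩ F = T then (1 : ℝ) else 0) =
      fun _ => 1 := by
    funext ω
    have h4 := LOC_.exp1 F (fun _ => (1 : ℝ)) ω
    simp only [one_mul] at h4
    exact h4.symm
  rw [h3]
  unfold phi Ex
  simp only [mul_one]
  exact div_self (tot_pos n h0 h1 hq).ne'

end MAR_

open MAR_ in
/-- MAR. -/
theorem p_MAR (hA : T_ADD) : T_MAR := by
  intro d p q c h0 h1 hq hc hc1 hc2 μ hμ F
  have hc5 : 0 < 1 - c := by linarith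
  have hEn : ∀ e ∈ F, ∀ T, T ⊆ F → e ∉ T →
      c * μ.real (Cyl F T) ≤ (1 - c) * μ.real (Cyl F (insert e T)) ∧
      c * μ.real (Cyl F (insert e T)) ≤ (1 - c) * μ.real (Cyl F T) := by
    intro e heF T hT heT
    have hT' : insert e T ⊆ F := Finset.insert_subset heF hT
    have hl1 := hμ.lim F T hT
    have hl2 := hμ.lim F (insert e T) hT'
    obtain ⟨n₀, hn₀⟩ := LIM_.sub_eb (0 : Vx d) F
    have hev : ∀ n, n₀ ≤ n →
        c * (phi (0 : Vx d) n p q fun ω => if ω ∩ F = T then 1 else 0) ≤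
          (1 - c) * (phi (0 : Vx d) n p q fun ω => if ω ∩ F = insert e T then 1 else 0) ∧
        c * (phi (0 : Vx d) n p q fun ω => if ω ∩ F = insert e T then 1 else 0) ≤
          (1 - c) * (phi (0 : Vx d) n p q fun ω => if ω ∩ F = T then 1 else 0) := by
      intro n hn
      have h3 := energy Prod.fst tgt (Wir (0 : Vx d) n) (bx 0 n) (eb 0 n) hA h0 h1 hq hc hc1 hc2
        (eb_ends 0 n) F T e (hn₀ n hn heF) heF heT
      have hZ := tot_pos (d := d) n h0 h1 hq
      rw [phi_eq, phi_eq, ← mul_div_assoc, ← mul_div_assoc, ← mul_div_assoc, ← mul_div_assoc]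
      exact ⟨div_le_div_of_nonneg_right h3.1 hZ.le, div_le_div_of_nonneg_right h3.2 hZ.le⟩
    constructor
    · exact le_of_tendsto_of_tendsto (hl1.const_mul c) (hl2.const_mul (1 - c))
        (eventually_atTop.2 ⟨n₀, fun n hn => (hev n hn).1⟩)
    · exact le_of_tendsto_of_tendsto (hl2.const_mul c) (hl1.const_mul (1 - c))
        (eventually_atTop.2 ⟨n₀, fun n hn => (hev n hn).2⟩)
  have hTot : ∑ T ∈ F.powerset, μ.real (Cyl F T) = 1 := by
    have h3 : Tendsto (fun n : ℕ => ∑ T ∈ F.powerset,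
        (phi (0 : Vx d) n p q fun ω => if ω ∩ F = T then 1 else 0)) atTop
        (nhds (∑ T ∈ F.powerset, μ.real (Cyl F T))) :=
      tendsto_finsetSum _ fun T hT => hμ.lim F T (Finset.mem_powerset.1 hT)
    have h4 : (fun n : ℕ => ∑ T ∈ F.powerset,
        (phi (0 : Vx d) n p q fun ω => if ω ∩ F = T then 1 else 0)) = fun _ => 1 := by
      funext n
      exact phi_tot n h0 h1 hq F
    rw [h4] at h3
    exact tendsto_nhds_unique h3 tendsto_const_nhds
  refine ⟨?_, hEn, ?_, hTot⟩
  · intro a b ha hb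
    have hl1 := hμ.lim F a ha
    have hl2 := hμ.lim F b hb
    have hl3 := hμ.lim F (a ∩ b) (Finset.inter_subset_left.trans ha)
    have hl4 := hμ.lim F (a ∪ b) (Finset.union_subset ha hb)
    refine le_of_tendsto_of_tendsto (hl1.mul hl2) (hl3.mul hl4) (Eventually.of_forall fun n => ?_)
    have h3 := sup Prod.fst tgt (Wir (0 : Vx d) n) (bx 0 n) (eb 0 n) hA h0 h1 hq
      (eb_ends 0 n) F a b
    have hZ := tot_pos (d := d) n h0 h1 hq
    show (phi (0 : Vx d) n p q fun ω => if ω ∩ F = a then 1 else 0) *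
      (phi (0 : Vx d) n p q fun ω => if ω ∩ F = b then 1 else 0) ≤
      (phi (0 : Vx d) n p q fun ω => if ω ∩ F = a ∩ b then 1 else 0) *
      (phi (0 : Vx d) n p q fun ω => if ω ∩ F = a ∪ b then 1 else 0)
    rw [phi_eq, phi_eq, phi_eq, phi_eq, div_mul_div_comm, div_mul_div_comm]
    exact div_le_div_of_nonneg_right h3 (mul_pos hZ hZ).le
  · have hstep : ∀ e ∈ F, ∀ T, T ⊆ F → e ∉ T →
        (0 < μ.real (Cyl F T) ↔ 0 < μ.real (Cyl F (insert e T))) := by
      intro e he T hT heT
      obtain ⟨h3, h4⟩ := hEn e he T hT heT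
      constructor
      · intro h5
        have h6 : 0 < (1 - c) * μ.real (Cyl F (insert e T)) :=
          lt_of_lt_of_le (mul_pos hc h5) h3
        exact (mul_pos_iff_of_pos_left hc5).1 h6
      · intro h5
        have h6 : 0 < (1 - c) * μ.real (Cyl F T) := lt_of_lt_of_le (mul_pos hc h5) h4
        exact (mul_pos_iff_of_pos_left hc5).1 h6
    have hall : ∀ T : Finset (Ed d), T ⊆ F →
        (0 < μ.real (Cyl F ∅) ↔ 0 < μ.real (Cyl F T)) := by
      intro T
      induction T using Finset.induction_on with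
      | empty => exact fun _ => Iff.rfl
      | insert e T heT ih =>
        intro hT
        have h3 : T ⊆ F := (Finset.subset_insert e T).trans hT
        exact (ih h3).trans (hstep e (hT (Finset.mem_insert_self e T)) T h3 heT)
    have hex : ∃ T ∈ F.powerset, 0 < μ.real (Cyl F T) := by
      by_contra hno
      push Not at hno
      have h3 := Finset.sum_nonpos hno
      rw [hTot] at h3
      linarith
    obtain ⟨T0, hT0, hpos⟩ := hex
    intro T hT
    exact (hall T hT).1 ((hall T0 (Finset.mem_powerset.1 hT0)).2 hpos)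

end Pool.Agent.FKT
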