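import Pool.Agent.FKT.TargetsB

/-!
# FKT: target MOP, monotonicity in `p` and nonnegative covariances
-/

set_option autoImplicit false

namespace Pool.Agent.FKT

open Filter MeasureTheory

namespace MOP_

theorem ind_nonneg (P : Prop) : 0 ≤ ind P := by
  classical
  unfold ind
  split_ifs <;> norm_num

theorem ind_mono {P Q : Prop} (h : P → Q) : ind P ≤ ind Q := by
  classical
  unfold ind
  by_cases hP : P
  · rw [if_pos hP, if_pos (h hP)]
  · rw [if_neg hP]
    split_ifs <;> norm_num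

theorem ind_and (P Q : Prop) : ind P * ind Q = ind (P ∧ Q) := by
  classical
  unfold ind
  by_cases hP : P <;> by_cases hQ : Q <;> simp [hP, hQ]

theorem int_ind {d : ℕ} (μ : Measure (Ed d → Bool)) {A : Set (Ed d → Bool)}
    (hA : MeasurableSet A) : ∫ ω, ind (ω ∈ A) ∂μ = μ.real A := by
  classical
  rw [← integral_indicator_one hA]
  refine integral_congr_ae (Filter.Eventually.of_forall fun ω => ?_)
  unfold ind
  by_cases h : ω ∈ A
  · simp [h]
  · simp [h]

theorem mem_rs {d : ℕ} {F : Finset (Ed d)} {O : Set (Ed d)} {x : Ed d} :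
    x ∈ rs F O ↔ x ∈ F ∧ x ∈ O := by
  classical
  unfold rs
  exact Finset.mem_filter

theorem eb_ends {d : ℕ} (x : Vx d) (n : ℕ) : ∀ e ∈ eb x n, Prod.fst e ∈ bx x n ∧
    tgt e ∈ bx x n := by
  intro e he
  unfold eb at he
  rw [Finset.mem_filter, Finset.mem_product] at he
  exact ⟨he.1.1, he.2⟩

theorem mem_bx {d : ℕ} (v : Vx d) : ∃ N0 : ℕ, ∀ n : ℕ, N0 ≤ n → v ∈ bx (0 : Vx d) n := by
  refine ⟨∑ i, (v i).natAbs, fun n hn => ?_⟩
  unfold bx
  rw [Finset.mem_Icc, Pi.le_def, Pi.le_def]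
  have h : ∀ i, (v i).natAbs ≤ n := fun i =>
    (Finset.single_le_sum (f := fun i => (v i).natAbs) (fun _ _ => Nat.zero_le _)
      (Finset.mem_univ i)).trans hn
  constructor
  · intro i
    have := h i
    simp only [Pi.zero_apply]
    omega
  · intro i
    have := h i
    simp only [Pi.zero_apply]
    omega

theorem mem_eb {d : ℕ} (e : Ed d) : ∃ N0 : ℕ, ∀ n : ℕ, N0 ≤ n → e ∈ eb (0 : Vx d) n := by
  obtain ⟨N1, h1⟩ := mem_bx e.1
  obtain ⟨N2, h2⟩ := mem_bx (tgt e)
  refine ⟨max N1 N2, fun n hn => ?_⟩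
  unfold eb
  rw [Finset.mem_filter, Finset.mem_product]
  exact ⟨⟨h1 n ((le_max_left _ _).trans hn), Finset.mem_univ _⟩,
    h2 n ((le_max_right _ _).trans hn)⟩

theorem mono {d : ℕ} (h_DER : T_DER) {p p' q : ℝ} (hp : 0 < p) (hpp : p ≤ p') (hp' : p' < 1)
    (hq : 1 ≤ q) (n : ℕ) (f : Finset (Ed d) → ℝ) (hf : ∀ a b, a ⊆ b → f a ≤ f b) :
    phi (0 : Vx d) n p q f ≤ phi (0 : Vx d) n p' q f := by
  have key : ∀ x : ℝ, 0 < x → x < 1 →
      DifferentiableAt ℝ (fun x => phi (0 : Vx d) n x q f) x ∧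
        0 ≤ deriv (fun x => phi (0 : Vx d) n x q f) x := by
    intro x hx0 hx1
    obtain ⟨h1, h2⟩ := h_DER (Vx d) (Ed d) Prod.fst tgt (Wir (0 : Vx d) n) (bx (0 : Vx d) n)
      (eb (0 : Vx d) n) q hq (eb_ends _ _) f x hx0 hx1
    refine ⟨h1, ?_⟩
    have h3 := (h2 hf).2 ∅ (Finset.empty_subset _)
    rw [Finset.sum_empty] at h3
    exact h3
  have hmon : MonotoneOn (fun x => phi (0 : Vx d) n x q f) (Set.Icc p p') := by
    refine monotoneOn_of_deriv_nonneg (convex_Icc p p') ?_ ?_ ?_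
    · intro x hx
      exact (key x (by linarith [hx.1]) (by linarith [hx.2])).1.continuousAt.continuousWithinAt
    · intro x hx
      rw [interior_Icc] at hx
      exact (key x (by linarith [hx.1]) (by linarith [hx.2])).1.differentiableWithinAt
    · intro x hx
      rw [interior_Icc] at hx
      exact (key x (by linarith [hx.1]) (by linarith [hx.2])).2
  exact hmon (Set.left_mem_Icc.2 hpp) (Set.right_mem_Icc.2 hpp) hpp

end MOP_

open MOP_ in
theorem p_MOP (h_DER : T_DER) (h_LOC : T_LOC) : T_MOP := by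
  intro d p p' q hp hpp hp' hq μ μ' hμ hμ' F P hP
  have hlim : ∀ (r : ℝ) (ν : Measure (Ed d → Bool)), IsWired d r q ν →
      Tendsto (fun n : ℕ => phi (0 : Vx d) n r q fun ω => ind (P (ω ∩ F))) atTop
        (nhds (ν.real {ω | P (rs F (cfg ω))})) := by
    intro r ν hν
    have h1 := ((h_LOC d r q F).1 ν hν fun T => ind (P T)).1
    have h2 := int_ind ν ((h_LOC d r q F).2 P)
    simp only [Set.mem_ofPred_eq] at h2
    rw [h2] at h1
    exact h1
  have hinc : ∀ a b : Finset (Ed d), a ⊆ b → ind (P (a ∩ F)) ≤ ind (P (b ∩ F)) :=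
    fun a b hab => ind_mono (hP _ _ (Finset.inter_subset_inter_right hab))
  refine ⟨?_, fun e => ?_⟩
  · exact le_of_tendsto_of_tendsto' (hlim p μ hμ) (hlim p' μ' hμ')
      fun n => mono h_DER hp hpp hp' hq n _ hinc
  · have hp1 : p < 1 := lt_of_le_of_lt hpp hp'
    set F' : Finset (Ed d) := insert e F with hF'
    have hFF : ∀ T : Finset (Ed d), T ∩ F' ∩ F = T ∩ F := by
      intro T
      rw [Finset.inter_assoc, Finset.inter_eq_right.2 (Finset.subset_insert e F)]
    have heF : ∀ T : Finset (Ed d), e ∈ T ∩ F' ↔ e ∈ T := by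
      intro T
      rw [Finset.mem_inter]
      exact ⟨fun h => h.1, fun h => ⟨h, Finset.mem_insert_self e F⟩⟩
    have hrs : ∀ ω : Ed d → Bool, rs F' (cfg ω) ∩ F = rs F (cfg ω) := by
      intro ω
      ext x
      rw [Finset.mem_inter, mem_rs, mem_rs]
      constructor
      · rintro ⟨⟨-, h1⟩, h2⟩
        exact ⟨h2, h1⟩
      · rintro ⟨h1, h2⟩
        exact ⟨⟨Finset.mem_insert_of_mem h1, h2⟩, h1⟩
    have hrse : ∀ ω : Ed d → Bool, e ∈ rs F' (cfg ω) ↔ ω e = true := by
      intro ω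
      rw [mem_rs]
      exact ⟨fun h => h.2, fun h => ⟨Finset.mem_insert_self e F, h⟩⟩
    -- the limit of the mixed term
    have l1 : Tendsto (fun n : ℕ => phi (0 : Vx d) n p q
        fun ω => ind (P (ω ∩ F)) * ind (e ∈ ω)) atTop
        (nhds (μ.real ({ω | P (rs F (cfg ω))} ∩ {ω | ω e = true}))) := by
      have h1 := ((h_LOC d p q F').1 μ hμ fun T => ind (P (T ∩ F) ∧ e ∈ T)).1
      have h2 := int_ind μ ((h_LOC d p q F').2 fun T => P (T ∩ F) ∧ e ∈ T)
      simp only [Set.mem_ofPred_eq] at h2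
      rw [h2] at h1
      simp only [hFF, heF, hrs, hrse] at h1
      simp only [ind_and]
      exact h1
    have l2 : Tendsto (fun n : ℕ => phi (0 : Vx d) n p q fun ω => ind (e ∈ ω)) atTop
        (nhds (μ.real {ω | ω e = true})) := by
      have h1 := ((h_LOC d p q F').1 μ hμ fun T => ind (e ∈ T)).1
      have h2 := int_ind μ ((h_LOC d p q F').2 fun T => e ∈ T)
      simp only [Set.mem_ofPred_eq] at h2
      rw [h2] at h1
      simp only [heF, hrse] at h1
      exact h1
    have l3 := l1.sub ((hlim p μ hμ).mul l2)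
    refine ge_of_tendsto l3 ?_
    obtain ⟨N0, hN0⟩ := mem_eb e
    filter_upwards [eventually_ge_atTop N0] with n hn
    exact ((h_DER (Vx d) (Ed d) Prod.fst tgt (Wir (0 : Vx d) n) (bx (0 : Vx d) n)
      (eb (0 : Vx d) n) q hq (eb_ends _ _) (fun ω => ind (P (ω ∩ F))) p hp hp1).2 hinc).1 e
        (hN0 n hn)

end Pool.Agent.FKT
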