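import Pool.Agent.FKT.TargetsB

set_option autoImplicit false

namespace Pool.Agent.FKT

open Filter Topology

theorem t_nuc : T_NUC := by
  intro d hd M C0 C1 c hM hC0 hC1 hc
  have hd0 : (0 : ℝ) < d := by exact_mod_cast hd
  have hd1 : (1 : ℝ) ≤ d := by exact_mod_cast hd
  set a : ℝ := 1 / (2 * d) with ha
  have ha0 : 0 < a := by rw [ha]; positivity
  have ha1 : a ≤ 1 := by
    rw [ha, div_le_one (by positivity)]
    linarith
  set c' : ℝ := c * a with hc'
  have hc'0 : 0 < c' := by positivity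
  set B : ℝ := d * 3 ^ d with hB
  have hB0 : 0 < B := by positivity
  have hlM : 0 ≤ Real.log M := Real.log_nonneg hM
  set K : ℝ := B * (1 + Real.log M) with hK
  have hK0 : 0 < K := by positivity
  -- the choice of `L0`
  have e1 : ∀ᶠ L : ℝ in atTop, (1 : ℝ) ≤ L := eventually_ge_atTop 1
  have e2 : ∀ᶠ L : ℝ in atTop, (2 : ℝ) ≤ L ^ a :=
    (tendsto_rpow_atTop ha0).eventually_ge_atTop 2
  have e3 : ∀ᶠ L : ℝ in atTop, 4 * K ≤ Real.sqrt L :=
    Real.tendsto_sqrt_atTop.eventually_ge_atTop _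
  have e4 : ∀ᶠ L : ℝ in atTop,
      (C0 * Real.sqrt 2) * (L ^ (c' + 1 / 2) * Real.exp (-(1 / 4) * L)) ≤ 1 := by
    have h := tendsto_rpow_mul_exp_neg_mul_atTop_nhds_zero (c' + 1 / 2) (1 / 4) (by norm_num)
    have h2 := h.const_mul (C0 * Real.sqrt 2)
    rw [mul_zero] at h2
    exact (h2.eventually (eventually_le_nhds (by norm_num : (0 : ℝ) < 1)))
  obtain ⟨L0, hL0⟩ := eventually_atTop.mp (e1.and (e2.and (e3.and e4)))
  have hL0' := hL0 L0 le_rfl
  have hL01 : 1 ≤ L0 := hL0'.1
  refine ⟨c', max (C1 * 2 ^ c + 1) (L0 ^ c'), hc'0, ?_⟩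
  intro n hn
  have hn2 : (2 : ℝ) ≤ n := by exact_mod_cast hn
  have hn0 : (0 : ℝ) < n := by linarith
  set L := Real.log n with hL
  have hLpos : 0 < L := Real.log_pos (by linarith)
  have hLc : 0 < L ^ c' := Real.rpow_pos_of_pos hLpos _
  rcases le_or_gt L0 L with hbig | hsmall
  · left
    obtain ⟨h1, h2, h3, h4⟩ := hL0 L hbig
    set x : ℝ := L ^ a with hx
    have hx0 : 0 < x := by linarith
    set r := ⌊x⌋₊ with hr
    have hrx : (r : ℝ) ≤ x := Nat.floor_le hx0.le
    have hrx' : x < r + 1 := Nat.lt_floor_add_one x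
    have hr2 : x / 2 ≤ r := by linarith
    have hr1 : 1 ≤ r := by
      have : (1 : ℝ) ≤ r := by linarith
      exact_mod_cast this
    have hr1' : (1 : ℝ) ≤ r := by exact_mod_cast hr1
    have hrpos : (0 : ℝ) < r := by linarith
    -- `r ≤ L ≤ n / 2`
    have hxL : x ≤ L := by
      calc x = L ^ a := hx
        _ ≤ L ^ (1 : ℝ) := Real.rpow_le_rpow_of_exponent_le h1 ha1
        _ = L := Real.rpow_one L
    have hLn : L ≤ n / 2 := by
      have hs : Real.sqrt n * Real.sqrt n = n := Real.mul_self_sqrt hn0.le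
      have hs0 : 0 < Real.sqrt n := Real.sqrt_pos.mpr hn0
      have := Real.log_le_sub_one_of_pos hs0
      rw [Real.log_sqrt hn0.le] at this
      nlinarith [sq_nonneg (Real.sqrt n - 2)]
    have hrn2 : (r : ℝ) ≤ n / 2 := by linarith
    have hrn : r < n := by
      have : (r : ℝ) < n := by linarith
      exact_mod_cast this
    refine ⟨r, hr1, hrn, ?_⟩
    have hcast : ((n - r : ℕ) : ℝ) = (n : ℝ) - r := by
      rw [Nat.cast_sub hrn.le]
    -- first term
    have hxc : x ^ c = L ^ c' := by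
      rw [hx, ← Real.rpow_mul hLpos.le, hc', mul_comm]
    have t1 : C1 / (r : ℝ) ^ c ≤ C1 * 2 ^ c / L ^ c' := by
      have hge : L ^ c' / 2 ^ c ≤ (r : ℝ) ^ c := by
        rw [← hxc, ← Real.div_rpow hx0.le (by norm_num)]
        exact Real.rpow_le_rpow (by positivity) hr2 hc.le
      have h2c : (0 : ℝ) < 2 ^ c := Real.rpow_pos_of_pos (by norm_num) c
      calc C1 / (r : ℝ) ^ c ≤ C1 / (L ^ c' / 2 ^ c) :=
            div_le_div_of_nonneg_left hC1 (by positivity) hge
        _ = C1 * 2 ^ c / L ^ c' := by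
            rw [div_div_eq_mul_div]
    -- second term
    set A : ℕ := d * (2 * r + 1) ^ d with hA
    have hAcast : (d * (2 * r + 1) ^ d : ℝ) = (A : ℝ) := by
      rw [hA]
      push_cast
      ring
    have hxd : x ^ d = Real.sqrt L := by
      rw [hx, ← Real.rpow_natCast, ← Real.rpow_mul hLpos.le, Real.sqrt_eq_rpow]
      congr 1
      rw [ha]
      field_simp
    have hAle : (A : ℝ) ≤ B * Real.sqrt L := by
      rw [← hAcast, hB, ← hxd, mul_assoc, ← mul_pow]
      apply mul_le_mul_of_nonneg_left _ hd0.le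
      apply pow_le_pow_left₀ (by positivity)
      linarith
    have hA0 : (0 : ℝ) ≤ A := Nat.cast_nonneg A
    have hMA : (A : ℝ) * M ^ A ≤ Real.exp (K * Real.sqrt L) := by
      have hMpos : 0 < M := by linarith
      have i1 : M ^ A = Real.exp (A * Real.log M) := by
        rw [mul_comm, Real.exp_mul, Real.exp_log hMpos, Real.rpow_natCast]
      have i2 : (A : ℝ) ≤ Real.exp A := by
        have := Real.add_one_le_exp (A : ℝ)
        linarith
      calc (A : ℝ) * M ^ A ≤ Real.exp A * Real.exp (A * Real.log M) := by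
            rw [i1]
            exact mul_le_mul_of_nonneg_right i2 (Real.exp_pos _).le
        _ = Real.exp (A * (1 + Real.log M)) := by
            rw [← Real.exp_add]
            congr 1
            ring
        _ ≤ Real.exp (K * Real.sqrt L) := by
            apply Real.exp_le_exp.mpr
            calc (A : ℝ) * (1 + Real.log M) ≤ B * Real.sqrt L * (1 + Real.log M) :=
                  mul_le_mul_of_nonneg_right hAle (by linarith)
              _ = K * Real.sqrt L := by rw [hK]; ring
    have hsq : Real.sqrt (Real.log ((n - r : ℕ) + 1) / (n - r : ℕ)) ≤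
        Real.sqrt 2 * Real.sqrt L * Real.exp (-(L / 2)) := by
      have hden : (n : ℝ) / 2 ≤ (n : ℝ) - r := by linarith
      have hden0 : 0 < (n : ℝ) - r := by linarith
      have hlog : Real.log ((n : ℝ) - r + 1) ≤ L := by
        rw [hL]
        apply Real.log_le_log (by linarith)
        linarith
      have hexp : Real.exp (-(L / 2)) = Real.sqrt (Real.exp (-L)) := by
        rw [Real.exp_neg, Real.exp_neg, Real.sqrt_inv, ← Real.exp_half]
      rw [hcast, hexp, ← Real.sqrt_mul (by norm_num), ← Real.sqrt_mul (by positivity)]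
      apply Real.sqrt_le_sqrt
      rw [Real.exp_neg, hL, Real.exp_log hn0, ← hL, ← div_eq_mul_inv]
      rw [div_le_div_iff₀ hden0 hn0]
      nlinarith
    have hK2 : K * Real.sqrt L ≤ L / 4 := by
      have hs : Real.sqrt L * Real.sqrt L = L := Real.mul_self_sqrt hLpos.le
      have := mul_le_mul_of_nonneg_right h3 (Real.sqrt_nonneg L)
      rw [hs] at this
      linarith
    have t2 : (d * (2 * r + 1) ^ d : ℝ) * M ^ (d * (2 * r + 1) ^ d) *
        (C0 * Real.sqrt (Real.log ((n - r : ℕ) + 1) / (n - r : ℕ))) ≤ 1 / L ^ c' := by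
      rw [hAcast, ← hA]
      have j1 : (A : ℝ) * M ^ A ≤ Real.exp (L / 4) :=
        hMA.trans (Real.exp_le_exp.mpr hK2)
      have hMnn : 0 ≤ M ^ A := pow_nonneg (by linarith) A
      have hA1 : 0 ≤ (A : ℝ) * M ^ A := mul_nonneg hA0 hMnn
      calc (A : ℝ) * M ^ A * (C0 * Real.sqrt (Real.log ((n - r : ℕ) + 1) / (n - r : ℕ)))
          ≤ Real.exp (L / 4) * (C0 * (Real.sqrt 2 * Real.sqrt L * Real.exp (-(L / 2)))) := by
            apply mul_le_mul j1 _ (by positivity) (Real.exp_pos _).le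
            exact mul_le_mul_of_nonneg_left hsq hC0
        _ = (C0 * Real.sqrt 2) * (Real.sqrt L * (Real.exp (L / 4) * Real.exp (-(L / 2)))) := by
            ring
        _ = (C0 * Real.sqrt 2) * (L ^ (c' + 1 / 2) * Real.exp (-(1 / 4) * L)) / L ^ c' := by
            rw [← Real.exp_add, Real.rpow_add hLpos, Real.sqrt_eq_rpow L]
            have : L / 4 + -(L / 2) = -(1 / 4) * L := by ring
            rw [this]
            field_simp
        _ ≤ 1 / L ^ c' := div_le_div_of_nonneg_right h4 hLc.le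
    calc C1 / (r : ℝ) ^ c + (d * (2 * r + 1) ^ d : ℝ) * M ^ (d * (2 * r + 1) ^ d) *
          (C0 * Real.sqrt (Real.log ((n - r : ℕ) + 1) / (n - r : ℕ)))
        ≤ C1 * 2 ^ c / L ^ c' + 1 / L ^ c' := add_le_add t1 t2
      _ = (C1 * 2 ^ c + 1) / L ^ c' := by ring
      _ ≤ max (C1 * 2 ^ c + 1) (L0 ^ c') / L ^ c' :=
          div_le_div_of_nonneg_right (le_max_left _ _) hLc.le
  · right
    rw [le_div_iff₀ hLc, one_mul]
    exact (Real.rpow_le_rpow hLpos.le hsmall.le hc'0.le).trans (le_max_right _ _)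

end Pool.Agent.FKT
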