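import Pool.Agent.FKT.TargetsB

/-!
# Project FKT, target ORT

Orthogonality of the martingale differences, and commutation with the averages.
-/

set_option autoImplicit false

namespace Pool.Agent.FKT

namespace ORT_

variable {S : Type} [Fintype S] {n : ℕ}

lemma PE_sub (l : Fin n → S → ℝ) (f g : (Fin n → S) → ℝ) :
    PE l (fun u => f u - g u) = PE l f - PE l g := by
  unfold PE
  rw [← Finset.sum_sub_distrib]
  refine Finset.sum_congr rfl fun u _ => ?_
  ring

lemma PE_add (l : Fin n → S → ℝ) (f g : (Fin n → S) → ℝ) :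
    PE l (fun u => f u + g u) = PE l f + PE l g := by
  unfold PE
  rw [← Finset.sum_add_distrib]
  refine Finset.sum_congr rfl fun u _ => ?_
  ring

lemma PE_mul (l : Fin n → S → ℝ) (c : ℝ) (f : (Fin n → S) → ℝ) :
    PE l (fun u => c * f u) = c * PE l f := by
  unfold PE
  rw [Finset.mul_sum]
  refine Finset.sum_congr rfl fun u _ => ?_
  ring

lemma PE_mono {l : Fin n → S → ℝ} (hl : PW l) (f g : (Fin n → S) → ℝ) (h : ∀ u, f u ≤ g u) :
    PE l f ≤ PE l g := by
  unfold PE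
  refine Finset.sum_le_sum fun u _ => ?_
  exact mul_le_mul_of_nonneg_left (h u) (Finset.prod_nonneg fun i _ => hl.nn i (u i))

lemma CE_sub (l : Fin n → S → ℝ) (j : ℕ) (f g : (Fin n → S) → ℝ) (u : Fin n → S) :
    CE l j (fun v => f v - g v) u = CE l j f u - CE l j g u := by
  unfold CE
  exact PE_sub l (fun v => f fun i => if (i : ℕ) < j then u i else v i)
    (fun v => g fun i => if (i : ℕ) < j then u i else v i)

lemma Lj_sub (l : Fin n → S → ℝ) (j : ℕ) (f g : (Fin n → S) → ℝ) (u : Fin n → S) :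
    Lj l j (fun v => f v - g v) u = Lj l j f u - Lj l j g u := by
  unfold Lj
  rw [CE_sub, CE_sub]
  ring

lemma Av_sub (l : Fin n → S → ℝ) (i : Fin n) (f g : (Fin n → S) → ℝ) (u : Fin n → S) :
    Av l i (fun v => f v - g v) u = Av l i f u - Av l i g u := by
  unfold Av
  rw [← Finset.sum_sub_distrib]
  refine Finset.sum_congr rfl fun s _ => ?_
  ring

lemma sq_diff (h6 : T_PRD) (l : Fin n → S → ℝ) (hl : PW l) (j : ℕ) (f : (Fin n → S) → ℝ) :
    PE l (fun u => Lj l j f u ^ 2) =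
      PE l (fun u => CE l (j + 1) f u ^ 2) - PE l (fun u => CE l j f u ^ 2) := by
  obtain ⟨-, -, -, -, -, p6, p7⟩ := h6 n S l hl
  have hc : PE l (fun u => CE l j f u * CE l (j + 1) f u) =
      PE l (fun u => CE l j f u ^ 2) := by
    rw [p6 j f (CE l (j + 1) f)]
    congr 1
    funext u
    rw [p7 j (j + 1) f u, min_eq_left (Nat.le_succ j)]
    ring
  have he : (fun u => Lj l j f u ^ 2) = fun u => (CE l (j + 1) f u ^ 2 + CE l j f u ^ 2) -
      2 * (CE l j f u * CE l (j + 1) f u) := by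
    funext u
    unfold Lj
    ring
  rw [he, PE_sub l (fun u => CE l (j + 1) f u ^ 2 + CE l j f u ^ 2)
    (fun u => 2 * (CE l j f u * CE l (j + 1) f u)), PE_add, PE_mul, hc]
  ring

lemma one (h6 : T_PRD) (l : Fin n → S → ℝ) (hl : PW l) (f : (Fin n → S) → ℝ) :
    ∑ j ∈ Finset.range n, PE l (fun u => Lj l j f u ^ 2) =
      PE l (fun u => f u ^ 2) - PE l f ^ 2 := by
  obtain ⟨p1, -, -, p4, -, -, -⟩ := h6 n S l hl
  have h1 : ∑ j ∈ Finset.range n, PE l (fun u => Lj l j f u ^ 2) =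
      ∑ j ∈ Finset.range n, (PE l (fun u => CE l (j + 1) f u ^ 2) -
        PE l (fun u => CE l j f u ^ 2)) :=
    Finset.sum_congr rfl fun j _ => sq_diff h6 l hl j f
  rw [h1, Finset.sum_range_sub (fun j => PE l (fun u => CE l j f u ^ 2)) n]
  have h2 : (fun u => CE l n f u ^ 2) = fun u => f u ^ 2 := by
    funext u
    rw [(p4 f u).2]
  have h3 : (fun u => CE l 0 f u ^ 2) = fun _ => PE l f ^ 2 * 1 := by
    funext u
    rw [(p4 f u).1, mul_one]
  rw [h2, h3, PE_mul l (PE l f ^ 2) (fun _ => 1), p1, mul_one]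

lemma var (h6 : T_PRD) (l : Fin n → S → ℝ) (hl : PW l) (i : Fin n) (h : (Fin n → S) → ℝ) :
    PE l (Vi l i h) = PE l (fun u => (h u - Av l i h u) ^ 2) := by
  obtain ⟨-, p2, p3, -, -, -, -⟩ := h6 n S l hl
  have hc : PE l (fun u => h u * Av l i h u) = PE l (fun u => Av l i h u ^ 2) := by
    rw [← p2 i (fun u => h u * Av l i h u)]
    congr 1
    funext u
    rw [p3 i h h u]
    ring
  have he : (fun u => (h u - Av l i h u) ^ 2) = fun u => (h u ^ 2 + Av l i h u ^ 2) -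
      2 * (h u * Av l i h u) := by
    funext u
    ring
  have hv : PE l (Vi l i h) = PE l (fun u => h u ^ 2) - PE l (fun u => Av l i h u ^ 2) := by
    rw [← p2 i (fun u => h u ^ 2)]
    exact PE_sub l (Av l i (fun v => h v ^ 2)) (fun u => Av l i h u ^ 2)
  rw [he, PE_sub l (fun u => h u ^ 2 + Av l i h u ^ 2) (fun u => 2 * (h u * Av l i h u)),
    PE_add, PE_mul, hc, hv]
  ring

lemma two (h6 : T_PRD) (l : Fin n → S → ℝ) (hl : PW l) (f : (Fin n → S) → ℝ) (i : Fin n) :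
    ∑ j ∈ Finset.range n, PE l (Vi l i (Lj l j f)) = PE l (Vi l i f) := by
  obtain ⟨-, p2, -, -, p5, -, -⟩ := h6 n S l hl
  have hcomm : ∀ (j : ℕ) (u : Fin n → S), Av l i (Lj l j f) u = Lj l j (Av l i f) u := by
    intro j u
    have h1 : Av l i (Lj l j f) u = Av l i (CE l (j + 1) f) u - Av l i (CE l j f) u :=
      Av_sub l i (CE l (j + 1) f) (CE l j f) u
    rw [h1, p5, p5]
    rfl
  have h1 : ∑ j ∈ Finset.range n, PE l (Vi l i (Lj l j f)) =
      ∑ j ∈ Finset.range n, PE l (fun u => Lj l j (fun v => f v - Av l i f v) u ^ 2) := by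
    refine Finset.sum_congr rfl fun j _ => ?_
    rw [var h6 l hl i (Lj l j f)]
    congr 1
    funext u
    rw [hcomm j u, Lj_sub]
  rw [h1, one h6 l hl (fun v => f v - Av l i f v), var h6 l hl i f,
    PE_sub l f (Av l i f), p2 i f]
  ring

lemma CE_mem (h6 : T_PRD) (l : Fin n → S → ℝ) (hl : PW l) (f : (Fin n → S) → ℝ)
    (hf : ∀ u, 0 ≤ f u ∧ f u ≤ 1) (j : ℕ) (u : Fin n → S) : 0 ≤ CE l j f u ∧ CE l j f u ≤ 1 := by
  obtain ⟨p1, -, -, -, -, -, -⟩ := h6 n S l hl
  have h0 : PE l (fun _ : Fin n → S => (0 : ℝ)) = 0 := by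
    unfold PE
    simp
  constructor
  · rw [← h0]
    exact PE_mono hl _ _ fun v => (hf _).1
  · rw [← p1]
    exact PE_mono hl _ _ fun v => (hf _).2

lemma three (h6 : T_PRD) (l : Fin n → S → ℝ) (hl : PW l) (f : (Fin n → S) → ℝ)
    (hf : ∀ u, 0 ≤ f u ∧ f u ≤ 1) : PE l (fun u => f u ^ 2) - PE l f ^ 2 ≤
      ∑ j ∈ Finset.range n, PE l fun u => |Lj l j f u| := by
  rw [← one h6 l hl f]
  refine Finset.sum_le_sum fun j _ => ?_
  refine PE_mono hl _ _ fun u => ?_
  have ha := CE_mem h6 l hl f hf j u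
  have hb := CE_mem h6 l hl f hf (j + 1) u
  have hc : |Lj l j f u| ≤ 1 := by
    unfold Lj
    rw [abs_le]
    constructor <;> linarith [ha.1, ha.2, hb.1, hb.2]
  rw [← sq_abs]
  nlinarith [abs_nonneg (Lj l j f u)]

end ORT_

/-- The target ORT. -/
theorem p_ORT (hPRD : T_PRD) : T_ORT := by
  intro n S _ l hl f
  exact ⟨ORT_.one hPRD l hl f, fun i => ORT_.two hPRD l hl f i,
    fun hf => ORT_.three hPRD l hl f hf⟩

end Pool.Agent.FKT
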