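import Pool.Agent.FKT.TargetsB

/-!
# FKT: pigeonhole
-/

set_option autoImplicit false

namespace Pool.Agent.FKT

/-- PIG. -/
theorem p_PIG : T_PIG := by
  intro a r s hs hsr hmono h0 h1
  have hr : 0 < r := lt_of_lt_of_le hs hsr
  have hr' : (0 : ℝ) < r := by exact_mod_cast hr
  have hs' : (0 : ℝ) < s := by exact_mod_cast hs
  have hle1 : ∀ k, k ≤ 3 * r → a k ≤ 1 := fun k hk => (hmono k (3 * r) hk le_rfl).trans h1
  have hge0 : ∀ k, k ≤ 3 * r → 0 ≤ a k := fun k hk => h0.trans (hmono 0 k (Nat.zero_le _) hk)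
  set g : ℕ → ℝ := fun ρ => a (ρ + s) - a (ρ - s) with hg
  have hg0 : ∀ ρ ∈ Finset.Ico r (2 * r), 0 ≤ g ρ := by
    intro ρ hρ
    rw [Finset.mem_Ico] at hρ
    exact sub_nonneg.2 (hmono _ _ (by omega) (by omega))
  -- the total sum
  have e1 : ∑ ρ ∈ Finset.Ico r (2 * r), a (ρ + s) = ∑ k ∈ Finset.Ico (r + s) (2 * r + s), a k :=
    Finset.sum_Ico_add' a r (2 * r) s
  have e2 : ∑ ρ ∈ Finset.Ico r (2 * r), a (ρ - s) = ∑ k ∈ Finset.Ico (r - s) (2 * r - s), a k := by
    have h := Finset.sum_Ico_add' (fun k => a (k - s)) (r - s) (2 * r - s) s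
    rw [Nat.sub_add_cancel hsr, Nat.sub_add_cancel (by omega : s ≤ 2 * r)] at h
    rw [← h]
    exact Finset.sum_congr rfl fun k _ => by rw [Nat.add_sub_cancel]
  have hsum : ∑ ρ ∈ Finset.Ico r (2 * r), g ρ ≤ 2 * s := by
    rw [hg, Finset.sum_sub_distrib, e1, e2]
    have f1 := Finset.sum_Ico_consecutive a (by omega : r - s ≤ r + s)
      (by omega : r + s ≤ 2 * r + s)
    have f2 := Finset.sum_Ico_consecutive a (by omega : r - s ≤ 2 * r - s)
      (by omega : 2 * r - s ≤ 2 * r + s)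
    have f3 : 0 ≤ ∑ k ∈ Finset.Ico (r - s) (r + s), a k :=
      Finset.sum_nonneg fun k hk => hge0 k (by rw [Finset.mem_Ico] at hk; omega)
    have f4 : ∑ k ∈ Finset.Ico (2 * r - s) (2 * r + s), a k ≤ 2 * s := by
      calc ∑ k ∈ Finset.Ico (2 * r - s) (2 * r + s), a k
          ≤ ∑ _k ∈ Finset.Ico (2 * r - s) (2 * r + s), (1 : ℝ) :=
            Finset.sum_le_sum fun k hk => hle1 k (by rw [Finset.mem_Ico] at hk; omega)
        _ = 2 * s := by
            rw [Finset.sum_const, Nat.card_Ico, nsmul_eq_mul, mul_one]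
            have : 2 * r + s - (2 * r - s) = 2 * s := by omega
            rw [this]; push_cast; ring
    linarith
  -- the bad indices
  set B := (Finset.Ico r (2 * r)).filter fun ρ => ¬ g ρ ≤ 40 * (s : ℝ) / r with hB
  have hBc : (B.card : ℝ) * (40 * (s : ℝ) / r) ≤ 2 * s := by
    calc (B.card : ℝ) * (40 * (s : ℝ) / r) = ∑ _ρ ∈ B, 40 * (s : ℝ) / r := by
          rw [Finset.sum_const, nsmul_eq_mul]
      _ ≤ ∑ ρ ∈ B, g ρ := Finset.sum_le_sum fun ρ hρ => by
          have := (Finset.mem_filter.1 hρ).2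
          exact (not_le.1 this).le
      _ ≤ ∑ ρ ∈ Finset.Ico r (2 * r), g ρ :=
          Finset.sum_le_sum_of_subset_of_nonneg (Finset.filter_subset _ _)
            fun ρ hρ _ => hg0 ρ hρ
      _ ≤ 2 * s := hsum
  have hB2 : (B.card : ℝ) * 20 ≤ r := by
    have h2 : (B.card : ℝ) * (40 * (s : ℝ) / r) = (B.card : ℝ) * 40 * s / r := by ring
    rw [h2, div_le_iff₀ hr'] at hBc
    have h3 : ((B.card : ℝ) * 20 - r) * (2 * s) ≤ 0 := by nlinarith
    by_contra hcon
    push Not at hcon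
    have h4 : 0 < ((B.card : ℝ) * 20 - r) * (2 * s) := by
      apply mul_pos
      · linarith
      · linarith
    linarith
  have hcard := Finset.card_filter_add_card_filter_not (s := Finset.Ico r (2 * r))
    (fun ρ => g ρ ≤ 40 * (s : ℝ) / r)
  rw [Nat.card_Ico] at hcard
  have hcard' : (((Finset.Ico r (2 * r)).filter fun ρ => g ρ ≤ 40 * (s : ℝ) / r).card : ℝ) +
      B.card = r := by
    have : 2 * r - r = r := by omega
    rw [this, ← hB] at hcard
    rw [← Nat.cast_add, hcard]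
  have hB0 : (0 : ℝ) ≤ B.card := by positivity
  show (r : ℝ) / 2 ≤ (((Finset.Ico r (2 * r)).filter fun ρ => g ρ ≤ 40 * (s : ℝ) / r).card : ℝ)
  linarith

end Pool.Agent.FKT
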