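import Pool.Agent.FKT.TargetsB

/-!
# FKT: identities for averages and conditional expectations (PRD)
-/

set_option autoImplicit false

namespace Pool.Agent.FKT

namespace PRD_

section

variable {S : Type} {n : ℕ}

/-- The configuration with the coordinates below `j` of `u` and the others of `v`. -/
def mix (j : ℕ) (u v : Fin n → S) : Fin n → S := fun i => if (i : ℕ) < j then u i else v i

theorem mix_mix (j : ℕ) (u v : Fin n → S) : mix j (mix j u v) (mix j v u) = u := by
  funext i
  unfold mix
  by_cases h : (i : ℕ) < j <;> simp [h]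

/-- Exchange of the coordinates from `j` on. -/
def swp (j : ℕ) : Equiv.Perm ((Fin n → S) × (Fin n → S)) :=
  Function.Involutive.toPerm (fun p => (mix j p.1 p.2, mix j p.2 p.1)) (by
    intro p
    simp only [mix_mix])

/-- Exchange of the coordinate `i` with a further value. -/
def swi (i : Fin n) : Equiv.Perm ((Fin n → S) × S) :=
  Function.Involutive.toPerm (fun p => (Function.update p.1 i p.2, p.1 i)) (by
    intro p
    simp only [Function.update_self, Function.update_idem, Function.update_eq_self])

/-- The weight of a configuration. -/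
noncomputable def W (l : Fin n → S → ℝ) (u : Fin n → S) : ℝ := ∏ i, l i (u i)

theorem W_mix (l : Fin n → S → ℝ) (j : ℕ) (u v : Fin n → S) :
    W l (mix j u v) * W l (mix j v u) = W l u * W l v := by
  unfold W
  rw [← Finset.prod_mul_distrib, ← Finset.prod_mul_distrib]
  refine Finset.prod_congr rfl fun i _ => ?_
  unfold mix
  by_cases h : (i : ℕ) < j
  · simp [h]
  · simp [h, mul_comm]

theorem W_upd (l : Fin n → S → ℝ) (i : Fin n) (u : Fin n → S) (s : S) :
    W l (Function.update u i s) * l i (u i) = W l u * l i s := by
  unfold W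
  rw [← Finset.mul_prod_erase Finset.univ (fun k => l k (Function.update u i s k))
    (Finset.mem_univ i), ← Finset.mul_prod_erase Finset.univ (fun k => l k (u k))
    (Finset.mem_univ i)]
  have h : ∏ k ∈ Finset.univ.erase i, l k (Function.update u i s k) =
      ∏ k ∈ Finset.univ.erase i, l k (u k) := by
    refine Finset.prod_congr rfl fun k hk => ?_
    rw [Function.update_of_ne (Finset.ne_of_mem_erase hk)]
  rw [h, Function.update_self]
  ring

end

section

variable {S : Type} [Fintype S] {n : ℕ}

theorem PE_eq (l : Fin n → S → ℝ) (f : (Fin n → S) → ℝ) : PE l f = ∑ u, W l u * f u := rfl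

theorem CE_eq (l : Fin n → S → ℝ) (j : ℕ) (f : (Fin n → S) → ℝ) (u : Fin n → S) :
    CE l j f u = ∑ v, W l v * f (mix j u v) := rfl

theorem W_sum (l : Fin n → S → ℝ) (hl : PW l) : ∑ u : Fin n → S, W l u = 1 := by
  have h := Finset.prod_univ_sum (fun _ : Fin n => (Finset.univ : Finset S)) l
  rw [Fintype.piFinset_univ] at h
  unfold W
  rw [← h]
  exact Finset.prod_eq_one fun i _ => hl.tot i

theorem PE_const (l : Fin n → S → ℝ) (hl : PW l) (c : ℝ) : ∑ u, W l u * c = c := by
  rw [← Finset.sum_mul, W_sum l hl, one_mul]

theorem sum_swp (l : Fin n → S → ℝ) (j : ℕ) (F : (Fin n → S) → (Fin n → S) → ℝ) :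
    ∑ u, ∑ v, W l u * W l v * F (mix j u v) (mix j v u) = ∑ u, ∑ v, W l u * W l v * F u v := by
  rw [← Fintype.sum_prod_type', ← Fintype.sum_prod_type']
  refine Fintype.sum_equiv (swp j) _ _ fun p => ?_
  show W l p.1 * W l p.2 * F (mix j p.1 p.2) (mix j p.2 p.1) =
    W l (mix j p.1 p.2) * W l (mix j p.2 p.1) * F (mix j p.1 p.2) (mix j p.2 p.1)
  rw [W_mix]

theorem sum_swi (l : Fin n → S → ℝ) (i : Fin n) (F : (Fin n → S) → ℝ) :
    ∑ u, ∑ s, W l u * l i s * F (Function.update u i s) = ∑ u, ∑ s, W l u * l i s * F u := by
  rw [← Fintype.sum_prod_type', ← Fintype.sum_prod_type']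
  refine Fintype.sum_equiv (swi i) _ _ fun p => ?_
  show W l p.1 * l i p.2 * F (Function.update p.1 i p.2) =
    W l (Function.update p.1 i p.2) * l i (p.1 i) * F (Function.update p.1 i p.2)
  rw [W_upd]

/-- The average has the same expectation. -/
theorem PE_Av (l : Fin n → S → ℝ) (hl : PW l) (i : Fin n) (f : (Fin n → S) → ℝ) :
    PE l (Av l i f) = PE l f := by
  rw [PE_eq, PE_eq]
  have h1 : ∀ u : Fin n → S, W l u * Av l i f u =
      ∑ s, W l u * l i s * f (Function.update u i s) := by
    intro u
    unfold Av
    rw [Finset.mul_sum]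
    exact Finset.sum_congr rfl fun s _ => by ring
  have h2 : ∀ u : Fin n → S, ∑ s, W l u * l i s * f u = W l u * f u := by
    intro u
    rw [← Finset.sum_mul, ← Finset.mul_sum, hl.tot, mul_one]
  rw [Finset.sum_congr rfl fun u _ => h1 u, sum_swi, Finset.sum_congr rfl fun u _ => h2 u]

omit [Fintype S] in
theorem mix_update_lt (j : ℕ) (i : Fin n) (hij : (i : ℕ) < j) (u v : Fin n → S) (s : S) :
    mix j (Function.update u i s) v = Function.update (mix j u v) i s := by
  funext k
  by_cases hk : k = i
  · subst hk
    simp [mix, hij]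
  · simp [mix, Function.update_of_ne hk]

omit [Fintype S] in
theorem mix_update_ge (j : ℕ) (i : Fin n) (hij : ¬ (i : ℕ) < j) (u v : Fin n → S) (s : S) :
    mix j (Function.update u i s) v = mix j u v := by
  funext k
  by_cases hk : k = i
  · subst hk
    simp [mix, hij]
  · simp [mix, Function.update_of_ne hk]

omit [Fintype S] in
theorem update_mix_ge (j : ℕ) (i : Fin n) (hij : ¬ (i : ℕ) < j) (u v : Fin n → S) (s : S) :
    Function.update (mix j u v) i s = mix j u (Function.update v i s) := by
  funext k
  by_cases hk : k = i
  · subst hk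
    simp [mix, hij]
  · simp [mix, Function.update_of_ne hk]

/-- Averages and conditional expectations commute. -/
theorem Av_CE (l : Fin n → S → ℝ) (hl : PW l) (i : Fin n) (j : ℕ) (f : (Fin n → S) → ℝ)
    (u : Fin n → S) : Av l i (CE l j f) u = CE l j (Av l i f) u := by
  by_cases hij : (i : ℕ) < j
  · have h1 : Av l i (CE l j f) u =
        ∑ s, ∑ v, W l v * (l i s * f (Function.update (mix j u v) i s)) := by
      unfold Av
      refine Finset.sum_congr rfl fun s _ => ?_
      rw [CE_eq, Finset.mul_sum]
      refine Finset.sum_congr rfl fun v _ => ?_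
      rw [mix_update_lt j i hij]
      ring
    have h2 : CE l j (Av l i f) u =
        ∑ v, ∑ s, W l v * (l i s * f (Function.update (mix j u v) i s)) := by
      rw [CE_eq]
      refine Finset.sum_congr rfl fun v _ => ?_
      unfold Av
      rw [Finset.mul_sum]
    rw [h1, h2, Finset.sum_comm]
  · have h1 : Av l i (CE l j f) u = CE l j f u := by
      unfold Av
      have : ∀ s : S, l i s * CE l j f (Function.update u i s) = l i s * CE l j f u := by
        intro s
        rw [CE_eq, CE_eq]
        congr 1
        refine Finset.sum_congr rfl fun v _ => ?_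
        rw [mix_update_ge j i hij]
      rw [Finset.sum_congr rfl fun s _ => this s, ← Finset.sum_mul, hl.tot, one_mul]
    have h2 : CE l j (Av l i f) u = PE l (Av l i fun v => f (mix j u v)) := by
      rw [CE_eq, PE_eq]
      refine Finset.sum_congr rfl fun v _ => ?_
      unfold Av
      congr 1
      refine Finset.sum_congr rfl fun s _ => ?_
      rw [update_mix_ge j i hij]
    rw [h1, h2, PE_Av l hl]
    rfl

/-- The conditional expectation does not depend on the later coordinates. -/
theorem CE_mix (l : Fin n → S → ℝ) (j : ℕ) (f : (Fin n → S) → ℝ) (u v : Fin n → S) :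
    CE l j f (mix j u v) = CE l j f u := by
  rw [CE_eq, CE_eq]
  refine Finset.sum_congr rfl fun w _ => ?_
  have : mix j (mix j u v) w = mix j u w := by
    funext k
    unfold mix
    by_cases h : (k : ℕ) < j <;> simp [h]
  rw [this]

/-- The conditional expectation is self-adjoint and idempotent. -/
theorem PE_CE (l : Fin n → S → ℝ) (hl : PW l) (j : ℕ) (f g : (Fin n → S) → ℝ) :
    PE l (fun u => CE l j f u * g u) = PE l fun u => CE l j f u * CE l j g u := by
  have h1 : PE l (fun u => CE l j f u * g u) =
      ∑ u, ∑ v, W l u * W l v * (CE l j f (mix j u v) * g u) := by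
    rw [PE_eq]
    refine Finset.sum_congr rfl fun u _ => ?_
    have : ∀ v : Fin n → S, W l u * W l v * (CE l j f (mix j u v) * g u) =
        W l v * (W l u * (CE l j f u * g u)) := by
      intro v
      rw [CE_mix]
      ring
    rw [Finset.sum_congr rfl fun v _ => this v, PE_const l hl]
  have h2 : PE l (fun u => CE l j f u * CE l j g u) =
      ∑ u, ∑ v, W l u * W l v * (CE l j f u * g (mix j u v)) := by
    rw [PE_eq]
    refine Finset.sum_congr rfl fun u _ => ?_
    rw [CE_eq l j g, Finset.mul_sum, Finset.mul_sum]
    exact Finset.sum_congr rfl fun v _ => by ring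
  have h3 := sum_swp l j fun u v => CE l j f (mix j u v) * g u
  rw [h1, ← h3, h2]
  refine Finset.sum_congr rfl fun u _ => Finset.sum_congr rfl fun v _ => ?_
  rw [mix_mix]

/-- The tower property. -/
theorem CE_CE (l : Fin n → S → ℝ) (hl : PW l) (j k : ℕ) (f : (Fin n → S) → ℝ)
    (u : Fin n → S) : CE l j (CE l k f) u = CE l (min j k) f u := by
  rcases le_total k j with hkj | hjk
  · rw [min_eq_right hkj, CE_eq]
    have : ∀ v : Fin n → S, CE l k f (mix j u v) = CE l k f u := by
      intro v
      rw [CE_eq, CE_eq]
      refine Finset.sum_congr rfl fun w _ => ?_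
      have h : mix k (mix j u v) w = mix k u w := by
        funext i
        unfold mix
        by_cases h : (i : ℕ) < k
        · simp [h, lt_of_lt_of_le h hkj]
        · simp [h]
      rw [h]
    rw [Finset.sum_congr rfl fun v _ => by rw [this v], PE_const l hl]
  · rw [min_eq_left hjk, CE_eq]
    have h1 : ∀ v : Fin n → S, W l v * CE l k f (mix j u v) =
        ∑ w, W l v * W l w * f (mix j u (mix k v w)) := by
      intro v
      rw [CE_eq, Finset.mul_sum]
      refine Finset.sum_congr rfl fun w _ => ?_
      have h : mix k (mix j u v) w = mix j u (mix k v w) := by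
        funext i
        unfold mix
        by_cases h : (i : ℕ) < j
        · simp [h, lt_of_lt_of_le h hjk]
        · simp [h]
      rw [h]
      ring
    rw [Finset.sum_congr rfl fun v _ => h1 v,
      sum_swp l k fun v _ => f (mix j u v), CE_eq]
    refine Finset.sum_congr rfl fun v _ => ?_
    have : ∀ w : Fin n → S, W l v * W l w * f (mix j u v) =
        W l w * (W l v * f (mix j u v)) := fun w => by ring
    rw [Finset.sum_congr rfl fun w _ => this w, PE_const l hl]

end

end PRD_

open PRD_ in
theorem p_PRD : T_PRD := by
  intro n S _ l hl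
  refine ⟨?_, PE_Av l hl, ?_, ?_, Av_CE l hl, PE_CE l hl, CE_CE l hl⟩
  · rw [PE_eq]
    exact PE_const l hl 1
  · intro i f g u
    unfold Av
    have : ∀ s : S, l i s * (f (Function.update u i s) *
        ∑ s', l i s' * g (Function.update (Function.update u i s) i s')) =
        (l i s * f (Function.update u i s)) * ∑ s', l i s' * g (Function.update u i s') := by
      intro s
      simp only [Function.update_idem]
      ring
    rw [Finset.sum_congr rfl fun s _ => this s, Finset.sum_mul]
  · intro f u
    constructor
    · rw [CE_eq, PE_eq]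
      refine Finset.sum_congr rfl fun v _ => ?_
      have : mix 0 u v = v := by
        funext i
        simp [mix]
      rw [this]
    · rw [CE_eq]
      have : ∀ v, mix n u v = u := by
        intro v
        funext i
        simp [mix, i.2]
      rw [Finset.sum_congr rfl fun v _ => by rw [this v], PE_const l hl]

end Pool.Agent.FKT
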