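import Pool.Agent.FKT.TargetsB

/-!
# FKT: the theorem of part C, assembly
-/

set_option autoImplicit false

namespace Pool.Agent.FKT

open Filter MeasureTheory

/-- RAD. -/
theorem p_RAD (hBOX : T_BOX) (hQBK : T_QBK) (hUNB : T_UNB) (hNUC : T_NUC) : T_RAD := by
  intro d hd q p hq hp hp1
  have hpc : 0 ≤ pcr d q := Real.sSup_nonneg fun x hx => hx.1
  have hp0 : 0 < p := lt_of_le_of_lt hpc hp
  obtain ⟨c, CB, hc, hB⟩ := hBOX d hd q p hq hp hp1
  obtain ⟨CQ, hQ⟩ := hQBK d hd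
  set C1 : ℝ := max CB 0 with hC1
  set C0 : ℝ := max CQ 0 * (q ^ 2 / p) with hC0
  have hqp : 0 ≤ q ^ 2 / p := by positivity
  have hM : 1 ≤ 2 * q / p := by
    rw [le_div_iff₀ hp0]
    linarith
  have hC00 : 0 ≤ C0 := mul_nonneg (le_max_right _ _) hqp
  obtain ⟨c', C', hc', hN⟩ := hNUC d hd (2 * q / p) C0 C1 c hM hC00 (le_max_right _ _) hc
  refine ⟨c', C', hc', fun μ hμ n hn => ?_⟩
  rcases hN n hn with ⟨r, hr, hrn, hle⟩ | hle
  · have hk : 1 ≤ n - r := by omega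
    have hD : ∀ (x : Vx d) (i : Fin d), μ.real {ω | TwoArm (cfg ω) x i (n - r)} ≤
        C0 * Real.sqrt (Real.log ((n - r : ℕ) + 1) / (n - r : ℕ)) := by
      intro x i
      refine (hQ p q hp0 hp1 hq μ hμ x i (n - r) hk).trans ?_
      refine mul_le_mul_of_nonneg_right ?_ (Real.sqrt_nonneg _)
      exact mul_le_mul_of_nonneg_right (le_max_left _ _) hqp
    have h1 := hUNB d hd p q _ hp0 hp1 hq μ hμ r n hr hrn hD
    have h2 := hB μ hμ r hr
    have h3 : CB / (r : ℝ) ^ c ≤ C1 / (r : ℝ) ^ c :=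
      div_le_div_of_nonneg_right (le_max_left _ _) (by positivity)
    linarith
  · have hp' := hμ.prob
    exact (measureReal_le_one).trans hle

end Pool.Agent.FKT
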