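import Pool.Agent.FKT.TargetsB

set_option autoImplicit false

/-!
# FKT: target RUL, existence of random rules
-/

namespace Pool.Agent.FKT

open MeasureTheory

namespace RUL_

lemma cpr_nonneg {n : ℕ} {c : ℝ} {m : (Fin n → Bool) → ℝ} (hm : Mon c m) (j : Fin n)
    (x : Fin n → Bool) : 0 ≤ cpr m j x := by
  unfold cpr
  apply div_nonneg
  · refine Finset.sum_nonneg fun w _ => ?_
    split_ifs
    · exact (hm.pos w).le
    · exact le_rfl
  · refine Finset.sum_nonneg fun w _ => ?_
    split_ifs
    · exact (hm.pos w).le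
    · exact le_rfl

lemma cpr_le_one {n : ℕ} {c : ℝ} {m : (Fin n → Bool) → ℝ} (hm : Mon c m) (j : Fin n)
    (x : Fin n → Bool) : cpr m j x ≤ 1 := by
  unfold cpr
  apply div_le_one_of_le₀
  · refine Finset.sum_le_sum fun w _ => ?_
    by_cases h1 : trn j w = trn j x
    · by_cases h2 : w j = true
      · rw [if_pos ⟨h1, h2⟩, if_pos h1]
      · rw [if_neg (fun h => h2 h.2), if_pos h1]
        exact (hm.pos w).le
    · rw [if_neg (fun h => h1 h.1), if_neg h1]
  · refine Finset.sum_nonneg fun w _ => ?_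
    split_ifs
    · exact (hm.pos w).le
    · exact le_rfl

/-- The set of the parameters which give the rule `r`. -/
def Er {n : ℕ} (a : (Fin n → Bool) → ℝ) (r : Rule n) : Set ℝ :=
  {U | U ∈ Set.Ioc (0 : ℝ) 1 ∧ ∀ x, r x = true ↔ U ≤ a x}

lemma Er_meas {n : ℕ} (a : (Fin n → Bool) → ℝ) (r : Rule n) : MeasurableSet (Er a r) := by
  have h : Er a r = Set.Ioc (0 : ℝ) 1 ∩ ⋂ x, {U | r x = true ↔ U ≤ a x} := by
    ext U
    simp [Er, Set.mem_iInter]
  rw [h]
  refine measurableSet_Ioc.inter (MeasurableSet.iInter fun x => ?_)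
  by_cases hx : r x = true
  · have : {U : ℝ | r x = true ↔ U ≤ a x} = Set.Iic (a x) := by
      ext U
      simp [hx]
    rw [this]
    exact measurableSet_Iic
  · have : {U : ℝ | r x = true ↔ U ≤ a x} = (Set.Iic (a x))ᶜ := by
      ext U
      simp [hx]
    rw [this]
    exact measurableSet_Iic.compl

lemma Er_fin {n : ℕ} (a : (Fin n → Bool) → ℝ) (r : Rule n) : volume (Er a r) ≠ ⊤ := by
  have h : volume (Er a r) ≤ volume (Set.Ioc (0 : ℝ) 1) := measure_mono fun U hU => hU.1
  have h2 : volume (Set.Ioc (0 : ℝ) 1) < ⊤ := by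
    rw [Real.volume_Ioc]
    exact ENNReal.ofReal_lt_top
  exact (h.trans_lt h2).ne

lemma Er_disj {n : ℕ} (a : (Fin n → Bool) → ℝ) (r r' : Rule n) (h : r ≠ r') :
    Disjoint (Er a r) (Er a r') := by
  rw [Set.disjoint_left]
  intro U hU hU'
  apply h
  funext x
  have h1 := hU.2 x
  have h2 := hU'.2 x
  by_cases hx : U ≤ a x
  · rw [h1.2 hx, h2.2 hx]
  · have e1 : r x = false := by
      by_contra hc
      exact hx (h1.1 (by simpa using hc))
    have e2 : r' x = false := by
      by_contra hc
      exact hx (h2.1 (by simpa using hc))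
    rw [e1, e2]

open Classical in
lemma sum_Er {n : ℕ} (a : (Fin n → Bool) → ℝ) (Q : Rule n → Prop) :
    (∑ r : Rule n, if Q r then volume.real (Er a r) else 0) =
      volume.real {U : ℝ | U ∈ Set.Ioc (0 : ℝ) 1 ∧ Q fun x => decide (U ≤ a x)} := by
  rw [← Finset.sum_filter]
  rw [← measureReal_biUnion_finset (fun r _ r' _ h => Er_disj a r r' h)
    (fun r _ => Er_meas a r) (fun r _ => Er_fin a r)]
  · congr 1
    ext U
    simp only [Finset.mem_filter, Finset.mem_univ, true_and, Set.mem_iUnion, Set.mem_ofPred_eq,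
      exists_prop]
    constructor
    · rintro ⟨r, hr, hU⟩
      have e : (fun x => decide (U ≤ a x)) = r := by
        funext x
        have h1 := hU.2 x
        by_cases hx : U ≤ a x
        · rw [h1.2 hx]
          simpa using hx
        · have e1 : r x = false := by
            by_contra hc
            exact hx (h1.1 (by simpa using hc))
          rw [e1]
          simpa using hx
      rw [e]
      exact ⟨hU.1, hr⟩
    · rintro ⟨hU, hQ⟩
      exact ⟨_, hQ, hU, fun x => by simp⟩

end RUL_

open RUL_ in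
theorem p_RUL : T_RUL := by
  classical
  intro n c m hm
  refine ⟨fun j r => volume.real (Er (cpr m j) r), ⟨?_, ?_⟩, ?_, ?_⟩
  · intro i s
    exact measureReal_nonneg
  · intro i
    have h := sum_Er (cpr m i) (fun _ => True)
    simp only [if_true, and_true] at h
    rw [h]
    have : {U : ℝ | U ∈ Set.Ioc (0 : ℝ) 1} = Set.Ioc (0 : ℝ) 1 := rfl
    rw [this, Real.volume_real_Ioc]
    norm_num
  · intro j x
    have h := sum_Er (cpr m j) (fun r => r x = true)
    have e : {U : ℝ | U ∈ Set.Ioc (0 : ℝ) 1 ∧ (fun x => decide (U ≤ cpr m j x)) x = true} =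
        Set.Ioc (0 : ℝ) (cpr m j x) := by
      ext U
      simp only [Set.mem_Ioc, Set.mem_ofPred_eq, decide_eq_true_eq]
      constructor
      · rintro ⟨⟨h1, h2⟩, h3⟩
        exact ⟨h1, h3⟩
      · rintro ⟨h1, h3⟩
        exact ⟨⟨h1, h3.trans (cpr_le_one hm j x)⟩, h3⟩
    have h2 : volume.real {U : ℝ | U ∈ Set.Ioc (0 : ℝ) 1 ∧
        (fun x => decide (U ≤ cpr m j x)) x = true} = cpr m j x := by
      rw [e, Real.volume_real_Ioc]
      have := cpr_nonneg hm j x
      simp [this]
    rw [← h2, ← h]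
    refine Finset.sum_congr rfl fun r _ => ?_
    by_cases hr : r x = true
    · rw [if_pos hr, if_pos hr]
    · rw [if_neg hr, if_neg hr]
  · intro j r hr x y hxy hrx
    have hne : (Er (cpr m j) r).Nonempty := by
      by_contra hc
      rw [Set.not_nonempty_iff_eq_empty] at hc
      apply hr
      simp only [hc, measureReal_empty]
    obtain ⟨U, hU⟩ := hne
    exact (hU.2 y).2 (((hU.2 x).1 hrx).trans hxy)

end Pool.Agent.FKT
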