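import Pool.Agent.FKT.TargetsB

/-!
# Project FKT: SHC, covariances of the crossing events with the translates of an edge
-/

set_option autoImplicit false

namespace Pool.Agent.FKT

open Filter MeasureTheory

namespace SHC_

lemma bxsub {d : ℕ} (x x' : Vx d) (n n' : ℕ) (h : ∀ i, x' i - n' ≤ x i - n ∧ x i + n ≤ x' i + n') :
    bx x n ⊆ bx x' n' := by
  unfold bx
  exact Finset.Icc_subset_Icc (fun i => (h i).1) (fun i => (h i).2)

lemma absle (a1 a0 b1 b0 l1 l0 u1 u0 x : ℝ) (hx0 : 0 ≤ x) (hx1 : x ≤ 1) (h1 : l1 ≤ a1)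
    (h2 : a1 ≤ u1) (h3 : l1 ≤ b1) (h4 : b1 ≤ u1) (h5 : l0 ≤ a0) (h6 : a0 ≤ u0) (h7 : l0 ≤ b0)
    (h8 : b0 ≤ u0) :
    |(b1 - (b1 + b0) * x) - (a1 - (a1 + a0) * x)| ≤ (u1 + u0) - (l1 + l0) := by
  have e1 : (b1 - (b1 + b0) * x) - (a1 - (a1 + a0) * x) =
      (b1 - a1) * (1 - x) - (b0 - a0) * x := by ring
  have k1 : |b1 - a1| ≤ u1 - l1 := abs_le.2 ⟨by linarith, by linarith⟩
  have k0 : |b0 - a0| ≤ u0 - l0 := abs_le.2 ⟨by linarith, by linarith⟩
  rw [e1]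
  calc |(b1 - a1) * (1 - x) - (b0 - a0) * x|
      ≤ |(b1 - a1) * (1 - x)| + |(b0 - a0) * x| := abs_sub _ _
    _ = |b1 - a1| * (1 - x) + |b0 - a0| * x := by
        rw [abs_mul, abs_mul, abs_of_nonneg hx0, abs_of_nonneg (by linarith : 0 ≤ 1 - x)]
    _ ≤ (u1 - l1) * 1 + (u0 - l0) * 1 := by
        have m1 := abs_nonneg (b1 - a1)
        have m0 := abs_nonneg (b0 - a0)
        have n1 : |b1 - a1| * (1 - x) ≤ (u1 - l1) * 1 :=
          mul_le_mul k1 (by linarith) (by linarith) (by linarith)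
        have n0 : |b0 - a0| * x ≤ (u0 - l0) * 1 :=
          mul_le_mul k0 hx1 hx0 (by linarith)
        linarith
    _ = (u1 + u0) - (l1 + l0) := by ring

lemma emeas {d : ℕ} (e : Ed d) : MeasurableSet {ω : Ed d → Bool | ω e = true} := by
  have h : Measurable fun ω : Ed d → Bool => ω e := measurable_pi_apply e
  exact h (measurableSet_singleton true)

lemma cvdif {d : ℕ} (μ : Measure (Ed d → Bool)) [IsProbabilityMeasure μ]
    (A B L U : Set (Ed d → Bool)) (e : Ed d) (hLA : L ⊆ A) (hLB : L ⊆ B) (hAU : A ⊆ U)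
    (hBU : B ⊆ U) : |cv μ B e - cv μ A e| ≤ μ.real U - μ.real L := by
  have hE := emeas e
  have key : ∀ S : Set (Ed d → Bool), μ.real S =
      μ.real (S ∩ {ω | ω e = true}) + μ.real (S \ {ω | ω e = true}) :=
    fun S => (measureReal_inter_add_sdiff (s := S) hE).symm
  have mono1 : ∀ S T : Set (Ed d → Bool), S ⊆ T →
      μ.real (S ∩ {ω | ω e = true}) ≤ μ.real (T ∩ {ω | ω e = true}) :=
    fun S T h => measureReal_mono (Set.inter_subset_inter_left _ h)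
  have mono0 : ∀ S T : Set (Ed d → Bool), S ⊆ T →
      μ.real (S \ {ω | ω e = true}) ≤ μ.real (T \ {ω | ω e = true}) :=
    fun S T h => measureReal_mono (Set.sdiff_subset_sdiff_left h)
  unfold cv
  rw [key A, key B, key U, key L]
  exact absle _ _ _ _ _ _ _ _ _ measureReal_nonneg measureReal_le_one (mono1 _ _ hLA)
    (mono1 _ _ hAU) (mono1 _ _ hLB) (mono1 _ _ hBU) (mono0 _ _ hLA) (mono0 _ _ hAU)
    (mono0 _ _ hLB) (mono0 _ _ hBU)

lemma shmeas {d : ℕ} (y : Vx d) : Measurable (sh y) :=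
  measurable_pi_lambda _ fun e => measurable_pi_apply (trE y e)

lemma crmeas (h₂ : T_LOC) (h₃ : T_CRI) (d : ℕ) (y : Vx d) (a b : ℕ) :
    MeasurableSet {ω : Ed d → Bool | CrA y a b (cfg ω)} := by
  have h := (h₂ d 0 0 (eb y b)).2 (fun T => CrA y a b (T : Set (Ed d)))
  have he : {ω : Ed d → Bool | CrA y a b (cfg ω)} =
      {ω : Ed d → Bool | CrA y a b ((rs (eb y b) (cfg ω) : Finset (Ed d)) : Set (Ed d))} := by
    ext ω
    exact (h₃ d y y a a b b (cfg ω) (cfg ω)).2.1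
  rw [he]
  exact h

lemma cvsh {d : ℕ} (μ : Measure (Ed d → Bool)) (y : Vx d) (hμ : μ.map (sh y) = μ)
    (B : Set (Ed d → Bool)) (hB : MeasurableSet B) (e : Ed d) :
    cv μ (sh y ⁻¹' B) (trE y e) = cv μ B e := by
  have hE := emeas e
  have key : ∀ S : Set (Ed d → Bool), MeasurableSet S → μ.real (sh y ⁻¹' S) = μ.real S := by
    intro S hS
    conv_rhs => rw [← hμ]
    rw [measureReal_def, measureReal_def, Measure.map_apply (shmeas y) hS]
  have e1 : {ω : Ed d → Bool | ω (trE y e) = true} = sh y ⁻¹' {ω | ω e = true} := rfl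
  unfold cv
  rw [e1, ← Set.preimage_inter, key _ (hB.inter hE), key _ hB, key _ hE]

end SHC_

open SHC_ in
theorem p_SHC (h₁ : T_INV) (h₂ : T_LOC) (h₃ : T_CRI) : T_SHC := by
  intro d hd p q hp0 hp1 hq μ hμ K ρ s j i e hjs hsρ hK
  have := hμ.prob
  set y : Vx d := Pi.single i (j : ℤ) with hy
  have hyk : ∀ k, 0 ≤ y k ∧ y k ≤ j := by
    intro k
    rw [hy]
    by_cases hk : k = i
    · subst hk
      simp
    · rw [Pi.single_eq_of_ne hk]
      exact ⟨le_refl _, by positivity⟩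
  have hA : Fv d K ρ = sh y ⁻¹' {ω : Ed d → Bool | CrA (-y) ρ (K - ρ) (cfg ω)} := by
    ext ω
    have h := (h₃ d (-y) y ρ ρ (K - ρ) (K - ρ) (cfg ω) (cfg ω)).2.2.2.1 ω
    rw [neg_add_cancel] at h
    exact h
  have hB := crmeas h₂ h₃ d (-y) ρ (K - ρ)
  have h1 : cv μ (Fv d K ρ) (trE y e) =
      cv μ {ω : Ed d → Bool | CrA (-y) ρ (K - ρ) (cfg ω)} e := by
    rw [hA]
    exact cvsh μ y (h₁ d hd p q hp0 hp1 hq μ hμ y) _ hB e
  rw [h1]
  have hlo : ∀ x : Vx d, (∀ k, -(j : ℤ) ≤ x k ∧ x k ≤ 0) →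
      Fv d K (ρ - s) ⊆ {ω : Ed d → Bool | CrA x ρ (K - ρ) (cfg ω)} := by
    intro x hx ω hω
    refine (h₃ d (0 : Vx d) x (ρ - s) ρ (K - (ρ - s)) (K - ρ) (cfg ω) (cfg ω)).1 ?_ ?_ ?_ hω
    · refine bxsub _ _ _ _ fun k => ?_
      have := hx k
      simp only [Pi.zero_apply]
      omega
    · refine bxsub _ _ _ _ fun k => ?_
      have := hx k
      simp only [Pi.zero_apply]
      omega
    · omega
  have hup : ∀ x : Vx d, (∀ k, -(j : ℤ) ≤ x k ∧ x k ≤ 0) →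
      {ω : Ed d → Bool | CrA x ρ (K - ρ) (cfg ω)} ⊆ Fv d K (ρ + s) := by
    intro x hx ω hω
    refine (h₃ d x (0 : Vx d) ρ (ρ + s) (K - ρ) (K - (ρ + s)) (cfg ω) (cfg ω)).1 ?_ ?_ ?_ hω
    · refine bxsub _ _ _ _ fun k => ?_
      have := hx k
      simp only [Pi.zero_apply]
      omega
    · refine bxsub _ _ _ _ fun k => ?_
      have := hx k
      simp only [Pi.zero_apply]
      omega
    · omega
  have hny : ∀ k, -(j : ℤ) ≤ (-y) k ∧ (-y) k ≤ 0 := by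
    intro k
    have := hyk k
    simp only [Pi.neg_apply]
    omega
  have h0 : ∀ k : Fin d, -(j : ℤ) ≤ (0 : Vx d) k ∧ (0 : Vx d) k ≤ 0 := by
    intro k
    simp
  exact cvdif μ (Fv d K ρ) _ (Fv d K (ρ - s)) (Fv d K (ρ + s)) e (hlo 0 h0) (hlo _ hny)
    (hup 0 h0) (hup _ hny)

end Pool.Agent.FKT
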