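import Pool.Agent.FKT.TargetsB

/-!
# FKT: THM, facts on the probabilities of the crossings
-/

set_option autoImplicit false

namespace Pool.Agent.FKT

open Filter MeasureTheory

namespace THM_

theorem bx_mono {d : ℕ} (x : Vx d) {a b : ℕ} (h : a ≤ b) : bx x a ⊆ bx x b := by
  unfold bx
  have h' : (a : ℤ) ≤ b := by exact_mod_cast h
  refine Finset.Icc_subset_Icc (fun i => ?_) (fun i => ?_)
  · show x i - (b : ℤ) ≤ x i - (a : ℤ)
    omega
  · show x i + (a : ℤ) ≤ x i + (b : ℤ)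
    omega

theorem mem_bx {d : ℕ} (x : Vx d) (a : ℕ) : x ∈ bx x a := by
  unfold bx
  rw [Finset.mem_Icc]
  constructor
  · intro i
    show x i - (a : ℤ) ≤ x i
    omega
  · intro i
    show x i ≤ x i + (a : ℤ)
    omega

end THM_

open THM_ in
theorem p_THM (hCRI : T_CRI) (hMOP : T_MOP) : T_THM := by
  intro d p p' q hp hpp hp' hq μ μ' hμ hμ' K ρ
  have := hμ.prob
  have := hμ'.prob
  refine ⟨⟨measureReal_nonneg, measureReal_le_one⟩, ?_, ?_, ?_⟩
  · intro ρ' h1 h2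
    refine measureReal_mono ?_ (measure_ne_top μ _)
    intro ω hω
    exact (hCRI d 0 0 ρ ρ' (K - ρ) (K - ρ') (cfg ω) (cfg ω)).1 (bx_mono 0 h1)
      (bx_mono 0 (by omega)) (by omega) hω
  · have h1 := (hMOP d p p' q hp hpp hp' hq μ μ' hμ hμ' (eb 0 (K - ρ))
      (fun T => CrA (0 : Vx d) ρ (K - ρ) (T : Set (Ed d)))
      (fun a b hab ha => (hCRI d 0 0 ρ ρ (K - ρ) (K - ρ) (a : Set (Ed d)) (b : Set (Ed d))).2.2.1
        (by exact_mod_cast hab) ha)).1
    have h2 : {ω : Ed d → Bool | CrA (0 : Vx d) ρ (K - ρ)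
        ((rs (eb 0 (K - ρ)) (cfg ω) : Finset (Ed d)) : Set (Ed d))} = Fv d K ρ := by
      ext ω
      exact ((hCRI d 0 0 ρ ρ (K - ρ) (K - ρ) (cfg ω) (cfg ω)).2.1).symm
    rw [h2] at h1
    exact h1
  · intro h1
    refine measureReal_mono ?_ (measure_ne_top μ _)
    intro ω hω
    exact (hCRI d 0 0 ρ ρ (K - ρ) (K - ρ) (cfg ω) (cfg ω)).2.2.2.2.1 ω 0 (mem_bx 0 ρ)
      (by omega) hω

end Pool.Agent.FKT
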