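import Pool.Agent.FKT.TargetsB

/-!
# Project FKT: logarithmic Sobolev inequality in one coordinate (T_TWO)
-/

set_option autoImplicit false

namespace Pool.Agent.FKT

namespace TWO_

theorem upd_lt {n : ℕ} {S : Type} (u v : Fin n → S) (i : Fin n) (r : S) (k : ℕ)
    (hk : (i : ℕ) < k) :
    (fun a : Fin n => if (a : ℕ) < k then Function.update u i r a else v a) =
      Function.update (fun a : Fin n => if (a : ℕ) < k then u a else v a) i r := by
  funext a
  by_cases ha : a = i
  · subst ha
    simp [hk]
  · rw [Function.update_of_ne ha, Function.update_of_ne ha]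

theorem upd_ge {n : ℕ} {S : Type} (u v : Fin n → S) (i : Fin n) (r : S) (k : ℕ)
    (hk : k ≤ (i : ℕ)) :
    (fun a : Fin n => if (a : ℕ) < k then Function.update u i r a else v a) =
      fun a : Fin n => if (a : ℕ) < k then u a else v a := by
  funext a
  by_cases ha : (a : ℕ) < k
  · have h : a ≠ i := by
      rintro rfl
      omega
    rw [Function.update_of_ne h]
  · simp [ha]

/-- The conditional expectations depend on the rule `i` only through one bit. -/
theorem ce_eq (h_STP : T_STP) {n : ℕ} (l : Fin n → Rule n → ℝ) (F : (Fin n → Bool) → ℝ) (k : ℕ)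
    (i : Fin n) (u : Fin n → Rule n) (r r' : Rule n) (hr : r (st u i) = r' (st u i)) :
    CE l k (fun u => F (st u n)) (Function.update u i r) =
      CE l k (fun u => F (st u n)) (Function.update u i r') := by
  unfold CE PE
  apply Finset.sum_congr rfl
  intro v _
  congr 1
  change F (st (fun a : Fin n => if (a : ℕ) < k then Function.update u i r a else v a) n) =
    F (st (fun a : Fin n => if (a : ℕ) < k then Function.update u i r' a else v a) n)
  by_cases hk : (i : ℕ) < k
  · rw [upd_lt u v i r k hk, upd_lt u v i r' k hk]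
    obtain ⟨h1, -, h3, -⟩ := h_STP n (fun a : Fin n => if (a : ℕ) < k then u a else v a)
    have hst : st (fun a : Fin n => if (a : ℕ) < k then u a else v a) i = st u i :=
      h1 u i (fun a ha => if_pos (ha.trans hk))
    rw [h3 i r r' (by rw [hst]; exact hr) n]
  · rw [upd_ge u v i r k (not_lt.1 hk), upd_ge u v i r' k (not_lt.1 hk)]

theorem lj_eq (h_STP : T_STP) {n : ℕ} (l : Fin n → Rule n → ℝ) (F : (Fin n → Bool) → ℝ) (j : ℕ)
    (i : Fin n) (u : Fin n → Rule n) (r r' : Rule n) (hr : r (st u i) = r' (st u i)) :
    Lj l j (fun u => F (st u n)) (Function.update u i r) =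
      Lj l j (fun u => F (st u n)) (Function.update u i r') := by
  unfold Lj
  rw [ce_eq h_STP l F (j + 1) i u r r' hr, ce_eq h_STP l F j i u r r' hr]

/-- The sum of a two-valued function. -/
theorem sum_two {ι : Type} [Fintype ι] (w : ι → ℝ) (β : ι → Bool) (X a b : ℝ)
    (hw : ∑ s, w s = 1) (hX : (∑ s, if β s = true then w s else 0) = X) :
    ∑ s, w s * (if β s = true then a else b) = X * a + (1 - X) * b := by
  have h1 : ∀ s, w s * (if β s = true then a else b) =
      (if β s = true then w s else 0) * a + (w s - if β s = true then w s else 0) * b := by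
    intro s
    by_cases h : β s = true
    · simp [h]
    · simp [h]
  rw [Finset.sum_congr rfl fun s _ => h1 s, Finset.sum_add_distrib, ← Finset.sum_mul,
    ← Finset.sum_mul, Finset.sum_sub_distrib, hX, hw]

end TWO_

theorem p_TWO (h_ENU : T_ENU) (h_STP : T_STP) (h_BND : T_BND) : T_TWO := by
  intro n c m l hm hl F j i u
  set h : (Fin n → Rule n) → ℝ := Lj l j (fun u => F (st u n)) with hh
  set X : ℝ := cpr m i (st u i) with hX
  obtain ⟨hX0, hX1⟩ := (h_BND n c m hm i).1 (st u i)
  rw [← hX] at hX0 hX1
  have hmean : (∑ r : Rule n, if r (st u i) = true then l i r else 0) = X := hl.mean i (st u i)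
  have htot : ∑ r : Rule n, l i r = 1 := hl.pw.tot i
  set x : ℝ := h (Function.update u i fun _ => true) with hx
  set y : ℝ := h (Function.update u i fun _ => false) with hy
  have hval : ∀ r : Rule n, h (Function.update u i r) =
      if r (st u i) = true then x else y := by
    intro r
    by_cases hr : r (st u i) = true
    · rw [if_pos hr, hx, hh]
      exact TWO_.lj_eq h_STP l F j i u r (fun _ => true) hr
    · rw [if_neg hr, hy, hh]
      exact TWO_.lj_eq h_STP l F j i u r (fun _ => false) (by simpa using hr)
  have hE : Ei l i (fun v => h v ^ 2) u ≤ 2 * (x - y) ^ 2 := by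
    unfold Ei Av
    simp only [hval]
    exact h_ENU (Rule n) (l i) (fun r => r (st u i)) x y (hl.pw.nn i) htot
  have hV : Vi l i h u = X * (1 - X) * (x - y) ^ 2 := by
    unfold Vi Av
    simp only [hval]
    have e1 : ∀ r : Rule n, (if r (st u i) = true then x else y) ^ 2 =
        if r (st u i) = true then x ^ 2 else y ^ 2 := by
      intro r
      split_ifs <;> rfl
    simp only [e1]
    rw [TWO_.sum_two (l i) (fun r : Rule n => r (st u i)) X (x ^ 2) (y ^ 2) htot hmean,
      TWO_.sum_two (l i) (fun r : Rule n => r (st u i)) X x y htot hmean]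
    ring
  have hc0 := hm.c0
  have hc1 := hm.c1
  have hcc : 0 < c * (1 - c) := mul_pos hc0 (by linarith)
  rw [hV]
  refine hE.trans ?_
  rw [div_mul_eq_mul_div, le_div_iff₀ hcc]
  have h1 : c * (1 - c) ≤ X * (1 - X) := by nlinarith
  nlinarith [mul_le_mul_of_nonneg_right h1 (sq_nonneg (x - y))]

end Pool.Agent.FKT
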