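import Pool.Agent.FKT.TargetsB
import Pool.Agent.FKT.P_ARM

set_option autoImplicit false

/-!
# UNB: the union bound for the truncated radius
-/

namespace Pool.Agent.FKT

open Filter MeasureTheory

namespace UNB_

variable {d : ℕ}

theorem incl (h_SUR : T_SUR) (r n : ℕ) (hrn : r < n) (O : Set (Ed d))
    (hfin : {w | Cn O (0 : Vx d) w}.Finite) (hz : ∃ z ∈ bd (0 : Vx d) n, Cn O 0 z)
    (x : Vx d) (hx : x ∈ bx (0 : Vx d) r) (hinf : {w | Cn O x w}.Infinite) :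
    ∃ P : Finset (Ed d), P ⊆ eb (0 : Vx d) r ∧ ∃ e ∈ eb (0 : Vx d) r,
      TwoArm (O ∪ (P : Set (Ed d))) e.1 e.2 (n - r) := by
  have hx' : x ∈ bx (0 : Vx d) n := by
    rw [ARM_.mem_bx] at hx ⊢
    intro i
    have h1 := hx i
    have h2 : (r : ℤ) ≤ n := by exact_mod_cast hrn.le
    omega
  have h0 : (0 : Vx d) ∈ bx (0 : Vx d) n := by
    rw [ARM_.mem_bx]
    intro i
    simp only [Pi.zero_apply]
    omega
  refine h_SUR d r n O x hrn hx ?_ ?_ ?_
  · obtain ⟨z, hz1, hz2⟩ := hz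
    exact ARM_.key O n 0 z h0 (fun _ => hz1) (Relation.EqvGen.symm _ _ hz2)
  · obtain ⟨w, hw1, hw2⟩ := hinf.exists_notMem_finset (bx (0 : Vx d) n)
    exact ARM_.key O n x w hx' (fun h => absurd h hw2) (Relation.EqvGen.symm _ _ hw1)
  · intro hc
    have hc' : Cn O 0 x := ARM_.con_mono Set.inter_subset_left hc
    apply hinf
    apply hfin.subset
    intro w hw
    exact Relation.EqvGen.trans _ _ _ hc' hw

theorem one_le_div {p q : ℝ} (hp : 0 < p) (hp1 : p < 1) (hq : 1 ≤ q) : 1 ≤ q / p := by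
  rw [le_div_iff₀ hp]
  linarith

end UNB_

theorem p_UNB (h_SUR : T_SUR) (h_FEN : T_FEN) (h_TAS : T_TAS) (h_CNT : T_CNT) : T_UNB := by
  intro d hd p q D hp hp1 hq μ hμ r n hr hrn hD
  have := hμ.prob
  have hqp := UNB_.one_le_div hp hp1 hq
  have hE : ∀ (P : Finset (Ed d)) (e : Ed d),
      μ.real {ω | TwoArm (cfg ω ∪ (P : Set (Ed d))) e.1 e.2 (n - r)} ≤
        (q / p) ^ P.card * D := by
    intro P e
    have h1 := h_FEN d p q hp hp1 hq μ hμ (eb e.1 (n - r)) P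
      (fun T => TwoArm (T : Set (Ed d)) e.1 e.2 (n - r))
    have h2 : {ω : Ed d → Bool | TwoArm ((rs (eb e.1 (n - r)) (cfg ω ∪ (P : Set (Ed d))) :
        Finset (Ed d)) : Set (Ed d)) e.1 e.2 (n - r)} =
        {ω | TwoArm (cfg ω ∪ (P : Set (Ed d))) e.1 e.2 (n - r)} := by
      ext ω
      exact ((h_TAS d e.1 0 e.2 (n - r)).1 _).symm
    have h3 : {ω : Ed d → Bool | TwoArm ((rs (eb e.1 (n - r)) (cfg ω) :
        Finset (Ed d)) : Set (Ed d)) e.1 e.2 (n - r)} =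
        {ω | TwoArm (cfg ω) e.1 e.2 (n - r)} := by
      ext ω
      exact ((h_TAS d e.1 0 e.2 (n - r)).1 _).symm
    rw [h2, h3] at h1
    exact le_trans h1 (mul_le_mul_of_nonneg_left (hD e.1 e.2)
      (pow_nonneg (le_trans zero_le_one hqp) _))
  have hD0 : 0 ≤ D := le_trans measureReal_nonneg (hD 0 ⟨0, hd⟩)
  have hincl : {ω : Ed d → Bool | {w | Cn (cfg ω) (0 : Vx d) w}.Finite ∧
      ∃ z ∈ bd (0 : Vx d) n, Cn (cfg ω) 0 z} ⊆
      {ω | ∀ x ∈ bx (0 : Vx d) r, ¬ InfC x ω} ∪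
        ⋃ P ∈ (eb (0 : Vx d) r).powerset, ⋃ e ∈ eb (0 : Vx d) r,
          {ω : Ed d → Bool | TwoArm (cfg ω ∪ (P : Set (Ed d))) e.1 e.2 (n - r)} := by
    rintro ω ⟨h1, h2⟩
    by_cases h3 : ∀ x ∈ bx (0 : Vx d) r, ¬ InfC x ω
    · exact Or.inl h3
    · right
      push Not at h3
      obtain ⟨x, hx, hinf⟩ := h3
      obtain ⟨P, hP, e, he, hT⟩ := UNB_.incl h_SUR r n hrn (cfg ω) h1 h2 x hx hinf
      simp only [Set.mem_iUnion]
      exact ⟨P, Finset.mem_powerset.2 hP, e, he, hT⟩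
  have hM := (h_CNT d hd r).1
  have hN : ((eb (0 : Vx d) r).card : ℝ) ≤ (d * (2 * r + 1) ^ d : ℝ) := by
    exact_mod_cast hM
  have hsum : μ.real (⋃ P ∈ (eb (0 : Vx d) r).powerset, ⋃ e ∈ eb (0 : Vx d) r,
      {ω : Ed d → Bool | TwoArm (cfg ω ∪ (P : Set (Ed d))) e.1 e.2 (n - r)}) ≤
      ((eb (0 : Vx d) r).card : ℝ) * (2 * q / p) ^ (eb (0 : Vx d) r).card * D := by
    refine le_trans (measureReal_biUnion_finset_le _ _) ?_
    have h1 : ∀ P ∈ (eb (0 : Vx d) r).powerset, μ.real (⋃ e ∈ eb (0 : Vx d) r,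
        {ω : Ed d → Bool | TwoArm (cfg ω ∪ (P : Set (Ed d))) e.1 e.2 (n - r)}) ≤
        ((eb (0 : Vx d) r).card : ℝ) * ((q / p) ^ (eb (0 : Vx d) r).card * D) := by
      intro P hP
      refine le_trans (measureReal_biUnion_finset_le _ _) ?_
      have h2 : ∀ e ∈ eb (0 : Vx d) r,
          μ.real {ω : Ed d → Bool | TwoArm (cfg ω ∪ (P : Set (Ed d))) e.1 e.2 (n - r)} ≤
          (q / p) ^ (eb (0 : Vx d) r).card * D := by
        intro e _
        refine le_trans (hE P e) (mul_le_mul_of_nonneg_right ?_ hD0)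
        exact pow_le_pow_right₀ hqp (Finset.card_le_card (Finset.mem_powerset.1 hP))
      refine le_trans (Finset.sum_le_sum h2) ?_
      rw [Finset.sum_const, nsmul_eq_mul]
    refine le_trans (Finset.sum_le_sum h1) ?_
    rw [Finset.sum_const, nsmul_eq_mul, Finset.card_powerset]
    have h3 : (2 * q / p) ^ (eb (0 : Vx d) r).card =
        2 ^ (eb (0 : Vx d) r).card * (q / p) ^ (eb (0 : Vx d) r).card := by
      rw [← mul_pow]
      congr 1
      ring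
    rw [h3]
    push_cast
    apply le_of_eq
    ring
  have h2qp : 1 ≤ 2 * q / p := by
    have h1 : 2 * q / p = 2 * (q / p) := by ring
    rw [h1]
    linarith
  have hfin : ((eb (0 : Vx d) r).card : ℝ) * (2 * q / p) ^ (eb (0 : Vx d) r).card * D ≤
      (d * (2 * r + 1) ^ d : ℝ) * (2 * q / p) ^ (d * (2 * r + 1) ^ d) * D := by
    apply mul_le_mul_of_nonneg_right _ hD0
    apply mul_le_mul hN (pow_le_pow_right₀ h2qp hM)
      (pow_nonneg (le_trans zero_le_one h2qp) _)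
    positivity
  calc μ.real {ω : Ed d → Bool | {w | Cn (cfg ω) (0 : Vx d) w}.Finite ∧
      ∃ z ∈ bd (0 : Vx d) n, Cn (cfg ω) 0 z}
      ≤ μ.real ({ω | ∀ x ∈ bx (0 : Vx d) r, ¬ InfC x ω} ∪
        ⋃ P ∈ (eb (0 : Vx d) r).powerset, ⋃ e ∈ eb (0 : Vx d) r,
          {ω : Ed d → Bool | TwoArm (cfg ω ∪ (P : Set (Ed d))) e.1 e.2 (n - r)}) :=
        measureReal_mono hincl
    _ ≤ μ.real {ω | ∀ x ∈ bx (0 : Vx d) r, ¬ InfC x ω} +
        μ.real (⋃ P ∈ (eb (0 : Vx d) r).powerset, ⋃ e ∈ eb (0 : Vx d) r,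
          {ω : Ed d → Bool | TwoArm (cfg ω ∪ (P : Set (Ed d))) e.1 e.2 (n - r)}) :=
        measureReal_union_le _ _
    _ ≤ _ := by
        gcongr
        exact le_trans hsum hfin

end Pool.Agent.FKT
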