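import Pool.Agent.FKT.MainA
import Pool.Agent.FKT.P_ABS
import Pool.Agent.FKT.P_BND
import Pool.Agent.FKT.P_BOX
import Pool.Agent.FKT.P_CPL
import Pool.Agent.FKT.P_CPV
import Pool.Agent.FKT.P_CRI
import Pool.Agent.FKT.P_CVL
import Pool.Agent.FKT.P_DER
import Pool.Agent.FKT.P_ENL
import Pool.Agent.FKT.P_ENT
import Pool.Agent.FKT.P_ENU
import Pool.Agent.FKT.P_FEN
import Pool.Agent.FKT.P_FSA
import Pool.Agent.FKT.P_FSF
import Pool.Agent.FKT.P_FSL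
import Pool.Agent.FKT.P_FSM
import Pool.Agent.FKT.P_INT
import Pool.Agent.FKT.P_ITE
import Pool.Agent.FKT.P_KEY
import Pool.Agent.FKT.P_LAW
import Pool.Agent.FKT.P_LGS
import Pool.Agent.FKT.P_MAR
import Pool.Agent.FKT.P_MOP
import Pool.Agent.FKT.P_NUC
import Pool.Agent.FKT.P_ORT
import Pool.Agent.FKT.P_PIG
import Pool.Agent.FKT.P_PRD
import Pool.Agent.FKT.P_RAD
import Pool.Agent.FKT.P_RUL
import Pool.Agent.FKT.P_SHC
import Pool.Agent.FKT.P_STP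
import Pool.Agent.FKT.P_SUR
import Pool.Agent.FKT.P_THM
import Pool.Agent.FKT.P_TWO
import Pool.Agent.FKT.P_UNB

/-!
# Project FKT: assembly of parts B and C
-/

set_option autoImplicit false

namespace Pool.Agent.FKT

theorem f_ENT : T_ENT := p_ENT p_LGS
theorem f_ORT : T_ORT := p_ORT p_PRD
theorem f_FSA : T_FSA := p_FSA p_LGS p_ENL f_ENT p_PRD f_ORT
theorem f_LAW : T_LAW := p_LAW p_PRD p_STP p_BND
theorem f_TWO : T_TWO := p_TWO p_ENU p_STP p_BND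
theorem f_CPV : T_CPV := p_CPV p_PRD p_STP p_BND f_LAW
theorem f_CPL : T_CPL := p_CPL p_PRD p_STP p_BND f_CPV
theorem f_FSM : T_FSM := p_FSM p_RUL f_FSA f_TWO f_LAW f_CPV f_CPL f_ORT
theorem f_FSF : T_FSF := p_FSF f_FSM
theorem f_MAR : T_MAR := p_MAR p_ADD
theorem f_FSL : T_FSL := p_FSL f_FSF f_MAR p_CYL
theorem f_DER : T_DER := p_DER f_FKG
theorem f_MOP : T_MOP := p_MOP f_DER f_LOC
theorem f_CVL : T_CVL := p_CVL f_LOC
theorem f_SHC : T_SHC := p_SHC f_INV f_LOC p_CRI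
theorem f_THM : T_THM := p_THM p_CRI f_MOP
theorem f_KEY : T_KEY := p_KEY f_MOP f_FSL f_SHC p_CRI
theorem f_INT : T_INT := p_INT f_KEY p_PIG p_ABS f_THM f_MOP f_DER f_CVL p_CRI
theorem f_BOX : T_BOX := p_BOX f_EXI f_THM f_INT t_ite p_CRI f_LOC
theorem f_QBK : T_QBK := p_QBK f_CTF f_LOC f_INV p_ARM p_CNT p_TAS p_NUM
theorem f_FEN : T_FEN := p_FEN p_ADD f_FKG f_LOC
theorem f_UNB : T_UNB := p_UNB p_SUR f_FEN p_TAS p_CNT
theorem f_RAD : T_RAD := p_RAD f_BOX f_QBK f_UNB t_nuc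

end Pool.Agent.FKT
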