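import Pool.Agent.FKT.Defs

/-!
# Project FKT, parts B and C: definitions

First block: finite product spaces. `S` is a finite set, `l i` a probability weight on `S` for
every coordinate `i : Fin n`. Second block: the encoding of a measure on `Fin n → Bool` by
independent random rules. Third block: crossing events, infinite clusters, the critical point.
-/

set_option autoImplicit false

namespace Pool.Agent.FKT

open Filter MeasureTheory

open Classical in
/-- The indicator of a proposition. -/
noncomputable def ind (P : Prop) : ℝ := if P then 1 else 0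

/-! ## Finite product spaces -/

section prod

variable {S : Type} [Fintype S] {n : ℕ}

/-- Probability weights in every coordinate. -/
structure PW (l : Fin n → S → ℝ) : Prop where
  nn : ∀ i s, 0 ≤ l i s
  tot : ∀ i, ∑ s, l i s = 1

/-- The expectation on the product space. -/
noncomputable def PE (l : Fin n → S → ℝ) (f : (Fin n → S) → ℝ) : ℝ :=
  ∑ u : Fin n → S, (∏ i, l i (u i)) * f u

/-- The average over the coordinate `i`. -/
noncomputable def Av (l : Fin n → S → ℝ) (i : Fin n) (f : (Fin n → S) → ℝ) (u : Fin n → S) : ℝ :=
  ∑ s : S, l i s * f (Function.update u i s)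

/-- The conditional expectation given the coordinates `i < j`. -/
noncomputable def CE (l : Fin n → S → ℝ) (j : ℕ) (f : (Fin n → S) → ℝ) (u : Fin n → S) : ℝ :=
  PE l fun v => f fun i => if (i : ℕ) < j then u i else v i

/-- The martingale differences. -/
noncomputable def Lj (l : Fin n → S → ℝ) (j : ℕ) (f : (Fin n → S) → ℝ) (u : Fin n → S) : ℝ :=
  CE l (j + 1) f u - CE l j f u

/-- The variance in the coordinate `i`. -/
noncomputable def Vi (l : Fin n → S → ℝ) (i : Fin n) (f : (Fin n → S) → ℝ) (u : Fin n → S) : ℝ :=
  Av l i (fun v => f v ^ 2) u - Av l i f u ^ 2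

/-- The entropy in the coordinate `i`. -/
noncomputable def Ei (l : Fin n → S → ℝ) (i : Fin n) (f : (Fin n → S) → ℝ) (u : Fin n → S) : ℝ :=
  Av l i (fun v => f v * Real.log (f v)) u - Av l i f u * Real.log (Av l i f u)

/-- The entropy. -/
noncomputable def Et (l : Fin n → S → ℝ) (f : (Fin n → S) → ℝ) : ℝ :=
  PE l (fun u => f u * Real.log (f u)) - PE l f * Real.log (PE l f)

end prod

/-! ## Encoding by random rules -/

section rules

variable {n : ℕ}

/-- A rule decides a bit from the configuration seen so far. -/
abbrev Rule (n : ℕ) : Type := (Fin n → Bool) → Bool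

/-- The state after `j` steps: the first `j` bits have been decided, the others are false. -/
def st (u : Fin n → Rule n) : ℕ → Fin n → Bool
  | 0 => fun _ => false
  | j + 1 => fun i => if (i : ℕ) = j then u i (st u j) else st u j i

/-- Truncation of a configuration. -/
def trn (j : ℕ) (w : Fin n → Bool) : Fin n → Bool := fun i => if (i : ℕ) < j then w i else false

/-- The conditional probability that the bit `j` is one, given the bits `i < j` of `x`. -/
noncomputable def cpr (m : (Fin n → Bool) → ℝ) (j : Fin n) (x : Fin n → Bool) : ℝ :=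
  (∑ w : Fin n → Bool, if trn j w = trn j x ∧ w j = true then m w else 0) /
    ∑ w : Fin n → Bool, if trn j w = trn j x then m w else 0

/-- The covariance of `F` with the bit `j`. -/
noncomputable def cvb (m : (Fin n → Bool) → ℝ) (F : (Fin n → Bool) → ℝ) (j : Fin n) : ℝ :=
  (∑ w, m w * (F w * if w j = true then 1 else 0)) -
    (∑ w, m w * F w) * ∑ w, m w * if w j = true then 1 else 0

/-- The standing assumptions on the measure `m` on `Fin n → Bool`: a positive probability
measure, log-supermodular, with conditional probabilities of single bits in `[c, 1 - c]`. -/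
structure Mon (c : ℝ) (m : (Fin n → Bool) → ℝ) : Prop where
  pos : ∀ w, 0 < m w
  tot : ∑ w, m w = 1
  sup : ∀ a b, m a * m b ≤ m (a ⊓ b) * m (a ⊔ b)
  c0 : 0 < c
  c1 : c ≤ 1 / 2
  lo : ∀ (w : Fin n → Bool) (j : Fin n), c * m (Function.update w j false) ≤
    (1 - c) * m (Function.update w j true)
  hi : ∀ (w : Fin n → Bool) (j : Fin n), c * m (Function.update w j true) ≤
    (1 - c) * m (Function.update w j false)

/-- The rules `l j` encode the conditional probabilities of `m`. -/
structure Enc (m : (Fin n → Bool) → ℝ) (l : Fin n → Rule n → ℝ) : Prop where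
  pw : PW l
  mean : ∀ (j : Fin n) (x : Fin n → Bool), (∑ r : Rule n, if r x = true then l j r else 0) =
    cpr m j x
  mono : ∀ (j : Fin n) (r : Rule n), l j r ≠ 0 → ∀ x y : Fin n → Bool, cpr m j x ≤ cpr m j y →
    r x = true → r y = true

end rules

/-! ## Crossings and infinite clusters -/

section cross

variable {d : ℕ}

/-- The box `y + Λ_a` is connected to the boundary of `y + Λ_b` inside `y + Λ_b`. -/
def CrA (y : Vx d) (a b : ℕ) (O : Set (Ed d)) : Prop :=
  ∃ x ∈ bx y a, ∃ z ∈ bd y b, Cn (O ∩ (eb y b : Set (Ed d))) x z

/-- The events `F_ρ`: the box `Λ_ρ` is connected to the boundary of `Λ_{K - ρ}`. -/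
def Fv (d K ρ : ℕ) : Set (Ed d → Bool) := {ω | CrA (0 : Vx d) ρ (K - ρ) (cfg ω)}

/-- The probability of `F_ρ`. -/
noncomputable def th (μ : Measure (Ed d → Bool)) (K ρ : ℕ) : ℝ := μ.real (Fv d K ρ)

/-- The covariance of an event with the state of an edge. -/
noncomputable def cv (μ : Measure (Ed d → Bool)) (A : Set (Ed d → Bool)) (e : Ed d) : ℝ :=
  μ.real (A ∩ {ω | ω e = true}) - μ.real A * μ.real {ω | ω e = true}

/-- The open cluster of `x` is infinite. -/
def InfC (x : Vx d) (ω : Ed d → Bool) : Prop := {w | Cn (cfg ω) x w}.Infinite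

end cross

/-- The critical point: the supremum of the `p ∈ [0, 1]` such that the cluster of the origin is
finite almost surely for the wired measure. -/
noncomputable def pcr (d : ℕ) (q : ℝ) : ℝ :=
  sSup {p : ℝ | 0 ≤ p ∧ p ≤ 1 ∧ ∀ μ : Measure (Ed d → Bool), IsWired d p q μ →
    μ {ω | InfC (0 : Vx d) ω} = 0}

end Pool.Agent.FKT
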