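import Mathlib

/-!
# Project FKT: the random-cluster model (MP_552f07_pr). Definitions.

General graphs: `E` is the type of edges, the edge `e` joins `s e` to `t e`; `R` is a wiring
relation on the vertices (pairs identified for free); a configuration is a finite set of open
edges `ω : Finset E` (or `O : Set E`).
-/

set_option autoImplicit false

namespace Pool.Agent.FKT

open Filter MeasureTheory

section graph

variable {V E : Type} [DecidableEq V] [DecidableEq E]

/-- One step: a wired pair or an open edge (taken from `s e` to `t e`). -/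
def Step (s t : E → V) (R : V → V → Prop) (O : Set E) (a b : V) : Prop :=
  R a b ∨ ∃ e ∈ O, s e = a ∧ t e = b

/-- `a` and `b` are connected by open edges and wired pairs. -/
def Con (s t : E → V) (R : V → V → Prop) (O : Set E) : V → V → Prop :=
  Relation.EqvGen (Step s t R O)

/-- No wiring. -/
def no (V : Type) : V → V → Prop := fun _ _ => False

/-- The cluster of `v`. -/
def clus (s t : E → V) (R : V → V → Prop) (O : Set E) (v : V) : Set V := {w | Con s t R O v w}

/-- The number of clusters which meet the vertex set `U`. -/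
noncomputable def ncl (s t : E → V) (R : V → V → Prop) (U : Finset V) (O : Set E) : ℕ :=
  (clus s t R O '' (U : Set V)).ncard

/-- The Bernoulli weight of `ω ⊆ G`. -/
noncomputable def bw (p : ℝ) (G ω : Finset E) : ℝ :=
  p ^ ω.card * (1 - p) ^ (G.card - ω.card)

/-- The Bernoulli expectation on the edge set `G`. -/
noncomputable def EB (p : ℝ) (G : Finset E) (f : Finset E → ℝ) : ℝ :=
  ∑ ω ∈ G.powerset, bw p G ω * f ω

/-- The random-cluster weight: vertices `U`, edges `G`, wiring `R`. -/
noncomputable def wt (s t : E → V) (R : V → V → Prop) (U : Finset V) (G : Finset E) (p q : ℝ)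
    (ω : Finset E) : ℝ :=
  bw p G ω * q ^ ncl s t R U (ω : Set E)

/-- The random-cluster expectation. -/
noncomputable def Ex (s t : E → V) (R : V → V → Prop) (U : Finset V) (G : Finset E) (p q : ℝ)
    (f : Finset E → ℝ) : ℝ :=
  (∑ ω ∈ G.powerset, wt s t R U G p q ω * f ω) / ∑ ω ∈ G.powerset, wt s t R U G p q ω

open Classical in
/-- The edges of `G` with an end in a cluster (without wiring) of a vertex of `X`. -/
noncomputable def tch (s t : E → V) (X : Set V) (G ω : Finset E) : Finset E :=
  G.filter fun e => ∃ x ∈ X, Con s t (no V) (ω : Set E) x (s e) ∨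
    Con s t (no V) (ω : Set E) x (t e)

open Classical in
/-- The contacts: edges of `G` joining two different clusters of vertices of `X`. -/
noncomputable def ctc (s t : E → V) (X : Set V) (G ω : Finset E) : Finset E :=
  G.filter fun e => ¬ Con s t (no V) (ω : Set E) (s e) (t e) ∧
    (∃ x ∈ X, Con s t (no V) (ω : Set E) x (s e)) ∧ ∃ x ∈ X, Con s t (no V) (ω : Set E) x (t e)

/-- The centred number of open edges of `T`. -/
noncomputable def Sm (p : ℝ) (T ω : Finset E) : ℝ :=
  ∑ e ∈ T, ((if e ∈ ω then 1 else 0) - p)

/-- `A` is a union of clusters. -/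
def Cpt (s t : E → V) (R : V → V → Prop) (O : Set E) (A : Set V) : Prop :=
  (∀ a b, R a b → (a ∈ A ↔ b ∈ A)) ∧ ∀ e ∈ O, (s e ∈ A ↔ t e ∈ A)

open Classical in
/-- The edges of `G` with both ends in `A`. -/
noncomputable def ins (s t : E → V) (A : Set V) (G : Finset E) : Finset E :=
  G.filter fun e => s e ∈ A ∧ t e ∈ A

/-- The harmonic numbers. -/
noncomputable def Hh (n : ℕ) : ℝ := ∑ i ∈ Finset.range n, 1 / ((i : ℝ) + 1)

open Classical in
/-- The configuration `O` restricted to the finite set `F`. -/
noncomputable def rs (F : Finset E) (O : Set E) : Finset E := F.filter fun e => e ∈ O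

end graph

/-! ## The lattice -/

/-- The vertices of the cubic lattice. -/
abbrev Vx (d : ℕ) : Type := Fin d → ℤ

/-- The edges: `(x, i)` joins `x` to `x + e_i`. -/
abbrev Ed (d : ℕ) : Type := Vx d × Fin d

section lattice

variable {d : ℕ}

/-- The second end of an edge. -/
def tgt (e : Ed d) : Vx d := e.1 + Pi.single e.2 1

/-- The box `x + Λ_n`. -/
noncomputable def bx (x : Vx d) (n : ℕ) : Finset (Vx d) := Finset.Icc (fun i => x i - n) (fun i => x i + n)

/-- The boundary of the box `x + Λ_n`. -/
noncomputable def bd (x : Vx d) (n : ℕ) : Finset (Vx d) :=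
  (bx x n).filter fun v => ∃ i, v i = x i - n ∨ v i = x i + n

/-- The edges of the box `x + Λ_n`. -/
noncomputable def eb (x : Vx d) (n : ℕ) : Finset (Ed d) :=
  ((bx x n) ×ˢ (Finset.univ : Finset (Fin d))).filter fun e => tgt e ∈ bx x n

/-- The wired boundary. -/
def Wir (x : Vx d) (n : ℕ) (a b : Vx d) : Prop := a ∈ bd x n ∧ b ∈ bd x n

/-- The wired random-cluster expectation on the box `x + Λ_n`. -/
noncomputable def phi (x : Vx d) (n : ℕ) (p q : ℝ) (f : Finset (Ed d) → ℝ) : ℝ :=
  Ex Prod.fst tgt (Wir x n) (bx x n) (eb x n) p q f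

/-- Connection in the lattice by open edges. -/
def Cn (O : Set (Ed d)) : Vx d → Vx d → Prop := Con Prod.fst tgt (no (Vx d)) O

/-- The open edges of a configuration. -/
def cfg (ω : Ed d → Bool) : Set (Ed d) := {e | ω e = true}

/-- The cylinder. -/
def Cyl (F T : Finset (Ed d)) : Set (Ed d → Bool) := {ω | ∀ e ∈ F, ω e = true ↔ e ∈ T}

/-- Translation of the edges by `y`. -/
def trE (y : Vx d) : Ed d ≃ Ed d := (Equiv.addRight y).prodCongr (Equiv.refl (Fin d))

/-- The translated configuration `O - y`. -/
def sh (y : Vx d) (ω : Ed d → Bool) : Ed d → Bool := fun e => ω (trE y e)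

/-- The two-arm event for the edge `(x, i)` at distance `k`: in the box `x + Λ_k` the ends of the
edge are in distinct clusters and both clusters reach the boundary of the box. -/
def TwoArm (O : Set (Ed d)) (x : Vx d) (i : Fin d) (k : ℕ) : Prop :=
  ¬ Cn (O ∩ (eb x k : Set (Ed d))) x (x + Pi.single i 1) ∧
    (∃ z ∈ bd x k, Cn (O ∩ (eb x k : Set (Ed d))) z x) ∧
      ∃ z ∈ bd x k, Cn (O ∩ (eb x k : Set (Ed d))) z (x + Pi.single i 1)

end lattice

/-- `μ` is the wired random-cluster measure on the lattice: the weak limit of the wired measures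
of the boxes `Λ_n`. -/
structure IsWired (d : ℕ) (p q : ℝ) (μ : Measure (Ed d → Bool)) : Prop where
  prob : IsProbabilityMeasure μ
  lim : ∀ F T : Finset (Ed d), T ⊆ F →
    Tendsto (fun n : ℕ => phi (0 : Vx d) n p q fun ω => if ω ∩ F = T then 1 else 0) atTop
      (nhds (μ.real (Cyl F T)))

end Pool.Agent.FKT
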