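import Pool.Agent.FKT.TargetsA

/-!
# Project FKT: the target T_AVE
-/

set_option autoImplicit false

namespace Pool.Agent.FKT

namespace AVE_

variable {V E : Type} [DecidableEq V] [DecidableEq E]

omit [DecidableEq E] in
lemma congr (p : ℝ) (G : Finset E) (f g : Finset E → ℝ) (h : ∀ ω, ω ⊆ G → f ω = g ω) :
    EB p G f = EB p G g := by
  unfold EB
  apply Finset.sum_congr rfl
  intro ω hω
  rw [h ω (Finset.mem_powerset.mp hω)]

omit [DecidableEq E] in
lemma mulc (p : ℝ) (G : Finset E) (f : Finset E → ℝ) (c : ℝ) :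
    EB p G (fun ω => f ω * c) = EB p G f * c := by
  unfold EB
  rw [Finset.sum_mul]
  apply Finset.sum_congr rfl
  intro ω _
  ring

open Classical in
/-- The weight of a configuration outside `A`. -/
noncomputable def w (s t : E → V) (R : V → V → Prop) (U A : Finset V) (q : ℝ)
    (ω : Finset E) : ℝ :=
  if Cpt s t R (ω : Set E) (A : Set V) then (q - 1) ^ ncl s t R (U \ A) (ω : Set E) else 0

omit [DecidableEq E] in
lemma w_nonneg (s t : E → V) (R : V → V → Prop) (U A : Finset V) (q : ℝ) (hq : 1 ≤ q)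
    (ω : Finset E) : 0 ≤ w s t R U A q ω := by
  unfold w
  split_ifs
  · exact pow_nonneg (by linarith) _
  · exact le_refl _

omit [DecidableEq V] [DecidableEq E] in
lemma mem_ins (s t : E → V) (A : Set V) (G : Finset E) (e : E) :
    e ∈ ins s t A G ↔ e ∈ G ∧ s e ∈ A ∧ t e ∈ A := by
  classical
  unfold ins
  rw [Finset.mem_filter]

lemma w_union (h_CLI : T_CLI) (s t : E → V) (R : V → V → Prop) (U A : Finset V) (G : Finset E)
    (q : ℝ) (α γ : Finset E) (hα : α ⊆ ins s t (A : Set V) G) :
    w s t R U A q (α ∪ γ) = w s t R U A q γ := by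
  classical
  have hin : ∀ e ∈ (α : Set E), s e ∈ A ∧ t e ∈ A := by
    intro e he
    have h1 := (mem_ins s t (A : Set V) G e).mp (hα he)
    exact ⟨by simpa using h1.2.1, by simpa using h1.2.2⟩
  have hc : Cpt s t R ((α ∪ γ : Finset E) : Set E) (A : Set V) ↔
      Cpt s t R (γ : Set E) (A : Set V) := by
    unfold Cpt
    constructor
    · rintro ⟨h1, h2⟩
      refine ⟨h1, fun e he => h2 e ?_⟩
      rw [Finset.coe_union]
      exact Or.inr he
    · rintro ⟨h1, h2⟩
      refine ⟨h1, fun e he => ?_⟩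
      rw [Finset.coe_union] at he
      rcases he with he | he
      · have := hin e he
        simp [this.1, this.2]
      · exact h2 e he
  unfold w
  by_cases hγ : Cpt s t R (γ : Set E) (A : Set V)
  · rw [if_pos hγ, if_pos (hc.mpr hγ), Finset.coe_union, Set.union_comm,
      h_CLI V E s t R U A (γ : Set E) (α : Set E) hγ hin]
  · rw [if_neg hγ, if_neg (fun h => hγ (hc.mp h))]

lemma fact (h_BER : T_BER) (h_CLI : T_CLI) (s t : E → V) (R : V → V → Prop)
    (U A : Finset V) (G : Finset E) (p q : ℝ) (h : Finset E → ℝ) :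
    EB p G (fun ω => w s t R U A q ω * h (ω ∩ ins s t (A : Set V) G)) =
      EB p (ins s t (A : Set V) G) h *
        EB p (G \ ins s t (A : Set V) G) (w s t R U A q) := by
  have hsub : ins s t (A : Set V) G ⊆ G := fun e he => ((mem_ins s t _ G e).mp he).1
  rw [(h_BER E p G).2.2.2.1 (ins s t (A : Set V) G) _ hsub]
  rw [← mulc]
  apply congr
  intro α hα
  rw [mul_comm, ← mulc]
  apply congr
  intro γ hγ
  have h1 : (α ∪ γ) ∩ ins s t (A : Set V) G = α := by
    ext e
    simp only [Finset.mem_inter, Finset.mem_union]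
    constructor
    · rintro ⟨h2 | h2, h3⟩
      · exact h2
      · exact absurd h3 (Finset.mem_sdiff.mp (hγ h2)).2
    · intro h2
      exact ⟨Or.inl h2, hα h2⟩
  simp only [h1, w_union h_CLI s t R U A G q α γ hα]

open Classical in
lemma lhs (s t : E → V) (R : V → V → Prop) (U A : Finset V) (G : Finset E) (p q : ℝ)
    (h : Finset E → ℝ) :
    ∑ ω ∈ G.powerset.filter (fun ω : Finset E => Cpt s t R (ω : Set E) (A : Set V)),
      bw p G ω * (q - 1) ^ ncl s t R (U \ A) (ω : Set E) * h (ω ∩ ins s t (A : Set V) G) =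
    EB p G (fun ω => w s t R U A q ω * h (ω ∩ ins s t (A : Set V) G)) := by
  rw [Finset.sum_filter]
  unfold EB w
  apply Finset.sum_congr rfl
  intro ω _
  beta_reduce
  by_cases hc : Cpt s t R (ω : Set E) (A : Set V)
  · rw [if_pos hc, if_pos hc]
    ring
  · rw [if_neg hc, if_neg hc]
    ring

end AVE_

open AVE_ in
theorem p_AVE (h_BER : T_BER) (h_CLI : T_CLI) : T_AVE := by
  intro V E _ _ s t R U A G p q B h hp0 hp1 hq hB
  have e2 := lhs s t R U A G p q (fun _ => 1)
  simp only [mul_one] at e2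
  rw [lhs, e2, fact h_BER h_CLI]
  have e3 := fact h_BER h_CLI s t R U A G p q (fun _ => 1)
  simp only [mul_one] at e3
  rw [e3, (h_BER E p _).2.1, one_mul]
  apply mul_le_mul_of_nonneg_right hB
  have h5 := (h_BER E p (G \ ins s t (A : Set V) G)).2.2.2.2 hp0 hp1 (fun _ => 0)
    (w s t R U A q) (fun ω _ => w_nonneg s t R U A q hq ω)
  have h0 : EB p (G \ ins s t (A : Set V) G) (fun _ => 0) = 0 := by
    unfold EB
    simp
  rw [h0] at h5
  exact h5

end Pool.Agent.FKT
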