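import Pool.Agent.FKT.TargetsA

/-!
# Project FKT: proofs of the targets CLI and CTA
-/

set_option autoImplicit false

namespace Pool.Agent.FKT

open Filter MeasureTheory

namespace CLI_

variable {V E : Type}

lemma gen (s t : E → V) (R : V → V → Prop) (P : V → Prop) (O₁ O₂ : Set E)
    (hR : ∀ a b, R a b → (P a ↔ P b))
    (hO : ∀ e ∈ O₁, (P (s e) ↔ P (t e)) ∧ (P (s e) → e ∈ O₂)) {a b : V}
    (h : Con s t R O₁ a b) : (P a ↔ P b) ∧ (P a → Con s t R O₂ a b) := by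
  unfold Con at h ⊢
  induction h with
  | rel x y hxy =>
    rcases hxy with hxy | ⟨e, he, hs, ht⟩
    · exact ⟨hR x y hxy, fun _ => Relation.EqvGen.rel _ _ (Or.inl hxy)⟩
    · subst hs
      subst ht
      exact ⟨(hO e he).1, fun hP =>
        Relation.EqvGen.rel _ _ (Or.inr ⟨e, (hO e he).2 hP, rfl, rfl⟩)⟩
  | refl x => exact ⟨Iff.rfl, fun _ => Relation.EqvGen.refl x⟩
  | symm x y _ ih => exact ⟨ih.1.symm, fun hy => Relation.EqvGen.symm _ _ (ih.2 (ih.1.2 hy))⟩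
  | trans x y z _ _ ih₁ ih₂ =>
    exact ⟨ih₁.1.trans ih₂.1, fun hx =>
      Relation.EqvGen.trans _ _ _ (ih₁.2 hx) (ih₂.2 (ih₁.1.1 hx))⟩

lemma mono (s t : E → V) (R : V → V → Prop) (O₁ O₂ : Set E) (h : O₁ ⊆ O₂) {a b : V}
    (hab : Con s t R O₁ a b) : Con s t R O₂ a b :=
  (gen s t R (fun _ => True) O₁ O₂ (fun _ _ _ => Iff.rfl)
    (fun _ he => ⟨Iff.rfl, fun _ => h he⟩) hab).2 trivial

end CLI_

open CLI_ in
theorem p_CLI : T_CLI := by
  intro V E _ s t R U A O O' hC hO'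
  unfold ncl
  congr 1
  refine Set.image_congr fun v hv => ?_
  have hvA : v ∉ A := by
    have h1 : v ∈ U \ A := hv
    exact (Finset.mem_sdiff.1 h1).2
  ext w
  constructor
  · intro h
    refine (gen s t R (fun x => x ∉ A) (O ∪ O') O ?_ ?_ h).2 hvA
    · intro a b hab
      have h1 := hC.1 a b hab
      simp only [Finset.mem_coe] at h1
      exact not_congr h1
    · intro e he
      rcases he with he | he
      · have h1 := hC.2 e he
        simp only [Finset.mem_coe] at h1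
        exact ⟨not_congr h1, fun _ => he⟩
      · obtain ⟨h1, h2⟩ := hO' e he
        exact ⟨⟨fun h3 => absurd h1 h3, fun h3 => absurd h2 h3⟩, fun h3 => absurd h1 h3⟩
  · intro h
    exact mono s t R O (O ∪ O') Set.subset_union_left h

open CLI_ Classical in
theorem p_CTA : T_CTA := by
  intro V E _ s t X A G' ω hω
  have key : ∀ a b : V, b ∈ A → (Con s t (no V) ((ω ∩ G' : Finset E) : Set E) a b ↔
      a ∈ A ∧ Con s t (no V) ((ω ∩ ins s t A G' : Finset E) : Set E) a b) := by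
    intro a b hb
    constructor
    · intro h
      have h1 := gen s t (no V) (fun x => x ∈ A) ((ω ∩ G' : Finset E) : Set E)
        ((ω ∩ ins s t A G' : Finset E) : Set E) (fun _ _ h => h.elim) (by
          intro e he
          have he' : e ∈ ω ∩ G' := he
          rw [Finset.mem_inter] at he'
          refine ⟨hω e he'.1, fun hs => ?_⟩
          show e ∈ ω ∩ ins s t A G'
          rw [Finset.mem_inter]
          refine ⟨he'.1, ?_⟩
          unfold ins
          rw [Finset.mem_filter]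
          exact ⟨he'.2, hs, (hω e he'.1).1 hs⟩) h
      exact ⟨h1.1.2 hb, h1.2 (h1.1.2 hb)⟩
    · rintro ⟨_, h⟩
      refine mono s t (no V) _ _ ?_ h
      intro e he
      have he' : e ∈ ω ∩ ins s t A G' := he
      show e ∈ ω ∩ G'
      rw [Finset.mem_inter] at he' ⊢
      unfold ins at he'
      rw [Finset.mem_filter] at he'
      exact ⟨he'.1, he'.2.1⟩
  ext e
  unfold ins ctc
  simp only [Finset.mem_filter]
  constructor
  · rintro ⟨⟨heG, h1, ⟨x, hxX, hx⟩, ⟨y, hyX, hy⟩⟩, hs, ht⟩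
    refine ⟨⟨heG, hs, ht⟩, fun h => h1 ((key _ _ ht).2 ⟨hs, h⟩), ?_, ?_⟩
    · exact ⟨x, ⟨hxX, ((key _ _ hs).1 hx).1⟩, ((key _ _ hs).1 hx).2⟩
    · exact ⟨y, ⟨hyX, ((key _ _ ht).1 hy).1⟩, ((key _ _ ht).1 hy).2⟩
  · rintro ⟨⟨heG, hs, ht⟩, h1, ⟨x, ⟨hxX, hxA⟩, hx⟩, ⟨y, ⟨hyX, hyA⟩, hy⟩⟩
    refine ⟨⟨heG, fun h => h1 ((key _ _ ht).1 h).2, ?_, ?_⟩, hs, ht⟩
    · exact ⟨x, hxX, (key _ _ hs).2 ⟨hxA, hx⟩⟩
    · exact ⟨y, hyX, (key _ _ ht).2 ⟨hyA, hy⟩⟩

end Pool.Agent.FKT
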