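import Pool.Agent.FKT.TargetsA

set_option autoImplicit false

namespace Pool.Agent.FKT

namespace COL_

variable {V E : Type} {s t : E → V} {R : V → V → Prop} {O : Set E}

lemma con_refl (v : V) : Con s t R O v v := Relation.EqvGen.refl v

lemma clus_eq {v w : V} (h : Con s t R O v w) : clus s t R O v = clus s t R O w := by
  ext x
  exact ⟨fun hx => Relation.EqvGen.trans _ _ _ (Relation.EqvGen.symm _ _ h) hx,
    fun hx => Relation.EqvGen.trans _ _ _ h hx⟩

lemma con_of_clus {v w : V} (h : clus s t R O v = clus s t R O w) : Con s t R O v w := by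
  have : w ∈ clus s t R O w := con_refl w
  rw [← h] at this
  exact this

/-- compatible sets are closed under connection -/
lemma cpt_con {A : Set V} (hA : Cpt s t R O A) {v w : V} (h : Con s t R O v w) :
    v ∈ A ↔ w ∈ A := by
  induction h with
  | rel a b hab =>
    rcases hab with hab | ⟨e, he, h1, h2⟩
    · exact hA.1 a b hab
    · rw [← h1, ← h2]
      exact hA.2 e he
  | refl a => exact Iff.rfl
  | symm a b _ ih => exact ih.symm
  | trans a b c _ _ ih1 ih2 => exact ih1.trans ih2

open Classical in
lemma ncl_eq (U : Finset V) : ncl s t R U O = (U.image (clus s t R O)).card := by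
  unfold ncl
  rw [← Finset.coe_image, Set.ncard_coe_finset]

open Classical in
lemma key [DecidableEq V] (U : Finset V) (q : ℝ) (hU : Cpt s t R O (U : Set V))
    (P : Finset (Set V)) :
    ∑ A ∈ U.powerset.filter (fun A : Finset V => Cpt s t R O (A : Set V) ∧
        ∀ w ∈ U, clus s t R O w ∈ P → w ∈ A),
      (q - 1) ^ ncl s t R (U \ A) O = q ^ (U.image (clus s t R O) \ P).card := by
  set c : V → Set V := clus s t R O with hc
  have h1 : ∑ T ∈ (U.image c \ P).powerset, (q - 1) ^ T.card =
      q ^ (U.image c \ P).card := by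
    have h := Finset.sum_pow_mul_eq_add_pow (q - 1) (1 : ℝ) (U.image c \ P)
    simp only [one_pow, mul_one, sub_add_cancel] at h
    exact h
  rw [← h1]
  refine Finset.sum_nbij' (fun A => (U \ A).image c) (fun T => U.filter (fun v => c v ∉ T))
    ?_ ?_ ?_ ?_ ?_
  · intro A hA
    rw [Finset.mem_filter, Finset.mem_powerset] at hA
    rw [Finset.mem_powerset]
    intro C hC
    rw [Finset.mem_image] at hC
    obtain ⟨w, hw, rfl⟩ := hC
    rw [Finset.mem_sdiff] at hw
    rw [Finset.mem_sdiff]
    exact ⟨Finset.mem_image_of_mem _ hw.1, fun hP => hw.2 (hA.2.2 w hw.1 hP)⟩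
  · intro T hT
    rw [Finset.mem_powerset] at hT
    rw [Finset.mem_filter, Finset.mem_powerset]
    refine ⟨Finset.filter_subset _ _, ⟨fun a b hab => ?_, fun e he => ?_⟩, fun w hw hP => ?_⟩
    · have h2 : Con s t R O a b := Relation.EqvGen.rel _ _ (Or.inl hab)
      have h3 : c a = c b := clus_eq h2
      have h4 : a ∈ U ↔ b ∈ U := by
        have := hU.1 a b hab
        simpa using this
      simp only [Finset.coe_filter, Set.mem_ofPred_eq, h3, h4]
    · have h2 : Con s t R O (s e) (t e) := Relation.EqvGen.rel _ _ (Or.inr ⟨e, he, rfl, rfl⟩)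
      have h3 : c (s e) = c (t e) := clus_eq h2
      have h4 : s e ∈ U ↔ t e ∈ U := by
        have := hU.2 e he
        simpa using this
      simp only [Finset.coe_filter, Set.mem_ofPred_eq, h3, h4]
    · rw [Finset.mem_filter]
      refine ⟨hw, fun hT' => ?_⟩
      exact (Finset.mem_sdiff.mp (hT hT')).2 hP
  · intro A hA
    rw [Finset.mem_filter, Finset.mem_powerset] at hA
    ext v
    simp only [Finset.mem_filter, Finset.mem_image, Finset.mem_sdiff, not_exists, not_and]
    constructor
    · rintro ⟨hv, h⟩
      by_contra hvA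
      exact h v ⟨hv, hvA⟩ rfl
    · intro hv
      refine ⟨hA.1 hv, ?_⟩
      rintro w ⟨_, hwA⟩ hcw
      have h2 : Con s t R O w v := con_of_clus hcw
      have h3 := (cpt_con hA.2.1 h2).mpr (by simpa using hv)
      exact hwA (by simpa using h3)
  · intro T hT
    rw [Finset.mem_powerset] at hT
    ext C
    simp only [Finset.mem_image, Finset.mem_sdiff, Finset.mem_filter, not_and, not_not]
    constructor
    · rintro ⟨w, ⟨hw, hwT⟩, rfl⟩
      exact hwT hw
    · intro hC
      obtain ⟨w, hw, rfl⟩ := Finset.mem_image.mp (Finset.mem_sdiff.mp (hT hC)).1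
      exact ⟨w, ⟨hw, fun _ => hC⟩, rfl⟩
  · intro A _
    rw [ncl_eq]

end COL_

open Classical in
theorem p_COL : T_COL := by
  intro V E _ s t R U O q hq hU
  refine ⟨?_, ?_⟩
  · have h := COL_.key (s := s) (t := t) (R := R) (O := O) U q hU ∅
    rw [COL_.ncl_eq, ← Finset.sdiff_empty (s := U.image (clus s t R O)), ← h]
    refine Finset.sum_congr ?_ fun _ _ => rfl
    apply Finset.filter_congr
    intro A _
    simp
  · intro u hu v hv
    have h := COL_.key (s := s) (t := t) (R := R) (O := O) U q hU
      {clus s t R O u, clus s t R O v}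
    have he : U.powerset.filter (fun A : Finset V => Cpt s t R O (A : Set V) ∧ u ∈ A ∧ v ∈ A) =
        U.powerset.filter (fun A : Finset V => Cpt s t R O (A : Set V) ∧
          ∀ w ∈ U, clus s t R O w ∈ ({clus s t R O u, clus s t R O v} : Finset (Set V)) →
            w ∈ A) := by
      apply Finset.filter_congr
      intro A _
      constructor
      · rintro ⟨hA, h1, h2⟩
        refine ⟨hA, fun w _ hw => ?_⟩
        rw [Finset.mem_insert, Finset.mem_singleton] at hw
        rcases hw with hw | hw
        · have := (COL_.cpt_con hA (COL_.con_of_clus hw)).mpr (by simpa using h1)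
          simpa using this
        · have := (COL_.cpt_con hA (COL_.con_of_clus hw)).mpr (by simpa using h2)
          simpa using this
      · rintro ⟨hA, h1⟩
        exact ⟨hA, h1 u hu (by simp), h1 v hv (by simp)⟩
    rw [he, h, COL_.ncl_eq, ← pow_add]
    apply pow_le_pow_right₀ hq
    have h2 : ({clus s t R O u, clus s t R O v} : Finset (Set V)).card ≤ 2 :=
      Finset.card_le_two
    have h3 := Finset.le_card_sdiff ({clus s t R O u, clus s t R O v} : Finset (Set V))
      (U.image (clus s t R O))
    omega

end Pool.Agent.FKT
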