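import Pool.Agent.FKT.TargetsA

/-!
# Project FKT: CTB, the expected number of contacts, Bernoulli case
-/

set_option autoImplicit false

namespace Pool.Agent.FKT

namespace CTB_

variable {E : Type}

theorem bw_nonneg {p : ℝ} (h0 : 0 ≤ p) (h1 : p ≤ 1) (G ω : Finset E) : 0 ≤ bw p G ω := by
  unfold bw
  have h2 : 0 ≤ 1 - p := by linarith
  positivity

theorem EB_add (p : ℝ) (G : Finset E) (f g : Finset E → ℝ) :
    EB p G (fun ω => f ω + g ω) = EB p G f + EB p G g := by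
  unfold EB
  simp only [mul_add]
  exact Finset.sum_add_distrib

theorem EB_mul (p : ℝ) (G : Finset E) (c : ℝ) (f : Finset E → ℝ) :
    EB p G (fun ω => c * f ω) = c * EB p G f := by
  unfold EB
  rw [Finset.mul_sum]
  refine Finset.sum_congr rfl fun ω _ => ?_
  ring

theorem EB_sum {ι : Type} (p : ℝ) (G : Finset E) (X : Finset ι) (f : ι → Finset E → ℝ) :
    EB p G (fun ω => ∑ x ∈ X, f x ω) = ∑ x ∈ X, EB p G (f x) := by
  unfold EB
  rw [Finset.sum_comm]
  refine Finset.sum_congr rfl fun ω _ => ?_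
  rw [Finset.mul_sum]

theorem EB_sqrt {p : ℝ} (h0 : 0 ≤ p) (h1 : p ≤ 1) (G : Finset E)
    (hone : EB p G (fun _ => 1) = 1) (Z : Finset E → ℝ) (hZ : ∀ ω, 0 ≤ Z ω) :
    EB p G (fun ω => Real.sqrt (Z ω)) ≤ Real.sqrt (EB p G Z) := by
  apply Real.le_sqrt_of_sq_le
  have key := Finset.sum_mul_sq_le_sq_mul_sq G.powerset (fun ω => Real.sqrt (bw p G ω))
    (fun ω => Real.sqrt (bw p G ω) * Real.sqrt (Z ω))
  have e1 : ∀ ω : Finset E, Real.sqrt (bw p G ω) * (Real.sqrt (bw p G ω) * Real.sqrt (Z ω)) =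
      bw p G ω * Real.sqrt (Z ω) := by
    intro ω
    rw [← mul_assoc, Real.mul_self_sqrt (bw_nonneg h0 h1 G ω)]
  have e2 : ∀ ω : Finset E, Real.sqrt (bw p G ω) ^ 2 = bw p G ω * 1 := by
    intro ω
    rw [Real.sq_sqrt (bw_nonneg h0 h1 G ω), mul_one]
  have e3 : ∀ ω : Finset E, (Real.sqrt (bw p G ω) * Real.sqrt (Z ω)) ^ 2 = bw p G ω * Z ω := by
    intro ω
    rw [mul_pow, Real.sq_sqrt (bw_nonneg h0 h1 G ω), Real.sq_sqrt (hZ ω)]
  simp only [e1, e2, e3] at key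
  unfold EB at hone ⊢
  rw [hone, one_mul] at key
  exact key

theorem Hh_nonneg (n : ℕ) : 0 ≤ Hh n := by
  unfold Hh
  refine Finset.sum_nonneg fun i _ => ?_
  positivity

end CTB_

open CTB_ in
theorem p_CTB (h_BER : T_BER) (h_EXP : T_EXP) (h_DET : T_DET) : T_CTB := by
  intro V E _ s t p hp0 hp1 X G
  obtain ⟨-, hone, -, -, hmono⟩ := h_BER E p G
  have hp0' : 0 ≤ p := hp0.le
  set Z : Finset E → ℝ := fun ω => 2 * (G.card : ℝ) * ∑ x ∈ X,
        (Sm p (tch s t {x} G ω) ω) ^ 2 / ((tch s t {x} G ω).card : ℝ) with hZdef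
  have hZ : ∀ ω, 0 ≤ Z ω := by
    intro ω
    rw [hZdef]
    refine mul_nonneg (by positivity) (Finset.sum_nonneg fun x _ => ?_)
    positivity
  have h1 : EB p G (fun ω => p * ((ctc s t (X : Set V) G ω).card : ℝ)) ≤
      EB p G (fun ω => Sm p (tch s t (X : Set V) G ω) ω + Real.sqrt (Z ω)) :=
    hmono hp0' hp1 _ _ fun ω hω => h_DET V E s t p X G ω hω
  rw [EB_mul, EB_add, (h_EXP V E s t p hp0' hp1 G (X : Set V)).2.2, zero_add] at h1
  have h2 := EB_sqrt hp0' hp1 G hone Z hZ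
  have h3 : EB p G Z ≤ 2 * (G.card : ℝ) * X.card * Hh G.card := by
    rw [hZdef, EB_mul, EB_sum]
    have h4 : ∑ x ∈ X, EB p G (fun ω => (Sm p (tch s t {x} G ω) ω) ^ 2 /
        ((tch s t {x} G ω).card : ℝ)) ≤ ∑ _x ∈ X, Hh G.card := by
      refine Finset.sum_le_sum fun x _ => ?_
      refine (h_EXP V E s t p hp0' hp1 G {x}).2.1.trans ?_
      have h5 : p * (1 - p) ≤ 1 := by nlinarith [sq_nonneg p]
      calc p * (1 - p) * Hh G.card ≤ 1 * Hh G.card :=
            mul_le_mul_of_nonneg_right h5 (Hh_nonneg _)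
        _ = Hh G.card := one_mul _
    rw [Finset.sum_const, nsmul_eq_mul] at h4
    calc 2 * (G.card : ℝ) * ∑ x ∈ X, EB p G (fun ω => (Sm p (tch s t {x} G ω) ω) ^ 2 /
          ((tch s t {x} G ω).card : ℝ)) ≤ 2 * (G.card : ℝ) * (X.card * Hh G.card) :=
            mul_le_mul_of_nonneg_left h4 (by positivity)
      _ = 2 * (G.card : ℝ) * X.card * Hh G.card := by ring
  have h6 : p * EB p G (fun ω => ((ctc s t (X : Set V) G ω).card : ℝ)) ≤
      Real.sqrt (2 * (G.card : ℝ) * X.card * Hh G.card) :=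
    h1.trans (h2.trans (Real.sqrt_le_sqrt h3))
  rw [one_div, inv_mul_eq_div, le_div_iff₀ hp0, mul_comm]
  exact h6

end Pool.Agent.FKT
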