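import Pool.Agent.FKT.TargetsA

/-!
# Project FKT: the target T_CTF
-/

set_option autoImplicit false

namespace Pool.Agent.FKT

namespace CTF_

theorem Hh_mono {m n : ℕ} (h : m ≤ n) : Hh m ≤ Hh n := by
  unfold Hh
  exact Finset.sum_le_sum_of_subset_of_nonneg (Finset.range_mono h)
    (fun i _ _ => by positivity)

theorem Hh_nonneg (n : ℕ) : 0 ≤ Hh n := by
  unfold Hh
  exact Finset.sum_nonneg fun i _ => by positivity

open Classical in
theorem ins_sub {V E : Type} (s t : E → V) (A : Set V) (G : Finset E) : ins s t A G ⊆ G :=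
  Finset.filter_subset _ _

open Classical in
theorem ins_mono {V E : Type} (s t : E → V) (A : Set V) {G' G : Finset E} (h : G' ⊆ G) :
    ins s t A G' ⊆ ins s t A G :=
  Finset.filter_subset_filter _ h

open Classical in
theorem mem_ins {V E : Type} {s t : E → V} {A : Set V} {G : Finset E} {e : E} :
    e ∈ ins s t A G ↔ e ∈ G ∧ s e ∈ A ∧ t e ∈ A := by
  unfold ins
  exact Finset.mem_filter

open Classical in
theorem ctc_sub {V E : Type} (s t : E → V) (X : Set V) (G ω : Finset E) :
    ctc s t X G ω ⊆ G :=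
  Finset.filter_subset _ _

theorem bw_pos {E : Type} {p : ℝ} (h0 : 0 < p) (h1 : p < 1) (G ω : Finset E) : 0 < bw p G ω := by
  unfold bw
  have : 0 < 1 - p := by linarith
  positivity

variable {V E : Type} [DecidableEq V] [DecidableEq E]

open Classical in
/-- the pointwise bound -/
theorem pt (hCOL : T_COL) (hCTA : T_CTA) (s t : E → V) (R : V → V → Prop) (U : Finset V)
    (G : Finset E) (q : ℝ) (hq : 1 ≤ q) (hR : ∀ a b, R a b → a ∈ U ∧ b ∈ U)
    (hG : ∀ e ∈ G, s e ∈ U ∧ t e ∈ U) (X : Finset V) (G' : Finset E) (hG' : G' ⊆ G)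
    (ω : Finset E) (hω : ω ⊆ G) :
    q ^ ncl s t R U (ω : Set E) * ((ctc s t (X : Set V) G' (ω ∩ G')).card : ℝ) ≤
      q ^ 2 * ∑ A ∈ U.powerset.filter (fun A : Finset V => Cpt s t R (ω : Set E) (A : Set V)),
        (q - 1) ^ ncl s t R (U \ A) (ω : Set E) *
          ((ctc s t ((X : Set V) ∩ (A : Set V)) (ins s t (A : Set V) G')
            (ω ∩ ins s t (A : Set V) G')).card : ℝ) := by
  set C := ctc s t (X : Set V) G' (ω ∩ G') with hC
  have hCG : ∀ e ∈ C, e ∈ G' := by
    intro e he
    exact ctc_sub _ _ _ _ _ he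
  have hU : Cpt s t R (ω : Set E) (U : Set V) := by
    refine ⟨fun a b h => ?_, fun e he => ?_⟩
    · have := hR a b h
      simp [this.1, this.2]
    · have := hG e (hω he)
      simp [this.1, this.2]
  have h2 := (hCOL V E s t R U (ω : Set E) q hq hU).2
  calc q ^ ncl s t R U (ω : Set E) * (C.card : ℝ)
      = ∑ e ∈ C, q ^ ncl s t R U (ω : Set E) := by
        rw [Finset.sum_const, nsmul_eq_mul, mul_comm]
    _ ≤ ∑ e ∈ C, q ^ 2 * ∑ A ∈ U.powerset.filter
          (fun A : Finset V => Cpt s t R (ω : Set E) (A : Set V) ∧ s e ∈ A ∧ t e ∈ A),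
          (q - 1) ^ ncl s t R (U \ A) (ω : Set E) := by
        refine Finset.sum_le_sum fun e he => ?_
        have := hG e (hG' (hCG e he))
        exact h2 (s e) this.1 (t e) this.2
    _ = q ^ 2 * ∑ e ∈ C, ∑ A ∈ U.powerset.filter
          (fun A : Finset V => Cpt s t R (ω : Set E) (A : Set V) ∧ s e ∈ A ∧ t e ∈ A),
          (q - 1) ^ ncl s t R (U \ A) (ω : Set E) := by
        rw [Finset.mul_sum]
    _ = q ^ 2 * ∑ A ∈ U.powerset.filter
          (fun A : Finset V => Cpt s t R (ω : Set E) (A : Set V)),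
          ∑ e ∈ ins s t (A : Set V) C, (q - 1) ^ ncl s t R (U \ A) (ω : Set E) := by
        congr 1
        apply Finset.sum_comm'
        intro e A
        simp only [Finset.mem_filter, mem_ins, Finset.mem_coe]
        tauto
    _ = _ := by
        congr 1
        refine Finset.sum_congr rfl fun A hA => ?_
        rw [Finset.mem_filter] at hA
        rw [Finset.sum_const, nsmul_eq_mul, mul_comm]
        congr 2
        have h3 := hCTA V E s t (X : Set V) (A : Set V) G' ω (fun e he => hA.2.2 e he)
        rw [hC, h3]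

open Classical in
theorem main (hBER : T_BER) (hCTB : T_CTB) (hCOL : T_COL) (hAVE : T_AVE) (hCTA : T_CTA)
    (s t : E → V) (R : V → V → Prop) (U : Finset V) (G : Finset E) (p q : ℝ) (hp : 0 < p)
    (hp1 : p < 1) (hq : 1 ≤ q) (hR : ∀ a b, R a b → a ∈ U ∧ b ∈ U)
    (hG : ∀ e ∈ G, s e ∈ U ∧ t e ∈ U) (X : Finset V) (G' : Finset E) (hG' : G' ⊆ G) :
    Ex s t R U G p q (fun ω => ((ctc s t (X : Set V) G' (ω ∩ G')).card : ℝ)) ≤
      q ^ 2 / p * Real.sqrt (2 * (G'.card : ℝ) * X.card * Hh G'.card) := by
  set B : ℝ := 1 / p * Real.sqrt (2 * (G'.card : ℝ) * X.card * Hh G'.card) with hB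
  have hq0 : 0 ≤ q - 1 := by linarith
  have hZ : 0 < ∑ ω ∈ G.powerset, wt s t R U G p q ω := by
    apply Finset.sum_pos
    · intro ω _
      unfold wt
      have := bw_pos hp hp1 G ω
      have : 0 < q := by linarith
      positivity
    · exact ⟨∅, Finset.empty_mem_powerset G⟩
  unfold Ex
  rw [div_le_iff₀ hZ]
  -- the bound for each A
  have hA : ∀ A : Finset V, ∑ ω ∈ G.powerset.filter
      (fun ω : Finset E => Cpt s t R (ω : Set E) (A : Set V)),
      bw p G ω * (q - 1) ^ ncl s t R (U \ A) (ω : Set E) *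
        ((ctc s t ((X : Set V) ∩ (A : Set V)) (ins s t (A : Set V) G')
            (ω ∩ ins s t (A : Set V) G')).card : ℝ) ≤
      B * ∑ ω ∈ G.powerset.filter
        (fun ω : Finset E => Cpt s t R (ω : Set E) (A : Set V)),
        bw p G ω * (q - 1) ^ ncl s t R (U \ A) (ω : Set E) := by
    intro A
    have hsub : ins s t (A : Set V) G' ⊆ ins s t (A : Set V) G := ins_mono _ _ _ hG'
    have hE : EB p (ins s t (A : Set V) G) (fun α =>
        ((ctc s t ((X : Set V) ∩ (A : Set V)) (ins s t (A : Set V) G')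
            (α ∩ ins s t (A : Set V) G')).card : ℝ)) ≤ B := by
      have h1 := (hBER E p (ins s t (A : Set V) G)).2.2.1 (ins s t (A : Set V) G')
        (fun α => ((ctc s t ((X : Set V) ∩ (A : Set V)) (ins s t (A : Set V) G') α).card : ℝ))
        hsub
      rw [h1]
      have h2 := hCTB V E s t p hp hp1.le (X ∩ A) (ins s t (A : Set V) G')
      rw [Finset.coe_inter] at h2
      refine h2.trans ?_
      rw [hB]
      have hc1 : ((ins s t (A : Set V) G').card : ℝ) ≤ G'.card := by
        have : ins s t (A : Set V) G' ⊆ G' := ins_sub _ _ _ _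
        exact_mod_cast Finset.card_le_card this
      have hc1' : (ins s t (A : Set V) G').card ≤ G'.card := by exact_mod_cast hc1
      have hc2 : (((X ∩ A).card : ℕ) : ℝ) ≤ X.card := by
        exact_mod_cast Finset.card_le_card Finset.inter_subset_left
      have hh := Hh_mono hc1'
      have hh0 := Hh_nonneg (ins s t (A : Set V) G').card
      gcongr
    have h3 := hAVE V E s t R U A G p q B (fun α =>
        ((ctc s t ((X : Set V) ∩ (A : Set V)) (ins s t (A : Set V) G')
            (α ∩ ins s t (A : Set V) G')).card : ℝ)) hp.le hp1.le hq hE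
    refine le_trans (le_of_eq ?_) h3
    refine Finset.sum_congr rfl fun ω _ => ?_
    have h4 : ω ∩ ins s t (A : Set V) G ∩ ins s t (A : Set V) G' =
        ω ∩ ins s t (A : Set V) G' := by
      rw [Finset.inter_assoc, Finset.inter_eq_right.mpr hsub]
    simp only [h4]
  calc ∑ ω ∈ G.powerset, wt s t R U G p q ω *
        ((ctc s t (X : Set V) G' (ω ∩ G')).card : ℝ)
      ≤ ∑ ω ∈ G.powerset, q ^ 2 * ∑ A ∈ U.powerset.filter
          (fun A : Finset V => Cpt s t R (ω : Set E) (A : Set V)),
          bw p G ω * (q - 1) ^ ncl s t R (U \ A) (ω : Set E) *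
          ((ctc s t ((X : Set V) ∩ (A : Set V)) (ins s t (A : Set V) G')
            (ω ∩ ins s t (A : Set V) G')).card : ℝ) := by
        refine Finset.sum_le_sum fun ω hω => ?_
        have h5 := pt hCOL hCTA s t R U G q hq hR hG X G' hG' ω (Finset.mem_powerset.mp hω)
        have h6 := mul_le_mul_of_nonneg_left h5 (bw_pos hp hp1 G ω).le
        unfold wt
        calc bw p G ω * q ^ ncl s t R U (ω : Set E) *
              ((ctc s t (X : Set V) G' (ω ∩ G')).card : ℝ)
            = bw p G ω * (q ^ ncl s t R U (ω : Set E) *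
              ((ctc s t (X : Set V) G' (ω ∩ G')).card : ℝ)) := by ring
          _ ≤ _ := h6
          _ = _ := by
            rw [← mul_assoc, mul_comm (bw p G ω) (q ^ 2), mul_assoc, Finset.mul_sum]
            congr 1
            refine Finset.sum_congr rfl fun A _ => ?_
            ring
    _ = q ^ 2 * ∑ A ∈ U.powerset, ∑ ω ∈ G.powerset.filter
          (fun ω : Finset E => Cpt s t R (ω : Set E) (A : Set V)),
          bw p G ω * (q - 1) ^ ncl s t R (U \ A) (ω : Set E) *
          ((ctc s t ((X : Set V) ∩ (A : Set V)) (ins s t (A : Set V) G')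
            (ω ∩ ins s t (A : Set V) G')).card : ℝ) := by
        rw [← Finset.mul_sum]
        congr 1
        apply Finset.sum_comm'
        intro ω A
        simp only [Finset.mem_filter]
        tauto
    _ ≤ q ^ 2 * ∑ A ∈ U.powerset, B * ∑ ω ∈ G.powerset.filter
          (fun ω : Finset E => Cpt s t R (ω : Set E) (A : Set V)),
          bw p G ω * (q - 1) ^ ncl s t R (U \ A) (ω : Set E) := by
        apply mul_le_mul_of_nonneg_left _ (by positivity)
        exact Finset.sum_le_sum fun A _ => hA A
    _ = q ^ 2 * (B * ∑ ω ∈ G.powerset, ∑ A ∈ U.powerset.filter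
          (fun A : Finset V => Cpt s t R (ω : Set E) (A : Set V)),
          bw p G ω * (q - 1) ^ ncl s t R (U \ A) (ω : Set E)) := by
        rw [← Finset.mul_sum]
        congr 2
        apply Finset.sum_comm'
        intro A ω
        simp only [Finset.mem_filter]
        tauto
    _ = q ^ 2 * (B * ∑ ω ∈ G.powerset, wt s t R U G p q ω) := by
        congr 2
        refine Finset.sum_congr rfl fun ω hω => ?_
        have hU : Cpt s t R (ω : Set E) (U : Set V) := by
          refine ⟨fun a b h => ?_, fun e he => ?_⟩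
          · have := hR a b h
            simp [this.1, this.2]
          · have := hG e (Finset.mem_powerset.mp hω he)
            simp [this.1, this.2]
        rw [← Finset.mul_sum, (hCOL V E s t R U (ω : Set E) q hq hU).1]
        rfl
    _ = _ := by
        rw [hB]
        ring

end CTF_

theorem p_CTF (hBER : T_BER) (hCTB : T_CTB) (hCOL : T_COL) (hAVE : T_AVE) (hCTA : T_CTA) :
    T_CTF := by
  intro V E _ _ s t R U G p q hp hp1 hq hR hG X G' hG'
  exact CTF_.main hBER hCTB hCOL hAVE hCTA s t R U G p q hp hp1 hq hR hG X G' hG'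

end Pool.Agent.FKT
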