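import Pool.Agent.FKT.TargetsA

/-!
# FKT, CYL: cylinders determine the measure
-/

set_option autoImplicit false

namespace Pool.Agent.FKT

open Filter MeasureTheory

namespace CYL_

variable {d : ℕ}

theorem meas (F T : Finset (Ed d)) : MeasurableSet (Cyl F T) := by
  classical
  have h : Cyl F T = ⋂ e ∈ F, (fun ω : Ed d → Bool => ω e) ⁻¹' {b | b = true ↔ e ∈ T} := by
    ext ω
    simp [Cyl]
  rw [h]
  refine Finset.measurableSet_biInter F fun e _ => ?_
  exact (measurable_pi_apply e) (MeasurableSet.of_discrete)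

/-- the system of cylinders -/
def CC (d : ℕ) : Set (Set (Ed d → Bool)) := {s | ∃ F T : Finset (Ed d), T ⊆ F ∧ s = Cyl F T}

theorem pisys : IsPiSystem (CC d) := by
  classical
  rintro s ⟨F, T, _, rfl⟩ t ⟨F', T', _, rfl⟩ ⟨ω0, h0, h0'⟩
  refine ⟨F ∪ F', (F ∪ F').filter fun e => ω0 e = true, Finset.filter_subset _ _, ?_⟩
  ext ω
  constructor
  · rintro ⟨h1, h2⟩ e he
    rw [Finset.mem_filter]
    rcases Finset.mem_union.1 he with h3 | h3
    · rw [h1 e h3, ← h0 e h3]
      exact ⟨fun h => ⟨he, h⟩, fun h => h.2⟩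
    · rw [h2 e h3, ← h0' e h3]
      exact ⟨fun h => ⟨he, h⟩, fun h => h.2⟩
  · intro h1
    refine ⟨fun e he => ?_, fun e he => ?_⟩
    · have h2 := h1 e (Finset.mem_union_left _ he)
      rw [Finset.mem_filter] at h2
      rw [h2, ← h0 e he]
      exact ⟨fun h => h.2, fun h => ⟨Finset.mem_union_left _ he, h⟩⟩
    · have h2 := h1 e (Finset.mem_union_right _ he)
      rw [Finset.mem_filter] at h2
      rw [h2, ← h0' e he]
      exact ⟨fun h => h.2, fun h => ⟨Finset.mem_union_right _ he, h⟩⟩

theorem gen : (MeasurableSpace.pi : MeasurableSpace (Ed d → Bool)) =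
    MeasurableSpace.generateFrom (CC d) := by
  classical
  refine le_antisymm ?_ ?_
  · refine iSup_le fun e => ?_
    rw [← measurable_iff_comap_le]
    refine @measurable_to_bool _ (MeasurableSpace.generateFrom (CC d)) _ ?_
    refine MeasurableSpace.measurableSet_generateFrom ⟨{e}, {e}, Finset.Subset.refl _, ?_⟩
    ext ω
    simp [Cyl]
  · refine MeasurableSpace.generateFrom_le ?_
    rintro s ⟨F, T, _, rfl⟩
    exact meas F T

end CYL_

open CYL_ in
theorem p_CYL : T_CYL := by
  intro d
  refine ⟨meas, fun μ ν hμ hν h => ?_⟩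
  refine MeasureTheory.ext_of_generate_finite (CC d) gen pisys ?_ ?_
  · rintro s ⟨F, T, hT, rfl⟩
    have h1 := h F T hT
    exact (measureReal_eq_measureReal_iff).1 h1
  · rw [measure_univ, measure_univ]

end Pool.Agent.FKT
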