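import Pool.Agent.FKT.TargetsA

/-!
# FKT: DET, the deterministic contact inequality
-/

set_option autoImplicit false

namespace Pool.Agent.FKT

namespace DET_

/-- Representatives of the classes of an equivalence relation in a finite set. -/
theorem reps {V : Type} (r : V → V → Prop) (X : Finset V) (hrefl : ∀ a, r a a) :
    ∃ Y : Finset V, Y ⊆ X ∧ (∀ x ∈ X, ∃ y ∈ Y, r y x) ∧
      ∀ y ∈ Y, ∀ y' ∈ Y, r y y' → r y' y → y = y' := by
  classical
  induction X using Finset.induction_on with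
  | empty => exact ⟨∅, le_rfl, by simp, by simp⟩
  | insert a X ha ih =>
    obtain ⟨Y, h1, h2, h3⟩ := ih
    by_cases h : ∃ y ∈ Y, r y a
    · refine ⟨Y, h1.trans (Finset.subset_insert a X), ?_, h3⟩
      intro x hx
      rcases Finset.mem_insert.1 hx with rfl | hx
      · exact h
      · exact h2 x hx
    · by_cases h' : ∃ y ∈ Y, r a y ∧ r y a
      · obtain ⟨y, hy, -, hy2⟩ := h'
        exact absurd ⟨y, hy, hy2⟩ h
      refine ⟨insert a Y, Finset.insert_subset_insert a h1, ?_, ?_⟩
      · intro x hx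
        rcases Finset.mem_insert.1 hx with rfl | hx
        · exact ⟨x, Finset.mem_insert_self _ _, hrefl x⟩
        · obtain ⟨y, hy, hy'⟩ := h2 x hx
          exact ⟨y, Finset.mem_insert_of_mem hy, hy'⟩
      · intro y hy y' hy' hr hr'
        rcases Finset.mem_insert.1 hy with e | hy1 <;>
          rcases Finset.mem_insert.1 hy' with e' | hy2
        · rw [e, e']
        · rw [e] at hr'
          exact absurd ⟨y', hy2, hr'⟩ h
        · rw [e'] at hr
          exact absurd ⟨y, hy1, hr⟩ h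
        · exact h3 y hy1 y' hy2 hr hr'

section

variable {V E : Type} [DecidableEq E] (s t : E → V) (ω : Finset E)

omit [DecidableEq E] in
theorem crefl (a : V) : Con s t (no V) (ω : Set E) a a := Relation.EqvGen.refl a

variable {s t ω}

omit [DecidableEq E] in
theorem csymm {a b : V} (h : Con s t (no V) (ω : Set E) a b) :
    Con s t (no V) (ω : Set E) b a := Relation.EqvGen.symm _ _ h

omit [DecidableEq E] in
theorem ctrans {a b c : V} (h : Con s t (no V) (ω : Set E) a b)
    (h' : Con s t (no V) (ω : Set E) b c) : Con s t (no V) (ω : Set E) a c :=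
  Relation.EqvGen.trans _ _ _ h h'

omit [DecidableEq E] in
theorem tch_sub (X : Set V) (G : Finset E) : tch s t X G ω ⊆ G := by
  classical
  unfold tch
  exact Finset.filter_subset _ _

omit [DecidableEq E] in
theorem ctc_sub (X : Set V) (G : Finset E) : ctc s t X G ω ⊆ G := by
  classical
  unfold ctc
  exact Finset.filter_subset _ _

omit [DecidableEq E] in
theorem ctc_ne {X : Set V} {G : Finset E} {e : E} (he : e ∈ ctc s t X G ω) :
    ¬ Con s t (no V) (ω : Set E) (s e) (t e) := by
  classical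
  unfold ctc at he
  exact (Finset.mem_filter.1 he).2.1

omit [DecidableEq E] in
open Classical in
/-- Exactly one representative is connected to a vertex which is connected to `X`. -/
theorem one {X Y : Finset V} (hYX : Y ⊆ X)
    (h2 : ∀ x ∈ X, ∃ y ∈ Y, Con s t (no V) (ω : Set E) y x)
    (h3 : ∀ y ∈ Y, ∀ y' ∈ Y, Con s t (no V) (ω : Set E) y y' → y = y') (v : V) (c : ℝ) :
    ∑ y ∈ Y, (if Con s t (no V) (ω : Set E) y v then c else 0) =
      if (∃ x ∈ X, Con s t (no V) (ω : Set E) x v) then c else 0 := by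
  by_cases h : ∃ x ∈ X, Con s t (no V) (ω : Set E) x v
  · rw [if_pos h]
    obtain ⟨x, hx, hxv⟩ := h
    obtain ⟨y, hy, hyx⟩ := h2 x hx
    have hyv := ctrans hyx hxv
    rw [Finset.sum_eq_single y]
    · rw [if_pos hyv]
    · intro y' hy' hne
      rw [if_neg]
      intro hc
      exact hne (h3 y' hy' y hy (ctrans hc (csymm hyv)))
    · intro hy'
      exact absurd hy hy'
  · rw [if_neg h]
    refine Finset.sum_eq_zero fun y hy => ?_
    rw [if_neg]
    intro hc
    exact h ⟨y, hYX hy, hc⟩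

omit [DecidableEq E] in
/-- The sum over the representatives. -/
theorem key {X Y : Finset V} (hYX : Y ⊆ X)
    (h2 : ∀ x ∈ X, ∃ y ∈ Y, Con s t (no V) (ω : Set E) y x)
    (h3 : ∀ y ∈ Y, ∀ y' ∈ Y, Con s t (no V) (ω : Set E) y y' → y = y')
    (G : Finset E) (a : E → ℝ) :
    ∑ y ∈ Y, ∑ e ∈ tch s t {y} G ω, a e =
      ∑ e ∈ tch s t (X : Set V) G ω, a e + ∑ e ∈ ctc s t (X : Set V) G ω, a e := by
  classical
  unfold tch ctc
  simp only [Finset.sum_filter]
  rw [Finset.sum_comm, ← Finset.sum_add_distrib]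
  refine Finset.sum_congr rfl fun e _ => ?_
  simp only [Set.mem_singleton_iff, exists_eq_left, Finset.mem_coe]
  by_cases hst : Con s t (no V) (ω : Set E) (s e) (t e)
  · have e1 : ∀ y : V, (Con s t (no V) (ω : Set E) y (s e) ∨
        Con s t (no V) (ω : Set E) y (t e)) ↔ Con s t (no V) (ω : Set E) y (s e) := by
      intro y
      constructor
      · rintro (h | h)
        · exact h
        · exact ctrans h (csymm hst)
      · exact Or.inl
    simp only [e1, hst, not_true, false_and, if_false, add_zero]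
    exact one hYX h2 h3 (s e) (a e)
  · have e1 : ∀ y : V, (if (Con s t (no V) (ω : Set E) y (s e) ∨
        Con s t (no V) (ω : Set E) y (t e)) then a e else 0) =
        (if Con s t (no V) (ω : Set E) y (s e) then a e else 0) +
        (if Con s t (no V) (ω : Set E) y (t e) then a e else 0) := by
      intro y
      by_cases h1 : Con s t (no V) (ω : Set E) y (s e)
      · have h4 : ¬ Con s t (no V) (ω : Set E) y (t e) := fun h => hst (ctrans (csymm h1) h)
        simp [h1, h4]
      · simp [h1]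
    have e2 : (∃ x ∈ X, (Con s t (no V) (ω : Set E) x (s e) ∨
        Con s t (no V) (ω : Set E) x (t e))) ↔ (∃ x ∈ X, Con s t (no V) (ω : Set E) x (s e)) ∨
        ∃ x ∈ X, Con s t (no V) (ω : Set E) x (t e) := by
      constructor
      · rintro ⟨x, hx, h | h⟩
        · exact Or.inl ⟨x, hx, h⟩
        · exact Or.inr ⟨x, hx, h⟩
      · rintro (⟨x, hx, h⟩ | ⟨x, hx, h⟩)
        · exact ⟨x, hx, Or.inl h⟩
        · exact ⟨x, hx, Or.inr h⟩
    simp only [e1]
    rw [Finset.sum_add_distrib, one hYX h2 h3 (s e) (a e), one hYX h2 h3 (t e) (a e)]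
    simp only [e2, hst, not_false_eq_true, true_and]
    by_cases hA : ∃ x ∈ X, Con s t (no V) (ω : Set E) x (s e) <;>
      by_cases hB : ∃ x ∈ X, Con s t (no V) (ω : Set E) x (t e) <;> simp [hA, hB]

end

end DET_

open DET_ in
theorem p_DET : T_DET := by
  classical
  intro V E _ s t p X G ω hω
  obtain ⟨Y, hYX, h2, h3'⟩ := reps (Con s t (no V) (ω : Set E)) X (crefl s t ω)
  have h3 : ∀ y ∈ Y, ∀ y' ∈ Y, Con s t (no V) (ω : Set E) y y' → y = y' :=
    fun y hy y' hy' h => h3' y hy y' hy' h (csymm h)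
  have k1 := key hYX h2 h3 G (fun e => (if e ∈ ω then 1 else 0) - p)
  have k2 := key hYX h2 h3 G (fun _ => (1 : ℝ))
  -- contacts are closed
  have k3 : ∑ e ∈ ctc s t (X : Set V) G ω, ((if e ∈ ω then (1 : ℝ) else 0) - p) =
      -(p * ((ctc s t (X : Set V) G ω).card : ℝ)) := by
    have : ∀ e ∈ ctc s t (X : Set V) G ω, ((if e ∈ ω then (1 : ℝ) else 0) - p) = -p := by
      intro e he
      have h4 : ¬ Con s t (no V) (ω : Set E) (s e) (t e) := ctc_ne he
      rw [if_neg, zero_sub]
      intro heω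
      exact h4 (Relation.EqvGen.rel _ _ (Or.inr ⟨e, heω, rfl, rfl⟩))
    rw [Finset.sum_congr rfl this, Finset.sum_const, nsmul_eq_mul]
    ring
  have k4 : ∑ y ∈ Y, Sm p (tch s t {y} G ω) ω = Sm p (tch s t (X : Set V) G ω) ω -
      p * ((ctc s t (X : Set V) G ω).card : ℝ) := by
    unfold Sm
    rw [k1, k3]
    ring
  -- Cauchy-Schwarz
  have k5 : (∑ y ∈ Y, Sm p (tch s t {y} G ω) ω) ^ 2 ≤
      (∑ y ∈ Y, ((tch s t {y} G ω).card : ℝ)) *
        ∑ y ∈ Y, (Sm p (tch s t {y} G ω) ω) ^ 2 / ((tch s t {y} G ω).card : ℝ) := by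
    refine Finset.sum_sq_le_sum_mul_sum_of_sq_le_mul Y (fun y _ => by positivity)
      (fun y _ => by positivity) fun y _ => le_of_eq ?_
    by_cases h0 : (tch s t {y} G ω).card = 0
    · rw [Finset.card_eq_zero.1 h0]
      simp [Sm]
    · have h1 : ((tch s t {y} G ω).card : ℝ) ≠ 0 := by exact_mod_cast h0
      field_simp
  have k6 : ∑ y ∈ Y, ((tch s t {y} G ω).card : ℝ) ≤ 2 * (G.card : ℝ) := by
    have e1 : ∀ T : Finset E, ∑ _e ∈ T, (1 : ℝ) = (T.card : ℝ) := by
      intro T
      simp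
    simp only [e1] at k2
    rw [k2]
    have l1 : ((tch s t (X : Set V) G ω).card : ℝ) ≤ G.card := by
      exact_mod_cast Finset.card_le_card (tch_sub _ _)
    have l2 : ((ctc s t (X : Set V) G ω).card : ℝ) ≤ G.card := by
      exact_mod_cast Finset.card_le_card (ctc_sub _ _)
    linarith
  have k7 : ∑ y ∈ Y, (Sm p (tch s t {y} G ω) ω) ^ 2 / ((tch s t {y} G ω).card : ℝ) ≤
      ∑ x ∈ X, (Sm p (tch s t {x} G ω) ω) ^ 2 / ((tch s t {x} G ω).card : ℝ) :=
    Finset.sum_le_sum_of_subset_of_nonneg hYX fun x _ _ => by positivity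
  have k8 : (∑ y ∈ Y, Sm p (tch s t {y} G ω) ω) ^ 2 ≤ 2 * (G.card : ℝ) * ∑ x ∈ X,
      (Sm p (tch s t {x} G ω) ω) ^ 2 / ((tch s t {x} G ω).card : ℝ) :=
    k5.trans (mul_le_mul k6 k7 (Finset.sum_nonneg fun y _ => by positivity) (by positivity))
  have k9 := (abs_le.1 (Real.abs_le_sqrt k8)).1
  linarith

end Pool.Agent.FKT
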