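import Pool.Agent.FKT.TargetsA

/-!
# FKT: DOM, wired measures decrease when the box grows
-/

set_option autoImplicit false

namespace Pool.Agent.FKT

open Filter MeasureTheory

namespace DOM_

theorem sum_split {E : Type} [DecidableEq E] (A B : Finset E) (hAB : A ⊆ B)
    (H : Finset E → ℝ) :
    ∑ ω ∈ B.powerset, H ω * (if B \ A ⊆ ω then 1 else 0) =
      ∑ α ∈ A.powerset, H (α ∪ (B \ A)) := by
  have h1 : ∑ ω ∈ B.powerset, H ω * (if B \ A ⊆ ω then (1 : ℝ) else 0) =
      ∑ ω ∈ B.powerset.filter (fun ω => B \ A ⊆ ω), H ω := by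
    rw [Finset.sum_filter]
    refine Finset.sum_congr rfl fun ω _ => ?_
    split_ifs <;> simp
  rw [h1]
  refine Finset.sum_nbij' (fun ω => ω ∩ A) (fun α => α ∪ (B \ A)) ?_ ?_ ?_ ?_ ?_
  · intro ω _
    simp
  · intro α hα
    rw [Finset.mem_powerset] at hα
    rw [Finset.mem_filter, Finset.mem_powerset]
    refine ⟨Finset.union_subset (hα.trans hAB) Finset.sdiff_subset, ?_⟩
    exact Finset.subset_union_right
  · intro ω hω
    rw [Finset.mem_filter, Finset.mem_powerset] at hω
    ext e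
    simp only [Finset.mem_union, Finset.mem_inter, Finset.mem_sdiff]
    constructor
    · rintro (h | h)
      · exact h.1
      · exact hω.2 (Finset.mem_sdiff.2 h)
    · intro h
      by_cases he : e ∈ A
      · exact Or.inl ⟨h, he⟩
      · exact Or.inr ⟨hω.1 h, he⟩
  · intro α hα
    rw [Finset.mem_powerset] at hα
    ext e
    simp only [Finset.mem_union, Finset.mem_inter, Finset.mem_sdiff]
    constructor
    · rintro ⟨h | h, h'⟩
      · exact h
      · exact absurd h' h.2
    · intro h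
      exact ⟨Or.inl h, hα h⟩
  · intro ω hω
    rw [Finset.mem_filter, Finset.mem_powerset] at hω
    congr 1
    ext e
    simp only [Finset.mem_union, Finset.mem_inter, Finset.mem_sdiff]
    constructor
    · intro h
      by_cases he : e ∈ A
      · exact Or.inl ⟨h, he⟩
      · exact Or.inr ⟨hω.1 h, he⟩
    · rintro (h | h)
      · exact h.1
      · exact hω.2 (Finset.mem_sdiff.2 h)

theorem bw_union {E : Type} [DecidableEq E] (p : ℝ) (A B : Finset E) (hAB : A ⊆ B)
    (α : Finset E) (hα : α ⊆ A) :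
    bw p B (α ∪ (B \ A)) = p ^ (B \ A).card * bw p A α := by
  unfold bw
  have hd : Disjoint α (B \ A) := by
    rw [Finset.disjoint_left]
    intro e he h
    exact (Finset.mem_sdiff.1 h).2 (hα he)
  have h1 : (α ∪ (B \ A)).card = α.card + (B \ A).card := Finset.card_union_of_disjoint hd
  have h2 : B.card = A.card + (B \ A).card := by
    have h := Finset.card_sdiff_add_card_eq_card hAB
    omega
  have h3 : B.card - (α ∪ (B \ A)).card = A.card - α.card := by
    rw [h1, h2]
    omega
  rw [h3, h1, pow_add]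
  ring

theorem eb_mono {d : ℕ} (x y : Vx d) (n m : ℕ) (h : bx x n ⊆ bx y m) : eb x n ⊆ eb y m := by
  intro e he
  unfold eb at he ⊢
  simp only [Finset.mem_filter, Finset.mem_product, Finset.mem_univ, and_true] at he ⊢
  exact ⟨h he.1, h he.2⟩

end DOM_

open Classical in
theorem p_DOM (hFKG : T_FKG) (hCOP : T_COP) : T_DOM := by
  intro d hd p q hp0 hp1 hq x y n m hxy f hf
  have hG : eb x n ⊆ eb y m := DOM_.eb_mono x y n m hxy
  obtain ⟨hy1, hy2⟩ := hFKG (Vx d) (Ed d) Prod.fst tgt (Wir y m) (bx y m) (eb y m) p q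
    hp0 hp1 hq (by
      intro e he
      unfold eb at he
      simp only [Finset.mem_filter, Finset.mem_product, Finset.mem_univ, and_true] at he
      exact he)
  obtain ⟨-, hx2⟩ := hFKG (Vx d) (Ed d) Prod.fst tgt (Wir x n) (bx x n) (eb x n) p q
    hp0 hp1 hq (by
      intro e he
      unfold eb at he
      simp only [Finset.mem_filter, Finset.mem_product, Finset.mem_univ, and_true] at he
      exact he)
  have hfk := hy1 (fun ω => f (ω ∩ eb x n)) (fun ω => if eb y m \ eb x n ⊆ ω then 1 else 0)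
    (fun a b hab => hf _ _ (Finset.inter_subset_inter_right hab))
    (fun a b hab => by
      by_cases h : eb y m \ eb x n ⊆ a
      · rw [if_pos h, if_pos (h.trans hab)]
      · rw [if_neg h]
        split_ifs <;> norm_num)
  -- the weights
  have hwt : ∀ α, α ⊆ eb x n →
      wt Prod.fst tgt (Wir y m) (bx y m) (eb y m) p q (α ∪ (eb y m \ eb x n)) =
        p ^ (eb y m \ eb x n).card *
          wt Prod.fst tgt (Wir x n) (bx x n) (eb x n) p q α := by
    intro α hα
    unfold wt
    rw [DOM_.bw_union p _ _ hG α hα, hCOP d hd x y n m hxy α hα]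
    ring
  set Zy := ∑ ω ∈ (eb y m).powerset, wt Prod.fst tgt (Wir y m) (bx y m) (eb y m) p q ω with hZy
  set Zx := ∑ ω ∈ (eb x n).powerset, wt Prod.fst tgt (Wir x n) (bx x n) (eb x n) p q ω with hZx
  set N := ∑ ω ∈ (eb x n).powerset, wt Prod.fst tgt (Wir x n) (bx x n) (eb x n) p q ω * f ω
    with hN
  have e1 : ∑ ω ∈ (eb y m).powerset, wt Prod.fst tgt (Wir y m) (bx y m) (eb y m) p q ω *
      (if eb y m \ eb x n ⊆ ω then (1 : ℝ) else 0) = p ^ (eb y m \ eb x n).card * Zx := by
    rw [DOM_.sum_split _ _ hG, hZx, Finset.mul_sum]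
    exact Finset.sum_congr rfl fun α hα => hwt α (Finset.mem_powerset.1 hα)
  have e2 : ∑ ω ∈ (eb y m).powerset, wt Prod.fst tgt (Wir y m) (bx y m) (eb y m) p q ω *
      (f (ω ∩ eb x n) * (if eb y m \ eb x n ⊆ ω then (1 : ℝ) else 0)) =
        p ^ (eb y m \ eb x n).card * N := by
    have h : ∀ ω, wt Prod.fst tgt (Wir y m) (bx y m) (eb y m) p q ω *
        (f (ω ∩ eb x n) * (if eb y m \ eb x n ⊆ ω then (1 : ℝ) else 0)) =
        (wt Prod.fst tgt (Wir y m) (bx y m) (eb y m) p q ω * f (ω ∩ eb x n)) *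
          (if eb y m \ eb x n ⊆ ω then (1 : ℝ) else 0) := fun ω => by ring
    rw [Finset.sum_congr rfl fun ω _ => h ω, DOM_.sum_split _ _ hG
      (fun ω => wt Prod.fst tgt (Wir y m) (bx y m) (eb y m) p q ω * f (ω ∩ eb x n)), hN,
      Finset.mul_sum]
    refine Finset.sum_congr rfl fun α hα => ?_
    have hα' := Finset.mem_powerset.1 hα
    have h3 : (α ∪ (eb y m \ eb x n)) ∩ eb x n = α := by
      ext e
      simp only [Finset.mem_union, Finset.mem_inter, Finset.mem_sdiff]
      constructor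
      · rintro ⟨h | h, h'⟩
        · exact h
        · exact absurd h' h.2
      · intro h
        exact ⟨Or.inl h, hα' h⟩
    rw [h3, hwt α hα']
    ring
  have hpp : 0 < p ^ (eb y m \ eb x n).card := pow_pos hp0 _
  unfold phi
  have g1 : Ex Prod.fst tgt (Wir y m) (bx y m) (eb y m) p q
      (fun ω => if eb y m \ eb x n ⊆ ω then (1 : ℝ) else 0) =
        p ^ (eb y m \ eb x n).card * Zx / Zy := by
    unfold Ex
    rw [e1]
  have g2 : Ex Prod.fst tgt (Wir y m) (bx y m) (eb y m) p q
      (fun ω => f (ω ∩ eb x n) * (if eb y m \ eb x n ⊆ ω then (1 : ℝ) else 0)) =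
        p ^ (eb y m \ eb x n).card * N / Zy := by
    unfold Ex
    rw [e2]
  have g3 : Ex Prod.fst tgt (Wir x n) (bx x n) (eb x n) p q f = N / Zx := rfl
  rw [g1, g2] at hfk
  rw [g3, le_div_iff₀ hx2]
  have h4 : Ex Prod.fst tgt (Wir y m) (bx y m) (eb y m) p q (fun ω => f (ω ∩ eb x n)) *
      (p ^ (eb y m \ eb x n).card * Zx) ≤ p ^ (eb y m \ eb x n).card * N := by
    have h5 := mul_le_mul_of_nonneg_right hfk hy2.le
    rw [div_mul_cancel₀ _ hy2.ne', mul_assoc, div_mul_cancel₀ _ hy2.ne'] at h5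
    exact h5
  have h6 : p ^ (eb y m \ eb x n).card *
      (Ex Prod.fst tgt (Wir y m) (bx y m) (eb y m) p q (fun ω => f (ω ∩ eb x n)) * Zx) ≤
        p ^ (eb y m \ eb x n).card * N := by
    calc _ = Ex Prod.fst tgt (Wir y m) (bx y m) (eb y m) p q (fun ω => f (ω ∩ eb x n)) *
      (p ^ (eb y m \ eb x n).card * Zx) := by ring
      _ ≤ _ := h4
  exact le_of_mul_le_mul_left h6 hpp

end Pool.Agent.FKT
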