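import Pool.Agent.FKT.TargetsA

set_option autoImplicit false

namespace Pool.Agent.FKT

open Filter MeasureTheory

namespace EXI_

variable {d : ℕ}

/-- The configuration as a point of the product space. -/
def pt (ω : Finset (Ed d)) : Ed d → Bool := fun e => decide (e ∈ ω)

/-- Membership of the point in a cylinder. -/
lemma pt_mem (ω F T : Finset (Ed d)) (hT : T ⊆ F) :
    pt ω ∈ Cyl F T ↔ ω ∩ F = T := by
  unfold Cyl pt
  simp only [Set.mem_ofPred_eq, decide_eq_true_eq]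
  constructor
  · intro h
    ext e
    rw [Finset.mem_inter]
    constructor
    · rintro ⟨h1, h2⟩
      exact (h e h2).1 h1
    · intro h1
      exact ⟨(h e (hT h1)).2 h1, hT h1⟩
  · intro h e he
    rw [← h, Finset.mem_inter]
    exact ⟨fun h1 => ⟨h1, he⟩, fun h1 => h1.1⟩

/-- Cylinders are clopen. -/
lemma cyl_clopen (F T : Finset (Ed d)) : IsClopen (Cyl F T) := by
  have : Cyl F T = ⋂ e ∈ F, {ω : Ed d → Bool | ω e = true ↔ e ∈ T} := by
    ext ω
    simp [Cyl]
  rw [this]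
  apply isClopen_biInter_finset
  intro e _
  have h2 : {ω : Ed d → Bool | ω e = true ↔ e ∈ T} =
      (fun ω : Ed d → Bool => ω e) ⁻¹' {b : Bool | b = true ↔ e ∈ T} := rfl
  rw [h2]
  exact (isClopen_discrete _).preimage (continuous_apply e)

/-- The finite measure. -/
noncomputable def nu (G : Finset (Finset (Ed d))) (w : Finset (Ed d) → ℝ) :
    Measure (Ed d → Bool) :=
  ∑ ω ∈ G, ENNReal.ofReal (w ω) • Measure.dirac (pt ω)

lemma nu_apply (G : Finset (Finset (Ed d))) (w : Finset (Ed d) → ℝ) (hw : ∀ ω ∈ G, 0 ≤ w ω)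
    (A : Set (Ed d → Bool)) (hA : MeasurableSet A) :
    nu G w A = ENNReal.ofReal (∑ ω ∈ G, w ω * A.indicator 1 (pt ω)) := by
  unfold nu
  rw [Measure.finsetSum_apply]
  rw [ENNReal.ofReal_sum_of_nonneg]
  · apply Finset.sum_congr rfl
    intro ω hω
    rw [Measure.smul_apply, Measure.dirac_apply' _ hA, smul_eq_mul,
      ENNReal.ofReal_mul (hw ω hω)]
    congr 1
    by_cases h : pt ω ∈ A
    · simp [h]
    · simp [h]
  · intro ω hω
    apply mul_nonneg (hw ω hω)
    apply Set.indicator_nonneg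
    intro _ _
    simp

lemma wt_nonneg {p q : ℝ} (h0 : 0 < p) (h1 : p < 1) (hq : 1 ≤ q) (n : ℕ) (ω : Finset (Ed d)) :
    0 ≤ wt Prod.fst tgt (Wir (0 : Vx d) n) (bx 0 n) (eb 0 n) p q ω := by
  unfold wt bw
  have : 0 ≤ 1 - p := by linarith
  positivity

lemma eb_ends (n : ℕ) : ∀ e ∈ eb (0 : Vx d) n, Prod.fst e ∈ bx (0 : Vx d) n ∧
    tgt e ∈ bx (0 : Vx d) n := by
  intro e he
  unfold eb at he
  rw [Finset.mem_filter, Finset.mem_product] at he
  exact ⟨he.1.1, he.2⟩

/-- The law of the box. -/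
lemma law (hFKG : T_FKG) {p q : ℝ} (h0 : 0 < p) (h1 : p < 1) (hq : 1 ≤ q) (hCYL : T_CYL)
    (n : ℕ) : ∃ ν : ProbabilityMeasure (Ed d → Bool), ∀ F T : Finset (Ed d), T ⊆ F →
      (ν : Measure (Ed d → Bool)) (Cyl F T) = ENNReal.ofReal
        (phi (0 : Vx d) n p q fun ω => if ω ∩ F = T then 1 else 0) := by
  classical
  have hZ := (hFKG (Vx d) (Ed d) Prod.fst tgt (Wir (0 : Vx d) n) (bx 0 n) (eb 0 n) p q h0 h1 hq
    (eb_ends n)).2
  set w := fun ω => wt Prod.fst tgt (Wir (0 : Vx d) n) (bx 0 n) (eb 0 n) p q ω with hw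
  set Z := ∑ ω ∈ (eb (0 : Vx d) n).powerset,
    wt Prod.fst tgt (Wir (0 : Vx d) n) (bx 0 n) (eb 0 n) p q ω with hZd
  have hwn : ∀ ω ∈ (eb (0 : Vx d) n).powerset, 0 ≤ w ω / Z := by
    intro ω _
    exact div_nonneg (wt_nonneg h0 h1 hq n ω) hZ.le
  have huniv : nu (eb (0 : Vx d) n).powerset (fun ω => w ω / Z) Set.univ = 1 := by
    rw [nu_apply _ _ hwn _ MeasurableSet.univ]
    have : (∑ ω ∈ (eb (0 : Vx d) n).powerset, w ω / Z *
        (Set.univ : Set (Ed d → Bool)).indicator 1 (pt ω)) = 1 := by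
      simp only [Set.indicator_univ, Pi.one_apply, mul_one]
      rw [← Finset.sum_div]
      exact div_self hZ.ne'
    rw [this]
    simp
  have hprob : IsProbabilityMeasure (nu (eb (0 : Vx d) n).powerset (fun ω => w ω / Z)) :=
    ⟨huniv⟩
  refine ⟨⟨nu (eb (0 : Vx d) n).powerset (fun ω => w ω / Z), hprob⟩, ?_⟩
  intro F T hT
  change nu (eb (0 : Vx d) n).powerset (fun ω => w ω / Z) (Cyl F T) = _
  rw [nu_apply _ _ hwn _ ((hCYL d).1 F T)]
  congr 1
  unfold phi Ex
  rw [Finset.sum_div]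
  apply Finset.sum_congr rfl
  intro ω _
  by_cases h : ω ∩ F = T
  · rw [Set.indicator_of_mem ((pt_mem ω F T hT).2 h)]
    simp [h, hw, hZd]
  · rw [Set.indicator_of_notMem (fun h2 => h ((pt_mem ω F T hT).1 h2))]
    simp [h]

end EXI_

open EXI_ in
theorem p_EXI (hFKG : T_FKG) (hLIM : T_LIM) (hCYL : T_CYL) : T_EXI := by
  classical
  intro d hd p q h0 h1 hq
  choose ν hν using fun n => law (d := d) hFKG h0 h1 hq hCYL n
  let U : Ultrafilter (ProbabilityMeasure (Ed d → Bool)) := (hyperfilter ℕ).map ν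
  obtain ⟨μ, hμ⟩ : ∃ μ, (U : Filter (ProbabilityMeasure (Ed d → Bool))) ≤ nhds μ :=
    ⟨U.lim, U.le_nhds_lim⟩
  have hT : Tendsto ν (hyperfilter ℕ : Filter ℕ) (nhds μ) := hμ
  refine ⟨(μ : Measure (Ed d → Bool)), ⟨inferInstance, ?_⟩⟩
  intro F T hTF
  obtain ⟨l, hl⟩ := hLIM d hd p q h0 h1 hq F (fun ω => if ω = T then 1 else 0)
  have hl0 := hl 0
  have hcl := ProbabilityMeasure.tendsto_measure_of_isClopen_of_tendsto hT (cyl_clopen F T)
  have hreal : Tendsto (fun n => (ν n : Measure (Ed d → Bool)).real (Cyl F T))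
      (hyperfilter ℕ : Filter ℕ) (nhds ((μ : Measure (Ed d → Bool)).real (Cyl F T))) := by
    have h3 := (NNReal.tendsto_coe.2 hcl)
    exact h3
  have hnn : ∀ n, 0 ≤ phi (0 : Vx d) n p q fun ω => if ω ∩ F = T then 1 else 0 := by
    intro n
    unfold phi Ex
    apply div_nonneg
    · apply Finset.sum_nonneg
      intro ω _
      apply mul_nonneg (wt_nonneg h0 h1 hq n ω)
      dsimp only
      split_ifs <;> norm_num
    · apply Finset.sum_nonneg
      intro ω _
      exact wt_nonneg h0 h1 hq n ω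
  have heq : (fun n => (ν n : Measure (Ed d → Bool)).real (Cyl F T)) =
      fun n => phi (0 : Vx d) n p q fun ω => if ω ∩ F = T then 1 else 0 := by
    funext n
    unfold Measure.real
    rw [hν n F T hTF, ENNReal.toReal_ofReal (hnn n)]
  rw [heq] at hreal
  have hle : (hyperfilter ℕ : Filter ℕ) ≤ atTop := by
    exact Nat.hyperfilter_le_atTop
  have := tendsto_nhds_unique hreal (hl0.mono_left hle)
  rw [this]
  exact hl0

end Pool.Agent.FKT
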