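import Pool.Agent.FKT.TargetsA

set_option autoImplicit false

/-!
# FKT: the exploration estimates (target T_EXP)
-/

namespace Pool.Agent.FKT

namespace EXP_

variable {V E : Type} [DecidableEq E]

omit [DecidableEq E] in
theorem EB_congr (p : ℝ) (G : Finset E) (f g : Finset E → ℝ) (h : ∀ ω, ω ⊆ G → f ω = g ω) :
    EB p G f = EB p G g := by
  unfold EB
  apply Finset.sum_congr rfl
  intro ω hω
  rw [h ω (Finset.mem_powerset.1 hω)]

theorem EB_const (hB : T_BER) (p : ℝ) (G : Finset E) (k : ℝ) : EB p G (fun _ => k) = k := by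
  have h1 := (hB E p G).2.1
  unfold EB at h1 ⊢
  rw [← Finset.sum_mul]
  simp only [mul_one] at h1
  rw [h1, one_mul]

omit [DecidableEq E] in
theorem EB_add (p : ℝ) (G : Finset E) (f g : Finset E → ℝ) :
    EB p G (fun ω => f ω + g ω) = EB p G f + EB p G g := by
  unfold EB
  rw [← Finset.sum_add_distrib]
  apply Finset.sum_congr rfl
  intro ω _
  ring

omit [DecidableEq E] in
theorem tch_sub (s t : E → V) (X : Set V) (G ω : Finset E) : tch s t X G ω ⊆ G := by
  classical
  intro e he
  unfold tch at he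
  exact (Finset.mem_filter.1 he).1

theorem Sm_insert (p : ℝ) (T ω : Finset E) (e : E) (he : e ∉ T) :
    Sm p (insert e T) ω = ((if e ∈ ω then 1 else 0) - p) + Sm p T ω := by
  unfold Sm
  rw [Finset.sum_insert he]

theorem Sm_omega (p : ℝ) (T ω : Finset E) (e : E) (he : e ∉ T) :
    Sm p T (insert e ω) = Sm p T ω := by
  unfold Sm
  apply Finset.sum_congr rfl
  intro x hx
  have h1 : x ≠ e := fun h => he (h ▸ hx)
  simp [h1]

/-- The recursion. -/
theorem recur (hB : T_BER) (hR : T_REC) (s t : E → V) (p : ℝ) (G : Finset E) (X : Set V) (e : E)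
    (heG : e ∈ G) (heX : s e ∈ X ∨ t e ∈ X) (Φ : ℝ → ℕ → ℝ) :
    EB p G (fun ω => Φ (Sm p (tch s t X G ω) ω) (tch s t X G ω).card) =
      (1 - p) * EB p (G.erase e) (fun ω => Φ (-p + Sm p (tch s t X (G.erase e) ω) ω)
        ((tch s t X (G.erase e) ω).card + 1)) +
      p * EB p (G.erase e) (fun ω =>
        Φ (1 - p + Sm p (tch s t (X ∪ {s e, t e}) (G.erase e) ω) ω)
          ((tch s t (X ∪ {s e, t e}) (G.erase e) ω).card + 1)) := by
  have h1 := (hB E p (G.erase e)).1 e
    (fun ω => Φ (Sm p (tch s t X G ω) ω) (tch s t X G ω).card) (Finset.notMem_erase e G)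
  rw [Finset.insert_erase heG] at h1
  rw [h1]
  congr 1
  · congr 1
    apply EB_congr
    intro ω hω
    have h2 := (hR V E s t X G ω e heG heX hω).1
    have h3 : e ∉ tch s t X (G.erase e) ω := fun h =>
      Finset.notMem_erase e G (tch_sub s t X _ ω h)
    have h4 : e ∉ ω := fun h => Finset.notMem_erase e G (hω h)
    rw [h2, Sm_insert p _ ω e h3, Finset.card_insert_of_notMem h3, if_neg h4, zero_sub]
  · congr 1
    apply EB_congr
    intro ω hω
    have h2 := (hR V E s t X G ω e heG heX hω).2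
    have h3 : e ∉ tch s t (X ∪ {s e, t e}) (G.erase e) ω := fun h =>
      Finset.notMem_erase e G (tch_sub s t _ _ ω h)
    have h4 : e ∈ insert e ω := Finset.mem_insert_self e ω
    rw [h2, Sm_insert p _ _ e h3, Finset.card_insert_of_notMem h3, if_pos h4,
      Sm_omega p _ ω e h3]

theorem Hh_succ (n : ℕ) : Hh (n + 1) = Hh n + 1 / ((n : ℝ) + 1) := by
  unfold Hh
  rw [Finset.sum_range_succ]

theorem Hh_mono {m n : ℕ} (h : m ≤ n) : Hh m ≤ Hh n := by
  unfold Hh
  apply Finset.sum_le_sum_of_subset_of_nonneg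
  · exact Finset.range_mono h
  · intro i _ _
    positivity

theorem Hh_nonneg (n : ℕ) : 0 ≤ Hh n := by
  unfold Hh
  exact Finset.sum_nonneg fun i _ => by positivity

theorem claim1 (hB : T_BER) (hR : T_REC) (hN : T_NOT) (s t : E → V) (p : ℝ) (hp0 : 0 ≤ p)
    (hp1 : p ≤ 1) (n : ℕ) : ∀ (G : Finset E), G.card = n → ∀ (X : Set V) (c : ℝ) (a : ℕ), 1 ≤ a →
    EB p G (fun ω => (c + Sm p (tch s t X G ω) ω) ^ 2 / ((a : ℝ) + (tch s t X G ω).card)) ≤
        c ^ 2 / a + p * (1 - p) * (Hh (a + G.card) - Hh a) := by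
  have hv : 0 ≤ p * (1 - p) := mul_nonneg hp0 (by linarith)
  induction n with
  | zero =>
    intro G hG X c a ha
    rw [Finset.card_eq_zero] at hG
    subst hG
    have h1 : EB p (∅ : Finset E) (fun ω =>
        (c + Sm p (tch s t X ∅ ω) ω) ^ 2 / ((a : ℝ) + (tch s t X ∅ ω).card)) =
        EB p (∅ : Finset E) (fun _ => c ^ 2 / a) := by
      apply EB_congr
      intro ω _
      have h2 : tch s t X ∅ ω = ∅ := Finset.subset_empty.1 (tch_sub s t X ∅ ω)
      rw [h2]
      simp [Sm]
    rw [h1, EB_const hB]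
    simp
  | succ n ih =>
    intro G hG X c a ha
    by_cases hex : ∃ e ∈ G, s e ∈ X ∨ t e ∈ X
    · obtain ⟨e, heG, heX⟩ := hex
      have hG' : (G.erase e).card = n := by
        rw [Finset.card_erase_of_mem heG, hG]
        rfl
      have h1 := recur hB hR s t p G X e heG heX
        (fun x k => (c + x) ^ 2 / ((a : ℝ) + k))
      rw [h1]
      have h2 := ih (G.erase e) hG' X (c - p) (a + 1) (by omega)
      have h3 := ih (G.erase e) hG' (X ∪ {s e, t e}) (c + 1 - p) (a + 1) (by omega)
      have e2 : EB p (G.erase e) (fun ω => (c + (-p + Sm p (tch s t X (G.erase e) ω) ω)) ^ 2 /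
          ((a : ℝ) + (((tch s t X (G.erase e) ω).card + 1 : ℕ) : ℝ))) =
          EB p (G.erase e) (fun ω => (c - p + Sm p (tch s t X (G.erase e) ω) ω) ^ 2 /
          (((a + 1 : ℕ) : ℝ) + (tch s t X (G.erase e) ω).card)) := by
        apply EB_congr
        intro ω _
        push_cast
        congr 1
        · ring
        · ring
      have e3 : EB p (G.erase e) (fun ω =>
          (c + (1 - p + Sm p (tch s t (X ∪ {s e, t e}) (G.erase e) ω) ω)) ^ 2 /
          ((a : ℝ) + (((tch s t (X ∪ {s e, t e}) (G.erase e) ω).card + 1 : ℕ) : ℝ))) =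
          EB p (G.erase e) (fun ω =>
            (c + 1 - p + Sm p (tch s t (X ∪ {s e, t e}) (G.erase e) ω) ω) ^ 2 /
          (((a + 1 : ℕ) : ℝ) + (tch s t (X ∪ {s e, t e}) (G.erase e) ω).card)) := by
        apply EB_congr
        intro ω _
        push_cast
        congr 1
        · ring
        · ring
      rw [e2, e3]
      have h4 := mul_le_mul_of_nonneg_left h2 (by linarith : 0 ≤ 1 - p)
      have h5 := mul_le_mul_of_nonneg_left h3 hp0
      refine (add_le_add h4 h5).trans ?_
      have h6 : a + 1 + (G.erase e).card = a + G.card := by omega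
      rw [h6, Hh_succ a]
      push_cast
      have ha0 : (0 : ℝ) < a := by exact_mod_cast ha
      have h7 : c ^ 2 / ((a : ℝ) + 1) ≤ c ^ 2 / a := by
        apply div_le_div_of_nonneg_left (sq_nonneg c) ha0
        linarith
      have h8 : (1 - p) * ((c - p) ^ 2 / ((a : ℝ) + 1)) + p * ((c + 1 - p) ^ 2 / ((a : ℝ) + 1)) =
          c ^ 2 / ((a : ℝ) + 1) + p * (1 - p) * (1 / ((a : ℝ) + 1)) := by
        field_simp
        ring
      nlinarith [h7, h8]
    · push Not at hex
      have h1 : EB p G (fun ω =>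
          (c + Sm p (tch s t X G ω) ω) ^ 2 / ((a : ℝ) + (tch s t X G ω).card)) =
          EB p G (fun _ => c ^ 2 / a) := by
        apply EB_congr
        intro ω hω
        rw [hN V E s t X G ω hex hω]
        simp [Sm]
      rw [h1, EB_const hB]
      have h2 := Hh_mono (show a ≤ a + G.card by omega)
      have h3 := mul_nonneg hv (sub_nonneg.2 h2)
      linarith

theorem claim3 (hB : T_BER) (hR : T_REC) (hN : T_NOT) (s t : E → V) (p : ℝ) (n : ℕ) :
    ∀ (G : Finset E), G.card = n → ∀ (X : Set V),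
    EB p G (fun ω => Sm p (tch s t X G ω) ω) = 0 := by
  induction n with
  | zero =>
    intro G hG X
    rw [Finset.card_eq_zero] at hG
    subst hG
    have h1 : EB p (∅ : Finset E) (fun ω => Sm p (tch s t X ∅ ω) ω) =
        EB p (∅ : Finset E) (fun _ => 0) := by
      apply EB_congr
      intro ω _
      have h2 : tch s t X ∅ ω = ∅ := Finset.subset_empty.1 (tch_sub s t X ∅ ω)
      rw [h2]
      simp [Sm]
    rw [h1, EB_const hB]
  | succ n ih =>
    intro G hG X
    by_cases hex : ∃ e ∈ G, s e ∈ X ∨ t e ∈ X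
    · obtain ⟨e, heG, heX⟩ := hex
      have hG' : (G.erase e).card = n := by
        rw [Finset.card_erase_of_mem heG, hG]
        rfl
      have h1 := recur hB hR s t p G X e heG heX (fun x _ => x)
      rw [h1, EB_add, EB_add, EB_const hB, EB_const hB, ih (G.erase e) hG' X,
        ih (G.erase e) hG' (X ∪ {s e, t e})]
      ring
    · push Not at hex
      have h1 : EB p G (fun ω => Sm p (tch s t X G ω) ω) = EB p G (fun _ => 0) := by
        apply EB_congr
        intro ω hω
        rw [hN V E s t X G ω hex hω]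
        simp [Sm]
      rw [h1, EB_const hB]

theorem claim2 (hB : T_BER) (hR : T_REC) (hN : T_NOT) (s t : E → V) (p : ℝ) (hp0 : 0 ≤ p)
    (hp1 : p ≤ 1) (G : Finset E) (X : Set V) :
    EB p G (fun ω => (Sm p (tch s t X G ω) ω) ^ 2 / ((tch s t X G ω).card : ℝ)) ≤
      p * (1 - p) * Hh G.card := by
  have hv : 0 ≤ p * (1 - p) := mul_nonneg hp0 (by linarith)
  by_cases hex : ∃ e ∈ G, s e ∈ X ∨ t e ∈ X
  · obtain ⟨e, heG, heX⟩ := hex
    have hpos : 0 < G.card := Finset.card_pos.2 ⟨e, heG⟩
    have hG' : (G.erase e).card + 1 = G.card := by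
      rw [Finset.card_erase_of_mem heG]
      omega
    have h1 := recur hB hR s t p G X e heG heX (fun x k => x ^ 2 / (k : ℝ))
    rw [h1]
    have h2 := claim1 hB hR hN s t p hp0 hp1 _ (G.erase e) rfl X (-p) 1 le_rfl
    have h3 := claim1 hB hR hN s t p hp0 hp1 _ (G.erase e) rfl (X ∪ {s e, t e}) (1 - p) 1 le_rfl
    have e2 : EB p (G.erase e) (fun ω => (-p + Sm p (tch s t X (G.erase e) ω) ω) ^ 2 /
        (((tch s t X (G.erase e) ω).card + 1 : ℕ) : ℝ)) =
        EB p (G.erase e) (fun ω => (-p + Sm p (tch s t X (G.erase e) ω) ω) ^ 2 /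
        (((1 : ℕ) : ℝ) + (tch s t X (G.erase e) ω).card)) := by
      apply EB_congr
      intro ω _
      push_cast
      congr 1
      ring
    have e3 : EB p (G.erase e) (fun ω =>
        (1 - p + Sm p (tch s t (X ∪ {s e, t e}) (G.erase e) ω) ω) ^ 2 /
        (((tch s t (X ∪ {s e, t e}) (G.erase e) ω).card + 1 : ℕ) : ℝ)) =
        EB p (G.erase e) (fun ω =>
          (1 - p + Sm p (tch s t (X ∪ {s e, t e}) (G.erase e) ω) ω) ^ 2 /
        (((1 : ℕ) : ℝ) + (tch s t (X ∪ {s e, t e}) (G.erase e) ω).card)) := by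
      apply EB_congr
      intro ω _
      push_cast
      congr 1
      ring
    rw [e2, e3]
    have h4 := mul_le_mul_of_nonneg_left h2 (by linarith : 0 ≤ 1 - p)
    have h5 := mul_le_mul_of_nonneg_left h3 hp0
    refine (add_le_add h4 h5).trans ?_
    have h6 : 1 + (G.erase e).card = G.card := by omega
    have h7 : Hh 1 = 1 := by simp [Hh]
    rw [h6, h7]
    push_cast
    nlinarith
  · push Not at hex
    have h1 : EB p G (fun ω => (Sm p (tch s t X G ω) ω) ^ 2 / ((tch s t X G ω).card : ℝ)) =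
        EB p G (fun _ => 0) := by
      apply EB_congr
      intro ω hω
      rw [hN V E s t X G ω hex hω]
      simp [Sm]
    rw [h1, EB_const hB]
    exact mul_nonneg hv (Hh_nonneg _)

end EXP_

open EXP_

theorem p_EXP (h_BER : T_BER) (h_REC : T_REC) (h_NOT : T_NOT) : T_EXP := by
  intro V E _ s t p hp0 hp1 G X
  refine ⟨?_, ?_, ?_⟩
  · intro c a ha
    exact claim1 h_BER h_REC h_NOT s t p hp0 hp1 _ G rfl X c a ha
  · exact claim2 h_BER h_REC h_NOT s t p hp0 hp1 G X
  · exact claim3 h_BER h_REC h_NOT s t p _ G rfl X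

end Pool.Agent.FKT
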