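import Pool.Agent.FKT.TargetsA

/-!
# FKT, target NUM: a numerical bound
-/

set_option autoImplicit false

namespace Pool.Agent.FKT

namespace NUM_

lemma Hh_eq (n : ℕ) : Hh n = ((harmonic n : ℚ) : ℝ) := by
  unfold Hh harmonic
  push_cast
  refine Finset.sum_congr rfl fun i _ => ?_
  rw [one_div]

lemma Hh_le (n : ℕ) : Hh n ≤ 1 + Real.log n := by
  rw [Hh_eq]
  exact harmonic_le_one_add_log n

lemma log_ge_one {x : ℝ} (hx : 3 ≤ x) : 1 ≤ Real.log x := by
  have h1 : Real.log (Real.exp 1) ≤ Real.log x :=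
    Real.log_le_log (Real.exp_pos 1) (by
      have := Real.exp_one_lt_d9
      linarith)
  rwa [Real.log_exp] at h1

end NUM_

open NUM_ in
theorem p_NUM : T_NUM := by
  intro d hd
  obtain ⟨e, rfl⟩ : ∃ e, d = e + 1 := ⟨d - 1, by omega⟩
  set D : ℝ := ((e + 1 : ℕ) : ℝ) with hD
  have hD1 : 1 ≤ D := by
    rw [hD]
    exact_mod_cast Nat.succ_le_succ (Nat.zero_le e)
  have hlD : 0 ≤ Real.log D := Real.log_nonneg hD1
  set C1 : ℝ := 1 + Real.log D + D with hC1
  have hC12 : 2 ≤ C1 := by linarith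
  refine ⟨3 * D * C1, ?_, ?_⟩
  · nlinarith
  intro m k hm h1 h2
  have hmR : (1 : ℝ) ≤ m := by exact_mod_cast hm
  have h1R : 2 * (m : ℝ) ≤ k := by exact_mod_cast h1
  have h2R : (k : ℝ) ≤ 2 * m + 1 := by exact_mod_cast h2
  have hk0 : (0 : ℝ) < k := by linarith
  have hl1 : 1 ≤ Real.log ((k : ℝ) + 1) := log_ge_one (by linarith)
  set l : ℝ := Real.log ((k : ℝ) + 1) with hl
  set n : ℝ := 2 * (m : ℝ) + 1 with hn
  have hn1 : 1 ≤ n := by linarith
  have hn0 : 0 < n := by linarith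
  set N : ℕ := (e + 1) * (2 * m + 1) ^ (e + 1) with hN
  have hNR : (N : ℝ) = D * n ^ (e + 1) := by
    rw [hN, hn, hD]
    push_cast
    ring
  have hH : Hh N ≤ C1 * l := by
    refine (Hh_le N).trans ?_
    rw [hNR, Real.log_mul (by linarith) (by positivity), Real.log_pow]
    have h3 : Real.log n ≤ l := Real.log_le_log hn0 (by linarith)
    have h4 : ((e + 1 : ℕ) : ℝ) * Real.log n ≤ D * l := by
      rw [← hD]
      exact mul_le_mul_of_nonneg_left h3 (by linarith)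
    have h5 : 1 + Real.log D ≤ (1 + Real.log D) * l := by
      have h6 : 0 ≤ (1 + Real.log D) * (l - 1) := by
        apply mul_nonneg <;> linarith
      linarith
    rw [hC1]
    linarith
  have hd1 : e + 1 - 1 = e := by omega
  rw [hd1]
  rw [Real.sqrt_le_iff]
  constructor
  · positivity
  have hq : 0 ≤ l / k := by positivity
  rw [mul_pow, mul_pow, Real.sq_sqrt hq]
  have hpe : 0 ≤ (n ^ e) ^ 2 := by positivity
  have hL : 2 * (D * n ^ (e + 1)) * (2 * D * n ^ e) * Hh N ≤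
      2 * (D * n ^ (e + 1)) * (2 * D * n ^ e) * (C1 * l) :=
    mul_le_mul_of_nonneg_left hH (by positivity)
  refine hL.trans ?_
  have hL2 : 2 * (D * n ^ (e + 1)) * (2 * D * n ^ e) * (C1 * l) =
      (4 * D ^ 2 * C1 * l * (n ^ e) ^ 2) * n := by ring
  have hR2 : (3 * D * C1) ^ 2 * (l / k) * (2 * (m : ℝ) * n ^ e) ^ 2 =
      (4 * D ^ 2 * C1 * l * (n ^ e) ^ 2) * (C1 * (9 * (m : ℝ) ^ 2 / k)) := by
    field_simp
    ring
  rw [hL2, hR2]
  apply mul_le_mul_of_nonneg_left _ (by positivity)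
  have h7 : n ≤ 9 * (m : ℝ) ^ 2 / k := by
    rw [le_div_iff₀ hk0]
    have h8 : n ≤ 3 * m := by linarith
    have h9 : (k : ℝ) ≤ 3 * m := by linarith
    calc n * k ≤ (3 * m) * (3 * m) := mul_le_mul h8 h9 hk0.le (by linarith)
      _ = 9 * (m : ℝ) ^ 2 := by ring
  have h10 : 0 ≤ 9 * (m : ℝ) ^ 2 / k := by positivity
  nlinarith

end Pool.Agent.FKT
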