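import Pool.Agent.FKT.TargetsA

/-!
# Project FKT: the quantitative Burton-Keane estimate (QBK)
-/

set_option autoImplicit false

namespace Pool.Agent.FKT

open Filter MeasureTheory

namespace QBK_

theorem Hh_mono {a b : ℕ} (h : a ≤ b) : Hh a ≤ Hh b := by
  unfold Hh
  refine Finset.sum_le_sum_of_subset_of_nonneg (Finset.range_mono h) fun i _ _ => ?_
  positivity

theorem Hh_nonneg (a : ℕ) : 0 ≤ Hh a := by
  unfold Hh
  exact Finset.sum_nonneg fun i _ => by positivity

theorem bd_sub {d : ℕ} (x : Vx d) (n : ℕ) : bd x n ⊆ bx x n := Finset.filter_subset _ _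

theorem bx_mono {d : ℕ} (x : Vx d) {m n : ℕ} (h : m ≤ n) : bx x m ⊆ bx x n := by
  have h1 : (m : ℤ) ≤ n := by exact_mod_cast h
  unfold bx
  refine Finset.Icc_subset_Icc ?_ ?_
  · intro i
    show x i - (n : ℤ) ≤ x i - m
    linarith
  · intro i
    show x i + (m : ℤ) ≤ x i + n
    linarith

theorem mem_eb {d : ℕ} (x : Vx d) (n : ℕ) (e : Ed d) :
    e ∈ eb x n ↔ e.1 ∈ bx x n ∧ tgt e ∈ bx x n := by
  unfold eb
  simp [Finset.mem_filter, Finset.mem_product]

theorem eb_mono {d : ℕ} (x : Vx d) {m n : ℕ} (h : m ≤ n) : eb x m ⊆ eb x n := by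
  intro e he
  rw [mem_eb] at he ⊢
  exact ⟨bx_mono x h he.1, bx_mono x h he.2⟩

theorem sh_meas {d : ℕ} (y : Vx d) : Measurable (sh y) := by
  rw [measurable_pi_iff]
  intro e
  exact measurable_pi_apply _

theorem two_meas {d : ℕ} (h_LOC : T_LOC) (h_TAS : T_TAS) (x : Vx d) (i : Fin d)
    (k : ℕ) : MeasurableSet {ω : Ed d → Bool | TwoArm (cfg ω) x i k} := by
  have h1 := (h_LOC d 0 0 (eb x k)).2
    (fun T : Finset (Ed d) => TwoArm (T : Set (Ed d)) x i k)
  have h2 : {ω : Ed d → Bool | TwoArm (cfg ω) x i k} =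
      {ω : Ed d → Bool | TwoArm ((rs (eb x k) (cfg ω) : Finset (Ed d)) : Set (Ed d)) x i k} := by
    ext ω
    exact (h_TAS d x 0 i k).1 (cfg ω)
  rw [h2]
  exact h1

end QBK_

open QBK_

theorem p_QBK (h_CTF : T_CTF) (h_LOC : T_LOC) (h_INV : T_INV) (h_ARM : T_ARM) (h_CNT : T_CNT)
    (h_TAS : T_TAS) (h_NUM : T_NUM) : T_QBK := by
  classical
  intro d hd
  obtain ⟨C, hC2, hC⟩ := h_NUM d hd
  refine ⟨C, ?_⟩
  intro p q hp hp1 hq μ hμ x i k hk
  have := hμ.prob
  have hqp : 1 ≤ q ^ 2 / p := by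
    rw [le_div_iff₀ hp]
    nlinarith
  rcases Nat.lt_or_ge k 2 with hk2 | hk2
  · -- `k = 1`
    have hk1 : k = 1 := by omega
    subst hk1
    have h1 : μ.real {ω | TwoArm (cfg ω) x i 1} ≤ 1 := measureReal_le_one
    have h2 : (1 / 2 : ℝ) ≤ Real.sqrt (Real.log ((1 : ℕ) + 1) / ((1 : ℕ) : ℝ)) := by
      apply Real.le_sqrt_of_sq_le
      have h3 := Real.log_two_gt_d9
      norm_num
      linarith
    have h3 : 1 ≤ C * (q ^ 2 / p) * (1 / 2) := by nlinarith
    have h4 : C * (q ^ 2 / p) * (1 / 2) ≤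
        C * (q ^ 2 / p) * Real.sqrt (Real.log ((1 : ℕ) + 1) / ((1 : ℕ) : ℝ)) :=
      mul_le_mul_of_nonneg_left h2 (by positivity)
    linarith
  · set m := k / 2 with hm
    have hm1 : 1 ≤ m := by omega
    have hmk : 2 * m ≤ k := by omega
    have hkm : k ≤ 2 * m + 1 := by omega
    obtain ⟨c1, c2, c3⟩ := h_CNT d hd m
    have c3 := c3 i
    have hCm := hC m k hm1 hmk hkm
    -- measurability
    have hmeas : ∀ y : Vx d, MeasurableSet {ω : Ed d → Bool | TwoArm (cfg ω) y i k} :=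
      fun y => two_meas h_LOC h_TAS y i k
    -- all probabilities are equal
    have hinv : ∀ y : Vx d, μ.real {ω : Ed d → Bool | TwoArm (cfg ω) y i k} =
        μ.real {ω : Ed d → Bool | TwoArm (cfg ω) x i k} := by
      intro y
      have h1 := h_INV d hd p q hp hp1 hq μ hμ (y - x)
      have h2 : {ω : Ed d → Bool | TwoArm (cfg ω) y i k} =
          sh (y - x) ⁻¹' {ω : Ed d → Bool | TwoArm (cfg ω) x i k} := by
        ext ω
        have h3 := (h_TAS d x (y - x) i k).2 ω
        rw [add_sub_cancel] at h3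
        exact h3
      rw [h2]
      have h4 : (μ.map (sh (y - x))).real {ω : Ed d → Bool | TwoArm (cfg ω) x i k} =
          μ.real (sh (y - x) ⁻¹' {ω : Ed d → Bool | TwoArm (cfg ω) x i k}) :=
        map_measureReal_apply (sh_meas (y - x)) (hmeas x)
      rw [← h4, h1]
    -- the expected number of contacts
    set F : Finset (Ed d) := eb (0 : Vx d) m with hF
    set f : Finset (Ed d) → ℝ := fun α =>
      ((ctc Prod.fst tgt (bd (0 : Vx d) m : Set (Vx d)) F α).card : ℝ) with hf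
    obtain ⟨hlim, hint⟩ := (h_LOC d p q F).1 μ hμ f
    set B : ℝ := q ^ 2 / p * Real.sqrt (2 * (F.card : ℝ) * (bd (0 : Vx d) m).card * Hh F.card)
      with hB
    have hphi : ∀ᶠ n : ℕ in atTop, (phi (0 : Vx d) n p q fun ω => f (ω ∩ F)) ≤ B := by
      filter_upwards [eventually_ge_atTop m] with n hn
      refine h_CTF (Vx d) (Ed d) Prod.fst tgt (Wir (0 : Vx d) n) (bx 0 n) (eb 0 n) p q hp hp1 hq
        ?_ ?_ (bd (0 : Vx d) m) F (eb_mono 0 hn)
      · intro a b hab
        exact ⟨bd_sub _ _ hab.1, bd_sub _ _ hab.2⟩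
      · intro e he
        exact (mem_eb _ _ _).1 he
    have hintB : ∫ ω, f (rs F (cfg ω)) ∂μ ≤ B := le_of_tendsto hlim hphi
    -- the edges of direction `i`
    set Fi : Finset (Ed d) := F.filter fun e => e.2 = i with hFi
    set A : Ed d → Set (Ed d → Bool) := fun e => {ω | TwoArm (cfg ω) e.1 i k} with hA
    have hpt : ∀ ω : Ed d → Bool, ∑ e ∈ Fi, (A e).indicator (1 : (Ed d → Bool) → ℝ) ω ≤
        f (rs F (cfg ω)) := by
      intro ω
      have h1 : ∑ e ∈ Fi, (A e).indicator (1 : (Ed d → Bool) → ℝ) ω =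
          ((Fi.filter fun e => ω ∈ A e).card : ℝ) := by
        rw [← Finset.sum_boole]
        refine Finset.sum_congr rfl fun e _ => ?_
        rw [Set.indicator_apply]
        rfl
      rw [h1, hf]
      have h2 : (Fi.filter fun e => ω ∈ A e) ⊆
          ctc Prod.fst tgt (bd (0 : Vx d) m : Set (Vx d)) F (rs F (cfg ω)) := by
        intro e he
        rw [Finset.mem_filter, hFi, Finset.mem_filter] at he
        obtain ⟨⟨he1, he2⟩, he3⟩ := he
        obtain ⟨y, j⟩ := e
        have he2' : j = i := he2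
        subst he2'
        exact h_ARM d (cfg ω) m k y j hmk he1 he3
      show ((Fi.filter fun e => ω ∈ A e).card : ℝ) ≤
        ((ctc Prod.fst tgt (bd (0 : Vx d) m : Set (Vx d)) F (rs F (cfg ω))).card : ℝ)
      exact_mod_cast Finset.card_le_card h2
    have hsum : ∑ e ∈ Fi, μ.real (A e) ≤ B := by
      have h1 : ∑ e ∈ Fi, μ.real (A e) =
          ∫ ω, ∑ e ∈ Fi, (A e).indicator (1 : (Ed d → Bool) → ℝ) ω ∂μ := by
        rw [integral_finsetSum]
        · refine Finset.sum_congr rfl fun e _ => ?_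
          exact (integral_indicator_one (hmeas e.1)).symm
        · intro e _
          exact (integrable_const (1 : ℝ)).indicator (hmeas e.1)
      rw [h1]
      refine le_trans (integral_mono ?_ hint hpt) hintB
      refine integrable_finsetSum _ fun e _ => ?_
      exact (integrable_const (1 : ℝ)).indicator (hmeas e.1)
    have hsum2 : (Fi.card : ℝ) * μ.real {ω | TwoArm (cfg ω) x i k} ≤ B := by
      refine le_trans (le_of_eq ?_) hsum
      rw [← nsmul_eq_mul, ← Finset.sum_const]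
      exact Finset.sum_congr rfl fun e _ => (hinv e.1).symm
    -- numbers
    set Pr := μ.real {ω | TwoArm (cfg ω) x i k} with hPr
    have hPr0 : 0 ≤ Pr := measureReal_nonneg
    have hM : (2 * (m : ℝ) * (2 * m + 1) ^ (d - 1)) ≤ (Fi.card : ℝ) := by
      have : ((2 * m * (2 * m + 1) ^ (d - 1) : ℕ) : ℝ) ≤ (Fi.card : ℝ) := by exact_mod_cast c3
      push_cast at this
      exact this
    have hm0 : (0 : ℝ) < m := by exact_mod_cast hm1
    have hM0 : 0 < 2 * (m : ℝ) * (2 * m + 1) ^ (d - 1) := by positivity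
    have hFc : (F.card : ℝ) ≤ (d : ℝ) * (2 * m + 1) ^ d := by exact_mod_cast c1
    have hbc : ((bd (0 : Vx d) m).card : ℝ) ≤ 2 * d * (2 * m + 1) ^ (d - 1) := by
      exact_mod_cast c2
    have hHh : Hh F.card ≤ Hh (d * (2 * m + 1) ^ d) := Hh_mono c1
    have hsq : Real.sqrt (2 * (F.card : ℝ) * (bd (0 : Vx d) m).card * Hh F.card) ≤
        Real.sqrt (2 * ((d : ℝ) * (2 * m + 1) ^ d) * (2 * d * (2 * m + 1) ^ (d - 1)) *
          Hh (d * (2 * m + 1) ^ d)) := by
      apply Real.sqrt_le_sqrt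
      have h0 := Hh_nonneg F.card
      have g1 : 2 * (F.card : ℝ) ≤ 2 * ((d : ℝ) * (2 * m + 1) ^ d) := by linarith
      have g2 : 2 * (F.card : ℝ) * (bd (0 : Vx d) m).card ≤
          2 * ((d : ℝ) * (2 * m + 1) ^ d) * (2 * d * (2 * m + 1) ^ (d - 1)) :=
        mul_le_mul g1 hbc (by positivity) (by positivity)
      exact mul_le_mul g2 hHh h0 (by positivity)
    have hB2 : B ≤ q ^ 2 / p * (C * Real.sqrt (Real.log (k + 1) / k) *
        (2 * m * (2 * m + 1) ^ (d - 1))) :=
      mul_le_mul_of_nonneg_left (le_trans hsq hCm) (by positivity)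
    have hfin : Pr * (2 * (m : ℝ) * (2 * m + 1) ^ (d - 1)) ≤
        (C * (q ^ 2 / p) * Real.sqrt (Real.log (k + 1) / k)) *
          (2 * (m : ℝ) * (2 * m + 1) ^ (d - 1)) := by
      have g1 : Pr * (2 * (m : ℝ) * (2 * m + 1) ^ (d - 1)) ≤ Pr * Fi.card :=
        mul_le_mul_of_nonneg_left hM hPr0
      nlinarith
    exact le_of_mul_le_mul_right hfin hM0

end Pool.Agent.FKT
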