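import Pool.Agent.FKT.TargetsA

/-!
# FKT: REC and NOT, the exploration of one edge
-/

set_option autoImplicit false

namespace Pool.Agent.FKT

namespace REC_

variable {V E : Type} {s t : E → V}

theorem conMono {O O' : Set E} (h : O ⊆ O') {a b : V} (hc : Con s t (no V) O a b) :
    Con s t (no V) O' a b := by
  unfold Con at hc ⊢
  induction hc with
  | rel a b hab =>
    refine Relation.EqvGen.rel a b ?_
    rcases hab with h1 | ⟨f, hf, h1⟩
    · exact Or.inl h1
    · exact Or.inr ⟨f, h hf, h1⟩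
  | refl a => exact Relation.EqvGen.refl a
  | symm a b _ ih => exact Relation.EqvGen.symm a b ih
  | trans a b c _ _ ih1 ih2 => exact Relation.EqvGen.trans a b c ih1 ih2

/-- the set of the points connected in `O` to `X'`, `s e, t e ∈ X'`, is a union of clusters of
`insert e O` -/
theorem closed {O : Set E} {X' : Set V} {e : E} (h1 : s e ∈ X') (h2 : t e ∈ X') {a b : V}
    (hc : Con s t (no V) (insert e O) a b) :
    (∃ x ∈ X', Con s t (no V) O x a) ↔ ∃ x ∈ X', Con s t (no V) O x b := by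
  unfold Con at hc
  induction hc with
  | rel a b hab =>
    rcases hab with h | ⟨f, hf, ha, hb⟩
    · exact h.elim
    · rcases hf with rfl | hf
      · subst ha hb
        exact ⟨fun _ => ⟨_, h2, Relation.EqvGen.refl _⟩, fun _ => ⟨_, h1, Relation.EqvGen.refl _⟩⟩
      · have hs : Con s t (no V) O a b := Relation.EqvGen.rel a b (Or.inr ⟨f, hf, ha, hb⟩)
        constructor
        · rintro ⟨x, hx, hxa⟩
          exact ⟨x, hx, Relation.EqvGen.trans _ _ _ hxa hs⟩
        · rintro ⟨x, hx, hxa⟩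
          exact ⟨x, hx, Relation.EqvGen.trans _ _ _ hxa (Relation.EqvGen.symm _ _ hs)⟩
  | refl a => exact Iff.rfl
  | symm a b _ ih => exact ih.symm
  | trans a b c _ _ ih1 ih2 => exact ih1.trans ih2

theorem key {O : Set E} {X : Set V} {e : E} (he : s e ∈ X ∨ t e ∈ X) (v : V) :
    (∃ x ∈ X, Con s t (no V) (insert e O) x v) ↔
      ∃ x ∈ X ∪ {s e, t e}, Con s t (no V) O x v := by
  have h1 : s e ∈ X ∪ {s e, t e} := Or.inr (Or.inl rfl)
  have h2 : t e ∈ X ∪ {s e, t e} := Or.inr (Or.inr rfl)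
  constructor
  · rintro ⟨x, hx, hxv⟩
    exact (closed h1 h2 hxv).1 ⟨x, Or.inl hx, Relation.EqvGen.refl _⟩
  · rintro ⟨x, hx, hxv⟩
    have hm := conMono (Set.subset_insert e O) hxv
    have hst : Con s t (no V) (insert e O) (s e) (t e) :=
      Relation.EqvGen.rel _ _ (Or.inr ⟨e, Or.inl rfl, rfl, rfl⟩)
    rcases hx with hx | rfl | hx
    · exact ⟨x, hx, hm⟩
    · rcases he with he | he
      · exact ⟨_, he, hm⟩
      · exact ⟨_, he, Relation.EqvGen.trans _ _ _ (Relation.EqvGen.symm _ _ hst) hm⟩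
    · rw [Set.mem_singleton_iff] at hx
      subst hx
      rcases he with he | he
      · exact ⟨_, he, Relation.EqvGen.trans _ _ _ hst hm⟩
      · exact ⟨_, he, hm⟩

theorem split {X : Set V} {P Q : V → Prop} :
    (∃ x ∈ X, P x ∨ Q x) ↔ (∃ x ∈ X, P x) ∨ ∃ x ∈ X, Q x := by
  constructor
  · rintro ⟨x, hx, h | h⟩
    · exact Or.inl ⟨x, hx, h⟩
    · exact Or.inr ⟨x, hx, h⟩
  · rintro (⟨x, hx, h⟩ | ⟨x, hx, h⟩)
    · exact ⟨x, hx, Or.inl h⟩
    · exact ⟨x, hx, Or.inr h⟩

end REC_

open REC_ in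
theorem p_REC : T_REC := by
  intro V E _ s t X G ω e heG he _
  have hself : ∀ (O : Set E) (X' : Set V), X ⊆ X' →
      ∃ x ∈ X', Con s t (no V) O x (s e) ∨ Con s t (no V) O x (t e) := by
    intro O X' hX'
    rcases he with he | he
    · exact ⟨_, hX' he, Or.inl (Relation.EqvGen.refl _)⟩
    · exact ⟨_, hX' he, Or.inr (Relation.EqvGen.refl _)⟩
  constructor
  · ext f
    simp only [tch, Finset.mem_filter, Finset.mem_insert, Finset.mem_erase]
    constructor
    · rintro ⟨hf, h⟩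
      by_cases hfe : f = e
      · exact Or.inl hfe
      · exact Or.inr ⟨⟨hfe, hf⟩, h⟩
    · rintro (rfl | ⟨⟨_, hf⟩, h⟩)
      · exact ⟨heG, hself _ X subset_rfl⟩
      · exact ⟨hf, h⟩
  · ext f
    simp only [tch, Finset.mem_filter, Finset.mem_insert, Finset.mem_erase]
    have hk : (∃ x ∈ X, Con s t (no V) (((insert e ω : Finset E)) : Set E) x (s f) ∨
        Con s t (no V) (((insert e ω : Finset E)) : Set E) x (t f)) ↔
        ∃ x ∈ X ∪ {s e, t e}, Con s t (no V) (ω : Set E) x (s f) ∨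
          Con s t (no V) (ω : Set E) x (t f) := by
      rw [split, split, Finset.coe_insert, key he, key he]
    rw [hk]
    constructor
    · rintro ⟨hf, h⟩
      by_cases hfe : f = e
      · exact Or.inl hfe
      · exact Or.inr ⟨⟨hfe, hf⟩, h⟩
    · rintro (rfl | ⟨⟨_, hf⟩, h⟩)
      · exact ⟨heG, hself _ _ (Set.subset_union_left)⟩
      · exact ⟨hf, h⟩

theorem p_NOT : T_NOT := by
  intro V E s t X G ω hG hω
  have key : ∀ a b : V, Con s t (no V) (ω : Set E) a b → (a ∈ X ↔ b ∈ X) ∧ (a ∈ X → a = b) := by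
    intro a b h
    unfold Con at h
    induction h with
    | rel a b hab =>
      rcases hab with h | ⟨f, hf, ha, hb⟩
      · exact h.elim
      · have h1 := hG f (hω hf)
        subst ha hb
        exact ⟨⟨fun h => (h1.1 h).elim, fun h => (h1.2 h).elim⟩, fun h => (h1.1 h).elim⟩
    | refl a => exact ⟨Iff.rfl, fun _ => rfl⟩
    | symm a b _ ih => exact ⟨ih.1.symm, fun h => (ih.2 (ih.1.2 h)).symm⟩
    | trans a b c _ _ ih1 ih2 =>
      exact ⟨ih1.1.trans ih2.1, fun h => (ih1.2 h).trans (ih2.2 (ih1.1.1 h))⟩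
  rw [Finset.eq_empty_iff_forall_notMem]
  intro f hf'
  simp only [tch, Finset.mem_filter] at hf'
  obtain ⟨hf, x, hx, h | h⟩ := hf'
  · exact (hG f hf).1 ((key _ _ h).1.1 hx)
  · exact (hG f hf).2 ((key _ _ h).1.1 hx)

end Pool.Agent.FKT
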