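import Pool.Agent.FKT.P_ADD
import Pool.Agent.FKT.P_ARM
import Pool.Agent.FKT.P_AVE
import Pool.Agent.FKT.P_BER
import Pool.Agent.FKT.P_CLI
import Pool.Agent.FKT.P_CNT
import Pool.Agent.FKT.P_COL
import Pool.Agent.FKT.P_COP
import Pool.Agent.FKT.P_CTB
import Pool.Agent.FKT.P_CTF
import Pool.Agent.FKT.P_CYL
import Pool.Agent.FKT.P_DET
import Pool.Agent.FKT.P_DOM
import Pool.Agent.FKT.P_EXI
import Pool.Agent.FKT.P_EXP
import Pool.Agent.FKT.P_FKG
import Pool.Agent.FKT.P_INV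
import Pool.Agent.FKT.P_LIM
import Pool.Agent.FKT.P_LOC
import Pool.Agent.FKT.P_NCM
import Pool.Agent.FKT.P_NUM
import Pool.Agent.FKT.P_QBK
import Pool.Agent.FKT.P_REC
import Pool.Agent.FKT.P_TAS
import Pool.Agent.FKT.P_TRA

/-!
# Project FKT: assembly of part A
-/

set_option autoImplicit false

namespace Pool.Agent.FKT

theorem f_EXP : T_EXP := p_EXP p_BER p_REC p_NOT
theorem f_CTB : T_CTB := p_CTB p_BER f_EXP p_DET
theorem f_AVE : T_AVE := p_AVE p_BER p_CLI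
theorem f_CTF : T_CTF := p_CTF p_BER f_CTB p_COL f_AVE p_CTA
theorem f_FKG : T_FKG := p_FKG p_ADD
theorem f_COP : T_COP := p_COP p_NCM
theorem f_DOM : T_DOM := p_DOM f_FKG f_COP
theorem f_TRA : T_TRA := p_TRA p_NCM
theorem f_LIM : T_LIM := p_LIM f_DOM
theorem f_LOC : T_LOC := p_LOC p_CYL
theorem f_INV : T_INV := p_INV p_CYL f_TRA f_LIM
theorem f_EXI : T_EXI := p_EXI f_FKG f_LIM p_CYL

end Pool.Agent.FKT
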