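import Pool.Agent.FKT.TargetsB

/-!
# FKT, FSL: the inequality for increasing local events of the wired measure
-/

set_option autoImplicit false

namespace Pool.Agent.FKT

open Filter MeasureTheory

namespace FSL_

variable {d : ℕ}

theorem mem_cyl {F T : Finset (Ed d)} (hT : T ⊆ F) (ω : Ed d → Bool) :
    ω ∈ Cyl F T ↔ rs F (cfg ω) = T := by
  classical
  constructor
  · intro h
    ext e
    rw [rs, Finset.mem_filter]
    constructor
    · rintro ⟨h1, h2⟩
      exact (h e h1).1 h2
    · intro h1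
      exact ⟨hT h1, (h e (hT h1)).2 h1⟩
  · rintro rfl e he
    rw [rs, Finset.mem_filter]
    exact ⟨fun h => ⟨he, h⟩, fun h => h.2⟩

theorem local_sum (hC : T_CYL) (μ : Measure (Ed d → Bool)) [IsProbabilityMeasure μ]
    (F : Finset (Ed d)) (Q : Finset (Ed d) → Prop) :
    μ.real {ω | Q (rs F (cfg ω))} = ∑ T ∈ F.powerset, μ.real (Cyl F T) * ind (Q T) := by
  classical
  have h1 : {ω : Ed d → Bool | Q (rs F (cfg ω))} =
      ⋃ T ∈ F.powerset.filter Q, Cyl F T := by
    ext ω
    simp only [Set.mem_ofPred_eq, Set.mem_iUnion, Finset.mem_filter, Finset.mem_powerset,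
      exists_prop]
    constructor
    · intro h
      have h2 : rs F (cfg ω) ⊆ F := by
        rw [rs]
        exact Finset.filter_subset _ _
      exact ⟨rs F (cfg ω), ⟨h2, h⟩, (mem_cyl h2 ω).2 rfl⟩
    · rintro ⟨T, ⟨h2, h3⟩, h4⟩
      rw [(mem_cyl h2 ω).1 h4]
      exact h3
  rw [h1, measureReal_biUnion_finset]
  · rw [Finset.sum_filter]
    refine Finset.sum_congr rfl fun T _ => ?_
    unfold ind
    split_ifs <;> simp
  · intro T hT T' hT' hne
    have h2 := (Finset.mem_filter.1 hT).1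
    have h3 := (Finset.mem_filter.1 hT').1
    rw [Finset.mem_powerset] at h2 h3
    show Disjoint (Cyl F T) (Cyl F T')
    rw [Set.disjoint_left]
    intro ω h4 h5
    exact hne (((mem_cyl h2 ω).1 h4).symm.trans ((mem_cyl h3 ω).1 h5))
  · intro T _
    exact (hC d).1 F T

end FSL_

open FSL_ in
theorem p_FSL (hFSF : T_FSF) (hMAR : T_MAR) (hC : T_CYL) : T_FSL := by
  classical
  intro d p q c hp0 hp1 hq hc0 hc1 hc2 μ hμ F P hP A hA
  have := hμ.prob
  obtain ⟨m1, m2, m3, m4⟩ := hMAR d p q c hp0 hp1 hq hc0 hc1 hc2 μ hμ F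
  have hc3 : c ≤ 1 / 2 := by
    have h1 : p / (p + q * (1 - p)) ≤ p := by
      have h2 : 1 ≤ p + q * (1 - p) := by nlinarith
      exact div_le_self hp0.le h2
    linarith
  have hf01 : ∀ a : Finset (Ed d), 0 ≤ ind (P a) ∧ ind (P a) ≤ 1 := by
    intro a
    unfold ind
    split_ifs <;> norm_num
  have hmono : ∀ a b : Finset (Ed d), a ⊆ b → b ⊆ F → ind (P a) ≤ ind (P b) := by
    intro a b hab _
    by_cases h1 : P a
    · have h2 := hP a b hab h1
      unfold ind
      rw [if_pos h1, if_pos h2]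
    · unfold ind
      rw [if_neg h1]
      split_ifs <;> norm_num
  have hx : μ.real A = ∑ T ∈ F.powerset, μ.real (Cyl F T) * ind (P T) := by
    rw [hA]
    exact local_sum hC μ F P
  have hkap : ∀ e ∈ F, cv μ A e =
      (∑ T ∈ F.powerset, μ.real (Cyl F T) * (ind (P T) * if e ∈ T then 1 else 0)) -
      (∑ T ∈ F.powerset, μ.real (Cyl F T) * ind (P T)) *
        ∑ T ∈ F.powerset, μ.real (Cyl F T) * if e ∈ T then 1 else 0 := by
    intro e he
    have h1 : A ∩ {ω : Ed d → Bool | ω e = true} =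
        {ω | (fun T => P T ∧ e ∈ T) (rs F (cfg ω))} := by
      rw [hA]
      ext ω
      simp only [Set.mem_inter_iff, Set.mem_ofPred_eq]
      rw [rs, Finset.mem_filter]
      exact ⟨fun h => ⟨h.1, he, h.2⟩, fun h => ⟨h.1, h.2.2⟩⟩
    have h2 : {ω : Ed d → Bool | ω e = true} = {ω | (fun T => e ∈ T) (rs F (cfg ω))} := by
      ext ω
      simp only [Set.mem_ofPred_eq]
      rw [rs, Finset.mem_filter]
      exact ⟨fun h => ⟨he, h⟩, fun h => h.2⟩
    have h3 := local_sum hC μ F (fun T => P T ∧ e ∈ T)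
    have h4 := local_sum hC μ F (fun T => e ∈ T)
    unfold cv
    have h5 : μ.real {ω : Ed d → Bool | ω e = true} =
        ∑ T ∈ F.powerset, μ.real (Cyl F T) * if e ∈ T then 1 else 0 := by
      rw [h2, h4]
      refine Finset.sum_congr rfl fun T _ => ?_
      unfold ind
      by_cases h6 : e ∈ T
      · rw [if_pos h6, if_pos h6]
      · rw [if_neg h6, if_neg h6]
    have h7 : μ.real (A ∩ {ω : Ed d → Bool | ω e = true}) =
        ∑ T ∈ F.powerset, μ.real (Cyl F T) * (ind (P T) * if e ∈ T then 1 else 0) := by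
      rw [h1, h3]
      refine Finset.sum_congr rfl fun T _ => ?_
      unfold ind
      by_cases h8 : P T
      · by_cases h6 : e ∈ T
        · rw [if_pos ⟨h8, h6⟩, if_pos h8, if_pos h6]
          norm_num
        · rw [if_neg (fun h => h6 h.2), if_neg h6]
          norm_num
      · rw [if_neg (fun h => h8 h.1), if_neg h8]
        norm_num
    rw [← hx, h7, h5]
  have hmain := hFSF (Ed d) F (fun T => μ.real (Cyl F T)) c m3 m4 m1 hc0 hc3 m2
    (fun T => ind (P T)) hmono hf01 (fun e => cv μ A e) hkap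
  have hsq : ∑ T ∈ F.powerset, μ.real (Cyl F T) * ind (P T) ^ 2 = μ.real A := by
    rw [hx]
    refine Finset.sum_congr rfl fun T _ => ?_
    congr 1
    unfold ind
    split_ifs <;> norm_num
  rw [hsq, ← hx] at hmain
  have hV : μ.real A - μ.real A ^ 2 = μ.real A * (1 - μ.real A) := by ring
  rw [hV] at hmain
  exact hmain

end Pool.Agent.FKT
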