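import Pool.Agent.FKT.TargetsA

/-!
# Project FKT, INV: the wired measure is translation invariant
-/

set_option autoImplicit false

namespace Pool.Agent.FKT

open Filter MeasureTheory

namespace INV_

theorem measurable_sh {d : ℕ} (y : Vx d) : Measurable (sh y : (Ed d → Bool) → (Ed d → Bool)) :=
  measurable_pi_lambda _ fun e => measurable_pi_apply (trE y e)

theorem preimage_cyl {d : ℕ} (y : Vx d) (F T : Finset (Ed d)) :
    (sh y : (Ed d → Bool) → (Ed d → Bool)) ⁻¹' Cyl F T =
      Cyl (F.map (trE y).toEmbedding) (T.map (trE y).toEmbedding) := by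
  ext ω
  constructor
  · intro h e' he'
    obtain ⟨e, he, rfl⟩ := Finset.mem_map.mp he'
    have h1 := h e he
    rw [Finset.mem_map' (trE y).toEmbedding]
    exact h1
  · intro h e he
    have h1 := h ((trE y).toEmbedding e) (Finset.mem_map_of_mem _ he)
    rw [Finset.mem_map' (trE y).toEmbedding] at h1
    exact h1

theorem ite_map {d : ℕ} (y : Vx d) (F T ω : Finset (Ed d)) :
    (if ω.map (trE y).toEmbedding ∩ F.map (trE y).toEmbedding = T.map (trE y).toEmbedding
      then (1 : ℝ) else 0) = if ω ∩ F = T then 1 else 0 := by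
  rw [← Finset.map_inter]
  have h : ((ω ∩ F).map (trE y).toEmbedding = T.map (trE y).toEmbedding) ↔ ω ∩ F = T :=
    Finset.map_inj
  by_cases h1 : ω ∩ F = T
  · rw [if_pos h1, if_pos (h.mpr h1)]
  · rw [if_neg h1, if_neg (fun h2 => h1 (h.mp h2))]

end INV_

theorem p_INV (hC : T_CYL) (hT : T_TRA) (hL : T_LIM) : T_INV := by
  intro d hd p q hp0 hp1 hq μ hμ y
  have hprob : IsProbabilityMeasure μ := hμ.prob
  have hms := INV_.measurable_sh y
  have hprob' : IsProbabilityMeasure (μ.map (sh y)) :=
    Measure.isProbabilityMeasure_map hms.aemeasurable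
  refine (hC d).2 (μ.map (sh y)) μ hprob' hprob ?_
  intro F T hTF
  rw [map_measureReal_apply hms ((hC d).1 F T), INV_.preimage_cyl]
  have h1 := hμ.lim (F.map (trE y).toEmbedding) (T.map (trE y).toEmbedding)
    (Finset.map_subset_map.mpr hTF)
  have h2 := hμ.lim F T hTF
  obtain ⟨l, hl⟩ := hL d hd p q hp0 hp1 hq F (fun α => if α = T then 1 else 0)
  have h3 : μ.real (Cyl F T) = l := tendsto_nhds_unique h2 (hl 0)
  have h4 : ∀ n : ℕ, (phi (0 : Vx d) n p q fun ω =>
      if ω ∩ F.map (trE y).toEmbedding = T.map (trE y).toEmbedding then 1 else 0) =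
      phi (-y) n p q fun ω => if ω ∩ F = T then 1 else 0 := by
    intro n
    have h5 := hT d p q (-y) y n (fun ω =>
      if ω ∩ F.map (trE y).toEmbedding = T.map (trE y).toEmbedding then 1 else 0)
    rw [neg_add_cancel] at h5
    rw [h5]
    congr 1
    funext ω
    exact INV_.ite_map y F T ω
  have h6 := hl (-y)
  rw [h3]
  refine tendsto_nhds_unique h1 ?_
  refine h6.congr fun n => ?_
  exact (h4 n).symm

end Pool.Agent.FKT

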