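import Pool.Agent.FKT.TargetsB

set_option autoImplicit false

namespace Pool.Agent.FKT

theorem STP_succ {n : ℕ} (u : Fin n → Rule n) (j : ℕ) (i : Fin n) :
    st u (j + 1) i = if (i : ℕ) = j then u i (st u j) else st u j i := rfl

theorem STP_congr {n : ℕ} (u v : Fin n → Rule n) (j : ℕ)
    (h : ∀ i : Fin n, (i : ℕ) < j → u i = v i) : st u j = st v j := by
  induction j with
  | zero => rfl
  | succ j ih =>
    funext i
    rw [STP_succ, STP_succ, ih fun i hi => h i (by omega)]
    split_ifs with hij
    · rw [h i (by omega)]
    · rfl

theorem STP_late {n : ℕ} (u : Fin n → Rule n) (j : ℕ) (i : Fin n) (h : j ≤ (i : ℕ)) :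
    st u j i = false := by
  induction j with
  | zero => rfl
  | succ j ih => rw [STP_succ, if_neg (by omega), ih (by omega)]

theorem STP_early {n : ℕ} (u : Fin n → Rule n) (k : ℕ) (i : Fin n) (h : (i : ℕ) < k) :
    st u k i = u i (st u i) := by
  induction k with
  | zero => omega
  | succ k ih =>
    rw [STP_succ]
    split_ifs with hik
    · rw [hik]
    · exact ih (by omega)

theorem STP_le (a b : Bool) (h : a = true → b = true) : a ≤ b := by
  revert h
  revert a b
  decide

theorem STP_upd {n : ℕ} (u : Fin n → Rule n) (i : Fin n) (r : Rule n) (k : ℕ)
    (hk : k ≤ (i : ℕ)) : st (Function.update u i r) k = st u k := by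
  refine STP_congr _ _ k fun t ht => Function.update_of_ne ?_ _ _
  intro h
  rw [h] at ht
  omega

theorem p_STP : T_STP := by
  intro n u
  refine ⟨fun v j h => STP_congr u v j h, ⟨fun j => ?_, fun i => STP_early u n i i.2⟩, ?_, ?_⟩
  · funext i
    unfold trn
    split_ifs with hij
    · rw [STP_early u j i hij, STP_early u n i i.2]
    · exact STP_late u j i (by omega)
  · intro i r r' hr k
    induction k with
    | zero => rfl
    | succ k ih =>
      funext t
      rw [STP_succ, STP_succ, ih]
      split_ifs with htk
      · by_cases hti : t = i
        · subst hti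
          rw [Function.update_self, Function.update_self, ← htk,
            STP_upd u t r' t le_rfl, hr]
        · rw [Function.update_of_ne hti, Function.update_of_ne hti]
      · rfl
  · intro i r r' hr hr' hmono k
    induction k with
    | zero => exact le_rfl
    | succ k ih =>
      intro t
      rw [STP_succ, STP_succ]
      split_ifs with htk
      · by_cases hti : t = i
        · subst hti
          rw [Function.update_self, Function.update_self, ← htk,
            STP_upd u t r t le_rfl, STP_upd u t r' t le_rfl, hr, hr']
          exact Bool.false_le _
        · rw [Function.update_of_ne hti, Function.update_of_ne hti]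
          by_cases hlt : (t : ℕ) < (i : ℕ)
          · rw [STP_upd u i r k (by omega), STP_upd u i r' k (by omega)]
          · refine STP_le _ _ (hmono t ?_ _ _ ih)
            rw [Fin.lt_def]
            have : (t : ℕ) ≠ (i : ℕ) := fun h => hti (Fin.ext h)
            omega
      · exact ih t

end Pool.Agent.FKT
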